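import Pool.Agent.H44.V0F.Vcl

/-!
# Canonical labels

`can_ex`: data which exist on a part of constant mass of every large event of a class are given
functions of the family in a subclass.
-/

set_option autoImplicit false

namespace Pool.STR16

universe uu

open Finset Real
open Pool.Agent.H49.Ent Pool.Agent.H32.Dense Pool.STK Pool.KA Pool.KSAT Pool.K2S Pool.PB Pool.GEN
open Pool.S6C

variable {m : ℕ}

/-- **Canonical data.** `Pr e`: the data are good up to the error `e`. -/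
theorem can_ex {S : PCl m} (hS : S.Ne) {Θ : ∀ J : ℕ, Fam m J → Type uu}
    (hne : ∀ (J : ℕ) (F : Fam m J), Nonempty (Θ J F))
    {Pr : ℝ → ∀ (J : ℕ) (F : Fam m J), (F.Ω → Prop) → Θ J F → Prop}
    (sub : ∀ {e : ℝ} {J : ℕ} {F : Fam m J} {A B : F.Ω → Prop} {θ : Θ J F}, Pr e J F A θ →
      Sub B A → Pr e J F B θ)
    (mono : ∀ {e e' : ℝ} {J : ℕ} {F : Fam m J} {A : F.Ω → Prop} {θ : Θ J F}, e ≤ e' →
      Pr e J F A θ → Pr e' J F A θ)
    (h : ∀ e : ℝ, 0 < e → ∃ c : ℝ, 0 < c ∧ Bas S (fun J F A => ∃ B : F.Ω → Prop, Sub B A ∧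
      c * Pe F.p A ≤ Pe F.p B ∧ ∃ θ : Θ J F, Pr e J F B θ)) :
    ∃ S' : PCl m, S'.Ne ∧
      (∀ (τ : ℝ) (J : ℕ) (F : Fam m J) (A : F.Ω → Prop), S'.St τ J F A → S.St τ J F A) ∧
      ∃ θ : ∀ (J : ℕ) (F : Fam m J), Θ J F, ∀ e : ℝ, 0 < e →
        Bas S' (fun J F A => Pr e J F A (θ J F)) := by
  classical
  -- one step
  have step : ∀ n L : ℕ, ∃ x : (J : ℕ) × (F : Fam m J) × (F.Ω → Prop), L ≤ x.1 ∧
      S.St (1 / ((n : ℝ) + 1)) x.1 x.2.1 x.2.2 ∧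
      ∃ θ : Θ x.1 x.2.1, Pr (1 / ((n : ℝ) + 1)) x.1 x.2.1 x.2.2 θ := by
    intro n L
    have hn : (0 : ℝ) < 1 / ((n : ℝ) + 1) := by positivity
    obtain ⟨c, hc, τ₀, hτ₀, J₀, h1⟩ := h _ hn
    obtain ⟨τ', hτ'⟩ : ∃ τ' : ℝ, τ' = 1 / ((n : ℝ) + 1) / 2 := ⟨_, rfl⟩
    have t0 : 0 < τ' := by rw [hτ']; positivity
    obtain ⟨Jc, hJc⟩ := exists_nat_ge (-Real.log c / τ')
    obtain ⟨J, hJ, F, A, hA⟩ := hS (min τ₀ τ') (lt_min hτ₀ t0) (max J₀ (max L Jc))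
    obtain ⟨B, hB, hcB, θ, hθ⟩ := h1 J ((le_max_left _ _).trans hJ) F A
      (S.mono (min_le_left _ _) hA)
    have hJ2 : L ≤ J := (le_max_left _ _).trans ((le_max_right _ _).trans hJ)
    have hJ3 : (Jc : ℝ) ≤ J := by
      exact_mod_cast (le_max_right L Jc).trans ((le_max_right _ _).trans hJ)
    refine ⟨⟨J, F, B⟩, hJ2, ?_, θ, hθ⟩
    have h2 : Real.exp (-(τ' * J)) ≤ c := by
      rw [← Real.le_log_iff_exp_le hc]
      have h3 := hJc.trans hJ3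
      rw [div_le_iff₀ t0] at h3
      linarith
    have h4 : 0 ≤ Pe F.p A := law_nonneg F.isLaw.nonneg _ _
    have h5 := S.res t0.le hA hB ((mul_le_mul_of_nonneg_right h2 h4).trans hcB)
    refine S.mono ?_ h5
    have h6 : min τ₀ τ' ≤ τ' := min_le_right _ _
    rw [hτ'] at h6 ⊢
    linarith
  choose f hf using step
  obtain ⟨σ, hσ⟩ : ∃ σ : ℕ → (J : ℕ) × (F : Fam m J) × (F.Ω → Prop),
      σ = fun n => Nat.rec (f 0 0) (fun n x => f (n + 1) (max (x.1 + 1) (n + 1))) n := ⟨_, rfl⟩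
  have hσ0 : σ 0 = f 0 0 := by
    rw [hσ]
    rfl
  have hσs : ∀ n, σ (n + 1) = f (n + 1) (max ((σ n).1 + 1) (n + 1)) := fun n => by rw [hσ]
  have hσP : ∀ n : ℕ, S.St (1 / ((n : ℝ) + 1)) (σ n).1 (σ n).2.1 (σ n).2.2 ∧
      ∃ θ : Θ (σ n).1 (σ n).2.1, Pr (1 / ((n : ℝ) + 1)) (σ n).1 (σ n).2.1 (σ n).2.2 θ := by
    intro n
    cases n with
    | zero =>
      rw [hσ0]
      exact (hf 0 0).2
    | succ n =>
      rw [hσs]
      exact (hf _ _).2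
  have hmono : StrictMono fun n => (σ n).1 := strictMono_nat_of_lt_succ fun n => by
    show (σ n).1 < (σ (n + 1)).1
    rw [hσs]
    exact lt_of_lt_of_le (Nat.lt_succ_self _) ((le_max_left _ _).trans (hf _ _).1)
  have hge : ∀ n, n ≤ (σ n).1 := fun n => hmono.le_apply
  have hex : ∀ (n : ℕ) (J : ℕ) (F : Fam m J) (C : F.Ω → Prop), σ n = ⟨J, F, C⟩ →
      S.St (1 / ((n : ℝ) + 1)) J F C ∧ ∃ θ : Θ J F, Pr (1 / ((n : ℝ) + 1)) J F C θ := by
    intro n J F C e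
    have h1 := hσP n
    rw [e] at h1
    exact h1
  refine ⟨⟨fun τ J F A => S.St τ J F A ∧ ∃ (n : ℕ) (C : F.Ω → Prop), σ n = ⟨J, F, C⟩ ∧ Sub A C,
    fun hle hA => ⟨S.mono hle hA.1, hA.2⟩, fun h0 hA hB hP => ⟨S.res h0 hA.1 hB hP, ?_⟩⟩, ?_,
    fun _ _ _ _ hA => hA.1, ?_⟩
  · obtain ⟨n, C, e, hC⟩ := hA.2
    exact ⟨n, C, e, fun ω hω => hC ω (hB ω hω)⟩
  · intro τ hτ J₁
    obtain ⟨n₀, hn₀⟩ := exists_nat_ge (1 / τ)
    obtain ⟨n, hn⟩ : ∃ n, n = max n₀ J₁ := ⟨_, rfl⟩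
    rcases hx : σ n with ⟨J, F, C⟩
    refine ⟨J, ?_, F, C, ?_, n, C, hx, fun _ hω => hω⟩
    · have h1 := hge n
      rw [hx] at h1
      exact le_trans (by rw [hn]; exact le_max_right _ _) h1
    · refine S.mono ?_ (hex n J F C hx).1
      have h2 : (n₀ : ℝ) ≤ n := by
        rw [hn]
        exact_mod_cast le_max_left _ _
      have h3 := hn₀.trans h2
      rw [div_le_iff₀ hτ] at h3
      rw [div_le_iff₀ (by positivity)]
      nlinarith
  · have hθ : ∀ (J : ℕ) (F : Fam m J), ∃ θ : Θ J F, ∀ (n : ℕ) (C : F.Ω → Prop), σ n = ⟨J, F, C⟩ →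
        Pr (1 / ((n : ℝ) + 1)) J F C θ := by
      intro J F
      by_cases hc : ∃ (n : ℕ) (C : F.Ω → Prop), σ n = ⟨J, F, C⟩
      · obtain ⟨n, C, e⟩ := hc
        obtain ⟨θ, hθ⟩ := (hex n J F C e).2
        refine ⟨θ, fun n' C' e' => ?_⟩
        have h1 : n' = n := by
          refine hmono.injective ?_
          show (σ n').1 = (σ n).1
          rw [e, e']
        subst h1
        rw [e] at e'
        have h2 : C = C' := by
          have := (Sigma.mk.inj_iff.1 e').2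
          exact eq_of_heq (Sigma.mk.inj_iff.1 (eq_of_heq this)).2
        rw [← h2]
        exact hθ
      · obtain ⟨θ⟩ := hne J F
        exact ⟨θ, fun n C e => absurd ⟨n, C, e⟩ hc⟩
    choose θ hθ' using hθ
    refine ⟨θ, fun e he => ?_⟩
    obtain ⟨n₁, hn₁⟩ := exists_nat_ge (1 / e)
    refine ⟨1, one_pos, (σ n₁).1, fun J hJ F A hA => ?_⟩
    obtain ⟨n, C, hn, hC⟩ := hA.2
    have h1 : n₁ ≤ n := by
      by_contra hlt
      push Not at hlt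
      have h2 : (σ n).1 < (σ n₁).1 := hmono hlt
      rw [hn] at h2
      exact absurd h2 (not_lt.2 hJ)
    refine sub (mono ?_ (hθ' J F n C hn)) hC
    have h2 : (n₁ : ℝ) ≤ n := by exact_mod_cast h1
    have h3 := hn₁.trans h2
    rw [div_le_iff₀ he] at h3
    rw [div_le_iff₀ (by positivity)]
    nlinarith

end Pool.STR16
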