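import Pool.Agent.H91.STR.Mic
import Pool.Agent.H55.T4.RowN
import Pool.Agent.H57.AVG.HiJ

/-!
# One event of the star: literals

`oP`: the own path of a place over labels on the side of the lines. `pT`, `pV`: of the two targets
`c k`, `c (k + 1)` and of the places below `k`. `vcd`: the codes of the path of the places below `k`.
`StE`: the labels of one event. `StY`: the heights `z` and the side information `Yb` of the points,
on a part of the event.
-/

set_option autoImplicit false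

namespace Pool.STR16

open Finset Real MvPolynomial
open Pool.Agent.H49.Ent Pool.Agent.H32.Dense
open Pool.STK hiding pr2
open Pool.KA Pool.KSAT Pool.K2S Pool.PB Pool.S6C
open Pool.GEN Pool.CHT Pool.CHX Pool.ISO Pool.LA91 Pool.AVG71 Pool.AVG5 Pool.D2F2 Pool.AVG57
open Pool.RCD Pool.AVG96 Pool.OWN68 Pool.V0F Pool.V0Q Pool.V0T
open Pool.UNJ (ceI)
open Pool.STR91 (stc)

variable {m J : ℕ}

/-- The own path of the place `l` over the labels `H`, in the units of the window `a`. -/
noncomputable def oP {F : Fam m J} (c : ℕ → Fin m) (a : ℕ)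
    (H : LnT F → ℕ → MvPolynomial (Option (Fin m)) ℝ) (l : ℕ) (s : LnT F) : Polynomial ℝ :=
  dv a (fun s (_ : Fin m) => H s l) (c l) s

/-- The own paths of the two targets. -/
noncomputable def pT {F : Fam m J} (c : ℕ → Fin m) (k a : ℕ)
    (H : LnT F → ℕ → MvPolynomial (Option (Fin m)) ℝ) (s : LnT F) (i : Fin 2) : Polynomial ℝ :=
  oP c a H (k + i) s

/-- The own paths of the places below `k` over the labels `Hb` of the window `b`, in the units of the
window `a`. -/
noncomputable def pV {F : Fam m J} (c : ℕ → Fin m) (k b a : ℕ)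
    (Hb : LnT F → ℕ → MvPolynomial (Option (Fin m)) ℝ) (s : LnT F) (l : Fin k) : Polynomial ℝ :=
  oP c a (fun s => Hb (upw b a s)) l s

/-- The codes of the path of the places below `k` at the start of the window `a`, `N l` digits for all
orders. -/
noncomputable def vcd {F : Fam m J} (c : ℕ → Fin m) (k b a D : ℕ) (N : Fin k → ℕ)
    (Hb : LnT F → ℕ → MvPolynomial (Option (Fin m)) ℝ) (s : LnT F) : Fin k × Fin (D + 1 + 1) → ℤ :=
  stc (pV c k b a Hb) (fun l _ => N l) (D + 1) s

/-- The heights of the targets. -/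
noncomputable def hT {F : Fam m J} (c : ℕ → Fin m) (k a : ℕ)
    (H : LnT F → ℕ → MvPolynomial (Option (Fin m)) ℝ) (ω : F.Ω) (i : Fin 2) : ℝ :=
  ojet F (c (k + i)) 0 (H (slam F a ω) (k + i)) ω

/-- **The labels of one event**: charts `Hb` of the window `b` for the places below `k`, labels of the
window `a` for `k`, `k + 1` (`LDP`); on a cell of the resolution `J` the heights are constant up to
`2 ^ (-(sn l a + R))`. -/
structure StE (F : Fam m J) (c : ℕ → Fin m) (k D : ℕ) (b a φ E R : ℝ) (sn : ℕ → ℝ → ℝ)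
    (A : F.Ω → Prop) (Hb H : LnT F → ℕ → MvPolynomial (Option (Fin m)) ℝ) : Prop where
  ldp : LDP F c k 1 D b a φ E sn A Hb H
  cell : ∀ l ≤ k + 1, ∀ ω ν, A ω → A ν → ptr F J ω = ptr F J ν →
    |ojet F (c l) 0 (H (slam F ⌊a * J⌋₊ ω) l) ω - ojet F (c l) 0 (H (slam F ⌊a * J⌋₊ ν) l) ν| ≤
      1 / 2 ^ ⌊(sn l a + R) * J⌋₊

/-- **The points of one event**: `z`: the heights of the targets in the units `2 ^ (-(g i))`; `Yb`: the
side information of the point: it is a function of the path codes, of the record of the window `a`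
and of the time behind the window (`hY`), and of the exact position of the places below `k`, the
record and the time (`ex`); it knows the record and the time (`dt`). -/
structure StY (F : Fam m J) (c : ℕ → Fin m) (k D : ℕ) (b a : ℝ) (N : Fin k → ℕ) (g : Fin 2 → ℕ)
    (A B : F.Ω → Prop) (Hb H : LnT F → ℕ → MvPolynomial (Option (Fin m)) ℝ) {υ : Type}
    (z : PtT F → Fin 2 → ℤ) (Yb : PtT F → υ) : Prop where
  hz : ∀ ω, B ω → ∀ i, |(z (ptr F J ω) i : ℝ) - 2 ^ g i * hT c k ⌊a * J⌋₊ H ω i| ≤ 2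
  hY : ∀ ω ω', B ω → B ω' → Pool.T4E.vtf F ⌊a * J⌋₊ ω = Pool.T4E.vtf F ⌊a * J⌋₊ ω' →
    (slam F ⌊a * J⌋₊ ω).2 = (slam F ⌊a * J⌋₊ ω').2 →
    vcd c k ⌊b * J⌋₊ ⌊a * J⌋₊ D N Hb (slam F ⌊a * J⌋₊ ω) =
      vcd c k ⌊b * J⌋₊ ⌊a * J⌋₊ D N Hb (slam F ⌊a * J⌋₊ ω') → cR F A a ω = cR F A a ω' →
    Yb (ptr F J ω) = Yb (ptr F J ω')
  dt : ∀ ω ω', B ω → B ω' → Yb (ptr F J ω) = Yb (ptr F J ω') →
    cR F A a ω = cR F A a ω' ∧ F.W ω = F.W ω'
  ex : ∀ ω ω', B ω → B ω' →
    ceI ((range k).image c) (fun _ => J) (F.x ω) = ceI ((range k).image c) (fun _ => J) (F.x ω') →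
    cR F A a ω = cR F A a ω' → F.W ω = F.W ω' → Yb (ptr F J ω) = Yb (ptr F J ω')

end Pool.STR16
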