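import Pool.Agent.H16.STR.Few
import Pool.Agent.H63.T4.Evt

/-!
# Hops of order `j` from heights which are polynomials in the time on the lines of a family

The heights `X ω i` are the values of the polynomials `P (slam F a ω) i` of degree `≤ d` at the time
behind the window `a`. `pD`: the coefficients of order `j`; `pH`: of the higher orders; `pL`: the
Taylor coefficients of the lower orders at the own time. `hpP_evp`: the structure `HpP`. `few_evp`: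
the coefficients of order `j` have few bits.
-/

set_option autoImplicit false

namespace Pool.STR16

open Finset Real Polynomial
open Pool.Agent.H49.Ent Pool.Agent.H32.Dense Pool.STK Pool.KA Pool.KSAT Pool.K2S Pool.PB Pool.GEN
open Pool.T4E Pool.T4P
open Pool.T4H (RowT)
open Pool.T4C (FI1G)
open Pool.T4M (ful_step few_step)

/-! ### Taylor coefficients -/

theorem hasse_le {Q : Polynomial ℝ} {d k : ℕ} (hd : Q.natDegree ≤ d) {ρ : ℝ} (h0 : 0 ≤ ρ)
    (h1 : ρ ≤ 1) {s : ℝ} (hs : 0 ≤ s) (hQ : ∀ i, k < i → |Q.coeff i| ≤ s) :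
    |(taylor ρ Q).coeff k - Q.coeff k| ≤ (d + 1) * 2 ^ d * s := by
  rw [taylor_coeff, eval_eq_sum_range' (n := d + 1)
    (Nat.lt_succ_of_le ((natDegree_hasseDeriv_le Q k).trans (by omega))), Finset.sum_range_succ']
  have e0 : (hasseDeriv k Q).coeff 0 * ρ ^ 0 = Q.coeff k := by
    rw [hasseDeriv_coeff, pow_zero, mul_one, zero_add, Nat.choose_self, Nat.cast_one, one_mul]
  rw [e0, add_sub_cancel_right]
  have hb : ∀ i ∈ range d, |(hasseDeriv k Q).coeff (i + 1) * ρ ^ (i + 1)| ≤ 2 ^ d * s := by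
    intro i _
    rw [hasseDeriv_coeff]
    by_cases hi : i + 1 + k ≤ d
    · have c1 : (((i + 1 + k).choose k : ℕ) : ℝ) ≤ 2 ^ d := by
        have h2 : (i + 1 + k).choose k ≤ 2 ^ d :=
          (Nat.choose_le_two_pow _ _).trans (Nat.pow_le_pow_right (by norm_num) hi)
        exact_mod_cast h2
      have c2 := hQ (i + 1 + k) (by omega)
      have c3 : |ρ ^ (i + 1)| ≤ 1 := by
        rw [abs_of_nonneg (by positivity)]
        exact pow_le_one₀ h0 h1
      rw [abs_mul, abs_mul, abs_of_nonneg (Nat.cast_nonneg _)]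
      calc (((i + 1 + k).choose k : ℕ) : ℝ) * |Q.coeff (i + 1 + k)| * |ρ ^ (i + 1)| ≤
            2 ^ d * s * 1 := by
              refine mul_le_mul (mul_le_mul c1 c2 (abs_nonneg _) (by positivity)) c3
                (abs_nonneg _) (by positivity)
        _ = _ := mul_one _
    · have c4 : Q.coeff (i + 1 + k) = 0 := coeff_eq_zero_of_natDegree_lt (by omega)
      rw [c4]
      simp only [mul_zero, zero_mul, abs_zero]
      positivity
  refine (Finset.abs_sum_le_sum_abs _ _).trans ((Finset.sum_le_sum hb).trans ?_)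
  rw [Finset.sum_const, card_range, nsmul_eq_mul]
  have h2 : 0 ≤ 2 ^ d * s := by positivity
  nlinarith

/-- **The value of a difference** whose coefficients of order different from `j` are small. -/
theorem tay_jmp {Q : Polynomial ℝ} {d j : ℕ} (hd : Q.natDegree ≤ d) {ρ σ : ℝ} (h0 : 0 ≤ ρ)
    (h1 : ρ ≤ 1) (g0 : 0 ≤ σ) (g1 : σ ≤ 1) (hH : ∀ i, j < i → |Q.coeff i| ≤ 1)
    (hL : ∀ k < j, |(taylor ρ Q).coeff k| ≤ 1) :
    |Q.eval σ - Q.coeff j * (σ - ρ) ^ j| ≤ (d + 2) * ((d + 2) * 2 ^ d) := by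
  have e1 : Q.eval σ = (taylor ρ Q).eval (σ - ρ) := by
    rw [taylor_eval]
    congr 1
    ring
  have e2 : (taylor ρ Q).eval (σ - ρ) =
      ∑ k ∈ range (d + 1), (taylor ρ Q).coeff k * (σ - ρ) ^ k :=
    eval_eq_sum_range' (by rw [natDegree_taylor]; omega) _
  have hx : |σ - ρ| ≤ 1 := by
    rw [abs_le]
    constructor <;> linarith
  have hxk : ∀ k : ℕ, |(σ - ρ) ^ k| ≤ 1 := fun k => by
    rw [abs_pow]
    exact pow_le_one₀ (abs_nonneg _) hx
  have p2 : (1 : ℝ) ≤ 2 ^ d := one_le_pow₀ (by norm_num)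
  have hd0 : (0 : ℝ) ≤ d := Nat.cast_nonneg d
  have hb : ∀ k, |(taylor ρ Q).coeff k - (if k = j then Q.coeff j else 0)| ≤ (d + 2) * 2 ^ d := by
    intro k
    rcases lt_trichotomy k j with hk | hk | hk
    · rw [if_neg (by omega), sub_zero]
      refine (hL k hk).trans ?_
      nlinarith
    · rw [if_pos hk, hk]
      refine (hasse_le hd h0 h1 zero_le_one hH).trans ?_
      nlinarith
    · rw [if_neg (by omega), sub_zero]
      have h2 := hasse_le hd h0 h1 zero_le_one (k := k) fun i hi => hH i (by omega)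
      have h3 := hH k hk
      have h4 : |(taylor ρ Q).coeff k| ≤ |(taylor ρ Q).coeff k - Q.coeff k| + |Q.coeff k| := by
        have := abs_add_le ((taylor ρ Q).coeff k - Q.coeff k) (Q.coeff k)
        rwa [sub_add_cancel] at this
      nlinarith
  have e3 : Q.coeff j * (σ - ρ) ^ j =
      ∑ k ∈ range (d + 1), (if k = j then Q.coeff j else 0) * (σ - ρ) ^ k := by
    by_cases hj : j ∈ range (d + 1)
    · rw [Finset.sum_eq_single_of_mem j hj fun k _ hk => by rw [if_neg hk, zero_mul], if_pos rfl]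
    · have hj' : d + 1 ≤ j := by
        rw [mem_range] at hj
        omega
      rw [coeff_eq_zero_of_natDegree_lt (by omega), zero_mul]
      refine (Finset.sum_eq_zero fun k _ => ?_).symm
      split_ifs <;> simp
  rw [e1, e2, e3, ← Finset.sum_sub_distrib]
  refine (Finset.abs_sum_le_sum_abs _ _).trans ?_
  have hc : ∀ k ∈ range (d + 1), |(taylor ρ Q).coeff k * (σ - ρ) ^ k -
      (if k = j then Q.coeff j else 0) * (σ - ρ) ^ k| ≤ (d + 2) * 2 ^ d := by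
    intro k _
    rw [← sub_mul, abs_mul]
    calc _ ≤ ((d : ℝ) + 2) * 2 ^ d * 1 :=
          mul_le_mul (hb k) (hxk k) (abs_nonneg _) (by positivity)
      _ = _ := mul_one _
  refine (Finset.sum_le_sum hc).trans ?_
  rw [Finset.sum_const, card_range, nsmul_eq_mul]
  push_cast
  nlinarith

/-! ### The system of hops -/

variable {m J : ℕ} {n : ℕ}

/-- The coefficients of order `j` in the units `2 ^ (-(g i))`. -/
noncomputable def pD {F : Fam m J} (P : LnT F → Fin n → Polynomial ℝ) (g : Fin n → ℕ) (j : ℕ)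
    (s : LnT F) (i : Fin n) : ℤ := ⌊(2 : ℝ) ^ g i * (P s i).coeff j⌋

/-- The coefficients of order more than `j`. -/
noncomputable def pH {F : Fam m J} (P : LnT F → Fin n → Polynomial ℝ) (g : Fin n → ℕ) (j d : ℕ)
    (s : LnT F) (i : Fin n) (k : Fin (d + 1)) : ℤ :=
  if j < (k : ℕ) then ⌊(2 : ℝ) ^ g i * (P s i).coeff k⌋ else 0

/-- The time behind the window. -/
noncomputable def rho (F : Fam m J) (a : ℕ) (ω : F.Ω) : ℝ := (vtf F a ω : ℝ) / 2 ^ (J - a)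

/-- The Taylor coefficients of order less than `j` at the own time. -/
noncomputable def pL {F : Fam m J} (P : LnT F → Fin n → Polynomial ℝ) (a : ℕ) (g : Fin n → ℕ)
    (j d : ℕ) (ω : F.Ω) (i : Fin n) (k : Fin (d + 1)) : ℤ :=
  if (k : ℕ) < j then ⌊(2 : ℝ) ^ g i * (taylor (rho F a ω) (P (slam F a ω) i)).coeff k⌋ else 0

/-- The upper digits of the coefficients of order `j`. -/
noncomputable def pU {F : Fam m J} (P : LnT F → Fin n → Polynomial ℝ) (g : Fin n → ℕ) (j q : ℕ)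
    (s : LnT F) (i : Fin n) : ℤ := pD P g j s i / ((2 ^ q : ℕ) : ℤ)

/-- The codes: the orders different from `j` and the upper digits of the order `j`. -/
noncomputable def pK {F : Fam m J} (P : LnT F → Fin n → Polynomial ℝ) (a : ℕ) (g : Fin n → ℕ)
    (j d q : ℕ) (ω : F.Ω) : (Fin n → Fin (d + 1) → ℤ) × ((Fin n → Fin (d + 1) → ℤ) × (Fin n → ℤ)) :=
  (pH P g j d (slam F a ω), (pL P a g j d ω, pU P g j q (slam F a ω)))

/-- The bounded error. -/
def Kp (d : ℕ) : ℕ := (d + 2) * ((d + 2) * 2 ^ d) + 2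

theorem fl_near1 {x y : ℝ} (h : ⌊x⌋ = ⌊y⌋) : |x - y| ≤ 1 := by
  have h1 := Int.floor_le x
  have h2 := Int.lt_floor_add_one x
  have h3 := Int.floor_le y
  have h4 := Int.lt_floor_add_one y
  rw [h] at h1 h2
  rw [abs_le]
  constructor <;> linarith

theorem rho_mem {F : Fam m J} {a : ℕ} (ω : F.Ω) : 0 ≤ rho F a ω ∧ rho F a ω ≤ 1 := by
  unfold rho
  have h5 : (0 : ℝ) ≤ vtf F a ω := by exact_mod_cast vtf_nonneg ω
  have h6 : (vtf F a ω : ℝ) ≤ 2 ^ (J - a) := by exact_mod_cast (vtf_lt (a := a) ω).le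
  exact ⟨by positivity, (div_le_one (by positivity)).2 h6⟩

/-- **The system of hops.** `Kb`: the record of the finer base, `Cy`: the side path, `Ka`: the record
of the window `a`. -/
theorem hpP_evp {F : Fam m J} {a : ℕ} {X : F.Ω → Fin n → ℝ} {P : LnT F → Fin n → Polynomial ℝ}
    {κ κ' 𝒴 υ Φ : Type} {Fp : F.Ω → Φ} {z : Φ → Fin n → ℤ} {p : F.Ω → ℝ} (hp : IsLaw p)
    {g : Fin n → ℕ} {j d q : ℕ} (ha : a ≤ J) (hq : q ≤ J - a) {e : ℝ} (he : 0 ≤ e)
    {Kb : F.Ω → κ'} {Cy : LnT F → 𝒴} {Ka : LnT F → κ} {Yb : Φ → υ}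
    (hd : ∀ s i, (P s i).natDegree ≤ d)
    (hX : ∀ ω, 0 < p ω → ∀ i, X ω i = (P (slam F a ω) i).eval (rho F a ω))
    (hz : ∀ ω, 0 < p ω → ∀ i, |(z (Fp ω) i : ℝ) - 2 ^ g i * X ω i| ≤ 2)
    (hKa : ∀ ω ω', 0 < p ω → 0 < p ω' → Kb ω = Kb ω' → F.T ω = F.T ω' →
      Cy (slam F a ω) = Cy (slam F a ω') → Ka (slam F a ω) = Ka (slam F a ω'))
    (hYb : ∀ ω ω', 0 < p ω → 0 < p ω' → vtf F a ω = vtf F a ω' →
      Cy (slam F a ω) = Cy (slam F a ω') → Ka (slam F a ω) = Ka (slam F a ω') →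
      Yb (Fp ω) = Yb (Fp ω'))
    (full : ((J : ℝ) - a) * Real.log 2 - e ≤ CH p (fun ω => F.T ω % 2 ^ (J - a)) (slam F a))
    (free : CH p (fun ω => pD P g j (slam F a ω))
        (fun ω => (pU P g j q (slam F a ω), (Cy (slam F a ω), Ka (slam F a ω)))) - e ≤
      CH p (fun ω => pD P g j (slam F a ω))
        (fun ω => ((Kb ω, (Cy (slam F a ω), F.T ω)), pK P a g j d q ω))) :
    HpP p (slam F a) (vtf F a) (fun ω => ((Kb ω, (Cy (slam F a ω), F.T ω)), pK P a g j d q ω))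
      (pD P g j) (fun s i ρ => 2 ^ g i * (P s i).eval ρ) (fun s => (Cy s, Ka s)) (pU P g j q)
      Fp z Yb j q (J - a) (Kp d) e where
  law := hp
  e0 := he
  mM := hq
  tfb := fun ω _ => ⟨vtf_nonneg ω, (vtf_lt ω).le⟩
  pos := fun ω hω i => by
    have h1 := hz ω hω i
    rw [hX ω hω i] at h1
    refine h1.trans ?_
    unfold Kp
    push_cast
    have : (0 : ℝ) ≤ ((d : ℝ) + 2) * (((d : ℝ) + 2) * 2 ^ d) := by positivity
    linarith
  GC := fun ω ω' hω hω' h => by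
    simp only [Prod.mk.injEq] at h
    refine ⟨Prod.ext h.1.2.1 (hKa ω ω' hω hω' h.1.1 h.1.2.2 h.1.2.1), ?_⟩
    have h2 := h.2
    unfold pK at h2
    simp only [Prod.mk.injEq] at h2
    exact h2.2.2
  Gt := fun ω ω' _ _ h => by
    simp only [Prod.mk.injEq] at h
    unfold vtf
    rw [h.1.2.2]
  jmp := fun ω ω' ν hω hω' hν h hL i => by
    simp only [Prod.mk.injEq] at h
    obtain ⟨⟨-, -, hT⟩, hK⟩ := h
    unfold pK at hK
    simp only [Prod.mk.injEq] at hK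
    obtain ⟨k1, k2, -⟩ := hK
    obtain ⟨r0, r1⟩ := rho_mem (a := a) ω
    obtain ⟨s0, s1⟩ := rho_mem (a := a) ν
    have hr : rho F a ω = rho F a ω' := by
      unfold rho vtf
      rw [hT]
    obtain ⟨Q, hQ⟩ : ∃ Q : Polynomial ℝ, Q = Polynomial.C ((2 : ℝ) ^ g i) *
      (P (slam F a ω') i - P (slam F a ω) i) := ⟨_, rfl⟩
    have hQd : Q.natDegree ≤ d := by
      rw [hQ]
      refine (natDegree_C_mul_le _ _).trans ((natDegree_sub_le _ _).trans ?_)
      exact max_le (hd _ _) (hd _ _)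
    have hQc : ∀ k, Q.coeff k = 2 ^ g i * (P (slam F a ω') i).coeff k -
        2 ^ g i * (P (slam F a ω) i).coeff k := fun k => by
      rw [hQ, coeff_C_mul, coeff_sub, mul_sub]
    have hH : ∀ k, j < k → |Q.coeff k| ≤ 1 := fun k hk => by
      by_cases hkd : k ≤ d
      · have h1 := congrFun (congrFun k1 i) ⟨k, Nat.lt_succ_of_le hkd⟩
        unfold pH at h1
        simp only [if_pos hk] at h1
        rw [hQc]
        exact fl_near1 h1.symm
      · rw [coeff_eq_zero_of_natDegree_lt (by omega), abs_zero]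
        exact zero_le_one
    have hLo : ∀ k < j, |(taylor (rho F a ω) Q).coeff k| ≤ 1 := fun k hk => by
      by_cases hkd : k ≤ d
      · have h1 := congrFun (congrFun k2 i) ⟨k, Nat.lt_succ_of_le hkd⟩
        unfold pL at h1
        simp only [if_pos hk] at h1
        have e1 : (taylor (rho F a ω) Q).coeff k =
            2 ^ g i * (taylor (rho F a ω') (P (slam F a ω') i)).coeff k -
            2 ^ g i * (taylor (rho F a ω) (P (slam F a ω) i)).coeff k := by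
          rw [hQ, ← hr, taylor_mul, taylor_C, coeff_C_mul, map_sub, coeff_sub, mul_sub]
        rw [e1]
        exact fl_near1 h1.symm
      · rw [coeff_eq_zero_of_natDegree_lt (by rw [natDegree_taylor]; omega), abs_zero]
        exact zero_le_one
    have key := tay_jmp hQd r0 r1 s0 s1 hH hLo
    have hev : Q.eval (rho F a ν) = 2 ^ g i * (P (slam F a ω') i).eval (rho F a ν) -
        2 ^ g i * (P (slam F a ω) i).eval (rho F a ν) := by
      rw [hQ, eval_mul, eval_C, eval_sub, mul_sub]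
    have hj : |Q.coeff j - ((pD P g j (slam F a ω') i : ℝ) - pD P g j (slam F a ω) i)| ≤ 1 := by
      rw [hQc]
      unfold pD
      have c1 := Int.floor_le ((2 : ℝ) ^ g i * (P (slam F a ω') i).coeff j)
      have c2 := (Int.lt_floor_add_one ((2 : ℝ) ^ g i * (P (slam F a ω') i).coeff j)).le
      have c3 := Int.floor_le ((2 : ℝ) ^ g i * (P (slam F a ω) i).coeff j)
      have c4 := (Int.lt_floor_add_one ((2 : ℝ) ^ g i * (P (slam F a ω) i).coeff j)).le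
      rw [abs_le]
      constructor <;> linarith
    have hx : |(rho F a ν - rho F a ω) ^ j| ≤ 1 := by
      rw [abs_pow]
      refine pow_le_one₀ (abs_nonneg _) ?_
      rw [abs_le]
      constructor <;> linarith
    obtain ⟨x, hxe⟩ : ∃ x : ℝ, x = (rho F a ν - rho F a ω) ^ j := ⟨_, rfl⟩
    obtain ⟨Δ, hΔ⟩ : ∃ Δ : ℝ, Δ = (pD P g j (slam F a ω') i : ℝ) - pD P g j (slam F a ω) i :=
      ⟨_, rfl⟩
    rw [← hxe] at key hx
    rw [← hΔ] at hj
    have h2 : |Q.coeff j * x - Δ * x| ≤ 1 := by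
      rw [← sub_mul, abs_mul]
      exact mul_le_one₀ hj (abs_nonneg _) hx
    show |2 ^ g i * (P (slam F a ω') i).eval (rho F a ν) -
      2 ^ g i * (P (slam F a ω) i).eval (rho F a ν) -
      ((pD P g j (slam F a ω') i : ℝ) - pD P g j (slam F a ω) i) *
        (rho F a ν - rho F a ω) ^ j| ≤ _
    rw [← hev, ← hxe, ← hΔ]
    have h3 : |Q.eval (rho F a ν) - Δ * x| ≤ |Q.eval (rho F a ν) - Q.coeff j * x| +
        |Q.coeff j * x - Δ * x| := by
      have := abs_add_le (Q.eval (rho F a ν) - Q.coeff j * x) (Q.coeff j * x - Δ * x)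
      rwa [sub_add_sub_cancel] at this
    refine h3.trans ((add_le_add key h2).trans ?_)
    unfold Kp
    push_cast
    linarith
  GD := fun ω ω' _ _ h i => by
    simp only [Prod.mk.injEq] at h
    obtain ⟨-, hK⟩ := h
    unfold pK at hK
    simp only [Prod.mk.injEq] at hK
    have h1 := congrFun hK.2.2 i
    have pm : (0 : ℤ) < ((2 ^ q : ℕ) : ℤ) := by positivity
    have e4 := near_of_div pm h1
    have e5 : |((pD P g j (slam F a ω) i - pD P g j (slam F a ω') i : ℤ) : ℝ)| ≤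
        (((2 ^ q : ℕ) : ℤ) : ℝ) := by
      rw [← Int.cast_abs]
      exact_mod_cast e4
    push_cast at e5
    exact e5
  Yt := fun ω ω' hω hω' h1 h2 =>
    hYb ω ω' hω hω' h1 (Prod.ext_iff.1 h2).1 (Prod.ext_iff.1 h2).2
  full := by
    have e1 : CH p (vtf F a) (slam F a) = CH p (fun ω => F.T ω % 2 ^ (J - a)) (slam F a) := by
      refine CH_congr hp.nonneg ?_ ?_ (fun _ _ _ _ h => h) (fun _ _ _ _ h => h)
      · intro ω ω' _ _ h
        have h1 : vtf F a ω = vtf F a ω' := (Prod.ext_iff.1 h).1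
        unfold vtf at h1
        exact Int.ofNat_inj.1 h1
      · intro ω ω' _ _ h
        have h1 : F.T ω % 2 ^ (J - a) = F.T ω' % 2 ^ (J - a) := (Prod.ext_iff.1 h).1
        show vtf F a ω = vtf F a ω'
        unfold vtf
        rw [h1]
    rw [e1, Nat.cast_sub ha]
    exact full
  free := free

/-! ### Few bits -/

/-- The entropies with the codes. -/
theorem codes_ch {Ω S T U : Type} [Fintype Ω] {p : Ω → ℝ} (h0 : ∀ ω, 0 ≤ p ω) (D : Ω → S)
    (K : Ω → T) (Z : Ω → U) {e : ℝ} (h : CH p K Z ≤ e) :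
    CH p D Z - e ≤ CH p D (fun ω => (Z ω, K ω)) ∧
      CH p D Z ≤ CH p D (fun ω => (Z ω, K ω)) + e := by
  have h1 := CH_le_add h0 D K Z
  have h2 : CH p D (fun ω => (K ω, Z ω)) ≤ CH p D (fun ω => (Z ω, K ω)) :=
    CH_mono_cond h0 fun _ _ _ _ e => by
      simp only [Prod.mk.injEq] at e ⊢
      exact ⟨e.2, e.1⟩
  constructor <;> linarith

/-- **Two heights: the coefficients of order `j` have few bits** given the record of the finer base,
the side path and the time. -/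
theorem few_ev2 {h δ : ℝ} {j : ℕ} (h0 : 0 < h) (h1 : h ≤ 1) (hj : 1 ≤ j) (hδ : 0 < δ) (d : ℕ) :
    ∃ (a₁ : ℕ) (κ₀ ϖ : ℝ), 1 ≤ a₁ ∧ 0 < κ₀ ∧ 0 < ϖ ∧ ∃ X₀ : ℕ,
    ∀ {m J : ℕ} {F : Fam m J} {a : ℕ} {X : F.Ω → Fin 2 → ℝ} {P : LnT F → Fin 2 → Polynomial ℝ}
      {κ κ' 𝒴 υ Φ : Type} {Fp : F.Ω → Φ} {z : Φ → Fin 2 → ℤ} {p : F.Ω → ℝ} {g : Fin 2 → ℕ}
      {q : ℕ} {Kb : F.Ω → κ'} {Cy : LnT F → 𝒴} {Ka : LnT F → κ} {Yb : Φ → υ},
    IsLaw p → a ≤ J → q ≤ J - a → X₀ ≤ q →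
    (∀ s i, (P s i).natDegree ≤ d) →
    (∀ ω, 0 < p ω → ∀ i, X ω i = (P (slam F a ω) i).eval (rho F a ω)) →
    (∀ ω, 0 < p ω → ∀ i, |(z (Fp ω) i : ℝ) - 2 ^ g i * X ω i| ≤ 2) →
    (∀ ω ω', 0 < p ω → 0 < p ω' → Kb ω = Kb ω' → F.T ω = F.T ω' →
      Cy (slam F a ω) = Cy (slam F a ω') → Ka (slam F a ω) = Ka (slam F a ω')) →
    (∀ ω ω', 0 < p ω → 0 < p ω' → vtf F a ω = vtf F a ω' →
      Cy (slam F a ω) = Cy (slam F a ω') → Ka (slam F a ω) = Ka (slam F a ω') →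
      Yb (Fp ω) = Yb (Fp ω')) →
    J * Real.log 2 - κ₀ * q ≤ CH p F.T (fun ω => (F.l ω, F.Z ω)) →
    CH p (pK P a g j d q) (fun ω => (Kb ω, (Cy (slam F a ω), F.T ω))) ≤ κ₀ * q →
    CH p (fun ω => pD P g j (slam F a ω))
        (fun ω => (pU P g j q (slam F a ω), (Cy (slam F a ω), Ka (slam F a ω)))) - κ₀ * q ≤
      CH p (fun ω => pD P g j (slam F a ω)) (fun ω => (Kb ω, (Cy (slam F a ω), F.T ω))) →
    (∀ l ≤ q, RowT p (fun ω => z (Fp ω)) (fun ω => Yb (Fp ω)) l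
      ((2 - h) * l * Real.log 2 + κ₀ * q) ϖ) →
    (∀ u, a₁ * u ≤ q → FI1G (N := 1) p (slam F a) Fp (fun ω => z (Fp ω)) (fun ω => Yb (Fp ω)) u a₁ 0
      (u * Real.log 2 - κ₀ * q) ϖ) →
    CH p (fun ω => pD P g j (slam F a ω)) (fun ω => (Kb ω, (Cy (slam F a ω), F.T ω))) ≤ δ * q := by
  obtain ⟨a₁, κ₁, ϖ, ha₁, hκ₁, hϖ, H⟩ := few_2 h0 h1 hj (half_pos hδ)
  obtain ⟨X₀, hX₀⟩ := H (Kp d)
  obtain ⟨κ₀, hκ₀⟩ : ∃ κ₀ : ℝ, κ₀ = min (κ₁ / 2) (δ / 2) := ⟨_, rfl⟩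
  have k0 : 0 < κ₀ := by rw [hκ₀]; exact lt_min (half_pos hκ₁) (half_pos hδ)
  have k1 : κ₀ ≤ κ₁ / 2 := by rw [hκ₀]; exact min_le_left _ _
  have k2 : κ₀ ≤ δ / 2 := by rw [hκ₀]; exact min_le_right _ _
  refine ⟨a₁, κ₀, ϖ, ha₁, k0, hϖ, X₀, fun {m J F a X P κ κ' 𝒴 υ Φ Fp z p g q Kb Cy Ka Yb} hp ha hq
    hX0 hd hX hz hKa hYb full few mi row img => ?_⟩
  have hq0 : (0 : ℝ) ≤ q := Nat.cast_nonneg q
  have m1 : κ₀ * q ≤ κ₁ / 2 * q := mul_le_mul_of_nonneg_right k1 hq0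
  have m2 : κ₀ * q ≤ δ / 2 * q := mul_le_mul_of_nonneg_right k2 hq0
  have m3 : 0 ≤ κ₀ * q := by positivity
  obtain ⟨c1, c2⟩ := codes_ch hp.nonneg (fun ω => pD P g j (slam F a ω)) (pK P a g j d q)
    (fun ω => (Kb ω, (Cy (slam F a ω), F.T ω))) few
  have hh := hpP_evp (g := g) (j := j) (d := d) (q := q) (e := κ₁ * q) hp ha hq (by positivity) hd
    hX hz hKa hYb (by
      have := full_evt hp ha full
      linarith) (by linarith)
  have h3 := hX₀ F.Ω (LnT F) _ _ _ _ _ _ p (slam F a) (vtf F a) _ (pD P g j) _ _ _ Fp z Yb q (J - a)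
    hX0 hh (fun l hl => RowT.up (row l hl) (by linarith)) (fun u hu => by
      intro j' kL kP ka E d1 d2 d3 i hi G' f1 f2 f3
      have h4 := img u hu j' kL kP ka E d1 d2 d3 i hi G' f1 f2 f3
      linarith)
  linarith

/-- **One height.** -/
theorem few_ev1 {h δ : ℝ} {j : ℕ} (h0 : 0 < h) (h1 : h ≤ 1) (hj : 1 ≤ j) (hδ : 0 < δ) (d : ℕ) :
    ∃ κ₀ ϖ : ℝ, 0 < κ₀ ∧ 0 < ϖ ∧ ∃ X₀ : ℕ,
    ∀ {m J : ℕ} {F : Fam m J} {a : ℕ} {X : F.Ω → Fin 1 → ℝ} {P : LnT F → Fin 1 → Polynomial ℝ}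
      {κ κ' 𝒴 υ Φ : Type} {Fp : F.Ω → Φ} {z : Φ → Fin 1 → ℤ} {p : F.Ω → ℝ} {g : Fin 1 → ℕ}
      {q : ℕ} {Kb : F.Ω → κ'} {Cy : LnT F → 𝒴} {Ka : LnT F → κ} {Yb : Φ → υ},
    IsLaw p → a ≤ J → q ≤ J - a → X₀ ≤ q →
    (∀ s i, (P s i).natDegree ≤ d) →
    (∀ ω, 0 < p ω → ∀ i, X ω i = (P (slam F a ω) i).eval (rho F a ω)) →
    (∀ ω, 0 < p ω → ∀ i, |(z (Fp ω) i : ℝ) - 2 ^ g i * X ω i| ≤ 2) →
    (∀ ω ω', 0 < p ω → 0 < p ω' → Kb ω = Kb ω' → F.T ω = F.T ω' →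
      Cy (slam F a ω) = Cy (slam F a ω') → Ka (slam F a ω) = Ka (slam F a ω')) →
    (∀ ω ω', 0 < p ω → 0 < p ω' → vtf F a ω = vtf F a ω' →
      Cy (slam F a ω) = Cy (slam F a ω') → Ka (slam F a ω) = Ka (slam F a ω') →
      Yb (Fp ω) = Yb (Fp ω')) →
    J * Real.log 2 - κ₀ * q ≤ CH p F.T (fun ω => (F.l ω, F.Z ω)) →
    CH p (pK P a g j d q) (fun ω => (Kb ω, (Cy (slam F a ω), F.T ω))) ≤ κ₀ * q →
    CH p (fun ω => pD P g j (slam F a ω))
        (fun ω => (pU P g j q (slam F a ω), (Cy (slam F a ω), Ka (slam F a ω)))) - κ₀ * q ≤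
      CH p (fun ω => pD P g j (slam F a ω)) (fun ω => (Kb ω, (Cy (slam F a ω), F.T ω))) →
    (∀ l ≤ q, RowT p (fun ω => z (Fp ω)) (fun ω => Yb (Fp ω)) l
      ((1 - h) * l * Real.log 2 + κ₀ * q) ϖ) →
    CH p (fun ω => pD P g j (slam F a ω)) (fun ω => (Kb ω, (Cy (slam F a ω), F.T ω))) ≤ δ * q := by
  obtain ⟨κ₁, ϖ, hκ₁, hϖ, H⟩ := few_1 h0 h1 hj (half_pos hδ)
  obtain ⟨X₀, hX₀⟩ := H (Kp d)
  obtain ⟨κ₀, hκ₀⟩ : ∃ κ₀ : ℝ, κ₀ = min (κ₁ / 2) (δ / 2) := ⟨_, rfl⟩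
  have k0 : 0 < κ₀ := by rw [hκ₀]; exact lt_min (half_pos hκ₁) (half_pos hδ)
  have k1 : κ₀ ≤ κ₁ / 2 := by rw [hκ₀]; exact min_le_left _ _
  have k2 : κ₀ ≤ δ / 2 := by rw [hκ₀]; exact min_le_right _ _
  refine ⟨κ₀, ϖ, k0, hϖ, X₀, fun {m J F a X P κ κ' 𝒴 υ Φ Fp z p g q Kb Cy Ka Yb} hp ha hq
    hX0 hd hX hz hKa hYb full few mi row => ?_⟩
  have hq0 : (0 : ℝ) ≤ q := Nat.cast_nonneg q
  have m1 : κ₀ * q ≤ κ₁ / 2 * q := mul_le_mul_of_nonneg_right k1 hq0
  have m2 : κ₀ * q ≤ δ / 2 * q := mul_le_mul_of_nonneg_right k2 hq0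
  have m3 : 0 ≤ κ₀ * q := by positivity
  obtain ⟨c1, c2⟩ := codes_ch hp.nonneg (fun ω => pD P g j (slam F a ω)) (pK P a g j d q)
    (fun ω => (Kb ω, (Cy (slam F a ω), F.T ω))) few
  have hh := hpP_evp (g := g) (j := j) (d := d) (q := q) (e := κ₁ * q) hp ha hq (by positivity) hd
    hX hz hKa hYb (by
      have := full_evt hp ha full
      linarith) (by linarith)
  have h3 := hX₀ F.Ω (LnT F) _ _ _ _ _ _ p (slam F a) (vtf F a) _ (pD P g j) _ _ _ Fp z Yb q (J - a)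
    hX0 hh (fun l hl => RowT.up (row l hl) (by linarith))
  linarith

end Pool.STR16
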