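import Pool.Agent.H25.T4P.Pow
import Pool.Agent.H36.T4.AlvR

/-!
# The tie says that the velocities have few bits

`alive_ev`: a variable with many bits over a record is far from its copies on an event. `HpP.sub`: a
system of hops over a part of the velocities. `HpP.part`: a system of hops on an event. `few_blk`: a
block of the velocities. `few_2`, `few_1`: all the digits of the velocities.
-/

set_option autoImplicit false

namespace Pool.STR16

open Finset Real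
open Pool.Agent.H49.Ent Pool.Agent.H32.Dense Pool.STK Pool.OWN68 Pool.T4H Pool.T4C Pool.T4M Pool.T4P
open Pool.K2S (Pe)
open Pool.PR46 (P1)
open Pool.DIR21 (ci ci0 ci1 ci_nonneg ci_mono Pe_ci)
open Pool.DIR16 (Pe_cc cond_cc Pe_le_one)

section alive

variable {Ω Γ 𝒦 : Type} [Fintype Ω] {p : Ω → ℝ}

open Classical in
/-- **A variable with many bits is far from its copies on an event.** -/
theorem alive_ev (hp : IsLaw p) (G : Ω → Γ) (κ : Ω → 𝒦) (nr : Ω → Ω → Prop) (Nb : 𝒦 → Finset 𝒦)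
    {M : ℕ} {δ μ cap : ℝ} (hδ : 0 < δ) (hμ : 0 < μ) (hM1 : 1 ≤ M) (hδ1 : δ * μ ≤ 1)
    (hM : ∀ k, (Nb k).card ≤ M)
    (hn : ∀ ω ω', nr ω ω' → κ ω ∈ Nb (κ ω'))
    (hcap : ∀ q : Ω → ℝ, IsLaw q → (∀ ω, 0 < q ω → 0 < p ω) → CH q κ G ≤ cap)
    (hal : Real.log 2 + μ * cap + Real.log (M / (δ * μ)) < CH p κ G) :
    ∃ B : Ω → Prop, μ ≤ Pe p B ∧ Pe (P1 (cond p B True) G) (fun w => nr w.1 w.2) ≤ δ := by
  have h0 := hp.nonneg
  have hδμ : 0 < δ * μ := mul_pos hδ hμ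
  obtain ⟨s, hs⟩ : ∃ s : Ω → ℝ, ∀ ω, s ω = ∑ ω', if G ω' = G ω ∧ nr ω ω' then p ω' else 0 :=
    ⟨_, fun _ => rfl⟩
  have hs0 : ∀ ω, 0 ≤ s ω := fun ω => by
    rw [hs]
    exact Finset.sum_nonneg fun ω' _ => by split_ifs; exacts [h0 ω', le_rfl]
  obtain ⟨B, hB⟩ : ∃ B : Ω → Prop, B = fun ω => s ω < δ * μ * law p G (G ω) := ⟨_, rfl⟩
  have hPe : μ ≤ Pe p B := by
    by_contra hcon
    push Not at hcon
    refine absurd hal (not_lt.mpr ?_)
    have l2 : 0 ≤ Real.log 2 := Real.log_nonneg (by norm_num)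
    have hcap0 : 0 ≤ cap := (CH_nonneg h0 κ G).trans (hcap p hp fun _ h => h)
    have hlog0 : 0 ≤ Real.log (M / (δ * μ)) := by
      refine Real.log_nonneg ?_
      rw [le_div_iff₀ hδμ, one_mul]
      exact hδ1.trans (by exact_mod_cast hM1)
    -- the part where the balls are heavy
    have c1 : CH p κ G ≤ CH p (fun ω => decide (B ω)) G +
        CH p κ (fun ω => (decide (B ω), G ω)) := CH_le_add h0 κ _ G
    have c2 : CH p (fun ω => decide (B ω)) G ≤ Real.log 2 := by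
      have h1 := CH_le_card h0 hp.sum_one (fun ω => decide (B ω)) G
        (fun _ => (univ : Finset Bool)) (fun _ _ => Finset.mem_univ _)
      rw [Ex_const hp.sum_one] at h1
      refine h1.trans (le_of_eq ?_)
      simp
    have c3 := Pool.TQ.CH_ev h0 (G := B) κ (fun ω => (decide (B ω), G ω)) (fun ω ω' _ _ e => by
      have e1 := (Prod.ext_iff.mp e).1
      simp only [decide_eq_decide] at e1
      exact propext e1)
    have c4 : CH (cond p B True) κ (fun ω => (decide (B ω), G ω)) ≤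
        CH (cond p B True) κ G := CH_mono_cond (cond_nonneg h0 _ _) fun _ _ _ _ e =>
      (Prod.ext_iff.mp e).2
    have c5 : CH (cond p B False) κ (fun ω => (decide (B ω), G ω)) ≤
        CH (cond p B False) κ G := CH_mono_cond (cond_nonneg h0 _ _) fun _ _ _ _ e =>
      (Prod.ext_iff.mp e).2
    have c6 : law p B True * CH (cond p B True) κ G ≤ μ * cap := by
      rcases (law_nonneg h0 B True).eq_or_lt with hz | hz
      · rw [← hz, zero_mul]
        positivity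
      · have hQ : IsLaw (cond p B True) := ⟨cond_nonneg h0 B True, sum_cond p B hz.ne'⟩
        have h1 := hcap _ hQ fun ω hω => ((cond_pos_iff h0 B True ω).1 hω).1
        have h2 : law p B True ≤ μ := hcon.le
        exact mul_le_mul h2 h1 (CH_nonneg (cond_nonneg h0 _ _) _ _) hμ.le
    have c7 : law p B False * CH (cond p B False) κ G ≤ Real.log (M / (δ * μ)) := by
      rcases (law_nonneg h0 B False).eq_or_lt with hz | hz
      · rw [← hz, zero_mul]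
        exact hlog0
      · have hQ : IsLaw (cond p B False) := ⟨cond_nonneg h0 B False, sum_cond p B hz.ne'⟩
        have h3 : law p B False ≤ 1 := by
          have := Pool.TQ.law_ev hp B
          have := law_nonneg h0 B True
          linarith
        suffices h : CH (cond p B False) κ G ≤ Real.log (M / (δ * μ)) by
          calc _ ≤ 1 * Real.log (M / (δ * μ)) :=
                mul_le_mul h3 h (CH_nonneg (cond_nonneg h0 _ _) _ _) zero_le_one
            _ = _ := one_mul _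
        -- counting
        obtain ⟨F, hF⟩ : ∃ F : Γ → Finset 𝒦, ∀ g, F g = (Finset.univ.filter fun ω =>
            0 < p ω ∧ ¬ B ω ∧ G ω = g).image κ := ⟨_, fun _ => rfl⟩
        have hmem : ∀ ω, 0 < p ω → ¬ B ω → κ ω ∈ F (G ω) := fun ω hω hh => by
          rw [hF]
          exact Finset.mem_image_of_mem _ (Finset.mem_filter.mpr ⟨Finset.mem_univ _, hω, hh, rfl⟩)
        refine (CH_le_card hQ.nonneg hQ.sum_one _ G F fun ω hω => ?_).trans ?_
        · obtain ⟨h1, h2⟩ := (cond_pos_iff h0 B False ω).mp hω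
          exact hmem ω h1 (of_eq_false h2)
        · rw [← Ex_const hQ.sum_one (Real.log (M / (δ * μ)))]
          refine Ex_mono hQ.nonneg fun ω hω => ?_
          obtain ⟨h1, h2⟩ := (cond_pos_iff h0 B False ω).mp hω
          have hEω : ¬ B ω := of_eq_false h2
          have hc : 0 < (F (G ω)).card := Finset.card_pos.mpr ⟨_, hmem ω h1 hEω⟩
          refine Real.log_le_log (by exact_mod_cast hc) ?_
          obtain ⟨g, hg⟩ : ∃ g, g = G ω := ⟨_, rfl⟩
          rw [← hg]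
          have hl : 0 < law p G g := by rw [hg]; exact law_pos h0 G h1
          have hrep : ∀ k ∈ F g, ∃ ω', 0 < p ω' ∧ ¬ B ω' ∧ G ω' = g ∧ κ ω' = k := by
            intro k hk
            rw [hF] at hk
            obtain ⟨ω', hω', rfl⟩ := Finset.mem_image.mp hk
            obtain ⟨-, a1, a2, a3⟩ := Finset.mem_filter.mp hω'
            exact ⟨ω', a1, a2, a3, rfl⟩
          obtain ⟨r, hr⟩ : ∃ r : 𝒦 → Ω, ∀ k ∈ F g, 0 < p (r k) ∧ ¬ B (r k) ∧ G (r k) = g ∧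
              κ (r k) = k := by
            refine ⟨fun k => if h : k ∈ F g then (hrep k h).choose else ω, fun k hk => ?_⟩
            have e : (if h : k ∈ F g then (hrep k h).choose else ω) = (hrep k hk).choose :=
              dif_pos hk
            show 0 < p (if h : k ∈ F g then (hrep k h).choose else ω) ∧ _
            simp only [e]
            exact (hrep k hk).choose_spec
          have low : (F g).card * (δ * μ * law p G g) ≤ ∑ k ∈ F g, s (r k) := by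
            rw [← nsmul_eq_mul, ← Finset.sum_const]
            refine Finset.sum_le_sum fun k hk => ?_
            obtain ⟨a1, a2, a3, a4⟩ := hr k hk
            rw [hB] at a2
            push Not at a2
            rw [← a3]
            exact a2
          have upp : ∑ k ∈ F g, s (r k) ≤ M * law p G g := by
            have e1 : ∑ k ∈ F g, s (r k) = ∑ ω', ∑ k ∈ F g,
                (if G ω' = G (r k) ∧ nr (r k) ω' then p ω' else 0) := by
              rw [Finset.sum_comm]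
              exact Finset.sum_congr rfl fun k _ => hs (r k)
            rw [e1]
            unfold law
            rw [Finset.mul_sum]
            refine Finset.sum_le_sum fun ω' _ => ?_
            by_cases hG : G ω' = g
            · rw [if_pos hG, ← Finset.sum_filter, Finset.sum_const, nsmul_eq_mul]
              refine mul_le_mul_of_nonneg_right ?_ (h0 ω')
              have hsub : (F g).filter (fun k => G ω' = G (r k) ∧ nr (r k) ω') ⊆
                  Nb (κ ω') := by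
                intro k hk
                obtain ⟨hk1, -, hk2⟩ := Finset.mem_filter.mp hk
                obtain ⟨a1, a2, a3, a4⟩ := hr k hk1
                have := hn _ _ hk2
                rwa [a4] at this
              exact_mod_cast (Finset.card_le_card hsub).trans (hM _)
            · rw [if_neg hG, mul_zero]
              refine le_of_eq (Finset.sum_eq_zero fun k hk => ?_)
              obtain ⟨a1, a2, a3, a4⟩ := hr k hk
              rw [if_neg (fun h => hG (h.1.trans a3))]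
          have hfin := low.trans upp
          rw [le_div_iff₀ hδμ]
          have h3 : ((F g).card * (δ * μ)) * law p G g ≤ M * law p G g := by linarith
          exact le_of_mul_le_mul_right h3 hl
    have e1 : law p B True * CH (cond p B True) κ (fun ω => (decide (B ω), G ω)) ≤
        law p B True * CH (cond p B True) κ G :=
      mul_le_mul_of_nonneg_left c4 (law_nonneg h0 _ _)
    have e2 : law p B False * CH (cond p B False) κ (fun ω => (decide (B ω), G ω)) ≤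
        law p B False * CH (cond p B False) κ G :=
      mul_le_mul_of_nonneg_left c5 (law_nonneg h0 _ _)
    linarith
  refine ⟨B, hPe, ?_⟩
  -- the copies
  have hB0 : 0 < Pe p B := hμ.trans_le hPe
  obtain ⟨q, hq⟩ : ∃ q : Ω → ℝ, q = cond p B True := ⟨_, rfl⟩
  have hQ : IsLaw q := by
    rw [hq]
    exact ⟨cond_nonneg h0 B True, sum_cond p B hB0.ne'⟩
  have hqs : ∀ ω, q ω ≤ p ω / Pe p B := fun ω => by
    rw [hq, Pool.DIR21.cond_ci]
    refine div_le_div_of_nonneg_right ?_ hB0.le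
    by_cases h : B ω
    · rw [ci1 h, mul_one]
    · rw [ci0 h, mul_zero]
      exact h0 ω
  have hcop : Pe (P1 q G) (fun w => nr w.1 w.2) = ∑ ω, q ω *
      (∑ ω', if G ω' = G ω ∧ nr ω ω' then q ω' else 0) / law q G (G ω) := by
    rw [Pool.K2S.Pe_eq, Fintype.sum_prod_type]
    refine Finset.sum_congr rfl fun ω _ => ?_
    rw [Finset.mul_sum, Finset.sum_div]
    refine Finset.sum_congr rfl fun ω' _ => ?_
    unfold P1 glue
    simp only
    by_cases h1 : G ω' = G ω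
    · by_cases h2 : nr ω ω'
      · rw [if_pos h2, if_pos h1.symm, if_pos ⟨h1, h2⟩]
      · rw [if_neg h2, if_neg (fun h => h2 h.2), mul_zero, zero_div]
    · rw [if_neg (show ¬ (G ω' = G ω ∧ nr ω ω') from fun h => h1 h.1), mul_zero, zero_div]
      split_ifs with h2 h3
      · exact absurd h3.symm h1
      · rfl
      · rfl
  have hsum : ∑ ω, q ω * law p G (G ω) / law q G (G ω) ≤ 1 := by
    have e1 : ∑ ω, q ω * law p G (G ω) / law q G (G ω) = ∑ ω', p ω' * ∑ ω,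
        (if G ω = G ω' then q ω / law q G (G ω) else 0) := by
      simp only [Finset.mul_sum]
      rw [Finset.sum_comm]
      refine Finset.sum_congr rfl fun ω _ => ?_
      unfold law
      rw [Finset.mul_sum, Finset.sum_div]
      refine Finset.sum_congr rfl fun ω' _ => ?_
      by_cases h : G ω' = G ω
      · rw [if_pos h, if_pos h.symm]
        ring
      · rw [if_neg h, if_neg (fun h' => h h'.symm)]
        ring
    rw [e1, ← hp.sum_one]
    refine Finset.sum_le_sum fun ω' _ => ?_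
    refine mul_le_of_le_one_right (h0 ω') ?_
    have e2 : ∑ ω, (if G ω = G ω' then q ω / law q G (G ω) else 0) =
        law q G (G ω') / law q G (G ω') := by
      conv_rhs => rw [show law q G (G ω') / law q G (G ω') =
        (∑ ω, if G ω = G ω' then q ω else 0) / law q G (G ω') from rfl]
      rw [Finset.sum_div]
      refine Finset.sum_congr rfl fun ω _ => ?_
      by_cases h : G ω = G ω'
      · rw [if_pos h, if_pos h, h]
      · rw [if_neg h, if_neg h, zero_div]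
    rw [e2]
    exact div_self_le_one _
  have hle : Pe (P1 q G) (fun w => nr w.1 w.2) ≤ ∑ ω, δ * μ / Pe p B *
      (q ω * law p G (G ω) / law q G (G ω)) := by
    rw [hcop]
    refine Finset.sum_le_sum fun ω _ => ?_
    rcases (hQ.nonneg ω).eq_or_lt with hz | hz
    · rw [← hz]
      simp
    · have hl : 0 < law q G (G ω) := law_pos hQ.nonneg G hz
      have hBω : B ω := by
        rw [hq] at hz
        exact of_eq_true ((cond_pos_iff h0 B True ω).1 hz).2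
      have h1 : (∑ ω', if G ω' = G ω ∧ nr ω ω' then q ω' else 0) ≤ s ω / Pe p B := by
        rw [hs, Finset.sum_div]
        refine Finset.sum_le_sum fun ω' _ => ?_
        split_ifs
        · exact hqs ω'
        · simp
      rw [hB] at hBω
      have h2 : s ω / Pe p B ≤ δ * μ * law p G (G ω) / Pe p B :=
        div_le_div_of_nonneg_right (le_of_lt hBω) hB0.le
      have h3 := h1.trans h2
      calc q ω * (∑ ω', if G ω' = G ω ∧ nr ω ω' then q ω' else 0) / law q G (G ω) ≤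
            q ω * (δ * μ * law p G (G ω) / Pe p B) / law q G (G ω) :=
            div_le_div_of_nonneg_right (mul_le_mul_of_nonneg_left h3 hz.le) hl.le
        _ = _ := by ring
  rw [← hq]
  refine hle.trans ?_
  rw [← Finset.mul_sum]
  have hc : δ * μ / Pe p B ≤ δ := by
    rw [div_le_iff₀ hB0]
    exact mul_le_mul_of_nonneg_left hPe hδ.le
  have hs1 : 0 ≤ ∑ ω, q ω * law p G (G ω) / law q G (G ω) := Finset.sum_nonneg fun ω _ =>
    div_nonneg (mul_nonneg (hQ.nonneg ω) (law_nonneg h0 _ _)) (law_nonneg hQ.nonneg _ _)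
  calc _ ≤ δ * 1 := mul_le_mul hc hsum hs1 hδ.le
    _ = δ := mul_one δ

end alive

section hpp

variable {Ω Λ Γ 𝒞 𝒩 Φ υ : Type} [Fintype Ω] {c : ℕ} {p : Ω → ℝ} {L : Ω → Λ} {tf : Ω → ℤ}
  {G : Ω → Γ} {D : Λ → Fin c → ℤ} {Pt : Λ → Fin c → ℝ → ℝ} {C : Λ → 𝒞} {Nt : Λ → 𝒩} {Fp : Ω → Φ}
  {z : Φ → Fin c → ℤ} {Yb : Φ → υ} {j m M K : ℕ} {e : ℝ}

/-- The first digits of the velocities. -/
def tpD (D : Λ → Fin c → ℤ) (m : ℕ) (l : Λ) (i : Fin c) : ℤ := D l i / ((2 ^ m : ℕ) : ℤ)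

theorem near_of_div {a b : ℤ} {B : ℤ} (hB : 0 < B) (h : a / B = b / B) : |a - b| ≤ B := by
  have h1 := Int.emod_add_mul_ediv a B
  have h2 := Int.emod_add_mul_ediv b B
  have h3 := Int.emod_nonneg a hB.ne'
  have h4 := Int.emod_lt_of_pos a hB
  have h5 := Int.emod_nonneg b hB.ne'
  have h6 := Int.emod_lt_of_pos b hB
  rw [h] at h1
  rw [abs_le]
  constructor <;> linarith

/-- **A system of hops over the first digits of the velocities.** -/
theorem HpP.sub {X : ℕ} (h : HpP p L tf G D Pt C Nt Fp z Yb j X M K e) (hm : m ≤ X) :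
    HpP p L tf (fun ω => (G ω, tpD D m (L ω))) D Pt C (fun l => (Nt l, tpD D m l)) Fp z Yb
      j m M K e := by
  have h0 := h.law.nonneg
  refine ⟨h.law, h.e0, hm.trans h.mM, h.tfb, h.pos, fun ω ω' a b e1 => ?_,
    fun ω ω' a b e1 => h.Gt ω ω' a b (Prod.ext_iff.mp e1).1,
    fun ω ω' ν a b c e1 => h.jmp ω ω' ν a b c (Prod.ext_iff.mp e1).1,
    fun ω ω' a b e1 i => ?_, h.Yt, h.full, ?_⟩
  · obtain ⟨e2, e3⟩ := Prod.ext_iff.mp e1
    obtain ⟨e4, e5⟩ := h.GC ω ω' a b e2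
    exact ⟨e4, Prod.ext e5 e3⟩
  · have e3 := congrFun (Prod.ext_iff.mp e1).2 i
    have pm : (0 : ℤ) < ((2 ^ m : ℕ) : ℤ) := by positivity
    have e4 := near_of_div pm e3
    have e5 : |((D (L ω) i - D (L ω') i : ℤ) : ℝ)| ≤ (((2 ^ m : ℕ) : ℤ) : ℝ) := by
      rw [← Int.cast_abs]
      exact_mod_cast e4
    push_cast at e5
    exact e5
  · have c1 : CH p (fun ω => (tpD D m (L ω), D (L ω))) (fun ω => (Nt (L ω), C (L ω))) =
        CH p (fun ω => D (L ω)) (fun ω => (Nt (L ω), C (L ω))) := by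
      refine CH_congr h0 (fun ω ω' _ _ e1 => ?_) (fun ω ω' _ _ e1 => ?_) (fun _ _ _ _ e1 => e1)
        (fun _ _ _ _ e1 => e1)
      · exact (Prod.ext_iff.mp (Prod.ext_iff.mp e1).1).2
      · have e2 : D (L ω) = D (L ω') := (Prod.ext_iff.mp e1).1
        refine Prod.ext ?_ e2
        funext i
        show D (L ω) i / _ = D (L ω') i / _
        rw [e2]
    have c2 : CH p (fun ω => (tpD D m (L ω), D (L ω))) G = CH p (fun ω => D (L ω)) G := by
      refine CH_congr h0 (fun ω ω' _ _ e1 => ?_) (fun ω ω' _ _ e1 => ?_) (fun _ _ _ _ e1 => e1)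
        (fun _ _ _ _ e1 => e1)
      · exact (Prod.ext_iff.mp (Prod.ext_iff.mp e1).1).2
      · have e2 : D (L ω) = D (L ω') := (Prod.ext_iff.mp e1).1
        refine Prod.ext ?_ e2
        funext i
        show D (L ω) i / _ = D (L ω') i / _
        rw [e2]
    have c3 := CH_chain2 h0 (fun ω => tpD D m (L ω)) (fun ω => D (L ω))
      (fun ω => (Nt (L ω), C (L ω)))
    have c4 := CH_chain2 h0 (fun ω => tpD D m (L ω)) (fun ω => D (L ω)) G
    have c5 : CH p (fun ω => tpD D m (L ω)) G ≤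
        CH p (fun ω => tpD D m (L ω)) (fun ω => (Nt (L ω), C (L ω))) :=
      CH_mono_cond h0 fun ω ω' a b e1 => by
        obtain ⟨e4, e5⟩ := h.GC ω ω' a b e1
        exact Prod.ext e5 e4
    have c6 : CH p (fun ω => D (L ω)) (fun ω => ((Nt (L ω), tpD D m (L ω)), C (L ω))) =
        CH p (fun ω => D (L ω)) (fun ω => (tpD D m (L ω), (Nt (L ω), C (L ω)))) := by
      refine CH_congr h0 (fun _ _ _ _ e1 => (Prod.ext_iff.mp e1).1)
        (fun _ _ _ _ e1 => (Prod.ext_iff.mp e1).1) (fun ω ω' _ _ e1 => ?_)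
        (fun ω ω' _ _ e1 => ?_) <;>
      · simp only [Prod.mk.injEq] at e1 ⊢
        tauto
    have c7 : CH p (fun ω => D (L ω)) (fun ω => (G ω, tpD D m (L ω))) =
        CH p (fun ω => D (L ω)) (fun ω => (tpD D m (L ω), G ω)) := by
      refine CH_congr h0 (fun _ _ _ _ e1 => (Prod.ext_iff.mp e1).1)
        (fun _ _ _ _ e1 => (Prod.ext_iff.mp e1).1) (fun ω ω' _ _ e1 => ?_)
        (fun ω ω' _ _ e1 => ?_) <;>
      · simp only [Prod.mk.injEq] at e1 ⊢
        tauto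
    have c8 := h.free
    rw [c6, c7]
    linarith

/-- The number of the values of the time. -/
theorem time_cap' {q : Ω → ℝ} (hq : IsLaw q) {R : Type} (Z : Ω → R)
    (ht : ∀ ω, 0 < q ω → 0 ≤ tf ω ∧ tf ω ≤ ((2 ^ M : ℕ) : ℤ)) :
    CH q tf Z ≤ M * Real.log 2 + Real.log 2 := by
  have h1 := cap_fin hq tf Z (Finset.Icc (0 : ℤ) ((2 ^ M : ℕ) : ℤ)) fun ω hω =>
    Finset.mem_Icc.2 (ht ω hω)
  refine h1.trans ?_
  have e1 : (Finset.Icc (0 : ℤ) ((2 ^ M : ℕ) : ℤ)).card = 2 ^ M + 1 := by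
    rw [Int.card_Icc, sub_zero, show ((2 ^ M : ℕ) : ℤ) + 1 = ((2 ^ M + 1 : ℕ) : ℤ) by push_cast; ring,
      Int.toNat_natCast]
  rw [e1]
  have e2 : (M : ℝ) * Real.log 2 + Real.log 2 = Real.log (2 ^ M * 2) := by
    rw [Real.log_mul (by positivity) (by norm_num), Real.log_pow]
  rw [e2]
  refine Real.log_le_log (by positivity) ?_
  push_cast
  have : (1 : ℝ) ≤ 2 ^ M := one_le_pow₀ (by norm_num)
  linarith

/-- **A system of hops on an event.** -/
theorem HpP.part (h : HpP p L tf G D Pt C Nt Fp z Yb j m M K e) {B : Ω → Prop} {μ : ℝ}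
    (hμ : 0 < μ) (hB : μ ≤ Pe p B) :
    HpP (cond p B True) L tf G D Pt C Nt Fp z Yb j m M K ((e + 2 * Real.log 2) / μ) := by
  have hp := h.law
  have h0 := hp.nonneg
  have he := h.e0
  have hB0 : 0 < Pe p B := hμ.trans_le hB
  have l2 : 0 ≤ Real.log 2 := Real.log_nonneg (by norm_num)
  have hQ : IsLaw (cond p B True) := Pool.UST.isLaw_ev hp hB0
  have hs : ∀ ω, 0 < cond p B True ω → 0 < p ω := fun ω hω =>
    ((cond_pos_iff h0 B True ω).1 hω).1
  refine ⟨hQ, by positivity, h.mM, fun ω hω => h.tfb ω (hs ω hω), fun ω hω => h.pos ω (hs ω hω),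
    fun ω ω' a b => h.GC ω ω' (hs _ a) (hs _ b), fun ω ω' a b => h.Gt ω ω' (hs _ a) (hs _ b),
    fun ω ω' ν a b c => h.jmp ω ω' ν (hs _ a) (hs _ b) (hs _ c),
    fun ω ω' a b => h.GD ω ω' (hs _ a) (hs _ b), fun ω ω' a b => h.Yt ω ω' (hs _ a) (hs _ b),
    ?_, ?_⟩
  · have h1 := full_on hp tf L (cap := M * Real.log 2 + Real.log 2) (e := e + Real.log 2)
      (fun r hr hr' => time_cap' hr L fun ω hω => h.tfb ω (hr' ω hω))
      (by have := h.full; linarith) (by positivity) hμ hB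
    have e1 : (e + Real.log 2 + Real.log 2) / μ = (e + 2 * Real.log 2) / μ := by ring_nf
    rw [e1] at h1
    linarith
  · have c1 : CH p (fun ω => D (L ω)) G =
        CH p (fun ω => D (L ω)) (fun ω => (G ω, (Nt (L ω), C (L ω)))) := by
      refine CH_congr h0 (fun _ _ _ _ e1 => (Prod.ext_iff.mp e1).1)
        (fun _ _ _ _ e1 => (Prod.ext_iff.mp e1).1) (fun ω ω' a b e1 => ?_)
        (fun ω ω' _ _ e1 => (Prod.ext_iff.mp e1).1)
      obtain ⟨e4, e5⟩ := h.GC ω ω' a b e1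
      exact Prod.ext e1 (Prod.ext e5 e4)
    have c2 := CH_chain2 h0 (fun ω => D (L ω)) G (fun ω => (Nt (L ω), C (L ω)))
    have c3 := CH_chain2 h0 G (fun ω => D (L ω)) (fun ω => (Nt (L ω), C (L ω)))
    have c4 := CH_swap2 h0 (fun ω => D (L ω)) G (fun ω => (Nt (L ω), C (L ω)))
    have c5 := h.free
    have h1 := mi_on hp hμ hB (fun ω => D (L ω)) G (fun ω => (Nt (L ω), C (L ω))) (e := e)
      (by linarith)
    have h2 : CH (cond p B True) (fun ω => D (L ω)) (fun ω => (G ω, (Nt (L ω), C (L ω)))) ≤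
        CH (cond p B True) (fun ω => D (L ω)) G :=
      CH_mono_cond hQ.nonneg fun ω ω' _ _ e1 => (Prod.ext_iff.mp e1).1
    have h3 : (e + Real.log 2) / μ ≤ (e + 2 * Real.log 2) / μ :=
      div_le_div_of_nonneg_right (by linarith) hμ.le
    linarith

end hpp

section ev

variable {Ω Λ Φ υ : Type} [Fintype Ω] {p : Ω → ℝ}

theorem RowT.part (_hp : IsLaw p) {c : ℕ} {z : Ω → Fin c → ℤ} {Yb : Ω → υ} {m : ℕ} {r c₀ c₁ μ : ℝ}
    (h : RowT p z Yb m r c₀) {B : Ω → Prop} (hμ : 0 < μ) (hB : μ ≤ Pe p B) (hc₁ : 0 ≤ c₁)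
    (hc : c₀ ≤ μ * c₁) : RowT (cond p B True) z Yb m r c₁ := by
  intro E h1 h2
  have hB0 : 0 < Pe p B := hμ.trans_le hB
  have e1 := Pe_cc (p := p) (E := B) (B := E) hB0
  rw [cond_cc hB0]
  refine h _ ?_ ?_
  · rw [e1]
    exact hc.trans (mul_le_mul hB h1 hc₁ hB0.le)
  · rw [e1]
    exact mul_pos hB0 h2

theorem FI1G.part (hp : IsLaw p) {N : ℕ} {L : Ω → Λ} {Fp : Ω → Φ} {z : Ω → Fin (N + 1) → ℤ}
    {Yb : Ω → υ} {x b t : ℕ} {r c₀ c₁ μ : ℝ} (h : FI1G p L Fp z Yb x b t r c₀) {B : Ω → Prop}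
    (hμ : 0 < μ) (hB : μ ≤ Pe p B) (hc₁ : 0 ≤ c₁) (hc : c₀ ≤ μ * c₁) :
    FI1G (cond p B True) L Fp z Yb x b t r c₁ := by
  intro j kL kP ka E h1 h2 h3 i hi G b1 b2 b3
  have hB0 : 0 < Pe p B := hμ.trans_le hB
  have e1 := Pe_cc (p := p) (E := B) (B := G) hB0
  rw [cond_cc hB0]
  refine h j kL kP ka (fun ω => B ω ∧ E ω) h1 h2 (fun ω a b => ?_) i hi
    (fun ω => B ω ∧ G ω) (fun ω a => ⟨a.1, b1 ω a.2⟩) ?_ ?_
  · refine h3 ω ?_ b.2
    exact (cond_pos_iff hp.nonneg B True ω).2 ⟨a, eq_true b.1⟩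
  · rw [e1]
    exact hc.trans (mul_le_mul hB b2 hc₁ hB0.le)
  · rw [e1]
    exact mul_pos hB0 b3

end ev

/-! ### A block -/

/-- The tie. `P`: the images are used. -/
def NoTie (N : ℕ) (P : Prop) (h : ℝ) (j a : ℕ) (η δ ϖ : ℝ) : Prop := ∀ K : ℕ, ∃ u₀ : ℕ,
    ∀ (Ω Λ Γ 𝒞 𝒩 Φ υ : Type) (_ : Fintype Ω) (p : Ω → ℝ) (L : Ω → Λ) (tf : Ω → ℤ) (G : Ω → Γ)
    (D : Λ → Fin (N + 1) → ℤ) (Pt : Λ → Fin (N + 1) → ℝ → ℝ) (C : Λ → 𝒞) (Nt : Λ → 𝒩) (Fp : Ω → Φ)
    (z : Φ → Fin (N + 1) → ℤ) (Yb : Φ → υ) (u M : ℕ), u₀ ≤ u →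
    TieP (N := N) p L tf G D Pt C Nt Fp z Yb h η δ ϖ j u a M K →
    (P → FI1G (N := N) p L Fp (fun ω => z (Fp ω)) (fun ω => Yb (Fp ω)) u a 0
      (u * Real.log 2 - η * u) ϖ) → False

theorem noTie_0 {h : ℝ} {j : ℕ} (h0 : 0 < h) (h1 : h ≤ 1) (hj : 1 ≤ j) : ∃ (a : ℕ) (η δ ϖ : ℝ),
    1 ≤ a ∧ 0 < η ∧ 0 < δ ∧ 0 < ϖ ∧ NoTie 0 False h j a η δ ϖ := by
  obtain ⟨a, η, δ, ϖ, ha, hη, hδ, hϖ, H⟩ := tieP_1 h j h0 h1 hj
  refine ⟨a, η, δ, ϖ, ha, hη, hδ, hϖ, fun K => ?_⟩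
  obtain ⟨u₀, hu₀⟩ := H K
  exact ⟨u₀, fun Ω Λ Γ 𝒞 𝒩 Φ υ _ p L tf G D Pt C Nt Fp z Yb u M hu HT _ =>
    hu₀ Ω Λ Γ 𝒞 𝒩 Φ υ _ p L tf G D Pt C Nt Fp z Yb u M hu HT⟩

theorem noTie_1 {h : ℝ} {j : ℕ} (h0 : 0 < h) (h1 : h ≤ 1) (hj : 1 ≤ j) : ∃ (a : ℕ) (η δ ϖ : ℝ),
    1 ≤ a ∧ 0 < η ∧ 0 < δ ∧ 0 < ϖ ∧ NoTie 1 True h j a η δ ϖ := by
  obtain ⟨a, η, δ, ϖ, ha, hη, hδ, hϖ, H⟩ := tieP_2 h j h0 h1 hj
  refine ⟨a, η, δ, ϖ, ha, hη, hδ, hϖ, fun K => ?_⟩
  obtain ⟨u₀, hu₀⟩ := H K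
  exact ⟨u₀, fun Ω Λ Γ 𝒞 𝒩 Φ υ _ p L tf G D Pt C Nt Fp z Yb u M hu HT HF =>
    hu₀ Ω Λ Γ 𝒞 𝒩 Φ υ _ p L tf G D Pt C Nt Fp z Yb u M hu HT (HF trivial)⟩

/-- The neighbours of a vector. -/
noncomputable def nbV {c : ℕ} (k : Fin c → ℤ) : Finset (Fin c → ℤ) :=
  Fintype.piFinset fun i => Finset.Icc (k i - 1) (k i + 1)

theorem nbV_card {c : ℕ} (k : Fin c → ℤ) : (nbV k).card ≤ 3 ^ c := by
  unfold nbV
  rw [Fintype.card_piFinset]
  simp only [Int.card_Icc]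
  have h : ∀ z : ℤ, (z + 1 + 1 - (z - 1)).toNat = 3 := fun z => by
    have : z + 1 + 1 - (z - 1) = 3 := by ring
    rw [this]
    rfl
  simp [h]

theorem nbV_mem {Ω Λ : Type} {N : ℕ} {D : Λ → Fin (N + 1) → ℤ} {L : Ω → Λ} {m y : ℕ} (hy : y ≤ m)
    {ω ω' : Ω} (h : ¬ BigN D L m y (ω, ω')) : tpD D (m - y) (L ω) ∈ nbV (tpD D (m - y) (L ω')) := by
  unfold nbV
  rw [Fintype.mem_piFinset]
  intro i
  unfold tpD
  refine ediv_mem (by positivity) ?_
  unfold BigN at h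
  push Not at h
  have h1 := piv_le (dv D L (ω, ω')) i
  have h2 : (2 : ℝ) ^ m = 2 ^ y * 2 ^ (m - y) := by
    rw [← pow_add]
    congr 1
    omega
  rw [h2] at h
  have h3 : |dv D L (ω, ω') (piv (N := N) (dv D L (ω, ω')))| < 2 ^ (m - y) :=
    lt_of_mul_lt_mul_left h (by positivity)
  have h4 : |((D (L ω') i : ℝ) - D (L ω) i)| < 2 ^ (m - y) := h1.trans_lt h3
  rw [abs_sub_comm] at h4
  exact_mod_cast h4

/-- The number of the values of the first digits. -/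
theorem tpD_cap {Ω Λ Γ : Type} [Fintype Ω] {c : ℕ} {q : Ω → ℝ} (hq : IsLaw q) {L : Ω → Λ}
    {D : Λ → Fin c → ℤ} {G : Ω → Γ} {m y : ℕ} (hy : y ≤ m)
    (hG : ∀ ω ω', 0 < q ω → 0 < q ω' → G ω = G ω' → ∀ i, |(D (L ω) i : ℝ) - D (L ω') i| ≤ 2 ^ m) :
    CH q (fun ω => tpD D (m - y) (L ω)) G ≤ c * (Real.log 5 + y * Real.log 2) := by
  have h1 := CH_le_vec hq.nonneg hq.sum_one (fun ω => tpD D (m - y) (L ω)) G
    (fun _ => (2 : ℝ) ^ y + 1) (fun ω ω' a b e1 i => by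
      have h2 := hG ω ω' a b e1 i
      unfold tpD
      have pB : (0 : ℤ) < ((2 ^ (m - y) : ℕ) : ℤ) := by positivity
      have e2 : (2 : ℝ) ^ m = 2 ^ y * 2 ^ (m - y) := by
        rw [← pow_add]
        congr 1
        omega
      have g1 := Int.emod_add_mul_ediv (D (L ω) i) ((2 ^ (m - y) : ℕ) : ℤ)
      have g2 := Int.emod_add_mul_ediv (D (L ω') i) ((2 ^ (m - y) : ℕ) : ℤ)
      have g3 := Int.emod_nonneg (D (L ω) i) pB.ne'
      have g4 := Int.emod_lt_of_pos (D (L ω) i) pB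
      have g5 := Int.emod_nonneg (D (L ω') i) pB.ne'
      have g6 := Int.emod_lt_of_pos (D (L ω') i) pB
      have pR : (0 : ℝ) < 2 ^ (m - y) := by positivity
      obtain ⟨x, hx⟩ : ∃ x : ℤ, x = D (L ω) i / ((2 ^ (m - y) : ℕ) : ℤ) := ⟨_, rfl⟩
      obtain ⟨x', hx'⟩ : ∃ x' : ℤ, x' = D (L ω') i / ((2 ^ (m - y) : ℕ) : ℤ) := ⟨_, rfl⟩
      obtain ⟨r, hr⟩ : ∃ r : ℤ, r = D (L ω) i % ((2 ^ (m - y) : ℕ) : ℤ) := ⟨_, rfl⟩
      obtain ⟨r', hr'⟩ : ∃ r' : ℤ, r' = D (L ω') i % ((2 ^ (m - y) : ℕ) : ℤ) := ⟨_, rfl⟩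
      rw [← hx, ← hr] at g1
      rw [← hx', ← hr'] at g2
      rw [← hr] at g3 g4
      rw [← hr'] at g5 g6
      rw [← hx, ← hx']
      have k1 : (D (L ω) i : ℝ) = r + 2 ^ (m - y) * x := by
        rw [← g1]
        push_cast
        ring
      have k2 : (D (L ω') i : ℝ) = r' + 2 ^ (m - y) * x' := by
        rw [← g2]
        push_cast
        ring
      have k3 : (r : ℝ) < 2 ^ (m - y) := by exact_mod_cast g4
      have k4 : (r' : ℝ) < 2 ^ (m - y) := by exact_mod_cast g6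
      have k5 : (0 : ℝ) ≤ r := by exact_mod_cast g3
      have k6 : (0 : ℝ) ≤ r' := by exact_mod_cast g5
      rw [k1, k2, e2, abs_le] at h2
      push_cast
      have k7 : |((x : ℝ) - x') * 2 ^ (m - y)| ≤ (2 ^ y + 1) * 2 ^ (m - y) := by
        rw [abs_le]
        constructor <;> nlinarith [h2.1, h2.2]
      rw [abs_mul, abs_of_pos pR] at k7
      exact le_of_mul_le_mul_right k7 pR)
  refine h1.trans ?_
  rw [Ex_const hq.sum_one]
  refine mul_le_mul_of_nonneg_left ?_ (Nat.cast_nonneg c)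
  have e3 : Real.log 5 + y * Real.log 2 = Real.log (5 * 2 ^ y) := by
    rw [Real.log_mul (by norm_num) (by positivity), Real.log_pow]
  rw [e3]
  refine Real.log_le_log (by positivity) ?_
  have : (1 : ℝ) ≤ 2 ^ y := one_le_pow₀ (by norm_num)
  linarith

/-- **A block of the velocities has few bits.** -/
theorem few_blk {N : ℕ} {P : Prop} {h : ℝ} {j a : ℕ} {η δ ϖ : ℝ} (ha : 1 ≤ a) (hη : 0 < η)
    (hδ : 0 < δ) (hϖ : 0 < ϖ) (hN : NoTie N P h j a η δ ϖ) {ε : ℝ} (hε : 0 < ε) :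
    ∃ κ ϖ' : ℝ, 0 < κ ∧ 0 < ϖ' ∧ ∀ K : ℕ, ∃ u₀ : ℕ,
    ∀ (Ω Λ Γ 𝒞 𝒩 Φ υ : Type) (_ : Fintype Ω) (p : Ω → ℝ) (L : Ω → Λ) (tf : Ω → ℤ) (G : Ω → Γ)
    (D : Λ → Fin (N + 1) → ℤ) (Pt : Λ → Fin (N + 1) → ℝ → ℝ) (C : Λ → 𝒞) (Nt : Λ → 𝒩) (Fp : Ω → Φ)
    (z : Φ → Fin (N + 1) → ℤ) (Yb : Φ → υ) (u M : ℕ) (e : ℝ), u₀ ≤ u → e ≤ κ * u →
    HpP p L tf G D Pt C Nt Fp z Yb j (a * u) M K e →
    RowT p (fun ω => z (Fp ω)) (fun ω => Yb (Fp ω)) (a * u)
      (((N : ℝ) + 1 - h) * (a * u) * Real.log 2 + κ * u) ϖ' →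
    (P → FI1G (N := N) p L Fp (fun ω => z (Fp ω)) (fun ω => Yb (Fp ω)) u a 0
      (u * Real.log 2 - κ * u) ϖ') →
    CH p (fun ω => tpD D (a * u - u) (L ω)) G ≤ ε * u := by
  have l2 : 0 ≤ Real.log 2 := Real.log_nonneg (by norm_num)
  have l2' : Real.log 2 ≤ 1 := by
    have := Real.log_two_lt_d9
    linarith
  have l5 : 0 ≤ Real.log 5 := Real.log_nonneg (by norm_num)
  have l5' : Real.log 5 ≤ 4 := by
    have := Real.log_le_sub_one_of_pos (show (0 : ℝ) < 5 by norm_num)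
    linarith
  have hN1 : (0 : ℝ) < (N : ℝ) + 1 := by positivity
  obtain ⟨μ, hμe⟩ : ∃ μ : ℝ, μ = min 1 (ε / (4 * ((N : ℝ) + 1))) := ⟨_, rfl⟩
  have hμ : 0 < μ := by rw [hμe]; exact lt_min one_pos (by positivity)
  have hμ1 : μ ≤ 1 := by rw [hμe]; exact min_le_left _ _
  have hμ2 : μ * ((N : ℝ) + 1) ≤ ε / 4 := by
    have h1 : μ ≤ ε / (4 * ((N : ℝ) + 1)) := by rw [hμe]; exact min_le_right _ _
    calc μ * ((N : ℝ) + 1) ≤ ε / (4 * ((N : ℝ) + 1)) * ((N : ℝ) + 1) :=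
          mul_le_mul_of_nonneg_right h1 hN1.le
      _ = ε / 4 := by field_simp
  obtain ⟨δ', hδe⟩ : ∃ δ' : ℝ, δ' = min 1 δ := ⟨_, rfl⟩
  have hδ' : 0 < δ' := by rw [hδe]; exact lt_min one_pos hδ
  have hδ1 : δ' ≤ 1 := by rw [hδe]; exact min_le_left _ _
  have hδ2 : δ' ≤ δ := by rw [hδe]; exact min_le_right _ _
  refine ⟨η * μ / 2, μ * ϖ, by positivity, by positivity, fun K => ?_⟩
  obtain ⟨u₁, hu₁⟩ := hN K
  obtain ⟨u₂, hu₂⟩ := exists_nat_gt ((Real.log 2 + ε + Real.log ((3 ^ (N + 1) : ℕ) / (δ' * μ))) /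
    (ε / 2))
  obtain ⟨u₃, hu₃⟩ := exists_nat_ge (2 * Real.log 2 / μ / (η / 2))
  refine ⟨max u₁ (max u₂ u₃), fun Ω Λ Γ 𝒞 𝒩 Φ υ _ p L tf G D Pt C Nt Fp z Yb u M e hu he H hR
    hF => ?_⟩
  have v1 : u₁ ≤ u := (le_max_left _ _).trans hu
  have v2 : (u₂ : ℝ) ≤ u := by
    exact_mod_cast (le_max_left _ _).trans ((le_max_right _ _).trans hu)
  have v3 : (u₃ : ℝ) ≤ u := by
    exact_mod_cast (le_max_right _ _).trans ((le_max_right _ _).trans hu)
  have hu0 : (0 : ℝ) ≤ u := Nat.cast_nonneg u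
  by_contra hcon
  push Not at hcon
  have hp := H.law
  have hau : u ≤ a * u := Nat.le_mul_of_pos_left u ha
  have hcap : ∀ q : Ω → ℝ, IsLaw q → (∀ ω, 0 < q ω → 0 < p ω) →
      CH q (fun ω => tpD D (a * u - u) (L ω)) G ≤
        ((N + 1 : ℕ) : ℝ) * (Real.log 5 + u * Real.log 2) := fun q hq hs =>
    tpD_cap hq hau fun ω ω' a b e1 => H.GD ω ω' (hs _ a) (hs _ b) e1
  have hthr : Real.log 2 + μ * (((N + 1 : ℕ) : ℝ) * (Real.log 5 + u * Real.log 2)) +
      Real.log ((3 ^ (N + 1) : ℕ) / (δ' * μ)) < CH p (fun ω => tpD D (a * u - u) (L ω)) G := by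
    refine lt_trans ?_ hcon
    have h1 : μ * (((N + 1 : ℕ) : ℝ) * (Real.log 5 + u * Real.log 2)) ≤ ε / 4 * (4 + u) := by
      push_cast
      have h2 : Real.log 5 + u * Real.log 2 ≤ 4 + u := by nlinarith
      calc μ * (((N : ℝ) + 1) * (Real.log 5 + u * Real.log 2)) =
            (μ * ((N : ℝ) + 1)) * (Real.log 5 + u * Real.log 2) := by ring
        _ ≤ ε / 4 * (4 + u) := mul_le_mul hμ2 h2 (by positivity) (by positivity)
    have h3 := hu₂.trans_le v2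
    rw [div_lt_iff₀ (by positivity)] at h3
    have h4 : 0 ≤ ε * u := by positivity
    linarith
  obtain ⟨B, hB, hal⟩ := alive_ev hp G (fun ω => tpD D (a * u - u) (L ω))
    (fun ω ω' => ¬ BigN D L (a * u) u (ω, ω')) nbV hδ' hμ
    (show 1 ≤ 3 ^ (N + 1) from Nat.one_le_pow _ _ (by norm_num))
    (mul_le_one₀ hδ1 hμ.le hμ1) nbV_card (fun ω ω' h => nbV_mem hau h) hcap hthr
  have h1 : (e + 2 * Real.log 2) / μ ≤ η * u := by
    have c1 : e / μ ≤ η / 2 * u := by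
      rw [div_le_iff₀ hμ]
      calc e ≤ η * μ / 2 * u := he
        _ = η / 2 * u * μ := by ring
    have c2 : 2 * Real.log 2 / μ ≤ η / 2 * u := by
      have c3 := hu₃.trans v3
      rw [div_le_iff₀ (by positivity)] at c3
      linarith
    rw [add_div]
    linarith
  have hB0 : 0 < Pe p B := hμ.trans_le hB
  have h2 := HpP.part H hμ hB
  have hκη : η * μ / 2 * u ≤ η * u := by
    have : η * μ / 2 ≤ η := by nlinarith
    exact mul_le_mul_of_nonneg_right this hu0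
  refine hu₁ Ω Λ Γ 𝒞 𝒩 Φ υ _ (cond p B True) L tf G D Pt C Nt Fp z Yb u M v1 ⟨?_, hal.trans hδ2,
    ?_⟩ fun hP => ?_
  · refine ⟨h2.law, by positivity, h2.mM, h2.tfb, h2.pos, h2.GC, h2.Gt, h2.jmp, h2.GD, h2.Yt,
      ?_, ?_⟩
    · have := h2.full
      linarith
    · have := h2.free
      linarith
  · refine RowT.up (RowT.part hp hR hμ hB hϖ.le le_rfl) ?_
    linarith
  · have h3 := FI1G.part hp (hF hP) hμ hB hϖ.le le_rfl
    intro j' kL kP ka E b1 b2 b3 i hi G' d1 d2 d3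
    have h4 := h3 j' kL kP ka E b1 b2 b3 i hi G' d1 d2 d3
    linarith

/-! ### All the digits -/

theorem tpD_zero {Λ : Type} {c : ℕ} (D : Λ → Fin c → ℤ) : tpD D 0 = D := by
  funext l i
  simp [tpD]

theorem tpD_of {Λ : Type} {c : ℕ} {D : Λ → Fin c → ℤ} {m m' : ℕ} (h : m ≤ m') {l l' : Λ}
    (e : tpD D m l = tpD D m l') : tpD D m' l = tpD D m' l' := by
  have h1 : ∀ x : Λ, ∀ i, tpD D m' x i = tpD D m x i / ((2 ^ (m' - m) : ℕ) : ℤ) := by
    intro x i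
    unfold tpD
    rw [Int.ediv_ediv_of_nonneg (by positivity)]
    congr 1
    rw [← Nat.cast_mul, ← pow_add, Nat.add_sub_cancel' h]
  funext i
  rw [h1, h1, e]

/-- **The velocities have few bits.** -/
theorem few_all {N : ℕ} {P : Prop} {h : ℝ} {j a : ℕ} {η δ ϖ : ℝ} (ha : 1 ≤ a) (hη : 0 < η)
    (hδ : 0 < δ) (hϖ : 0 < ϖ) (hN : NoTie N P h j a η δ ϖ) {δ₀ : ℝ} (hδ₀ : 0 < δ₀) :
    ∃ κ ϖ' : ℝ, 0 < κ ∧ 0 < ϖ' ∧ ∀ K : ℕ, ∃ X₀ : ℕ,
    ∀ (Ω Λ Γ 𝒞 𝒩 Φ υ : Type) (_ : Fintype Ω) (p : Ω → ℝ) (L : Ω → Λ) (tf : Ω → ℤ) (G : Ω → Γ)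
    (D : Λ → Fin (N + 1) → ℤ) (Pt : Λ → Fin (N + 1) → ℝ → ℝ) (C : Λ → 𝒞) (Nt : Λ → 𝒩) (Fp : Ω → Φ)
    (z : Φ → Fin (N + 1) → ℤ) (Yb : Φ → υ) (X M : ℕ), X₀ ≤ X →
    HpP p L tf G D Pt C Nt Fp z Yb j X M K (κ * X) →
    (∀ m ≤ X, RowT p (fun ω => z (Fp ω)) (fun ω => Yb (Fp ω)) m
      (((N : ℝ) + 1 - h) * m * Real.log 2 + κ * X) ϖ') →
    (P → ∀ u, a * u ≤ X → FI1G (N := N) p L Fp (fun ω => z (Fp ω)) (fun ω => Yb (Fp ω)) u a 0
      (u * Real.log 2 - κ * X) ϖ') →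
    CH p (fun ω => D (L ω)) G ≤ δ₀ * X := by
  have l2 : 0 ≤ Real.log 2 := Real.log_nonneg (by norm_num)
  have l2' : Real.log 2 ≤ 1 := by
    have := Real.log_two_lt_d9
    linarith
  have l5 : 0 ≤ Real.log 5 := Real.log_nonneg (by norm_num)
  have hN1 : (0 : ℝ) < (N : ℝ) + 1 := by positivity
  have a1 : (1 : ℝ) ≤ a := by exact_mod_cast ha
  have a0 : (0 : ℝ) < a := by linarith
  obtain ⟨β, hβe⟩ : ∃ β : ℝ, β = min 1 (δ₀ / (4 * ((N : ℝ) + 1))) := ⟨_, rfl⟩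
  have hβ : 0 < β := by rw [hβe]; exact lt_min one_pos (by positivity)
  have hβ1 : β ≤ 1 := by rw [hβe]; exact min_le_left _ _
  have hβ2 : β * ((N : ℝ) + 1) ≤ δ₀ / 4 := by
    have h1 : β ≤ δ₀ / (4 * ((N : ℝ) + 1)) := by rw [hβe]; exact min_le_right _ _
    calc β * ((N : ℝ) + 1) ≤ δ₀ / (4 * ((N : ℝ) + 1)) * ((N : ℝ) + 1) :=
          mul_le_mul_of_nonneg_right h1 hN1.le
      _ = δ₀ / 4 := by field_simp
  obtain ⟨k₀, hk₀⟩ := exists_nat_ge (16 * a / β)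
  have hk1 : (0 : ℝ) < k₀ := lt_of_lt_of_le (by positivity) hk₀
  obtain ⟨κ, ϖ', hκ, hϖ', H⟩ := few_blk ha hη hδ hϖ hN (ε := δ₀ / (4 * k₀)) (by positivity)
  refine ⟨κ * (β / (4 * a)), ϖ', by positivity, hϖ', fun K => ?_⟩
  obtain ⟨u₀, hu₀⟩ := H K
  obtain ⟨c0, hc0⟩ : ∃ c0 : ℝ, c0 = ((N : ℝ) + 1) * (Real.log 5 + a * Real.log 2) := ⟨_, rfl⟩
  obtain ⟨X₁, hX₁⟩ := exists_nat_ge (16 * a * (a + 2) / β)
  obtain ⟨X₂, hX₂⟩ := exists_nat_ge (4 * a * u₀ / β)
  obtain ⟨X₃, hX₃⟩ := exists_nat_ge ((c0 + ((N : ℝ) + 1) * Real.log 5) / (δ₀ / 4))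
  refine ⟨max X₁ (max X₂ X₃), fun Ω Λ Γ 𝒞 𝒩 Φ υ _ p L tf G D Pt C Nt Fp z Yb X M hX HH hR
    hF => ?_⟩
  have x1 : (X₁ : ℝ) ≤ X := by exact_mod_cast (le_max_left _ _).trans hX
  have x2 : (X₂ : ℝ) ≤ X := by
    exact_mod_cast (le_max_left _ _).trans ((le_max_right _ _).trans hX)
  have x3 : (X₃ : ℝ) ≤ X := by
    exact_mod_cast (le_max_right _ _).trans ((le_max_right _ _).trans hX)
  have y1 : 16 * a * (a + 2) ≤ β * X := by
    have := hX₁.trans x1
    rw [div_le_iff₀ hβ] at this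
    linarith
  have y2 : 4 * a * u₀ ≤ β * X := by
    have := hX₂.trans x2
    rw [div_le_iff₀ hβ] at this
    linarith
  have y3 : c0 + ((N : ℝ) + 1) * Real.log 5 ≤ δ₀ / 4 * X := by
    have := hX₃.trans x3
    rw [div_le_iff₀ (by positivity)] at this
    linarith
  have hX0 : (0 : ℝ) ≤ X := Nat.cast_nonneg X
  obtain ⟨m₀, hm₀⟩ : ∃ m₀ : ℕ, m₀ = ⌊β * X⌋₊ := ⟨_, rfl⟩
  have m1 : (m₀ : ℝ) ≤ β * X := by rw [hm₀]; exact Nat.floor_le (by positivity)
  have m2 : β * X < m₀ + 1 := by rw [hm₀]; exact Nat.lt_floor_add_one _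
  have m3 : m₀ ≤ X := by
    have : (m₀ : ℝ) ≤ X := m1.trans (by nlinarith)
    exact_mod_cast this
  obtain ⟨g, hg⟩ : ∃ g : ℕ, g = ⌊β * X / (8 * a)⌋₊ := ⟨_, rfl⟩
  have g1 : (g : ℝ) ≤ β * X / (8 * a) := by rw [hg]; exact Nat.floor_le (by positivity)
  have g2 : β * X / (8 * a) < g + 1 := by rw [hg]; exact Nat.lt_floor_add_one _
  have g1' : 8 * a * g ≤ β * X := by
    rw [le_div_iff₀ (by positivity)] at g1
    linarith
  have g2' : β * X < 8 * a * (g + 1) := by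
    rw [div_lt_iff₀ (by positivity)] at g2
    linarith
  have ga : a ≤ g := by
    have : (a : ℝ) + 1 < g + 1 := by
      have h1 : 8 * a * ((a : ℝ) + 1) < 8 * a * (g + 1) := by
        refine lt_of_le_of_lt ?_ g2'
        nlinarith
      exact lt_of_mul_lt_mul_left h1 (by positivity)
    have h2 : (a : ℝ) < g := by linarith
    exact_mod_cast h2.le
  have hp := HH.law
  have h0 := hp.nonneg
  obtain ⟨f, hf⟩ : ∃ f : ℕ → ℝ, f = fun m => CH p (fun ω => tpD D m (L ω)) G := ⟨_, rfl⟩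
  have fmono : ∀ m m', m ≤ m' → f m' ≤ f m := by
    intro m m' hm
    rw [hf]
    refine CH_mono_left h0 fun ω ω' _ _ e => ?_
    exact tpD_of hm (Prod.ext_iff.mp e).1
  have c00 : 0 ≤ c0 := by rw [hc0]; positivity
  have fbase : ∀ m, m ≤ X → X ≤ m + a → f m ≤ c0 := by
    intro m hm1 hm2
    have h1 := tpD_cap hp (L := L) (D := D) (G := G) (m := X) (y := X - m) (Nat.sub_le _ _)
      (fun ω ω' a b e => HH.GD ω ω' a b e)
    rw [Nat.sub_sub_self hm1] at h1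
    rw [hf, hc0]
    refine h1.trans ?_
    push_cast
    refine mul_le_mul_of_nonneg_left ?_ hN1.le
    have h2 : ((X - m : ℕ) : ℝ) ≤ a := by
      have : X - m ≤ a := by omega
      exact_mod_cast this
    have := mul_le_mul_of_nonneg_right h2 l2
    linarith
  obtain ⟨E, hE⟩ : ∃ E : ℝ, E = δ₀ / (4 * k₀) * X := ⟨_, rfl⟩
  have hE0 : 0 ≤ E := by rw [hE]; positivity
  have fstep : ∀ u, a * u ≤ X → m₀ ≤ a * u + a → f (a * u - u) ≤ f (a * u) + E := by
    intro u hu1 hu2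
    have b1 : β * X ≤ 4 * a * u := by
      have h1 : (m₀ : ℝ) ≤ a * u + a := by exact_mod_cast hu2
      nlinarith
    have b2 : (u₀ : ℝ) ≤ u := by
      have h1 : (4 * a) * (u₀ : ℝ) ≤ (4 * a) * u := by linarith
      exact le_of_mul_le_mul_left h1 (by positivity)
    have b3 : u₀ ≤ u := by exact_mod_cast b2
    have b4 : κ * (β / (4 * a)) * X ≤ κ * u := by
      have h1 : β / (4 * a) * X ≤ u := by
        rw [div_mul_eq_mul_div, div_le_iff₀ (by positivity)]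
        linarith
      calc κ * (β / (4 * a)) * X = κ * (β / (4 * a) * X) := by ring
        _ ≤ κ * u := mul_le_mul_of_nonneg_left h1 hκ.le
    have b5 : (u : ℝ) ≤ X := by
      have h1 : u ≤ X := (Nat.le_mul_of_pos_left u ha).trans hu1
      exact_mod_cast h1
    have h1 := hu₀ Ω Λ (Γ × (Fin (N + 1) → ℤ)) 𝒞 (𝒩 × (Fin (N + 1) → ℤ)) Φ υ _ p L tf
      (fun ω => (G ω, tpD D (a * u) (L ω))) D Pt C (fun l => (Nt l, tpD D (a * u) l)) Fp z Yb u M
      (κ * (β / (4 * a)) * X) b3 b4 (HpP.sub HH hu1) (by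
        refine RowT.up (hR (a * u) hu1) ?_
        push_cast
        linarith) (fun hP => by
        intro j' kL kP ka E' d1 d2 d3 i hi G' f1 f2 f3
        have h4 := hF hP u hu1 j' kL kP ka E' d1 d2 d3 i hi G' f1 f2 f3
        linarith)
    have h2 := CH_le_add h0 (fun ω => tpD D (a * u - u) (L ω)) (fun ω => tpD D (a * u) (L ω)) G
    have h3 : CH p (fun ω => tpD D (a * u - u) (L ω)) (fun ω => (tpD D (a * u) (L ω), G ω)) ≤
        CH p (fun ω => tpD D (a * u - u) (L ω)) (fun ω => (G ω, tpD D (a * u) (L ω))) :=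
      CH_mono_cond h0 fun _ _ _ _ e => by
        simp only [Prod.mk.injEq] at e ⊢
        exact ⟨e.2, e.1⟩
    have h4 : δ₀ / (4 * k₀) * u ≤ E := by
      rw [hE]
      exact mul_le_mul_of_nonneg_left b5 (by positivity)
    rw [hf]
    simp only
    linarith
  have claim : ∀ k : ℕ, ∀ m, m₀ ≤ m → m ≤ X → X ≤ m + k * g + a → f m ≤ k * E + c0 := by
    intro k
    induction k with
    | zero =>
      intro m _ hm2 hm3
      have := fbase m hm2 (by omega)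
      push_cast
      linarith
    | succ k ih =>
      intro m hm1 hm2 hm3
      have hkE : 0 ≤ ((k + 1 : ℕ) : ℝ) * E := by positivity
      by_cases hma : X ≤ m + a
      · have := fbase m hm2 hma
        linarith
      · push Not at hma
        obtain ⟨w, hw⟩ : ∃ w : ℕ, w = min X (m + 2 * g) := ⟨_, rfl⟩
        have w1 : w ≤ X := by rw [hw]; exact min_le_left _ _
        have w2 : w ≤ m + 2 * g := by rw [hw]; exact min_le_right _ _
        have e1 := Nat.div_add_mod w a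
        have e2 := Nat.mod_lt w ha
        obtain ⟨u, hu⟩ : ∃ u : ℕ, u = w / a := ⟨_, rfl⟩
        rw [← hu] at e1
        have u1 : a * u ≤ w := by omega
        have u2 : w < a * u + a := by omega
        have ge1 : 4 * (a * g) ≤ m₀ := by
          have h1 : ((4 * (a * g) : ℕ) : ℝ) < ((m₀ + 1 : ℕ) : ℝ) := by
            push_cast
            have h2 : 4 * ((a : ℝ) * g) ≤ β * X := by nlinarith [mul_nonneg a0.le (Nat.cast_nonneg (α := ℝ) g)]
            linarith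
          exact Nat.lt_succ_iff.mp (by exact_mod_cast h1)
        have hlow : a * u - u ≤ m := by
          have h1 : a * (a * u - u) ≤ a * m := by
            have h2 : a * (a * u - u) = (a - 1) * (a * u) := by
              rw [Nat.mul_sub, Nat.sub_mul, one_mul]
            rw [h2]
            have h3 : (a - 1) * (a * u) ≤ (a - 1) * (m + 2 * g) :=
              Nat.mul_le_mul_left _ (u1.trans w2)
            have h4 : (a - 1) * (m + 2 * g) + m ≤ a * m + 2 * (a * g) := by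
              obtain ⟨b, rfl⟩ : ∃ b, a = b + 1 := ⟨a - 1, by omega⟩
              rw [Nat.add_sub_cancel]
              nlinarith
            omega
          exact Nat.le_of_mul_le_mul_left h1 ha
        have hwm : m + g ≤ a * u ∨ X ≤ a * u + a := by
          rcases le_total X (m + 2 * g) with hc | hc
          · right
            have : w = X := by rw [hw]; exact min_eq_left hc
            omega
          · left
            have : w = m + 2 * g := by rw [hw]; exact min_eq_right hc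
            omega
        have hmu : m ≤ a * u := by
          rcases hwm with hc | hc <;> omega
        have h1 := fmono _ _ hlow
        have h2 := fstep u (u1.trans w1) (by omega)
        have h3 := ih (a * u) (hm1.trans hmu) (u1.trans w1) (by
          rcases hwm with hc | hc
          · have : (k + 1) * g = k * g + g := by ring
            omega
          · omega)
        push_cast
        linarith
  have hk₀g : X ≤ m₀ + k₀ * g + a := by
    have h1 : (X : ℝ) ≤ k₀ * g := by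
      rw [div_le_iff₀ hβ] at hk₀
      have h2 : β * X ≤ 16 * a * g := by
        have : (a : ℝ) ≤ g := by exact_mod_cast ga
        nlinarith
      have h3 : 16 * (a : ℝ) * X ≤ 16 * a * (k₀ * g) := by
        calc 16 * (a : ℝ) * X ≤ k₀ * β * X := mul_le_mul_of_nonneg_right hk₀ hX0
          _ = k₀ * (β * X) := by ring
          _ ≤ k₀ * (16 * a * g) := mul_le_mul_of_nonneg_left h2 hk1.le
          _ = _ := by ring
      exact le_of_mul_le_mul_left h3 (by positivity)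
    have h2 : X ≤ k₀ * g := by exact_mod_cast h1
    omega
  have hfin := claim k₀ m₀ le_rfl m3 hk₀g
  have hlast := CH_le_add h0 (fun ω => D (L ω)) (fun ω => tpD D m₀ (L ω)) G
  have hcap := tpD_cap hp (L := L) (D := D) (G := fun ω => (tpD D m₀ (L ω), G ω)) (m := m₀)
    (y := m₀) le_rfl (fun ω ω' _ _ e i => by
      have e3 := congrFun (Prod.ext_iff.mp e).1 i
      have pm : (0 : ℤ) < ((2 ^ m₀ : ℕ) : ℤ) := by positivity
      have e4 := near_of_div pm e3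
      have e5 : |((D (L ω) i - D (L ω') i : ℤ) : ℝ)| ≤ (((2 ^ m₀ : ℕ) : ℤ) : ℝ) := by
        rw [← Int.cast_abs]
        exact_mod_cast e4
      push_cast at e5
      exact e5)
  rw [Nat.sub_self, tpD_zero] at hcap
  have hkE : (k₀ : ℝ) * E = δ₀ / 4 * X := by
    rw [hE]
    field_simp
  rw [hkE, hf] at hfin
  simp only at hfin
  push_cast at hcap
  have hlm : ((N : ℝ) + 1) * (m₀ * Real.log 2) ≤ δ₀ / 4 * X := by
    calc ((N : ℝ) + 1) * (m₀ * Real.log 2) ≤ ((N : ℝ) + 1) * (β * X * 1) := by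
          refine mul_le_mul_of_nonneg_left ?_ hN1.le
          exact mul_le_mul m1 l2' l2 (by positivity)
      _ = β * ((N : ℝ) + 1) * X := by ring
      _ ≤ δ₀ / 4 * X := mul_le_mul_of_nonneg_right hβ2 hX0
  have hd : 0 ≤ δ₀ / 4 * X := by positivity
  linarith

/-- **Two coordinates**: the velocities have few bits. -/
theorem few_2 {h δ₀ : ℝ} {j : ℕ} (h0 : 0 < h) (h1 : h ≤ 1) (hj : 1 ≤ j) (hδ₀ : 0 < δ₀) :
    ∃ (a : ℕ) (κ ϖ : ℝ), 1 ≤ a ∧ 0 < κ ∧ 0 < ϖ ∧ ∀ K : ℕ, ∃ X₀ : ℕ,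
    ∀ (Ω Λ Γ 𝒞 𝒩 Φ υ : Type) (_ : Fintype Ω) (p : Ω → ℝ) (L : Ω → Λ) (tf : Ω → ℤ) (G : Ω → Γ)
    (D : Λ → Fin 2 → ℤ) (Pt : Λ → Fin 2 → ℝ → ℝ) (C : Λ → 𝒞) (Nt : Λ → 𝒩) (Fp : Ω → Φ)
    (z : Φ → Fin 2 → ℤ) (Yb : Φ → υ) (X M : ℕ), X₀ ≤ X →
    HpP p L tf G D Pt C Nt Fp z Yb j X M K (κ * X) →
    (∀ m ≤ X, RowT p (fun ω => z (Fp ω)) (fun ω => Yb (Fp ω)) m
      ((2 - h) * m * Real.log 2 + κ * X) ϖ) →
    (∀ u, a * u ≤ X → FI1G (N := 1) p L Fp (fun ω => z (Fp ω)) (fun ω => Yb (Fp ω)) u a 0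
      (u * Real.log 2 - κ * X) ϖ) →
    CH p (fun ω => D (L ω)) G ≤ δ₀ * X := by
  obtain ⟨a, η, δ, ϖ, ha, hη, hδ, hϖ, hN⟩ := noTie_1 h0 h1 hj
  obtain ⟨κ, ϖ', hκ, hϖ', H⟩ := few_all ha hη hδ hϖ hN hδ₀
  refine ⟨a, κ, ϖ', ha, hκ, hϖ', fun K => ?_⟩
  obtain ⟨X₀, hX₀⟩ := H K
  refine ⟨X₀, fun Ω Λ Γ 𝒞 𝒩 Φ υ _ p L tf G D Pt C Nt Fp z Yb X M hX HH hR hF =>
    hX₀ Ω Λ Γ 𝒞 𝒩 Φ υ _ p L tf G D Pt C Nt Fp z Yb X M hX HH (fun m hm => ?_) fun _ => hF⟩
  refine RowT.up (hR m hm) (le_of_eq ?_)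
  push_cast
  ring

/-- **One coordinate**: the velocities have few bits. -/
theorem few_1 {h δ₀ : ℝ} {j : ℕ} (h0 : 0 < h) (h1 : h ≤ 1) (hj : 1 ≤ j) (hδ₀ : 0 < δ₀) :
    ∃ κ ϖ : ℝ, 0 < κ ∧ 0 < ϖ ∧ ∀ K : ℕ, ∃ X₀ : ℕ,
    ∀ (Ω Λ Γ 𝒞 𝒩 Φ υ : Type) (_ : Fintype Ω) (p : Ω → ℝ) (L : Ω → Λ) (tf : Ω → ℤ) (G : Ω → Γ)
    (D : Λ → Fin 1 → ℤ) (Pt : Λ → Fin 1 → ℝ → ℝ) (C : Λ → 𝒞) (Nt : Λ → 𝒩) (Fp : Ω → Φ)
    (z : Φ → Fin 1 → ℤ) (Yb : Φ → υ) (X M : ℕ), X₀ ≤ X →
    HpP p L tf G D Pt C Nt Fp z Yb j X M K (κ * X) →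
    (∀ m ≤ X, RowT p (fun ω => z (Fp ω)) (fun ω => Yb (Fp ω)) m
      ((1 - h) * m * Real.log 2 + κ * X) ϖ) →
    CH p (fun ω => D (L ω)) G ≤ δ₀ * X := by
  obtain ⟨a, η, δ, ϖ, ha, hη, hδ, hϖ, hN⟩ := noTie_0 h0 h1 hj
  obtain ⟨κ, ϖ', hκ, hϖ', H⟩ := few_all ha hη hδ hϖ hN hδ₀
  refine ⟨κ, ϖ', hκ, hϖ', fun K => ?_⟩
  obtain ⟨X₀, hX₀⟩ := H K
  refine ⟨X₀, fun Ω Λ Γ 𝒞 𝒩 Φ υ _ p L tf G D Pt C Nt Fp z Yb X M hX HH hR =>
    hX₀ Ω Λ Γ 𝒞 𝒩 Φ υ _ p L tf G D Pt C Nt Fp z Yb X M hX HH (fun m hm => ?_) fun hf => hf.elim⟩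
  refine RowT.up (hR m hm) (le_of_eq ?_)
  push_cast
  ring

end Pool.STR16
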