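import Pool.Agent.H16.STR.Fib

/-!
# The images of the blocks: the class theorem

`fi_of : FiStmt k`.
-/

set_option autoImplicit false

namespace Pool.STR16

open Finset Real MvPolynomial
open Pool.Agent.H49.Ent Pool.Agent.H32.Dense
open Pool.STK hiding pr2
open Pool.KA Pool.KSAT Pool.K2S Pool.PB Pool.S6C
open Pool.GEN Pool.CHT Pool.CHX Pool.ISO Pool.LA91 Pool.AVG71 Pool.AVG5 Pool.D2F2 Pool.AVG57
open Pool.RCD Pool.AVG96 Pool.OWN68 Pool.V0F Pool.V0Q Pool.V0T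
open Pool.UNJ (ceI)
open Pool.T4H (dg tp floor_gap)
open Pool.T4C (FI1G FI1OnG)

/-- **Three conditions.** -/
theorem cond_three {Ω : Type} [Fintype Ω] {p : Ω → ℝ} (hp : IsLaw p) {B G C : Ω → Prop}
    (hB : 0 < Pe p B) (hG : 0 < Pe (Pool.Agent.H49.Ent.cond p B True) G) :
    Pool.Agent.H49.Ent.cond (Pool.Agent.H49.Ent.cond (Pool.Agent.H49.Ent.cond p B True) G True)
      C True = Pool.Agent.H49.Ent.cond p (fun ω => ((B ω ∧ 0 < p ω) ∧ G ω) ∧ C ω) True ∧
    Pe p (fun ω => ((B ω ∧ 0 < p ω) ∧ G ω) ∧ C ω) =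
      Pe (Pool.Agent.H49.Ent.cond (Pool.Agent.H49.Ent.cond p B True) G True) C *
        (Pe (Pool.Agent.H49.Ent.cond p B True) G * Pe p B) := by
  obtain ⟨n1, n2⟩ := cond_nul hp.nonneg B
  have hB' : Pe p (fun ω => B ω ∧ 0 < p ω) ≠ 0 := by rw [n1]; exact hB.ne'
  have e1 : Pe (Pool.Agent.H49.Ent.cond p B True) G =
      Pe p (fun ω => (B ω ∧ 0 < p ω) ∧ G ω) / Pe p B := by
    rw [← n2, Pe_cond, n1]
  have e2 : Pe p (fun ω => (B ω ∧ 0 < p ω) ∧ G ω) =
      Pe (Pool.Agent.H49.Ent.cond p B True) G * Pe p B := by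
    rw [e1]
    field_simp
  have hG' : Pe p (fun ω => (B ω ∧ 0 < p ω) ∧ G ω) ≠ 0 := by
    rw [e2]
    exact (mul_pos hG hB).ne'
  have e3 : Pool.Agent.H49.Ent.cond (Pool.Agent.H49.Ent.cond p B True) G True =
      Pool.Agent.H49.Ent.cond p (fun ω => (B ω ∧ 0 < p ω) ∧ G ω) True := by
    rw [← n2]
    exact Piece.cond_inter hB'
  constructor
  · rw [e3]
    exact Piece.cond_inter hG'
  · rw [e3, Pe_cond, ← e2]
    field_simp

/-- **(B)** -/
theorem fi_of (k : ℕ) : FiStmt k := by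
  refine ⟨46 * k + 400, by
    have : (0 : ℝ) ≤ k := Nat.cast_nonneg k
    linarith, ?_⟩
  intro m D S c sn G b o φ' φ L' hφ' a X X' x' Ec R e₀ ρ₀ κ room ha hba hX hXX hx' hax hxo hκ hroom
    hlx q0 q1 q2 q3 hIN hIU η ϖ hη hϖ a₁ ha₁
  have L := ladT_wk L' hφ'
  have hφ := L.φ0
  have hk0 : (0 : ℝ) ≤ k * φ := by positivity
  have eC : (46 * (k : ℝ) + 400) * φ = 46 * (k * φ) + 400 * φ := by ring
  rw [eC] at hroom q0 q1 q2
  simp only [eC] at hlx q3
  obtain ⟨n, w, hw, hpick⟩ := lev_pick L ha hx' hba hax hxo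
  obtain ⟨R₁, hR₁⟩ := exists_nat_ge ((X' + 10 * φ) / φ)
  obtain ⟨Nc, hNc⟩ : ∃ Nc : ℕ, Nc = ⌈(X' - X + φ) / φ⌉₊ + 2 := ⟨_, rfl⟩
  have hNc0 : (0 : ℝ) < Nc := by
    rw [hNc]
    positivity
  obtain ⟨ρ, hρ⟩ : ∃ ρ : ℝ, ρ = η / 16 := ⟨_, rfl⟩
  have hρ0 : 0 < ρ := by rw [hρ]; positivity
  obtain ⟨ϖ₁, hϖ₁⟩ : ∃ ϖ₁ : ℝ, ϖ₁ = η / (4 * Nc * (X' - X + 1)) := ⟨_, rfl⟩
  have hXX1 : 0 < X' - X + 1 := by linarith
  have hϖ₁0 : 0 < ϖ₁ := by rw [hϖ₁]; positivity
  have hϖ₁e : Nc * ϖ₁ * (X' - X + 1) = η / 4 := by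
    rw [hϖ₁]
    field_simp
  obtain ⟨ϖ', hϖ'⟩ : ∃ ϖ' : ℝ, ϖ' = ϖ₁ * (ϖ * (1 / 2)) := ⟨_, rfl⟩
  have hϖ'0 : 0 < ϖ' := by rw [hϖ']; positivity
  have hlt : 0 ≤ Real.log 2 := (Real.log_pos one_lt_two).le
  have hlt1 : Real.log 2 ≤ 1 := by
    have := Real.log_two_lt_d9
    linarith
  -- the windows
  have hwlev : ∀ t ≤ n, |(sn (k + 1) (w t) - sn (k + 1) a) - (sn k (w t) - sn k a)| ≤ φ :=
    fun t ht => L.et a ha (w t) (hw t ht).1 hba (hw t ht).2.1 ((hw t ht).2.2.trans hxo)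
  have hwst : ∀ t ≤ n, sn (k + 1) a + (w t - a) ≤ sn (k + 1) (w t) + φ :=
    fun t ht => L.st (k + 1) (by omega) le_rfl a ha (w t) (hw t ht).1 hba (hw t ht).2.1
      ((hw t ht).2.2.trans hxo)
  -- few heights
  have hTP : Bas S (fun J F A => ∀ t < n + 1, ∀ l < 2,
      sn (k + 1) (w t) ≤ sn (k + 1) a + X' + 63 * φ →
      ∀ Hb H : LnT F → ℕ → MvPolynomial (Option (Fin m)) ℝ,
      LDP F c k 1 D b a φ Ec sn A Hb H → ∀ B : F.Ω → Prop, Sub B A → ϖ' * Pe F.p A ≤ Pe F.p B →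
      CH (Pool.Agent.H49.Ent.cond F.p B True)
        (th0 F c (k + l) ⌊a * J⌋₊ H (sn (k + l) (w t) - 41 * φ))
        (fun ω => (cR F B (w t) ω, ((fun l : Fin k => F.X J ω (c l)), F.W ω))) ≤ ρ * J) := by
    refine Bas.all (n + 1) fun t ht => Bas.all 2 fun l hl => ?_
    by_cases hgd : sn (k + 1) (w t) ≤ sn (k + 1) a + X' + 63 * φ
    swap
    · exact Bas.mono 0 (pos_bas L.pos) fun J _ F A _ h => absurd h hgd
    have h1 := hwst t (by omega)
    have h2 := abs_le.1 (hwlev t (by omega))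
    have h3 : sn (k + l) (w t) ≤ sn (k + l) a + X' + 64 * φ := by
      rcases Nat.lt_or_ge l 1 with h | h
      · obtain rfl : l = 0 := by omega
        rw [add_zero]
        linarith [h2.1]
      · obtain rfl : l = 1 := by omega
        linarith
    refine Bas.mono 0 (tp_few (Δ := X' + (26 * k + 170) * φ) (N := sn (k + l) (w t) - 41 * φ) L
      (by omega : l ≤ 1) ha (hw t (by omega)).1 hba (hw t (by omega)).2.1
      ((hw t (by omega)).2.2.trans hxo) (by linarith) (by linarith)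
      (fun l hl => by linarith [q3 l hl]) (by linarith) (by linarith) D Ec hρ0 hϖ'0) ?_
    exact fun J _ F A h _ => h
  have hINs : Bas S (fun J F A => ∀ t < n + 1, ∀ r < R₁ + 1, ∀ H : LnT F → ℕ →
      MvPolynomial (Option (Fin m)) ℝ, OkT F c k D a φ e₀ ρ₀ sn A H → ∀ B : F.Ω → Prop,
      Sub B A → ϖ' * Pe F.p A ≤ Pe F.p B → ∀ (kL : LnT F → Fin 3 → ℤ) (kP : PtT F → Fin 3 → ℤ),
      (∀ ω, B ω → kP (ptr F J ω) = kL (slam F ⌊a * J⌋₊ ω)) →
      imN F c k ⌊a * J⌋₊ H B (w t) kL (sn (k + 1) (w t)) ((room + sn k a - sn (k + 1) a) * J)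
        (sn (k + 1) a + X' - r * φ) κ) := by
    refine Bas.all (n + 1) fun t ht => Bas.all (R₁ + 1) fun r hr => ?_
    have hr0 : (0 : ℝ) ≤ r * φ := by positivity
    refine Bas.mono 0 (hIN ϖ' hϖ'0 (w t) (hw t (by omega)).1 (hw t (by omega)).2.1
      (hw t (by omega)).2.2 (sn (k + 1) a + X' - r * φ) (by linarith)) ?_
    exact fun J _ F A h H hH B hB hBP kL kP hcl K hK Δ Y β hβ =>
      h H hH B hB hBP _ kP kL hcl K hK Δ Y β hβ
  have hIUs : Bas S (fun J F A => ∀ t < n + 1, ∀ r < R₁ + 1, ∀ H : LnT F → ℕ →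
      MvPolynomial (Option (Fin m)) ℝ, OkT F c k D a φ e₀ ρ₀ sn A H → ∀ B : F.Ω → Prop,
      Sub B A → ϖ' * Pe F.p A ≤ Pe F.p B →
      imU F c k ⌊a * J⌋₊ H B (w t) (sn k (w t)) (sn k a + X' - r * φ) κ) := by
    refine Bas.all (n + 1) fun t ht => Bas.all (R₁ + 1) fun r hr => ?_
    have hr0 : (0 : ℝ) ≤ r * φ := by positivity
    refine Bas.mono 0 (hIU ϖ' hϖ'0 (w t) (hw t (by omega)).1 (hw t (by omega)).2.1
      (hw t (by omega)).2.2 (sn k a + X' - r * φ) (by linarith)) ?_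
    exact fun J _ F A h H hH B hB hBP Δ Y β hβ => h H hH B hB hBP Δ Y β hβ
  obtain ⟨J₁, hJ₁⟩ := exists_nat_ge (10 / φ + 60 / η + 4)
  refine Bas.mono J₁ (((hTP.and hINs).and hIUs).and (pos_bas L.pos)) ?_
  rintro J hJ F A ⟨⟨⟨HT, HN⟩, HU⟩, hA0⟩ Hb H hS hOk g q hg hq B N₀ υ z Yb hBA hBP hY u hu
  have hJ0 : (0 : ℝ) ≤ J := Nat.cast_nonneg J
  have hJ1 : (J₁ : ℝ) ≤ J := by exact_mod_cast hJ
  have hp1 : 0 < 10 / φ := by positivity
  have hp2 : 0 < 60 / η := by positivity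
  have hJφ : 10 ≤ φ * J := by
    have h1 : 10 / φ ≤ J := by linarith
    rw [div_le_iff₀ hφ] at h1
    linarith
  have hJη : 60 ≤ η * J := by
    have h1 : 60 / η ≤ J := by linarith
    rw [div_le_iff₀ hη] at h1
    linarith
  have hJ4 : 4 ≤ (J : ℝ) := by linarith
  have hB0 : 0 < Pe F.p B := lt_of_lt_of_le (by positivity) hBP
  rw [abs_le] at hq
  have ha₁r : (1 : ℝ) ≤ a₁ := by exact_mod_cast ha₁
  have huq : ((a₁ * u : ℕ) : ℝ) ≤ (X' - X) * J + 2 := by
    have : ((a₁ * u : ℕ) : ℝ) ≤ q := by exact_mod_cast hu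
    linarith
  have huu : (u : ℝ) ≤ (X' - X) * J + 2 := by
    have : (u : ℝ) ≤ ((a₁ * u : ℕ) : ℝ) := by
      exact_mod_cast Nat.le_mul_of_pos_left u (by omega)
    linarith
  intro j kL kP ka Ev hk1 hka hcl i hi
  intro G' hG'E hG'P hG'0
  rw [Finset.mem_range] at hi
  have hiu : (((i + 1) * u : ℕ) : ℝ) ≤ (X' - X) * J + 2 := by
    have : (((i + 1) * u : ℕ) : ℝ) ≤ ((a₁ * u : ℕ) : ℝ) := by
      exact_mod_cast Nat.mul_le_mul_right u (by omega : i + 1 ≤ a₁)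
    linarith
  have hp1l := isLaw_cond F.isLaw hB0
  have hp2l := isLaw_cond hp1l hG'0
  obtain ⟨b', hb'⟩ : ∃ b' : ℝ, b' = u * Real.log 2 - (200 * φ + 2 * κ + 4 * ρ) * J - 30 :=
    ⟨_, rfl⟩
  obtain ⟨I, hI⟩ : ∃ I : F.Ω → ℤ, I = fun ω => ⌊(∑ l, ka (kL (slam F ⌊a * J⌋₊ ω)) l *
    (dg (fun ω => z (ptr F J ω)) u i ω l : ℝ)) / 2 ^ 0⌋ := ⟨_, rfl⟩
  -- the final numbers
  have hfin : (1 - Nc * ϖ₁) * b' ≤ CH (Pool.Agent.H49.Ent.cond
      (Pool.Agent.H49.Ent.cond F.p B True) G' True) I (cE F ⌊a * J⌋₊ u i z Yb kL) ∨ b' < 0 →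
      u * Real.log 2 - ((46 * k + 400) * φ + (46 * k + 400) * κ + η) * J ≤
      CH (Pool.Agent.H49.Ent.cond
      (Pool.Agent.H49.Ent.cond F.p B True) G' True) I (cE F ⌊a * J⌋₊ u i z Yb kL) := by
    intro h
    have hkκ : 0 ≤ (k : ℝ) * κ := mul_nonneg (Nat.cast_nonneg k) hκ
    have e1 : ((46 * k + 400) * φ + (46 * k + 400) * κ + η) * (J : ℝ) =
        (200 * φ + 2 * κ + 4 * ρ) * J + ((46 * (k * φ) + 200 * φ + 46 * (k * κ) + 398 * κ) * J +
          3 * (η * J) / 4) := by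
      rw [hρ]
      ring
    have e2 : 0 ≤ (46 * (k * φ) + 200 * φ + 46 * (k * κ) + 398 * κ) * (J : ℝ) :=
      mul_nonneg (by linarith) hJ0
    rcases h with h | h
    · refine le_trans ?_ h
      have e3 : b' ≤ (X' - X + 1) * J := by
        have h1 : u * Real.log 2 ≤ u := mul_le_of_le_one_right (Nat.cast_nonneg u) hlt1
        have h2 : 0 ≤ (200 * φ + 2 * κ + 4 * ρ) * (J : ℝ) := mul_nonneg (by linarith) hJ0
        rw [hb']
        linarith
      have e4 : Nc * ϖ₁ * b' ≤ η / 4 * J := by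
        calc Nc * ϖ₁ * b' ≤ Nc * ϖ₁ * ((X' - X + 1) * J) :=
              mul_le_mul_of_nonneg_left e3 (by positivity)
          _ = Nc * ϖ₁ * (X' - X + 1) * J := by ring
          _ = η / 4 * J := by rw [hϖ₁e]
      have e5 : (1 - Nc * ϖ₁) * b' = b' - Nc * ϖ₁ * b' := by ring
      rw [e5, e1, hb'] at *
      linarith
    · refine le_trans ?_ (CH_nonneg hp2l.nonneg _ _)
      rw [e1]
      rw [hb'] at h
      linarith
  have goal' : (1 - Nc * ϖ₁) * b' ≤ CH (Pool.Agent.H49.Ent.cond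
      (Pool.Agent.H49.Ent.cond F.p B True) G' True) I (cE F ⌊a * J⌋₊ u i z Yb kL) ∨ b' < 0 := by
    rcases lt_or_ge b' 0 with hb0 | hb0
    · exact Or.inr hb0
    left
    -- one cell
    have cell : ∀ (φc : F.Ω → ℕ) (j' : ℕ), ϖ₁ ≤ Pe (Pool.Agent.H49.Ent.cond
        (Pool.Agent.H49.Ent.cond F.p B True) G' True) (fun ω => φc ω = j') →
        ((∀ k, ka k 1 = 1) ∨ ((∀ k, ka k 0 = 1) ∧
      ((∀ ω, (((B ω ∧ 0 < F.p ω) ∧ G' ω) ∧ φc ω = j') →
        |ka (kL (slam F ⌊a * J⌋₊ ω)) 1| * 2 ^ u ≤ 1) ∨ ∃ t₀ : ℝ, 0 ≤ t₀ ∧ t₀ ≤ u ∧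
        ∀ ω, (((B ω ∧ 0 < F.p ω) ∧ G' ω) ∧ φc ω = j') →
          (2 : ℝ) ^ (-(t₀ + φ * J)) ≤ |ka (kL (slam F ⌊a * J⌋₊ ω)) 1| ∧
          |ka (kL (slam F ⌊a * J⌋₊ ω)) 1| ≤ 2 ^ (-t₀)))) →
        b' ≤ CH (Pool.Agent.H49.Ent.cond (Pool.Agent.H49.Ent.cond
          (Pool.Agent.H49.Ent.cond F.p B True) G' True) (fun ω => φc ω = j') True) I
            (cE F ⌊a * J⌋₊ u i z Yb kL) := by
      intro φc j' hm hp
      obtain ⟨c1, c2⟩ := cond_three F.isLaw (C := fun ω => φc ω = j') hB0 hG'0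
      rw [c1]
      obtain ⟨E, hE⟩ : ∃ E : F.Ω → Prop, E = fun ω => ((B ω ∧ 0 < F.p ω) ∧ G' ω) ∧ φc ω = j' :=
        ⟨_, rfl⟩
      rw [← hE] at c2 ⊢
      have hEP : ϖ' * Pe F.p A ≤ Pe F.p E := by
        rw [c2, hϖ', mul_assoc, mul_assoc]
        refine mul_le_mul hm (mul_le_mul hG'P hBP (by positivity) (hϖ.le.trans hG'P))
          (by positivity) (hϖ₁0.le.trans hm)
      have hE0 : 0 < Pe F.p E := lt_of_lt_of_le (by positivity) hEP
      have hEB : Sub E B := fun ω hω => by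
        rw [hE] at hω
        exact hω.1.1.1
      have hEA : Sub E A := fun ω hω => hBA ω (hEB ω hω)
      have hclE : ∀ ω, E ω → kL (slam F ⌊a * J⌋₊ ω) = kP (ptr F J ω) := fun ω hω => by
        rw [hE] at hω
        refine hcl ω ?_ (hG'E ω hω.1.2)
        exact (cond_pos_iff F.isLaw.nonneg B True ω).2 ⟨hω.1.1.2, eq_true hω.1.1.1⟩
      rw [hb', hI]
      exact blk_ev (X := X) (X' := X') (κ := κ) (ρ := ρ) (room := room) (g := g) (kP := kP)
        (w := w) (n := n) (R₁ := R₁) (sn := sn) (b := b) (N₀ := N₀) (Hb := Hb) hφ hJφ hY hEB hBA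
        hE0 (fun t ht => ⟨(hw t ht).2.1, ((hw t ht).2.2.trans hxo).trans L.o1.le⟩) hclE hg hwlev
        (fun y hy1 hy2 => hpick y hy1 (by
          have := hlx 1 le_rfl
          linarith)) hX hR₁
        (fun t ht hgd l hl => HT t (by omega) l (by omega) hgd Hb H hS.ldp E hEA hEP)
        (fun t ht r hr => HN t (by omega) r (by omega) H hOk E hEA hEP kL kP
          (fun ω hω => (hclE ω hω).symm))
        (fun t ht r hr => HU t (by omega) r (by omega) H hOk E hEA hEP) (by linarith) hiu hka hκ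
        hρ0.le (by rw [hE]; exact hp)
    have hjj : j = 0 ∨ j = 1 := by
      fin_cases j
      · exact Or.inl rfl
      · exact Or.inr rfl
    rcases hjj with hj | hj
    swap
    · -- the pivot at the second place
      subst hj
      refine ch_low hp2l I (cE F ⌊a * J⌋₊ u i z Yb kL) (fun _ => 0) (N := Nc)
        (fun ω _ => by rw [hNc]; omega) hb0 hϖ₁0.le fun j' _ hm _ => ?_
      exact cell (fun _ => 0) j' hm (Or.inl hk1)
    · -- the pivot at the first place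
      subst hj
      obtain ⟨lam, hlam⟩ : ∃ lam : F.Ω → ℝ, lam = fun ω => |ka (kL (slam F ⌊a * J⌋₊ ω)) 1| :=
        ⟨_, rfl⟩
      obtain ⟨f, hf⟩ : ∃ f : ℝ, f = φ * J := ⟨_, rfl⟩
      have hf0 : 0 < f := by
        rw [hf]
        linarith
      obtain ⟨φc, hφc⟩ : ∃ φc : F.Ω → ℕ, φc = fun ω =>
        if lam ω * 2 ^ u ≤ 1 then 0 else ⌊(-Real.logb 2 (lam ω)) / f⌋₊ + 1 := ⟨_, rfl⟩
      have hlam1 : ∀ ω, lam ω ≤ 1 := fun ω => by
        rw [hlam]
        exact hka _ 1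
      -- the logarithm
      have hlog : ∀ ω, ¬ lam ω * 2 ^ u ≤ 1 → (2 : ℝ) ^ (-(-Real.logb 2 (lam ω))) = lam ω ∧
          0 ≤ -Real.logb 2 (lam ω) ∧ -Real.logb 2 (lam ω) < u := by
        intro ω h
        push Not at h
        have hpu : (0 : ℝ) < 2 ^ u := by positivity
        have hl0 : 0 < lam ω := by
          by_contra h'
          have : lam ω * 2 ^ u ≤ 0 := mul_nonpos_of_nonpos_of_nonneg (not_lt.1 h') hpu.le
          linarith
        refine ⟨?_, ?_, ?_⟩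
        · rw [neg_neg]
          exact Real.rpow_logb (by norm_num) (by norm_num) hl0
        · have := Real.logb_nonpos (b := 2) (by norm_num) hl0.le (hlam1 ω)
          linarith
        · have h1 : Real.logb 2 (1 / 2 ^ u) < Real.logb 2 (lam ω) := by
            refine Real.logb_lt_logb (by norm_num) (by positivity) ?_
            rw [div_lt_iff₀ hpu]
            exact h
          have h2 : Real.logb 2 (1 / 2 ^ u) = -(u : ℝ) := by
            rw [one_div, Real.logb_inv, Real.logb_pow, Real.logb_self_eq_one (by norm_num), mul_one]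
          rw [h2] at h1
          linarith
      refine ch_low hp2l I (cE F ⌊a * J⌋₊ u i z Yb kL) φc (N := Nc) (fun ω _ => ?_) hb0 hϖ₁0.le
        fun j' _ hm hm0 => ?_
      · rw [hφc, hNc]
        show (if lam ω * 2 ^ u ≤ 1 then 0 else ⌊(-Real.logb 2 (lam ω)) / f⌋₊ + 1) < _
        split_ifs with h
        · omega
        · obtain ⟨-, h2, h3⟩ := hlog ω h
          have h4 : (-Real.logb 2 (lam ω)) / f ≤ (X' - X + φ) / φ := by
            rw [div_le_div_iff₀ hf0 hφ]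
            have h5 : (X' - X + φ) * f = φ * ((X' - X) * J + f) := by
              rw [hf]
              ring
            rw [h5, mul_comm]
            refine mul_le_mul_of_nonneg_left ?_ hφ.le
            rw [hf]
            linarith
          have h6 : ⌊(-Real.logb 2 (lam ω)) / f⌋₊ ≤ ⌈(X' - X + φ) / φ⌉₊ := by
            have := Nat.floor_le_floor h4
            exact this.trans (Nat.floor_le_ceil _)
          omega
      · refine cell φc j' hm (Or.inr ⟨hk1, ?_⟩)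
        rcases Nat.eq_zero_or_pos j' with hj | hj
        · left
          intro ω hω
          have h1 := hω.2
          rw [hφc, hj] at h1
          have h2 : (if lam ω * 2 ^ u ≤ 1 then 0 else ⌊(-Real.logb 2 (lam ω)) / f⌋₊ + 1) = 0 := h1
          split_ifs at h2 with h
          · rw [hlam] at h
            exact h
        · right
          have key : ∀ ω, φc ω = j' → ¬ lam ω * 2 ^ u ≤ 1 ∧
              ⌊(-Real.logb 2 (lam ω)) / f⌋₊ = j' - 1 := by
            intro ω h1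
            rw [hφc] at h1
            have h2 : (if lam ω * 2 ^ u ≤ 1 then 0 else
              ⌊(-Real.logb 2 (lam ω)) / f⌋₊ + 1) = j' := h1
            split_ifs at h2 with h
            · omega
            · exact ⟨h, by omega⟩
          have key2 : ∀ ω, φc ω = j' → ((j' - 1 : ℕ) : ℝ) * f ≤ -Real.logb 2 (lam ω) ∧
              -Real.logb 2 (lam ω) ≤ ((j' - 1 : ℕ) : ℝ) * f + f ∧ -Real.logb 2 (lam ω) < u ∧
              (2 : ℝ) ^ (-(-Real.logb 2 (lam ω))) = lam ω := by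
            intro ω h1
            obtain ⟨h2, h3⟩ := key ω h1
            obtain ⟨h4, h5, h6⟩ := hlog ω h2
            have h7 := Nat.floor_le (show 0 ≤ (-Real.logb 2 (lam ω)) / f by positivity)
            have h8 := (Nat.lt_floor_add_one ((-Real.logb 2 (lam ω)) / f)).le
            rw [h3] at h7 h8
            rw [le_div_iff₀ hf0] at h7
            rw [div_le_iff₀ hf0] at h8
            exact ⟨h7, by linarith, h6, h4⟩
          obtain ⟨ω₀, h9⟩ : ∃ ω, φc ω = j' := by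
            by_contra h
            push Not at h
            have : Pe (Pool.Agent.H49.Ent.cond (Pool.Agent.H49.Ent.cond F.p B True) G' True)
                (fun ω => φc ω = j') = 0 := by
              classical
              unfold Pe law
              exact Finset.sum_eq_zero fun ω _ => by simp [h ω]
            linarith
          obtain ⟨k1, -, k3, -⟩ := key2 ω₀ h9
          refine ⟨((j' - 1 : ℕ) : ℝ) * f, by positivity, by linarith, fun ω hω => ?_⟩
          obtain ⟨k4, k5, -, k7⟩ := key2 ω hω.2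
          have k8 : |ka (kL (slam F ⌊a * J⌋₊ ω)) 1| = lam ω := by rw [hlam]
          rw [k8, ← hf]
          constructor
          · calc (2 : ℝ) ^ (-(((j' - 1 : ℕ) : ℝ) * f + f)) ≤
                  2 ^ (-(-Real.logb 2 (lam ω))) := pw_mono (by linarith)
              _ = lam ω := k7
          · calc lam ω = (2 : ℝ) ^ (-(-Real.logb 2 (lam ω))) := k7.symm
              _ ≤ _ := pw_mono (by linarith)
  rw [hI] at hfin goal'
  exact hfin goal'

end Pool.STR16
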