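import Pool.Agent.H16.STR.Fie

/-!
# One image of a block, the numbers

`lev_pick`: a window at a given level. `blk_ev`: the image of one block on one event.
-/

set_option autoImplicit false

namespace Pool.STR16

open Finset Real MvPolynomial
open Pool.Agent.H49.Ent Pool.Agent.H32.Dense
open Pool.STK hiding pr2
open Pool.KA Pool.KSAT Pool.K2S Pool.PB Pool.S6C
open Pool.GEN Pool.CHT Pool.CHX Pool.ISO Pool.LA91 Pool.AVG71 Pool.AVG5 Pool.D2F2 Pool.AVG57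
open Pool.RCD Pool.AVG96 Pool.OWN68 Pool.V0F Pool.V0Q Pool.V0T
open Pool.UNJ (ceI)
open Pool.T4H (dg tp floor_gap)

variable {m : ℕ} {S : PCl m} {c : ℕ → Fin m} {k : ℕ} {sn : ℕ → ℝ → ℝ} {G : Set ℝ}
  {b o φ : ℝ}

/-- **A window at a given level.** -/
theorem lev_pick (L : LadT S c k 1 sn G b o φ) {a x' : ℝ} (ha : a ∈ G) (hx : x' ∈ G) (hba : b ≤ a)
    (hax : a ≤ x') (hxo : x' ≤ o) : ∃ (n : ℕ) (w : ℕ → ℝ),
    (∀ t ≤ n, w t ∈ G ∧ a ≤ w t ∧ w t ≤ x') ∧ ∀ y, sn (k + 1) a ≤ y → y ≤ sn (k + 1) x' →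
    ∃ t ≤ n, y ≤ sn (k + 1) (w t) ∧ sn (k + 1) (w t) ≤ y + 2 * φ := by
  obtain ⟨φ₁, h1, h2, h3, h4⟩ := L.fm
  obtain ⟨n', hn'⟩ := exists_nat_ge ((x' - a) / φ₁)
  obtain ⟨N, w, w0, wN, hw, hs⟩ := gseq (h := 3 * φ₁) (ρ₀ := φ₁) ha (by linarith) n' x' hx hax (by
    rw [div_le_iff₀ h1] at hn'
    linarith) (fun x g1 g2 => h3 x (hba.trans g1) (g2.trans hxo))
  refine ⟨N, w, hw, fun y hy1 hy2 => ?_⟩
  have key : ∀ t ≤ N, (∃ t' ≤ N, y ≤ sn (k + 1) (w t') ∧ sn (k + 1) (w t') ≤ y + 2 * φ) ∨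
      y ≤ sn (k + 1) (w t) := by
    intro t
    induction t with
    | zero =>
      intro _
      right
      rw [w0]
      exact hy2
    | succ t ih =>
      intro ht
      rcases ih (by omega) with h5 | h5
      · exact Or.inl h5
      · rcases le_or_gt y (sn (k + 1) (w (t + 1))) with h6 | h6
        · exact Or.inr h6
        · left
          refine ⟨t, by omega, h5, ?_⟩
          obtain ⟨g1, g2⟩ := hs t (by omega)
          have h7 := h4 (k + 1) (by omega) le_rfl (w (t + 1)) (hw _ ht).1 (w t)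
            (hw t (by omega)).1 (hba.trans (hw _ ht).2.1) g1 ((hw t (by omega)).2.2.trans hxo) g2
          linarith
  rcases key N le_rfl with h5 | h5
  · exact h5
  · rw [wN] at h5
    refine ⟨N, le_rfl, ?_⟩
    rw [wN]
    have := L.φ0
    exact ⟨h5, by linarith⟩

/-- A natural number between. -/
theorem nat_btw {y f : ℝ} (hy : 0 ≤ y) (hf : 0 < f) : y ≤ ⌈y / f⌉₊ * f ∧ ⌈y / f⌉₊ * f ≤ y + f := by
  have h1 := Nat.le_ceil (y / f)
  have h2 := Nat.ceil_lt_add_one (show 0 ≤ y / f by positivity)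
  constructor
  · rwa [div_le_iff₀ hf] at h1
  · have h3 : (⌈y / f⌉₊ : ℝ) * f ≤ (y / f + 1) * f := mul_le_mul_of_nonneg_right h2.le hf.le
    have h4 : (y / f + 1) * f = y + f := by field_simp
    linarith

section

variable {J : ℕ} {F : Fam m J} {D : ℕ} {a X X' κ ρ room : ℝ} {N₀ : Fin k → ℕ}
  {g : Fin 2 → ℕ} {A B E : F.Ω → Prop} {Hb H : LnT F → ℕ → MvPolynomial (Option (Fin m)) ℝ}
  {υ : Type} {z : PtT F → Fin 2 → ℤ} {Yb : PtT F → υ} {kL : LnT F → Fin 3 → ℤ}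
  {kP : PtT F → Fin 3 → ℤ} {ka : (Fin 3 → ℤ) → Fin 2 → ℝ} {u i n R₁ : ℕ} {w : ℕ → ℝ}

/-- **The image of one block on one event.** -/
theorem blk_ev (hφ : 0 < φ) (hJ : 10 ≤ φ * J) (hY : StY F c k D b a N₀ g A B Hb H z Yb)
    (hEB : Sub E B) (hBA : Sub B A) (hE : 0 < Pe F.p E)
    (hw : ∀ t ≤ n, a ≤ w t ∧ w t ≤ 1)
    (hcl : ∀ ω, E ω → kL (slam F ⌊a * J⌋₊ ω) = kP (ptr F J ω))
    -- the levels
    (hg : ∀ i : Fin 2, |(g i : ℝ) - (sn (k + i) a + X') * J| ≤ 2)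
    (hlev : ∀ t ≤ n, |(sn (k + 1) (w t) - sn (k + 1) a) - (sn k (w t) - sn k a)| ≤ φ)
    (hpick : ∀ y, sn (k + 1) a ≤ y → y ≤ sn (k + 1) a + X' + 61 * φ →
      ∃ t ≤ n, y ≤ sn (k + 1) (w t) ∧ sn (k + 1) (w t) ≤ y + 2 * φ)
    (hX : 0 ≤ X) (hR₁ : (X' + 10 * φ) / φ ≤ R₁)
    -- the inputs
    (htp : ∀ t ≤ n, sn (k + 1) (w t) ≤ sn (k + 1) a + X' + 63 * φ → ∀ l ≤ 1,
      CH (Pool.Agent.H49.Ent.cond F.p E True)
        (th0 F c (k + l) ⌊a * J⌋₊ H (sn (k + l) (w t) - 41 * φ))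
        (fun ω => (cR F E (w t) ω, ((fun l : Fin k => F.X J ω (c l)), F.W ω))) ≤ ρ * J)
    (hin : ∀ t ≤ n, ∀ r ≤ R₁, imN F c k ⌊a * J⌋₊ H E (w t) kL (sn (k + 1) (w t))
      ((room + sn k a - sn (k + 1) a) * J) (sn (k + 1) a + X' - r * φ) κ)
    (hiu : ∀ t ≤ n, ∀ r ≤ R₁, imU F c k ⌊a * J⌋₊ H E (w t) (sn k (w t))
      (sn k a + X' - r * φ) κ) (hroom : X' + 2 * φ ≤ room)
    -- the block
    (hq : (((i + 1) * u : ℕ) : ℝ) ≤ (X' - X) * J + 2) (hka : ∀ k l, |ka k l| ≤ 1)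
    (hκ : 0 ≤ κ) (hρ : 0 ≤ ρ) (hp : (∀ k, ka k 1 = 1) ∨ ((∀ k, ka k 0 = 1) ∧
      ((∀ ω, E ω → |ka (kL (slam F ⌊a * J⌋₊ ω)) 1| * 2 ^ u ≤ 1) ∨ ∃ t₀ : ℝ, 0 ≤ t₀ ∧ t₀ ≤ u ∧
        ∀ ω, E ω → (2 : ℝ) ^ (-(t₀ + φ * J)) ≤ |ka (kL (slam F ⌊a * J⌋₊ ω)) 1| ∧
          |ka (kL (slam F ⌊a * J⌋₊ ω)) 1| ≤ 2 ^ (-t₀)))) :
    u * Real.log 2 - (200 * φ + 2 * κ + 4 * ρ) * J - 30 ≤
      CH (Pool.Agent.H49.Ent.cond F.p E True)
        (fun ω => ⌊(∑ l, ka (kL (slam F ⌊a * J⌋₊ ω)) l *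
          (dg (fun ω => z (ptr F J ω)) u i ω l : ℝ)) / 2 ^ 0⌋) (cE F ⌊a * J⌋₊ u i z Yb kL) := by
  have hJ0 : (0 : ℝ) < J := by
    by_contra h
    have : (J : ℝ) ≤ 0 := not_lt.1 h
    have := mul_le_mul_of_nonneg_left this hφ.le
    linarith
  have hl0 : 0 < Real.log 2 := Real.log_pos one_lt_two
  have hl1 : Real.log 2 ≤ 1 := by
    have := Real.log_two_lt_d9
    linarith
  have l31 : Real.log 31 ≤ 5 := by
    have h1 : Real.log 31 ≤ Real.log (2 ^ 5) := Real.log_le_log (by norm_num) (by norm_num)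
    rw [Real.log_pow] at h1
    push_cast at h1
    linarith
  have l23 : Real.log 23 ≤ 5 := (Real.log_le_log (by norm_num) (by norm_num)).trans l31
  have l17 : Real.log 17 ≤ 5 := (Real.log_le_log (by norm_num) (by norm_num)).trans l31
  have l15 : Real.log 15 ≤ 4 := by
    have h1 : Real.log 15 ≤ Real.log (2 ^ 4) := Real.log_le_log (by norm_num) (by norm_num)
    rw [Real.log_pow] at h1
    push_cast at h1
    linarith
  obtain ⟨f, hf⟩ : ∃ f : ℝ, f = φ * J := ⟨_, rfl⟩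
  have hf0 : 10 ≤ f := by rw [hf]; exact hJ
  rw [← hf] at hp
  obtain ⟨nt, hnt⟩ : ∃ nt : ℝ, nt = (((i + 1) * u : ℕ) : ℝ) := ⟨_, rfl⟩
  obtain ⟨nb, hnb⟩ : ∃ nb : ℝ, nb = ((i * u : ℕ) : ℝ) := ⟨_, rfl⟩
  have hnn : nt = nb + u := by
    rw [hnt, hnb]
    push_cast
    ring
  have hnb0 : 0 ≤ nb := by rw [hnb]; positivity
  have hu0 : (0 : ℝ) ≤ u := Nat.cast_nonneg u
  rw [← hnt] at hq
  obtain ⟨g0, hg0⟩ : ∃ g0 : ℝ, g0 = (g 0 : ℝ) := ⟨_, rfl⟩
  obtain ⟨g1, hg1⟩ : ∃ g1 : ℝ, g1 = (g 1 : ℝ) := ⟨_, rfl⟩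
  obtain ⟨s0, hs0⟩ : ∃ s0 : ℝ, s0 = sn k a * J := ⟨_, rfl⟩
  obtain ⟨s1, hs1⟩ : ∃ s1 : ℝ, s1 = sn (k + 1) a * J := ⟨_, rfl⟩
  obtain ⟨x₁, hx₁⟩ : ∃ x₁ : ℝ, x₁ = X' * J := ⟨_, rfl⟩
  have G0 : |g0 - (s0 + x₁)| ≤ 2 := by
    have := hg 0
    rw [hg0, hs0, hx₁]
    rw [show k + ((0 : Fin 2) : ℕ) = k by simp, add_mul] at this
    exact this
  have G1 : |g1 - (s1 + x₁)| ≤ 2 := by
    have := hg 1
    rw [hg1, hs1, hx₁]
    rw [show k + ((1 : Fin 2) : ℕ) = k + 1 by simp, add_mul] at this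
    exact this
  rw [abs_le] at G0 G1
  have hXJ : 0 ≤ X * J := mul_nonneg hX hJ0.le
  have hq' : nt ≤ x₁ + 2 := by
    rw [hx₁]
    have : (X' - X) * J = X' * J - X * J := by ring
    linarith
  -- the window
  obtain ⟨t, ht, t1, t2⟩ := hpick (sn (k + 1) a + X' - nt / J + 60 * φ) (by
      have : nt / J ≤ X' + φ := by
        rw [div_le_iff₀ hJ0, add_mul, ← hx₁, ← hf]
        linarith
      linarith) (by
      have : 0 ≤ nt / J := by
        rw [hnn]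
        positivity
      linarith)
  obtain ⟨L1, hL1⟩ : ∃ L1 : ℝ, L1 = sn (k + 1) (w t) * J := ⟨_, rfl⟩
  obtain ⟨L0, hL0⟩ : ∃ L0 : ℝ, L0 = sn k (w t) * J := ⟨_, rfl⟩
  have hntJ : nt / J * J = nt := by field_simp
  have w1 : s1 + x₁ - nt + 60 * f ≤ L1 := by
    have := mul_le_mul_of_nonneg_right t1 hJ0.le
    rw [hL1, hs1, hx₁, hf]
    have e1 : (sn (k + 1) a + X' - nt / J + 60 * φ) * J = sn (k + 1) a * J + X' * J -
      nt / J * J + 60 * (φ * J) := by ring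
    rw [e1, hntJ] at this
    exact this
  have w2 : L1 ≤ s1 + x₁ - nt + 62 * f := by
    have := mul_le_mul_of_nonneg_right t2 hJ0.le
    rw [hL1, hs1, hx₁, hf]
    have e1 : (sn (k + 1) a + X' - nt / J + 60 * φ + 2 * φ) * J = sn (k + 1) a * J + X' * J -
      nt / J * J + 62 * (φ * J) := by ring
    rw [e1, hntJ] at this
    exact this
  have w3 : |(L1 - s1) - (L0 - s0)| ≤ f := by
    have h1 := hlev t ht
    rw [hL1, hs1, hL0, hs0, hf]
    have e1 : sn (k + 1) (w t) * J - sn (k + 1) a * J - (sn k (w t) * J - sn k a * J) =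
      ((sn (k + 1) (w t) - sn (k + 1) a) - (sn k (w t) - sn k a)) * J := by ring
    rw [e1, abs_mul, abs_of_pos hJ0]
    exact mul_le_mul_of_nonneg_right h1 hJ0.le
  rw [abs_le] at w3
  have hgood : sn (k + 1) (w t) ≤ sn (k + 1) a + X' + 63 * φ := by
    have : 0 ≤ nt / J := by
      rw [hnn]
      positivity
    linarith
  -- the digits above the block
  have hN : ∀ l : Fin 2, (g l : ℝ) - (((i + 1) * u : ℕ) : ℝ) ≤
      (fun l : ℕ => sn (k + l) (w t) - 41 * φ) l * J := by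
    intro l
    rw [← hnt]
    show (g l : ℝ) - nt ≤ (sn (k + l) (w t) - 41 * φ) * J
    have e1 : (sn (k + l) (w t) - 41 * φ) * J = sn (k + l) (w t) * J - 41 * f := by
      rw [hf]
      ring
    rw [e1]
    fin_cases l
    · show (g 0 : ℝ) - nt ≤ sn (k + 0) (w t) * J - 41 * f
      rw [add_zero, ← hL0, ← hg0]
      linarith [w3.1, w3.2, G0.2]
    · show (g 1 : ℝ) - nt ≤ sn (k + 1) (w t) * J - 41 * f
      rw [← hL1, ← hg1]
      linarith [G1.2]
  have htp' := htp t ht hgood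
  have hwt := hw t ht
  have pR : ∀ (r : ℕ) (y : ℝ), (y + (X' - r * φ)) * J = y * J + x₁ - r * f := fun r y => by
    rw [hx₁, hf]
    ring
  have hR : ∀ y : ℝ, 0 ≤ y → y ≤ x₁ + 9 * f → ⌈y / f⌉₊ ≤ R₁ := fun y hy h => by
    have h1 : y / f ≤ R₁ := by
      rw [div_le_iff₀ (by linarith)]
      have h2 := mul_le_mul_of_nonneg_right hR₁ (show 0 ≤ f by linarith)
      have h3 : (X' + 10 * φ) / φ * f = x₁ + 10 * f := by
        rw [hf, hx₁]
        field_simp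
      rw [h3] at h2
      linarith
    exact Nat.ceil_le.2 h1
  have cJ : (200 * φ + 2 * κ + 4 * ρ) * (J : ℝ) = 200 * f + 2 * (κ * J) + 4 * (ρ * J) := by
    rw [hf]
    ring
  rw [cJ]
  have hκJ : 0 ≤ κ * J := mul_nonneg hκ hJ0.le
  have hρJ : 0 ≤ ρ * J := mul_nonneg hρ hJ0.le
  rcases hp with hk1 | ⟨hk0, hp⟩
  · -- the pivot at the second place
    obtain ⟨r1, r2⟩ := nat_btw (y := nb + 2) (f := f) (by linarith) (by linarith)
    obtain ⟨r, hr⟩ : ∃ r : ℕ, r = ⌈(nb + 2) / f⌉₊ := ⟨_, rfl⟩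
    have hrR : r ≤ R₁ := by
      rw [hr]
      exact hR _ (by linarith) (by linarith)
    rw [← hr] at r1 r2
    have h1 := ev_one (x := u) (i := i) (N := fun l => sn (k + l) (w t) - 41 * φ)
      (ka := ka) hY hEB hBA hE hwt.1 hwt.2 hcl hN htp' hka hk1 (hin t ht r hrR) (by
        rw [← hg0, ← hg1]
        have e1 : (room + sn k a - sn (k + 1) a) * J = room * J + s0 - s1 := by
          rw [hs0, hs1]
          ring
        rw [e1]
        have e2 : (X' + 2 * φ) * J ≤ room * J := mul_le_mul_of_nonneg_right hroom hJ0.le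
        have e3 : (X' + 2 * φ) * J = x₁ + 2 * f := by rw [hx₁, hf]; ring
        have e4 : 0 ≤ x₁ + 2 := by linarith [hnn]
        linarith [G0.2, G1.1]) (by
        rw [← hnb, ← hg1]
        have e1 := pR r (sn (k + 1) a)
        rw [← hs1] at e1
        have e2 : (sn (k + 1) a + X' - r * φ) * J = (sn (k + 1) a + (X' - r * φ)) * J := by ring
        rw [e2, e1]
        linarith [G1.1])
    refine le_trans ?_ h1
    have e1 : ((sn (k + 1) a + X' - r * φ - sn (k + 1) (w t)) * Real.log 2 - κ) * J =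
        (s1 + x₁ - r * f - L1) * Real.log 2 - κ * J := by
      rw [hs1, hx₁, hf, hL1]
      ring
    rw [e1]
    have e2 : (u - 64 * f) * Real.log 2 ≤ (s1 + x₁ - r * f - L1) * Real.log 2 :=
      mul_le_mul_of_nonneg_right (by linarith) hl0.le
    have e3 : f * Real.log 2 ≤ f := mul_le_of_le_one_right (by linarith) hl1
    have e4 : (u - 64 * f) * Real.log 2 = u * Real.log 2 - 64 * (f * Real.log 2) := by ring
    linarith
  rcases hp with hp | ⟨t₀, ht₀, ht₀u, hp⟩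
  · -- a small coefficient
    obtain ⟨r1, r2⟩ := nat_btw (y := nb + 2) (f := f) (by linarith) (by linarith)
    obtain ⟨r, hr⟩ : ∃ r : ℕ, r = ⌈(nb + 2) / f⌉₊ := ⟨_, rfl⟩
    have hrR : r ≤ R₁ := by
      rw [hr]
      exact hR _ (by linarith) (by linarith)
    rw [← hr] at r1 r2
    have h1 := ev_top (x := u) (i := i) (N := fun l => sn (k + l) (w t) - 41 * φ)
      (ka := ka) hY hEB hBA hE hwt.1 hwt.2 hcl hN htp' hk0 hp (hiu t ht r hrR) (by
        rw [← hnb, ← hg0]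
        have e1 := pR r (sn k a)
        rw [← hs0] at e1
        have e2 : (sn k a + X' - r * φ) * J = (sn k a + (X' - r * φ)) * J := by ring
        rw [e2, e1]
        linarith [G0.1])
    refine le_trans ?_ h1
    have e1 : ((sn k a + X' - r * φ - sn k (w t)) * Real.log 2 - κ) * J =
        (s0 + x₁ - r * f - L0) * Real.log 2 - κ * J := by
      rw [hs0, hx₁, hf, hL0]
      ring
    rw [e1]
    have e2 : (u - 65 * f) * Real.log 2 ≤ (s0 + x₁ - r * f - L0) * Real.log 2 :=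
      mul_le_mul_of_nonneg_right (by linarith [w3.1, w3.2]) hl0.le
    have e3 : f * Real.log 2 ≤ f := mul_le_of_le_one_right (by linarith) hl1
    have e4 : (u - 65 * f) * Real.log 2 = u * Real.log 2 - 65 * (f * Real.log 2) := by ring
    linarith
  · -- the pivot at the first place
    obtain ⟨r1, r2⟩ := nat_btw (y := nb + t₀ + f + 2) (f := f) (by linarith) (by linarith)
    obtain ⟨r, hr⟩ : ∃ r : ℕ, r = ⌈(nb + t₀ + f + 2) / f⌉₊ := ⟨_, rfl⟩
    have hrR : r ≤ R₁ := by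
      rw [hr]
      exact hR _ (by linarith) (by linarith)
    rw [← hr] at r1 r2
    obtain ⟨r1', r2'⟩ := nat_btw (y := nt - t₀ + 2) (f := f) (by linarith) (by linarith)
    obtain ⟨r', hr'⟩ : ∃ r : ℕ, r = ⌈(nt - t₀ + 2) / f⌉₊ := ⟨_, rfl⟩
    have hrR' : r' ≤ R₁ := by
      rw [hr']
      exact hR _ (by linarith) (by linarith)
    rw [← hr'] at r1' r2'
    have h1 := ev_two (x := u) (i := i) (N := fun l => sn (k + l) (w t) - 41 * φ)
      (ka := ka) (Ee := 64 * f) hY hEB hBA hE hwt.1 hwt.2 hcl hN htp' hka hk0 hp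
      (hin t ht r hrR) (by
        rw [← hg0, ← hg1]
        have e1 : (room + sn k a - sn (k + 1) a) * J = room * J + s0 - s1 := by
          rw [hs0, hs1]
          ring
        rw [e1]
        have e2 : (X' + 2 * φ) * J ≤ room * J := mul_le_mul_of_nonneg_right hroom hJ0.le
        have e3 : (X' + 2 * φ) * J = x₁ + 2 * f := by rw [hx₁, hf]; ring
        linarith [G0.2, G1.1]) (hiu t ht r' hrR') (by
        rw [← hnb, ← hg1]
        have e1 := pR r (sn (k + 1) a)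
        rw [← hs1] at e1
        have e2 : (sn (k + 1) a + X' - r * φ) * J = (sn (k + 1) a + (X' - r * φ)) * J := by ring
        rw [e2, e1]
        linarith [G1.1]) (by
        rw [← hnt, ← hg1, ← hL1]
        linarith [G1.2]) (by linarith) (by
        rw [← hnb, ← hg1, ← hL1]
        linarith [G1.1]) (by
        rw [← hnt, ← hg0]
        have e1 := pR r' (sn k a)
        rw [← hs0] at e1
        have e2 : (sn k a + X' - r' * φ) * J = (sn k a + (X' - r' * φ)) * J := by ring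
        rw [e2, e1]
        linarith [G0.1])
    refine le_trans ?_ h1
    have e1 : ((sn (k + 1) a + X' - r * φ - sn (k + 1) (w t)) * Real.log 2 - κ) * J =
        (s1 + x₁ - r * f - L1) * Real.log 2 - κ * J := by
      rw [hs1, hx₁, hf, hL1]
      ring
    have e1' : ((sn k a + X' - r' * φ - sn k (w t)) * Real.log 2 - κ) * J =
        (s0 + x₁ - r' * f - L0) * Real.log 2 - κ * J := by
      rw [hs0, hx₁, hf, hL0]
      ring
    rw [e1, e1']
    have e2 : (u - t₀ - 65 * f) * Real.log 2 ≤ (s1 + x₁ - r * f - L1) * Real.log 2 :=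
      mul_le_mul_of_nonneg_right (by linarith) hl0.le
    have e2' : (t₀ - 65 * f) * Real.log 2 ≤ (s0 + x₁ - r' * f - L0) * Real.log 2 :=
      mul_le_mul_of_nonneg_right (by linarith [w3.1, w3.2]) hl0.le
    have e3 : f * Real.log 2 ≤ f := mul_le_of_le_one_right (by linarith) hl1
    have e4 : (u - t₀ - 65 * f) * Real.log 2 + (t₀ - 65 * f) * Real.log 2 =
      u * Real.log 2 - 130 * (f * Real.log 2) := by ring
    have e5 : 64 * f * Real.log 2 = 64 * (f * Real.log 2) := by ring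
    rw [e5]
    linarith

end

end Pool.STR16
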