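import Pool.Agent.H16.STR.Img
import Pool.Agent.H64.D1.Iml

/-!
# One image of a block, law level

`ch_low`: lower bounds over the cells of a function. `im_one`, `im_two`, `im_top`: one
image of a block from the image of the heights, with the pivot at the second place and at the first
place.
-/

set_option autoImplicit false

namespace Pool.STR16

open Finset Real
open Pool.Agent.H49.Ent Pool.Agent.H32.Dense Pool.STK
open Pool.K2S (Pe)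
open Pool.T4H (dg tp floor_gap)
open Pool.T4I (ht_gap fl_gap)
open Pool.D164 (ch_int dg_add2)

section cells

variable {Ω : Type} [Fintype Ω] {p : Ω → ℝ}

theorem law_pe {T : Type} (φ : Ω → T) (j : T) : law p φ j = Pe p (fun ω => φ ω = j) := by
  classical
  unfold Pe law
  refine Finset.sum_congr rfl fun ω _ => ?_
  by_cases h : φ ω = j
  · simp [h]
  · simp [h]

theorem cond_pe {T : Type} (φ : Ω → T) (j : T) :
    Pool.Agent.H49.Ent.cond p φ j = Pool.Agent.H49.Ent.cond p (fun ω => φ ω = j) True := by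
  funext ω
  unfold Pool.Agent.H49.Ent.cond
  have h := law_pe (p := p) φ j
  unfold Pe at h
  by_cases h1 : φ ω = j
  · simp only [h1, eq_self_iff_true, if_true, h]
  · simp [h1]

/-- **A lower bound over the cells** of a function. -/
theorem ch_low (hp : IsLaw p) {S T : Type} (X : Ω → S) (C : Ω → T) (φ : Ω → ℕ) {N : ℕ}
    (hN : ∀ ω, 0 < p ω → φ ω < N) {b ϖ : ℝ} (hb : 0 ≤ b) (hϖ : 0 ≤ ϖ)
    (h : ∀ j < N, ϖ ≤ Pe p (fun ω => φ ω = j) → 0 < Pe p (fun ω => φ ω = j) →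
      b ≤ CH (Pool.Agent.H49.Ent.cond p (fun ω => φ ω = j) True) X C) :
    (1 - N * ϖ) * b ≤ CH p X C := by
  classical
  have h0 := hp.nonneg
  have h1 : CH p X (fun ω => (C ω, φ ω)) ≤ CH p X C :=
    CH_mono_cond h0 fun _ _ _ _ e => (Prod.ext_iff.1 e).1
  rw [CH_split h0 X C φ] at h1
  refine le_trans ?_ h1
  have h2 : ∀ j ∈ univ.image φ, law p φ j * b - (if j < N then ϖ * b else 0) ≤
      law p φ j * CH (Pool.Agent.H49.Ent.cond p φ j) X C := by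
    intro j _
    have hl : 0 ≤ law p φ j := law_nonneg h0 φ j
    have hc : 0 ≤ CH (Pool.Agent.H49.Ent.cond p φ j) X C := CH_nonneg (cond_nonneg h0 φ j) X C
    have hw : 0 ≤ ϖ * b := mul_nonneg hϖ hb
    by_cases hj : j < N
    · rw [if_pos hj]
      rcases lt_or_ge (law p φ j) ϖ with h3 | h3
      · have : law p φ j * b ≤ ϖ * b := mul_le_mul_of_nonneg_right h3.le hb
        linarith [mul_nonneg hl hc]
      rcases hl.eq_or_lt with h4 | h4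
      · rw [← h4, zero_mul, zero_mul]
        linarith
      have h5 := h j hj (by rw [← law_pe]; exact h3) (by rw [← law_pe]; exact h4)
      rw [← cond_pe] at h5
      have h6 := mul_le_mul_of_nonneg_left h5 hl
      linarith
    · rw [if_neg hj]
      have : law p φ j = 0 := by
        unfold law
        refine Finset.sum_eq_zero fun ω _ => ?_
        split_ifs with h5
        · rcases (h0 ω).eq_or_lt with h6 | h6
          · exact h6.symm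
          · exact absurd (h5 ▸ hN ω h6) hj
        · rfl
      rw [this]
      simp
  refine le_trans ?_ (Finset.sum_le_sum h2)
  rw [Finset.sum_sub_distrib, ← Finset.sum_mul]
  have h3 : ∑ j ∈ univ.image φ, law p φ j = 1 := by
    rw [← hp.sum_one]
    unfold law
    rw [Finset.sum_comm]
    refine Finset.sum_congr rfl fun ω _ => ?_
    rw [Finset.sum_eq_single (φ ω)]
    · rw [if_pos rfl]
    · intro j _ hj
      rw [if_neg fun e => hj e.symm]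
    · intro hj
      exact absurd (Finset.mem_image_of_mem φ (Finset.mem_univ ω)) hj
  have h4 : ∑ j ∈ univ.image φ, (if j < N then ϖ * b else 0) ≤ N * (ϖ * b) := by
    rw [← Finset.sum_filter, Finset.sum_const, nsmul_eq_mul]
    refine mul_le_mul_of_nonneg_right ?_ (mul_nonneg hϖ hb)
    have : ((univ.image φ).filter fun j => j < N).card ≤ (range N).card :=
      Finset.card_le_card fun j hj => Finset.mem_range.2 (Finset.mem_filter.1 hj).2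
    rw [Finset.card_range] at this
    exact_mod_cast this
  rw [h3]
  linarith

end cells

section law

variable {Ω : Type} [Fintype Ω] {q : Ω → ℝ} {T S U V : Type}

/-- The pivot at the second place. -/
theorem im_one (h0 : ∀ ω, 0 ≤ q ω) {I : Ω → S} {X : Ω → U} {C : Ω → T} {M : Ω → V} {e f : ℝ}
    (h1 : CH q X (fun ω => (I ω, C ω)) ≤ e) (hf : f ≤ CH q X (fun ω => (C ω, M ω))) :
    f - e ≤ CH q I C := by
  have a1 := CH_le_add h0 X I C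
  have a2 : CH q X (fun ω => (C ω, M ω)) ≤ CH q X C :=
    CH_mono_cond h0 fun _ _ _ _ e => (Prod.ext_iff.1 e).1
  linarith

/-- The pivot at the first place. -/
theorem im_two (h0 : ∀ ω, 0 ≤ q ω) {I : Ω → S} {X : Ω → U} {C : Ω → T} {M : Ω → V} {R : Type}
    {Y : Ω → R} {e₁ e₂ e₃ f f' : ℝ} (h1 : CH q X (fun ω => (I ω, C ω)) ≤ e₁)
    (h2 : CH q M (fun ω => (I ω, C ω)) ≤ e₂) (h3 : CH q Y (fun ω => (M ω, C ω)) ≤ e₃)
    (hf : f ≤ CH q X (fun ω => (C ω, M ω))) (hf' : f' ≤ CH q Y C) :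
    f + f' - e₁ - e₂ - e₃ ≤ CH q I C := by
  have a1 := CH_le_add h0 (fun ω => (X ω, M ω)) I C
  have a2 := CH_subadd h0 X M (fun ω => (I ω, C ω))
  have a3 := CH_chain h0 X M C
  have a4 := CH_le_add h0 Y M C
  have a5 : CH q X (fun ω => (M ω, C ω)) = CH q X (fun ω => (C ω, M ω)) := by
    refine CH_congr h0 (fun _ _ _ _ e => (Prod.ext_iff.1 e).1) (fun _ _ _ _ e => (Prod.ext_iff.1 e).1)
      (fun _ _ _ _ e => ?_) (fun _ _ _ _ e => ?_)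
    · exact Prod.ext (Prod.ext_iff.1 e).2 (Prod.ext_iff.1 e).1
    · exact Prod.ext (Prod.ext_iff.1 e).2 (Prod.ext_iff.1 e).1
  linarith

end law

section blk

variable {Ω υ : Type}

/-- The sum of the heights from the image of the block. -/
theorem blk_key {z : Ω → Fin 2 → ℤ} {Y : Fin 2 → ℝ} {ω : Ω} (hz : ∀ l, |(z ω l : ℝ) - Y l| ≤ 2)
    {k : Fin 2 → ℝ} (hk : ∀ l, |k l| ≤ 1) (x i : ℕ) :
    |(∑ l, k l * Y l) / 2 ^ (i * x) - ((⌊(∑ l, k l * (dg z x i ω l : ℝ)) / 2 ^ 0⌋ : ℤ) +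
      2 ^ x * ∑ l, k l * (tp z x i ω l : ℝ))| ≤ 7 := by
  have k1 := fl_gap ((∑ l, k l * (dg z x i ω l : ℝ)) / 2 ^ 0)
  obtain ⟨I, hI⟩ : ∃ I : ℤ, I = ⌊(∑ l, k l * (dg z x i ω l : ℝ)) / 2 ^ 0⌋ := ⟨_, rfl⟩
  rw [← hI] at k1 ⊢
  have k2 : ∀ l, |k l * (((dg z x i ω l : ℝ) + 2 ^ x * (tp z x i ω l : ℝ)) -
      Y l / 2 ^ (i * x))| ≤ 3 := by
    intro l
    have k3 := ht_gap (hz l) (i * x)
    rw [dg_add2] at k3
    rw [abs_mul]
    calc _ ≤ 1 * 3 := mul_le_mul (hk l) k3 (abs_nonneg _) zero_le_one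
      _ = 3 := by norm_num
  have k4 := k2 0
  have k5 := k2 1
  rw [pow_zero, div_one] at k1
  simp only [Fin.sum_univ_two] at k1 ⊢
  have e1 : (k 0 * Y 0 + k 1 * Y 1) / 2 ^ (i * x) -
      ((I : ℝ) + 2 ^ x * (k 0 * (tp z x i ω 0 : ℝ) + k 1 * (tp z x i ω 1 : ℝ))) =
      -((I : ℝ) - (k 0 * dg z x i ω 0 + k 1 * dg z x i ω 1)) -
      k 0 * (((dg z x i ω 0 : ℝ) + 2 ^ x * (tp z x i ω 0 : ℝ)) - Y 0 / 2 ^ (i * x)) -
      k 1 * (((dg z x i ω 1 : ℝ) + 2 ^ x * (tp z x i ω 1 : ℝ)) - Y 1 / 2 ^ (i * x)) := by ring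
  rw [e1]
  rw [abs_le] at k1 k4 k5 ⊢
  constructor <;> linarith [k1.1, k1.2, k4.1, k4.2, k5.1, k5.2]

/-- Two floors. -/
theorem fl_two {a b r R D : ℝ} (hr : |r| ≤ R) (h : |a - b| ≤ D) (hD : 0 ≤ D) :
    |((⌊r * a⌋ : ℤ) : ℝ) - (⌊r * b⌋ : ℤ)| ≤ R * D + 1 := by
  have h1 : |r * a - r * b| ≤ R * D := by
    rw [← mul_sub, abs_mul]
    exact mul_le_mul hr h (abs_nonneg _) ((abs_nonneg r).trans hr)
  have g1 := Int.floor_le (r * a)
  have g2 := Int.lt_floor_add_one (r * a)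
  have g3 := Int.floor_le (r * b)
  have g4 := Int.lt_floor_add_one (r * b)
  rw [abs_le] at h1 ⊢
  constructor <;> linarith [h1.1, h1.2]

/-- The sums of two samples. -/
theorem blk_two {z : Ω → Fin 2 → ℤ} {Y Y' : Fin 2 → ℝ} {ω ω' : Ω}
    (hz : ∀ l, |(z ω l : ℝ) - Y l| ≤ 2) (hz' : ∀ l, |(z ω' l : ℝ) - Y' l| ≤ 2)
    {k : Fin 2 → ℝ} (hk : ∀ l, |k l| ≤ 1) {x i : ℕ}
    (hI : ⌊(∑ l, k l * (dg z x i ω l : ℝ)) / 2 ^ 0⌋ = ⌊(∑ l, k l * (dg z x i ω' l : ℝ)) / 2 ^ 0⌋)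
    (ht : tp z x i ω = tp z x i ω') :
    |(∑ l, k l * Y l) / 2 ^ (i * x) - (∑ l, k l * Y' l) / 2 ^ (i * x)| ≤ 14 := by
  have h1 := blk_key hz hk x i
  have h2 := blk_key hz' hk x i
  rw [← hI, ← ht] at h2
  rw [abs_le] at h1 h2 ⊢
  constructor <;> linarith [h1.1, h1.2, h2.1, h2.2]

end blk

theorem pw_pos (a : ℝ) : (0 : ℝ) < 2 ^ a := Real.rpow_pos_of_pos (by norm_num) a

theorem pw_add (a b : ℝ) : (2 : ℝ) ^ (a + b) = 2 ^ a * 2 ^ b := Real.rpow_add (by norm_num) a b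

theorem pw_mono {a b : ℝ} (h : a ≤ b) : (2 : ℝ) ^ a ≤ 2 ^ b :=
  Real.rpow_le_rpow_of_exponent_le (by norm_num) h

/-- The image with the pivot at the second place. -/
theorem un_one {g0 g1 : ℕ} {ix : ℕ} {A k h0 h1 : ℝ} :
    (2 : ℝ) ^ A * (h1 - -(k * 2 ^ ((g0 : ℝ) - g1)) * h0) =
      2 ^ (A - g1 + ix) * ((k * (2 ^ g0 * h0) + 1 * (2 ^ g1 * h1)) / 2 ^ ix) := by
  have e1 : (2 : ℝ) ^ (A - g1 + ix) = 2 ^ A / 2 ^ g1 * 2 ^ ix := by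
    rw [pw_add, Real.rpow_sub (by norm_num), Real.rpow_natCast, Real.rpow_natCast]
  have e2 : (2 : ℝ) ^ ((g0 : ℝ) - g1) = 2 ^ g0 / 2 ^ g1 := by
    rw [Real.rpow_sub (by norm_num), Real.rpow_natCast, Real.rpow_natCast]
  rw [e1, e2]
  field_simp
  ring

/-- The image with the pivot at the first place. -/
theorem un_two {g0 g1 : ℕ} {ix : ℕ} {A k h0 h1 : ℝ} (hk : k ≠ 0) :
    (2 : ℝ) ^ A * (h1 - -(k⁻¹ * 2 ^ ((g0 : ℝ) - g1)) * h0) =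
      2 ^ (A - g1 + ix) * k⁻¹ * ((1 * (2 ^ g0 * h0) + k * (2 ^ g1 * h1)) / 2 ^ ix) := by
  have e1 : (2 : ℝ) ^ (A - g1 + ix) = 2 ^ A / 2 ^ g1 * 2 ^ ix := by
    rw [pw_add, Real.rpow_sub (by norm_num), Real.rpow_natCast, Real.rpow_natCast]
  have e2 : (2 : ℝ) ^ ((g0 : ℝ) - g1) = 2 ^ g0 / 2 ^ g1 := by
    rw [Real.rpow_sub (by norm_num), Real.rpow_natCast, Real.rpow_natCast]
  rw [e1, e2]
  field_simp
  ring

section fi

variable {Ω υ : Type} [Fintype Ω] {q : Ω → ℝ} {z : Ω → Fin 2 → ℤ} {h : Ω → Fin 2 → ℝ}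
  {g : Fin 2 → ℕ} {kcl : Ω → Fin 3 → ℤ} {ka : (Fin 3 → ℤ) → Fin 2 → ℝ} {x i : ℕ} {Yb : Ω → υ}

/-- **The pivot at the second place.** -/
theorem fi_one (hq : IsLaw q) (hz : ∀ ω, 0 < q ω → ∀ l, |(z ω l : ℝ) - 2 ^ g l * h ω l| ≤ 2)
    (hka : ∀ k l, |ka k l| ≤ 1) (hk1 : ∀ k, ka k 1 = 1) {A : ℝ}
    (hA : A ≤ g 1 - ((i * x : ℕ) : ℝ)) {V : Type} {M : Ω → V} {f : ℝ}
    (hf : f ≤ CH q (fun ω => ⌊(2 : ℝ) ^ A *
      (h ω 1 - -(ka (kcl ω) 0 * 2 ^ ((g 0 : ℝ) - g 1)) * h ω 0)⌋)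
      (fun ω => ((kcl ω, (tp z x i ω, Yb ω)), M ω))) :
    f - Real.log 31 ≤ CH q (fun ω => ⌊(∑ l, ka (kcl ω) l * (dg z x i ω l : ℝ)) / 2 ^ 0⌋)
      (fun ω => (kcl ω, (tp z x i ω, Yb ω))) := by
  have h0 := hq.nonneg
  refine im_one h0 ?_ hf
  refine (ch_int hq _ _ (L := 15) fun ω ω' hω hω' e => ?_).trans (le_of_eq (by norm_num))
  simp only [Prod.mk.injEq] at e
  obtain ⟨e1, e2, e3, -⟩ := e
  rw [e2] at e1
  have h1 := blk_two (hz ω hω) (hz ω' hω') (hka (kcl ω')) e1 e3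
  rw [e2, un_one (ix := i * x), un_one (ix := i * x)]
  simp only [Fin.sum_univ_two, hk1] at h1
  have hr : |(2 : ℝ) ^ (A - g 1 + ((i * x : ℕ) : ℝ))| ≤ 1 := by
    rw [abs_of_pos (pw_pos _)]
    exact Real.rpow_le_one_of_one_le_of_nonpos (by norm_num) (by linarith)
  refine (fl_two hr h1 (by norm_num)).trans (le_of_eq (by norm_num))

/-- **The pivot at the first place.** -/
theorem fi_two (hq : IsLaw q) (hz : ∀ ω, 0 < q ω → ∀ l, |(z ω l : ℝ) - 2 ^ g l * h ω l| ≤ 2)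
    (hka : ∀ k l, |ka k l| ≤ 1) (hk0 : ∀ k, ka k 0 = 1) {A B P t₀ t₁ E : ℝ}
    (hl : ∀ ω, 0 < q ω → (2 : ℝ) ^ (-t₁) ≤ |ka (kcl ω) 1| ∧ |ka (kcl ω) 1| ≤ 2 ^ (-t₀))
    (hA : A ≤ g 1 - ((i * x : ℕ) : ℝ) - t₁) (hB : g 1 - (((i + 1) * x : ℕ) : ℝ) ≤ B)
    (hE0 : 0 ≤ E) (hE : B - g 1 + ((i * x : ℕ) : ℝ) + t₁ ≤ E)
    (hP : P ≤ g 0 - (((i + 1) * x : ℕ) : ℝ) + t₀) {f f' : ℝ}
    (hf : f ≤ CH q (fun ω => ⌊(2 : ℝ) ^ A *
      (h ω 1 - -((ka (kcl ω) 1)⁻¹ * 2 ^ ((g 0 : ℝ) - g 1)) * h ω 0)⌋)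
      (fun ω => ((kcl ω, (tp z x i ω, Yb ω)), ⌊(2 : ℝ) ^ B *
      (h ω 1 - -((ka (kcl ω) 1)⁻¹ * 2 ^ ((g 0 : ℝ) - g 1)) * h ω 0)⌋)))
    (hf' : f' ≤ CH q (fun ω => ⌊(2 : ℝ) ^ P * h ω 0⌋) (fun ω => (kcl ω, (tp z x i ω, Yb ω)))) :
    f + f' - Real.log 31 - (Real.log 31 + E * Real.log 2) - Real.log 17 ≤
      CH q (fun ω => ⌊(∑ l, ka (kcl ω) l * (dg z x i ω l : ℝ)) / 2 ^ 0⌋)
      (fun ω => (kcl ω, (tp z x i ω, Yb ω))) := by
  have h0 := hq.nonneg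
  have hinv : ∀ ω, 0 < q ω → |(ka (kcl ω) 1)⁻¹| ≤ 2 ^ t₁ := by
    intro ω hω
    rw [abs_inv]
    have h1 := (hl ω hω).1
    rw [Real.rpow_neg (by norm_num)] at h1
    exact inv_le_of_inv_le₀ (pw_pos _) h1
  have hne : ∀ ω, 0 < q ω → ka (kcl ω) 1 ≠ 0 := by
    intro ω hω hh
    have h1 := (hl ω hω).1
    rw [hh, abs_zero] at h1
    exact absurd h1 (not_le.2 (pw_pos _))
  refine im_two h0 (e₁ := Real.log 31) ?_ ?_ ?_ hf hf'
  · refine (ch_int hq _ _ (L := 15) fun ω ω' hω hω' e => ?_).trans (le_of_eq (by norm_num))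
    simp only [Prod.mk.injEq] at e
    obtain ⟨e1, e2, e3, -⟩ := e
    rw [e2] at e1
    have h1 := blk_two (hz ω hω) (hz ω' hω') (hka (kcl ω')) e1 e3
    rw [e2, un_two (ix := i * x) (hne ω' hω'), un_two (ix := i * x) (hne ω' hω')]
    simp only [Fin.sum_univ_two, hk0] at h1
    have hr : |(2 : ℝ) ^ (A - g 1 + ((i * x : ℕ) : ℝ)) * (ka (kcl ω') 1)⁻¹| ≤ 1 := by
      rw [abs_mul, abs_of_pos (pw_pos _)]
      calc _ ≤ (2 : ℝ) ^ (A - g 1 + ((i * x : ℕ) : ℝ)) * 2 ^ t₁ :=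
            mul_le_mul_of_nonneg_left (hinv ω' hω') (pw_pos _).le
        _ ≤ 1 := by
            rw [← pw_add]
            exact Real.rpow_le_one_of_one_le_of_nonpos (by norm_num) (by linarith)
    refine (fl_two hr h1 (by norm_num)).trans (le_of_eq (by norm_num))
  · have hEp : (1 : ℝ) ≤ 2 ^ E := Real.one_le_rpow (by norm_num) hE0
    refine (ch_int hq _ _ (L := 2 ^ E * 14 + 1) fun ω ω' hω hω' e => ?_).trans ?_
    · simp only [Prod.mk.injEq] at e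
      obtain ⟨e1, e2, e3, -⟩ := e
      rw [e2] at e1
      have h1 := blk_two (hz ω hω) (hz ω' hω') (hka (kcl ω')) e1 e3
      rw [e2, un_two (ix := i * x) (hne ω' hω'), un_two (ix := i * x) (hne ω' hω')]
      simp only [Fin.sum_univ_two, hk0] at h1
      have hr : |(2 : ℝ) ^ (B - g 1 + ((i * x : ℕ) : ℝ)) * (ka (kcl ω') 1)⁻¹| ≤ 2 ^ E := by
        rw [abs_mul, abs_of_pos (pw_pos _)]
        calc _ ≤ (2 : ℝ) ^ (B - g 1 + ((i * x : ℕ) : ℝ)) * 2 ^ t₁ :=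
              mul_le_mul_of_nonneg_left (hinv ω' hω') (pw_pos _).le
          _ ≤ 2 ^ E := by
              rw [← pw_add]
              exact pw_mono (by linarith)
      exact fl_two hr h1 (by norm_num)
    · have : Real.log 31 + E * Real.log 2 = Real.log (31 * 2 ^ E) := by
        rw [Real.log_mul (by norm_num) (pw_pos E).ne', Real.log_rpow (by norm_num)]
      rw [this]
      exact Real.log_le_log (by positivity) (by linarith)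
  · refine (ch_int hq _ _ (L := 8) fun ω ω' hω hω' e => ?_).trans (le_of_eq (by norm_num))
    simp only [Prod.mk.injEq] at e
    obtain ⟨e1, e2, e3, -⟩ := e
    rw [e2] at e1
    obtain ⟨lam, hlam⟩ : ∃ lam, lam = ka (kcl ω') 1 := ⟨_, rfl⟩
    have hl' := (hl ω' hω').2
    have hne' := hne ω' hω'
    rw [← hlam] at e1 hl' hne'
    -- the second height
    have t1 := ht_gap (hz ω hω 1) ((i + 1) * x)
    have t2 := ht_gap (hz ω' hω' 1) ((i + 1) * x)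
    have t3 : z ω 1 / 2 ^ ((i + 1) * x) = z ω' 1 / 2 ^ ((i + 1) * x) := congrFun e3 1
    rw [t3] at t1
    have t4 : |2 ^ g 1 * h ω 1 / 2 ^ ((i + 1) * x) - 2 ^ g 1 * h ω' 1 / 2 ^ ((i + 1) * x)| ≤ 6 := by
      rw [abs_le] at t1 t2 ⊢
      constructor <;> linarith [t1.1, t1.2, t2.1, t2.2]
    -- the sum
    have s1 : |(2 : ℝ) ^ B * (h ω 1 - -(lam⁻¹ * 2 ^ ((g 0 : ℝ) - g 1)) * h ω 0) -
        2 ^ B * (h ω' 1 - -(lam⁻¹ * 2 ^ ((g 0 : ℝ) - g 1)) * h ω' 0)| ≤ 1 := by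
      have g1 := Int.floor_le ((2 : ℝ) ^ B * (h ω 1 - -(lam⁻¹ * 2 ^ ((g 0 : ℝ) - g 1)) * h ω 0))
      have g2 := Int.lt_floor_add_one
        ((2 : ℝ) ^ B * (h ω 1 - -(lam⁻¹ * 2 ^ ((g 0 : ℝ) - g 1)) * h ω 0))
      have g3 := Int.floor_le ((2 : ℝ) ^ B * (h ω' 1 - -(lam⁻¹ * 2 ^ ((g 0 : ℝ) - g 1)) * h ω' 0))
      have g4 := Int.lt_floor_add_one
        ((2 : ℝ) ^ B * (h ω' 1 - -(lam⁻¹ * 2 ^ ((g 0 : ℝ) - g 1)) * h ω' 0))
      rw [e1] at g1 g2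
      rw [abs_le]
      constructor <;> linarith
    obtain ⟨n, hn⟩ : ∃ n : ℝ, n = (((i + 1) * x : ℕ) : ℝ) := ⟨_, rfl⟩
    have hBn : (0 : ℝ) < 2 ^ (g 1 - n) := pw_pos _
    have t5 : 2 ^ ((g 1 : ℝ) - n) * |h ω 1 - h ω' 1| ≤ 6 := by
      rw [← abs_of_pos hBn, ← abs_mul]
      refine le_trans (le_of_eq ?_) t4
      congr 1
      rw [Real.rpow_sub (by norm_num), hn, Real.rpow_natCast, Real.rpow_natCast]
      ring
    have s2 : 2 ^ ((g 1 : ℝ) - n) * |(h ω 1 - -(lam⁻¹ * 2 ^ ((g 0 : ℝ) - g 1)) * h ω 0) -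
        (h ω' 1 - -(lam⁻¹ * 2 ^ ((g 0 : ℝ) - g 1)) * h ω' 0)| ≤ 1 := by
      rw [← mul_sub, abs_mul, abs_of_pos (pw_pos B)] at s1
      refine le_trans (mul_le_mul_of_nonneg_right (pw_mono ?_) (abs_nonneg _)) s1
      rw [hn]
      exact hB
    have s3 : 2 ^ ((g 1 : ℝ) - n) * |lam⁻¹ * 2 ^ ((g 0 : ℝ) - g 1) * (h ω 0 - h ω' 0)| ≤ 7 := by
      have a1 : lam⁻¹ * 2 ^ ((g 0 : ℝ) - g 1) * (h ω 0 - h ω' 0) =
          ((h ω 1 - -(lam⁻¹ * 2 ^ ((g 0 : ℝ) - g 1)) * h ω 0) -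
          (h ω' 1 - -(lam⁻¹ * 2 ^ ((g 0 : ℝ) - g 1)) * h ω' 0)) - (h ω 1 - h ω' 1) := by ring
      rw [a1]
      have a2 := mul_le_mul_of_nonneg_left (abs_sub ((h ω 1 -
        -(lam⁻¹ * 2 ^ ((g 0 : ℝ) - g 1)) * h ω 0) -
          (h ω' 1 - -(lam⁻¹ * 2 ^ ((g 0 : ℝ) - g 1)) * h ω' 0)) (h ω 1 - h ω' 1)) hBn.le
      rw [mul_add] at a2
      linarith
    have s4 : 2 ^ ((g 0 : ℝ) - n) * |h ω 0 - h ω' 0| ≤ 7 * |lam| := by
      rw [abs_mul, abs_mul, abs_inv, abs_of_pos (pw_pos _)] at s3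
      have hlp : 0 < |lam| := abs_pos.2 hne'
      have a1 : (2 : ℝ) ^ ((g 0 : ℝ) - n) = 2 ^ ((g 1 : ℝ) - n) * 2 ^ ((g 0 : ℝ) - g 1) := by
        rw [← pw_add]
        congr 1
        ring
      rw [a1]
      have a2 := mul_le_mul_of_nonneg_left s3 hlp.le
      have a3 : |lam| * (2 ^ ((g 1 : ℝ) - n) * (|lam|⁻¹ * 2 ^ ((g 0 : ℝ) - g 1) *
          |h ω 0 - h ω' 0|)) = 2 ^ ((g 1 : ℝ) - n) * 2 ^ ((g 0 : ℝ) - g 1) *
            |h ω 0 - h ω' 0| := by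
        field_simp
      rw [a3] at a2
      linarith
    have s5 : |(2 : ℝ) ^ P * h ω 0 - 2 ^ P * h ω' 0| ≤ 7 := by
      rw [← mul_sub, abs_mul, abs_of_pos (pw_pos P)]
      have a1 : (2 : ℝ) ^ P ≤ 2 ^ t₀ * 2 ^ ((g 0 : ℝ) - n) := by
        rw [← pw_add]
        refine pw_mono ?_
        rw [hn]
        linarith
      calc _ ≤ 2 ^ t₀ * 2 ^ ((g 0 : ℝ) - n) * |h ω 0 - h ω' 0| :=
            mul_le_mul_of_nonneg_right a1 (abs_nonneg _)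
        _ = 2 ^ t₀ * (2 ^ ((g 0 : ℝ) - n) * |h ω 0 - h ω' 0|) := by ring
        _ ≤ 2 ^ t₀ * (7 * |lam|) := mul_le_mul_of_nonneg_left s4 (pw_pos _).le
        _ ≤ 2 ^ t₀ * (7 * 2 ^ (-t₀)) :=
            mul_le_mul_of_nonneg_left (mul_le_mul_of_nonneg_left hl' (by norm_num)) (pw_pos _).le
        _ = 7 * (2 ^ t₀ * 2 ^ (-t₀)) := by ring
        _ = 7 := by rw [← pw_add, add_neg_cancel, Real.rpow_zero, mul_one]
    have := fl_two (r := 1) (R := 1) (by norm_num) s5 (by norm_num)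
    rw [one_mul, one_mul, one_mul] at this
    exact this.trans (by norm_num)

/-- **A small coefficient**, the pivot at the first place. -/
theorem fi_top (hq : IsLaw q) (hz : ∀ ω, 0 < q ω → ∀ l, |(z ω l : ℝ) - 2 ^ g l * h ω l| ≤ 2)
    (hk0 : ∀ k, ka k 0 = 1) {P : ℝ}
    (hl : ∀ ω, 0 < q ω → |ka (kcl ω) 1| * 2 ^ x ≤ 1) (hP : P ≤ g 0 - ((i * x : ℕ) : ℝ)) {f' : ℝ}
    (hf' : f' ≤ CH q (fun ω => ⌊(2 : ℝ) ^ P * h ω 0⌋) (fun ω => (kcl ω, (tp z x i ω, Yb ω)))) :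
    f' - Real.log 23 ≤
      CH q (fun ω => ⌊(∑ l, ka (kcl ω) l * (dg z x i ω l : ℝ)) / 2 ^ 0⌋)
      (fun ω => (kcl ω, (tp z x i ω, Yb ω))) := by
  have h0 := hq.nonneg
  refine im_one h0 (M := fun _ => ()) ?_ (hf'.trans (CH_mono_cond h0 fun _ _ _ _ e =>
    Prod.ext e rfl))
  refine (ch_int hq _ _ (L := 11) fun ω ω' hω hω' e => ?_).trans (le_of_eq (by norm_num))
  simp only [Prod.mk.injEq] at e
  obtain ⟨e1, e2, e3, -⟩ := e
  have key : ∀ ω, 0 < q ω → |((⌊(∑ l, ka (kcl ω) l * (dg z x i ω l : ℝ)) / 2 ^ 0⌋ : ℤ) : ℝ) +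
      2 ^ x * tp z x i ω 0 - 2 ^ g 0 * h ω 0 / 2 ^ (i * x)| ≤ 5 := by
    intro ω hω
    have k1 := fl_gap ((∑ l, ka (kcl ω) l * (dg z x i ω l : ℝ)) / 2 ^ 0)
    obtain ⟨I, hI⟩ : ∃ I : ℤ, I = ⌊(∑ l, ka (kcl ω) l * (dg z x i ω l : ℝ)) / 2 ^ 0⌋ := ⟨_, rfl⟩
    rw [← hI] at k1 ⊢
    have k3 := ht_gap (hz ω hω 0) (i * x)
    rw [dg_add2] at k3
    have d1 : (0 : ℝ) ≤ dg z x i ω 1 := by exact_mod_cast Pool.T4H.dg_nn z x i ω 1
    have d2 : (dg z x i ω 1 : ℝ) ≤ 2 ^ x := by exact_mod_cast (Pool.T4H.dg_lt z x i ω 1).le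
    have d3 : |ka (kcl ω) 1 * (dg z x i ω 1 : ℝ)| ≤ 1 := by
      rw [abs_mul, abs_of_nonneg d1]
      exact (mul_le_mul_of_nonneg_left d2 (abs_nonneg _)).trans (hl ω hω)
    rw [pow_zero, div_one, Fin.sum_univ_two, hk0, one_mul] at k1
    rw [abs_le] at k1 k3 d3 ⊢
    constructor <;> linarith [k1.1, k1.2, k3.1, k3.2, d3.1, d3.2]
  have k1 := key ω hω
  have k2 := key ω' hω'
  rw [← e1, ← e3] at k2
  obtain ⟨n, hn⟩ : ∃ n : ℝ, n = ((i * x : ℕ) : ℝ) := ⟨_, rfl⟩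
  have t5 : |2 ^ ((g 0 : ℝ) - n) * h ω 0 - 2 ^ ((g 0 : ℝ) - n) * h ω' 0| ≤ 10 := by
    have a1 : (2 : ℝ) ^ ((g 0 : ℝ) - n) = 2 ^ g 0 / 2 ^ (i * x) := by
      rw [Real.rpow_sub (by norm_num), hn, Real.rpow_natCast, Real.rpow_natCast]
    rw [a1]
    have a2 : ∀ y : ℝ, 2 ^ g 0 / 2 ^ (i * x) * y = 2 ^ g 0 * y / 2 ^ (i * x) := fun y => by ring
    rw [a2, a2]
    rw [abs_le] at k1 k2 ⊢
    constructor <;> linarith [k1.1, k1.2, k2.1, k2.2]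
  have s5 : |(2 : ℝ) ^ P * h ω 0 - 2 ^ P * h ω' 0| ≤ 10 := by
    rw [← mul_sub, abs_mul, abs_of_pos (pw_pos _)] at t5 ⊢
    refine le_trans (mul_le_mul_of_nonneg_right (pw_mono ?_) (abs_nonneg _)) t5
    rw [hn]
    exact hP
  have := fl_two (r := 1) (R := 1) (by norm_num) s5 (by norm_num)
  rw [one_mul, one_mul, one_mul] at this
  exact this.trans (by norm_num)

end fi

end Pool.STR16
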