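import Pool.Agent.H16.STR.Tpf
import Pool.Agent.H16.STR.Fil

/-!
# One image of a block, event level

`c0_few`: the condition of the images is few bits given the record, the exact positions, the time.
`ev_one`, `ev_two`, `ev_top`: the images from `ImN`, `ImU` on one event.
-/

set_option autoImplicit false

namespace Pool.STR16

open Finset Real MvPolynomial
open Pool.Agent.H49.Ent Pool.Agent.H32.Dense
open Pool.STK hiding pr2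
open Pool.KA Pool.KSAT Pool.K2S Pool.PB Pool.S6C
open Pool.GEN Pool.CHT Pool.CHX Pool.ISO Pool.LA91 Pool.AVG71 Pool.AVG5 Pool.D2F2 Pool.AVG57
open Pool.RCD Pool.AVG96 Pool.OWN68 Pool.V0F Pool.V0Q Pool.V0T
open Pool.UNJ (ceI)
open Pool.T4H (dg tp floor_gap)
open Pool.T4I (ht_gap fl_gap)
open Pool.D164 (ch_int dg_add2)

/-- The event without the points of mass zero. -/
theorem cond_nul {Ω : Type} [Fintype Ω] {p : Ω → ℝ} (h0 : ∀ ω, 0 ≤ p ω) (A : Ω → Prop) :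
    Pe p (fun ω => A ω ∧ 0 < p ω) = Pe p A ∧
      Pool.Agent.H49.Ent.cond p (fun ω => A ω ∧ 0 < p ω) True =
        Pool.Agent.H49.Ent.cond p A True := by
  classical
  have h1 : law p (fun ω => A ω ∧ 0 < p ω) True = law p A True := by
    unfold law
    refine Finset.sum_congr rfl fun ω _ => ?_
    rcases (h0 ω).eq_or_lt with h | h
    · simp [← h]
    · by_cases hA : A ω <;> simp [hA, h]
  refine ⟨h1, ?_⟩
  funext ω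
  unfold Pool.Agent.H49.Ent.cond
  rw [h1]
  rcases (h0 ω).eq_or_lt with h | h
  · simp [← h]
  · by_cases hA : A ω <;> simp [hA, h]

/-- The record of the whole event at an earlier window. -/
theorem cR_sub {m J : ℕ} {F : Fam m J} {A E : F.Ω → Prop} {a v : ℝ} (hE : Sub E A) (hav : a ≤ v)
    (hv : v ≤ 1) {ω ω' : F.Ω} (e : cR F E v ω = cR F E v ω') : cR F A a ω = cR F A a ω' := by
  have h1 := Pool.T4J.cR_mn hav hv e
  funext D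
  exact congrFun h1 ⟨D.1, D.2.sub hE⟩

/-- The exact positions from `ceI`. -/
theorem ceI_X {m J : ℕ} {F : Fam m J} {c : ℕ → Fin m} {k : ℕ} {ω ω' : F.Ω}
    (h : ceI ((range k).image c) (fun _ => J) (F.x ω) =
      ceI ((range k).image c) (fun _ => J) (F.x ω')) :
    (fun l : Fin k => F.X J ω (c l)) = fun l : Fin k => F.X J ω' (c l) := by
  funext l
  have h0 : c l ∈ (range k).image c := mem_image.2 ⟨l, mem_range.2 l.2, rfl⟩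
  have h1 := congrFun h (c l)
  unfold ceI at h1
  rw [if_pos h0, if_pos h0] at h1
  exact h1

section

variable {m J : ℕ} {F : Fam m J} {c : ℕ → Fin m} {k D : ℕ} {b a v : ℝ} {N₀ : Fin k → ℕ}
  {g : Fin 2 → ℕ} {A B E : F.Ω → Prop} {Hb H : LnT F → ℕ → MvPolynomial (Option (Fin m)) ℝ}
  {υ : Type} {z : PtT F → Fin 2 → ℤ} {Yb : PtT F → υ} {kL : LnT F → Fin 3 → ℤ}
  {kP : PtT F → Fin 3 → ℤ} {ka : (Fin 3 → ℤ) → Fin 2 → ℝ} {x i : ℕ}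

/-- The condition `Z`. -/
noncomputable def zE (F : Fam m J) (c : ℕ → Fin m) (k : ℕ) (E : F.Ω → Prop) (v : ℝ) (ω : F.Ω) :=
  (cR F E v ω, (ceI ((range k).image c) (fun _ => J) (F.x ω), F.W ω))

/-- The condition `C`. -/
noncomputable def cE (F : Fam m J) (a x i : ℕ) (z : PtT F → Fin 2 → ℤ) (Yb : PtT F → υ)
    (kL : LnT F → Fin 3 → ℤ) (ω : F.Ω) : (Fin 3 → ℤ) × ((Fin 2 → ℤ) × υ) :=
  (kL (slam F a ω), (tp (fun ω => z (ptr F J ω)) x i ω, Yb (ptr F J ω)))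

/-- **The condition of the images is few bits.** -/
theorem c0_few (hY : StY F c k D b a N₀ g A B Hb H z Yb) (hEB : Sub E B) (hBA : Sub B A)
    (hE : 0 < Pe F.p E) (hav : a ≤ v) (hv : v ≤ 1)
    (hcl : ∀ ω, E ω → kL (slam F ⌊a * J⌋₊ ω) = kP (ptr F J ω)) {N : ℕ → ℝ} {ρ : ℝ}
    (hN : ∀ l : Fin 2, (g l : ℝ) - (((i + 1) * x : ℕ) : ℝ) ≤ N l * J)
    (ht : ∀ l ≤ 1, CH (Pool.Agent.H49.Ent.cond F.p E True) (th0 F c (k + l) ⌊a * J⌋₊ H (N l))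
        (fun ω => (cR F E v ω, ((fun l : Fin k => F.X J ω (c l)), F.W ω))) ≤ ρ) :
    CH (Pool.Agent.H49.Ent.cond F.p E True) (cE F ⌊a * J⌋₊ x i z Yb kL) (zE F c k E v) ≤
      2 * ρ + 2 * Real.log 15 ∧
    Det (Pool.Agent.H49.Ent.cond F.p E True) (zE F c k E v) (fun ω => kL (slam F ⌊a * J⌋₊ ω)) := by
  have hq := isLaw_cond F.isLaw hE
  have h0 := hq.nonneg
  obtain ⟨q, hq'⟩ : ∃ q : F.Ω → ℝ, q = Pool.Agent.H49.Ent.cond F.p E True := ⟨_, rfl⟩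
  have hqE : ∀ ω, 0 < q ω → E ω := fun ω hω => by
    rw [hq'] at hω
    exact of_cond_pos hω
  rw [← hq'] at hq h0 ht ⊢
  have hkd : Det q (zE F c k E v) (fun ω => kL (slam F ⌊a * J⌋₊ ω)) := fun ω ω' hω hω' e => by
    have e1 : cR F E v ω = cR F E v ω' := (Prod.ext_iff.1 e).1
    exact Pool.T4J.cR_cd hav hv (z := kP) (z' := kL) (fun ω hω => (hcl ω hω).symm) e1
  have hYd : Det q (zE F c k E v) (fun ω => Yb (ptr F J ω)) := fun ω ω' hω hω' e => by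
    have e1 : cR F E v ω = cR F E v ω' := (Prod.ext_iff.1 e).1
    have e2 := (Prod.ext_iff.1 e).2
    exact hY.ex ω ω' (hEB ω (hqE ω hω)) (hEB ω' (hqE ω' hω')) (Prod.ext_iff.1 e2).1
      (cR_sub (fun ω hω => hBA ω (hEB ω hω)) hav hv e1) (Prod.ext_iff.1 e2).2
  refine ⟨?_, hkd⟩
  -- the heights
  obtain ⟨t, htd⟩ : ∃ t : ℕ → F.Ω → ℤ, t = fun l => th0 F c (k + l) ⌊a * J⌋₊ H (N l) := ⟨_, rfl⟩
  have ht' : ∀ l ≤ 1, CH q (t l) (zE F c k E v) ≤ ρ := fun l hl => by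
    refine le_trans (CH_mono_cond h0 fun ω ω' hω hω' e => ?_) (by rw [htd]; exact ht l hl)
    have e2 := (Prod.ext_iff.1 e).2
    exact Prod.ext (Prod.ext_iff.1 e).1 (Prod.ext (ceI_X (Prod.ext_iff.1 e2).1)
      (Prod.ext_iff.1 e2).2)
  have hTT : CH q (fun ω => (t 0 ω, t 1 ω)) (zE F c k E v) ≤ 2 * ρ := by
    have := CH_subadd h0 (t 0) (t 1) (zE F c k E v)
    linarith [ht' 0 (by norm_num), ht' 1 le_rfl]
  have h2 := CH_le_add h0 (cE F ⌊a * J⌋₊ x i z Yb kL) (fun ω => (t 0 ω, t 1 ω)) (zE F c k E v)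
  have h3 : CH q (cE F ⌊a * J⌋₊ x i z Yb kL) (fun ω => ((t 0 ω, t 1 ω), zE F c k E v ω)) ≤
      CH q (tp (fun ω => z (ptr F J ω)) x i) (fun ω => ((t 0 ω, t 1 ω), zE F c k E v ω)) := by
    refine CH_mono_left h0 fun ω ω' hω hω' e => ?_
    have e1 := (Prod.ext_iff.1 e).1
    have e2 := (Prod.ext_iff.1 (Prod.ext_iff.1 e).2).2
    exact Prod.ext (hkd ω ω' hω hω' e2) (Prod.ext e1 (hYd ω ω' hω hω' e2))
  have h4 : CH q (tp (fun ω => z (ptr F J ω)) x i) (fun ω => ((t 0 ω, t 1 ω), zE F c k E v ω)) ≤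
      2 * Real.log 15 := by
    have h5 := Pool.T4I.ch_near hq (tp (fun ω => z (ptr F J ω)) x i)
      (fun ω => ((t 0 ω, t 1 ω), zE F c k E v ω)) (L := 7) (fun ω ω' hω hω' e l => ?_)
    · refine h5.trans (le_of_eq ?_)
      norm_num
    have e1 := (Prod.ext_iff.1 e).1
    have e3 : th0 F c (k + l) ⌊a * J⌋₊ H (N l) ω = th0 F c (k + l) ⌊a * J⌋₊ H (N l) ω' := by
      rw [htd] at e1
      fin_cases l
      · exact (Prod.ext_iff.1 e1).1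
      · exact (Prod.ext_iff.1 e1).2
    have z1 := ht_gap (hY.hz ω (hEB ω (hqE ω hω)) l) ((i + 1) * x)
    have z2 := ht_gap (hY.hz ω' (hEB ω' (hqE ω' hω')) l) ((i + 1) * x)
    have z3 : |hT c k ⌊a * J⌋₊ H ω l - hT c k ⌊a * J⌋₊ H ω' l| ≤ 1 / 2 ^ (N l * J) := by
      unfold th0 at e3
      exact of_fl (pw_pos _) e3
    have z4 : |2 ^ g l * hT c k ⌊a * J⌋₊ H ω l / 2 ^ ((i + 1) * x) -
        2 ^ g l * hT c k ⌊a * J⌋₊ H ω' l / 2 ^ ((i + 1) * x)| ≤ 1 := by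
      have a1 : 2 ^ g l * hT c k ⌊a * J⌋₊ H ω l / 2 ^ ((i + 1) * x) -
        2 ^ g l * hT c k ⌊a * J⌋₊ H ω' l / 2 ^ ((i + 1) * x) =
          2 ^ ((g l : ℝ) - (((i + 1) * x : ℕ) : ℝ)) *
            (hT c k ⌊a * J⌋₊ H ω l - hT c k ⌊a * J⌋₊ H ω' l) := by
        rw [Real.rpow_sub (by norm_num), Real.rpow_natCast, Real.rpow_natCast]
        ring
      rw [a1, abs_mul, abs_of_pos (pw_pos _)]
      calc _ ≤ (2 : ℝ) ^ (N l * J) * (1 / 2 ^ (N l * J)) :=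
            mul_le_mul (pw_mono (hN l)) z3 (abs_nonneg _) (pw_pos _).le
        _ = 1 := by
            have := pw_pos (N l * J)
            field_simp
    show |((z (ptr F J ω) l / 2 ^ ((i + 1) * x) : ℤ) : ℝ) -
      ((z (ptr F J ω') l / 2 ^ ((i + 1) * x) : ℤ) : ℝ)| ≤ 7
    rw [abs_le] at z1 z2 z4 ⊢
    constructor <;> linarith [z1.1, z1.2, z2.1, z2.2, z4.1, z4.2]
  linarith

/-- The images of `N - K u` on one event, from the level `L₁` to the level `P`. -/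
def imN (F : Fam m J) (c : ℕ → Fin m) (k a : ℕ) (H : LnT F → ℕ → MvPolynomial (Option (Fin m)) ℝ)
    (E : F.Ω → Prop) (v : ℝ) (kL : LnT F → Fin 3 → ℤ) (L₁ Kb P κ : ℝ) : Prop :=
  ∀ K : (Fin 3 → ℤ) → ℝ, (∀ ω, E ω → |K (kL (slam F a ω))| ≤ (2 : ℝ) ^ Kb) →
    ∀ (Δ : Type) (Y : F.Ω → Δ) (β : ℝ),
    CH (Pool.Agent.H49.Ent.cond F.p E True) Y
      (fun ω => (⌊(2 : ℝ) ^ (L₁ * J) * hK c k a H kL K ω⌋,
        (((H (slam F a ω) k, H (slam F a ω) (k + 1)), kL (slam F a ω)), zE F c k E v ω))) ≤ β →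
    ((P - L₁) * Real.log 2 - κ) * J - β ≤
      CH (Pool.Agent.H49.Ent.cond F.p E True) (fun ω => ⌊(2 : ℝ) ^ (P * J) * hK c k a H kL K ω⌋) Y

/-- The images of `u` on one event, from the level `L₀` to the level `P`. -/
def imU (F : Fam m J) (c : ℕ → Fin m) (k a : ℕ) (H : LnT F → ℕ → MvPolynomial (Option (Fin m)) ℝ)
    (E : F.Ω → Prop) (v L₀ P κ : ℝ) : Prop :=
  ∀ (Δ : Type) (Y : F.Ω → Δ) (β : ℝ),
    CH (Pool.Agent.H49.Ent.cond F.p E True) Y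
      (fun ω => (⌊(2 : ℝ) ^ (L₀ * J) * hT c k a H ω 0⌋, (H (slam F a ω) k, zE F c k E v ω))) ≤ β →
    ((P - L₀) * Real.log 2 - κ) * J - β ≤
      CH (Pool.Agent.H49.Ent.cond F.p E True) (fun ω => ⌊(2 : ℝ) ^ (P * J) * hT c k a H ω 0⌋) Y

/-- **The pivot at the second place**, one event. -/
theorem ev_one (hY : StY F c k D b a N₀ g A B Hb H z Yb) (hEB : Sub E B) (hBA : Sub B A)
    (hE : 0 < Pe F.p E) (hav : a ≤ v) (hv : v ≤ 1)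
    (hcl : ∀ ω, E ω → kL (slam F ⌊a * J⌋₊ ω) = kP (ptr F J ω)) {N : ℕ → ℝ} {ρ : ℝ}
    (hN : ∀ l : Fin 2, (g l : ℝ) - (((i + 1) * x : ℕ) : ℝ) ≤ N l * J)
    (ht : ∀ l ≤ 1, CH (Pool.Agent.H49.Ent.cond F.p E True) (th0 F c (k + l) ⌊a * J⌋₊ H (N l))
        (fun ω => (cR F E v ω, ((fun l : Fin k => F.X J ω (c l)), F.W ω))) ≤ ρ)
    (hka : ∀ k l, |ka k l| ≤ 1) (hk1 : ∀ k, ka k 1 = 1) {L₁ Kb P κ : ℝ}
    (im : imN F c k ⌊a * J⌋₊ H E v kL L₁ Kb P κ) (hKb : (g 0 : ℝ) - g 1 ≤ Kb)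
    (hP : P * J ≤ g 1 - ((i * x : ℕ) : ℝ)) :
    ((P - L₁) * Real.log 2 - κ) * J - (2 * ρ + 2 * Real.log 15) - Real.log 31 ≤
      CH (Pool.Agent.H49.Ent.cond F.p E True)
        (fun ω => ⌊(∑ l, ka (kL (slam F ⌊a * J⌋₊ ω)) l *
          (dg (fun ω => z (ptr F J ω)) x i ω l : ℝ)) / 2 ^ 0⌋) (cE F ⌊a * J⌋₊ x i z Yb kL) := by
  have hq := isLaw_cond F.isLaw hE
  have h0 := hq.nonneg
  have hqE : ∀ ω, 0 < Pool.Agent.H49.Ent.cond F.p E True ω → E ω := fun ω hω => of_cond_pos hω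
  obtain ⟨c1, -⟩ := c0_few (x := x) (i := i) hY hEB hBA hE hav hv hcl hN ht
  obtain ⟨K, hKd⟩ : ∃ K : (Fin 3 → ℤ) → ℝ, K = fun κ => -(ka κ 0 * 2 ^ ((g 0 : ℝ) - g 1)) :=
    ⟨_, rfl⟩
  have h1 := im K (fun ω _ => by
    rw [hKd]
    show |-(ka _ 0 * 2 ^ ((g 0 : ℝ) - g 1))| ≤ _
    rw [abs_neg, abs_mul, abs_of_pos (pw_pos _)]
    calc _ ≤ 1 * (2 : ℝ) ^ ((g 0 : ℝ) - g 1) :=
          mul_le_mul_of_nonneg_right (hka _ 0) (pw_pos _).le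
      _ ≤ _ := by
        rw [one_mul]
        exact pw_mono hKb) _
    (fun ω => (cE F ⌊a * J⌋₊ x i z Yb kL ω, ⌊(2 : ℝ) ^ (L₁ * J) * hK c k ⌊a * J⌋₊ H kL K ω⌋))
    (2 * ρ + 2 * Real.log 15) ?_
  · subst hKd
    exact fi_one (h := fun ω l => hT c k ⌊a * J⌋₊ H ω l) (kcl := fun ω => kL (slam F ⌊a * J⌋₊ ω))
      (Yb := fun ω => Yb (ptr F J ω)) hq
      (fun ω hω l => hY.hz ω (hEB ω (hqE ω hω)) l) hka hk1 hP h1
  · refine le_trans ?_ c1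
    have h2 := CH_mono_left h0 (X' := cE F ⌊a * J⌋₊ x i z Yb kL)
      (X := fun ω => (cE F ⌊a * J⌋₊ x i z Yb kL ω,
        ⌊(2 : ℝ) ^ (L₁ * J) * hK c k ⌊a * J⌋₊ H kL K ω⌋))
      (W := fun ω => (⌊(2 : ℝ) ^ (L₁ * J) * hK c k ⌊a * J⌋₊ H kL K ω⌋,
        (((H (slam F ⌊a * J⌋₊ ω) k, H (slam F ⌊a * J⌋₊ ω) (k + 1)), kL (slam F ⌊a * J⌋₊ ω)),
          zE F c k E v ω)))
      (fun ω ω' _ _ e => Prod.ext (Prod.ext_iff.1 e).1
        (Prod.ext_iff.1 (Prod.ext_iff.1 e).2).1)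
    refine h2.trans (CH_mono_cond h0 fun ω ω' _ _ e => ?_)
    exact (Prod.ext_iff.1 (Prod.ext_iff.1 e).2).2

/-- **The pivot at the first place**, one event, the coefficient between `2 ^ (-t₁)` and
`2 ^ (-t₀)`. -/
theorem ev_two (hY : StY F c k D b a N₀ g A B Hb H z Yb) (hEB : Sub E B) (hBA : Sub B A)
    (hE : 0 < Pe F.p E) (hav : a ≤ v) (hv : v ≤ 1)
    (hcl : ∀ ω, E ω → kL (slam F ⌊a * J⌋₊ ω) = kP (ptr F J ω)) {N : ℕ → ℝ} {ρ : ℝ}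
    (hN : ∀ l : Fin 2, (g l : ℝ) - (((i + 1) * x : ℕ) : ℝ) ≤ N l * J)
    (ht : ∀ l ≤ 1, CH (Pool.Agent.H49.Ent.cond F.p E True) (th0 F c (k + l) ⌊a * J⌋₊ H (N l))
        (fun ω => (cR F E v ω, ((fun l : Fin k => F.X J ω (c l)), F.W ω))) ≤ ρ)
    (hka : ∀ k l, |ka k l| ≤ 1) (hk0 : ∀ k, ka k 0 = 1) {L₀ L₁ Kb P P' κ t₀ t₁ Ee : ℝ}
    (hl : ∀ ω, E ω → (2 : ℝ) ^ (-t₁) ≤ |ka (kL (slam F ⌊a * J⌋₊ ω)) 1| ∧
      |ka (kL (slam F ⌊a * J⌋₊ ω)) 1| ≤ 2 ^ (-t₀))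
    (im : imN F c k ⌊a * J⌋₊ H E v kL L₁ Kb P κ) (hKb : t₁ + ((g 0 : ℝ) - g 1) ≤ Kb)
    (iu : imU F c k ⌊a * J⌋₊ H E v L₀ P' κ)
    (hP : P * J ≤ g 1 - ((i * x : ℕ) : ℝ) - t₁)
    (hB : g 1 - (((i + 1) * x : ℕ) : ℝ) ≤ L₁ * J) (hE0 : 0 ≤ Ee)
    (hEe : L₁ * J - g 1 + ((i * x : ℕ) : ℝ) + t₁ ≤ Ee)
    (hP' : P' * J ≤ g 0 - (((i + 1) * x : ℕ) : ℝ) + t₀) :
    ((P - L₁) * Real.log 2 - κ) * J - (2 * ρ + 2 * Real.log 15) +
      (((P' - L₀) * Real.log 2 - κ) * J - (2 * ρ + 2 * Real.log 15)) - Real.log 31 -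
      (Real.log 31 + Ee * Real.log 2) - Real.log 17 ≤
      CH (Pool.Agent.H49.Ent.cond F.p E True)
        (fun ω => ⌊(∑ l, ka (kL (slam F ⌊a * J⌋₊ ω)) l *
          (dg (fun ω => z (ptr F J ω)) x i ω l : ℝ)) / 2 ^ 0⌋) (cE F ⌊a * J⌋₊ x i z Yb kL) := by
  have hq := isLaw_cond F.isLaw hE
  have h0 := hq.nonneg
  have hqE : ∀ ω, 0 < Pool.Agent.H49.Ent.cond F.p E True ω → E ω := fun ω hω => of_cond_pos hω
  obtain ⟨c1, -⟩ := c0_few (x := x) (i := i) hY hEB hBA hE hav hv hcl hN ht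
  obtain ⟨K, hKd⟩ : ∃ K : (Fin 3 → ℤ) → ℝ, K = fun κ => -((ka κ 1)⁻¹ * 2 ^ ((g 0 : ℝ) - g 1)) :=
    ⟨_, rfl⟩
  have h1 := im K (fun ω hω => by
    rw [hKd]
    show |-((ka _ 1)⁻¹ * 2 ^ ((g 0 : ℝ) - g 1))| ≤ _
    rw [abs_neg, abs_mul, abs_of_pos (pw_pos ((g 0 : ℝ) - g 1)), abs_inv]
    have h2 := (hl ω hω).1
    rw [Real.rpow_neg (by norm_num)] at h2
    have h3 := inv_le_of_inv_le₀ (pw_pos _) h2
    calc _ ≤ (2 : ℝ) ^ t₁ * (2 : ℝ) ^ ((g 0 : ℝ) - g 1) :=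
          mul_le_mul_of_nonneg_right h3 (pw_pos _).le
      _ ≤ _ := by
        rw [← pw_add]
        exact pw_mono hKb) _
    (fun ω => (cE F ⌊a * J⌋₊ x i z Yb kL ω, ⌊(2 : ℝ) ^ (L₁ * J) * hK c k ⌊a * J⌋₊ H kL K ω⌋))
    (2 * ρ + 2 * Real.log 15) ?_
  · have h3 := iu _ (cE F ⌊a * J⌋₊ x i z Yb kL) (2 * ρ + 2 * Real.log 15)
      (le_trans (CH_mono_cond h0 fun ω ω' _ _ e =>
        (Prod.ext_iff.1 (Prod.ext_iff.1 e).2).2) c1)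
    subst hKd
    exact fi_two (h := fun ω l => hT c k ⌊a * J⌋₊ H ω l) (kcl := fun ω => kL (slam F ⌊a * J⌋₊ ω))
      (Yb := fun ω => Yb (ptr F J ω)) hq
      (fun ω hω l => hY.hz ω (hEB ω (hqE ω hω)) l) hka hk0 (fun ω hω => hl ω (hqE ω hω)) hP hB hE0
      hEe hP' h1 h3
  · refine le_trans ?_ c1
    have h2 := CH_mono_left h0 (X' := cE F ⌊a * J⌋₊ x i z Yb kL)
      (X := fun ω => (cE F ⌊a * J⌋₊ x i z Yb kL ω,
        ⌊(2 : ℝ) ^ (L₁ * J) * hK c k ⌊a * J⌋₊ H kL K ω⌋))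
      (W := fun ω => (⌊(2 : ℝ) ^ (L₁ * J) * hK c k ⌊a * J⌋₊ H kL K ω⌋,
        (((H (slam F ⌊a * J⌋₊ ω) k, H (slam F ⌊a * J⌋₊ ω) (k + 1)), kL (slam F ⌊a * J⌋₊ ω)),
          zE F c k E v ω)))
      (fun ω ω' _ _ e => Prod.ext (Prod.ext_iff.1 e).1
        (Prod.ext_iff.1 (Prod.ext_iff.1 e).2).1)
    refine h2.trans (CH_mono_cond h0 fun ω ω' _ _ e => ?_)
    exact (Prod.ext_iff.1 (Prod.ext_iff.1 e).2).2

/-- **A small coefficient**, one event, the pivot at the first place. -/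
theorem ev_top (hY : StY F c k D b a N₀ g A B Hb H z Yb) (hEB : Sub E B) (hBA : Sub B A)
    (hE : 0 < Pe F.p E) (hav : a ≤ v) (hv : v ≤ 1)
    (hcl : ∀ ω, E ω → kL (slam F ⌊a * J⌋₊ ω) = kP (ptr F J ω)) {N : ℕ → ℝ} {ρ : ℝ}
    (hN : ∀ l : Fin 2, (g l : ℝ) - (((i + 1) * x : ℕ) : ℝ) ≤ N l * J)
    (ht : ∀ l ≤ 1, CH (Pool.Agent.H49.Ent.cond F.p E True) (th0 F c (k + l) ⌊a * J⌋₊ H (N l))
        (fun ω => (cR F E v ω, ((fun l : Fin k => F.X J ω (c l)), F.W ω))) ≤ ρ)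
    (hk0 : ∀ k, ka k 0 = 1) {L₀ P' κ : ℝ}
    (hl : ∀ ω, E ω → |ka (kL (slam F ⌊a * J⌋₊ ω)) 1| * 2 ^ x ≤ 1)
    (iu : imU F c k ⌊a * J⌋₊ H E v L₀ P' κ) (hP' : P' * J ≤ g 0 - ((i * x : ℕ) : ℝ)) :
    (((P' - L₀) * Real.log 2 - κ) * J - (2 * ρ + 2 * Real.log 15)) - Real.log 23 ≤
      CH (Pool.Agent.H49.Ent.cond F.p E True)
        (fun ω => ⌊(∑ l, ka (kL (slam F ⌊a * J⌋₊ ω)) l *
          (dg (fun ω => z (ptr F J ω)) x i ω l : ℝ)) / 2 ^ 0⌋) (cE F ⌊a * J⌋₊ x i z Yb kL) := by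
  have hq := isLaw_cond F.isLaw hE
  have h0 := hq.nonneg
  have hqE : ∀ ω, 0 < Pool.Agent.H49.Ent.cond F.p E True ω → E ω := fun ω hω => of_cond_pos hω
  obtain ⟨c1, -⟩ := c0_few (x := x) (i := i) hY hEB hBA hE hav hv hcl hN ht
  have h3 := iu _ (cE F ⌊a * J⌋₊ x i z Yb kL) (2 * ρ + 2 * Real.log 15)
    (le_trans (CH_mono_cond h0 fun ω ω' _ _ e =>
      (Prod.ext_iff.1 (Prod.ext_iff.1 e).2).2) c1)
  exact fi_top (h := fun ω l => hT c k ⌊a * J⌋₊ H ω l) (kcl := fun ω => kL (slam F ⌊a * J⌋₊ ω))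
    (Yb := fun ω => Yb (ptr F J ω)) hq
    (fun ω hω l => hY.hz ω (hEB ω (hqE ω hω)) l) hk0 (fun ω hω => hl ω (hqE ω hω)) hP' h3

end

end Pool.STR16
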