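import Pool.Agent.H16.STR.Lit

/-!
# The assembly of the star, far half: constants

`StarP`, `StarEv`: one step of the star with its constants, on one event. `star_seq`: the constants of
all orders. `len_ex`: the lengths of the steps. `far_star`: one step in a box with the fixed pattern
of digits of the places below `k`.
-/

set_option autoImplicit false

namespace Pool.STR16

open Finset Real MvPolynomial
open Pool.Agent.H49.Ent Pool.Agent.H32.Dense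
open Pool.STK hiding pr2
open Pool.KA Pool.KSAT Pool.K2S Pool.PB Pool.S6C
open Pool.GEN Pool.CHT Pool.CHX Pool.ISO Pool.LA91 Pool.AVG71 Pool.AVG5 Pool.D2F2 Pool.AVG57
open Pool.RCD Pool.AVG96 Pool.OWN68 Pool.V0F Pool.V0Q Pool.V0T
open Pool.T4C72 (BoxT)

variable {m : ℕ}

/-- The digits of the order `j` over labels of the window `w`, `X` behind the natural ones. -/
noncomputable abbrev oI {J : ℕ} {F : Fam m J} (c : ℕ → Fin m) (k : ℕ) (sn : ℕ → ℝ → ℝ) (w : ℝ)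
    (j : ℕ) (X : ℝ) (H : LnT F → ℕ → MvPolynomial (Option (Fin m)) ℝ) : F.Ω → Fin 2 → ℤ :=
  oJ c k ⌊w * J⌋₊ j H fun l => sn (k + l) w + X - j * w

/-- The conditions: the jets of the places below `k`, the record of the window `x`, the time. -/
noncomputable abbrev cI {J : ℕ} {F : Fam m J} (c : ℕ → Fin m) (k : ℕ) (N : ℕ → ℕ → ℝ) (w x : ℝ)
    (A : F.Ω → Prop) (H : LnT F → ℕ → MvPolynomial (Option (Fin m)) ℝ) (ω : F.Ω) :=
  (jet2 F c ⌊w * J⌋₊ H 0 k N ω, (cR F A x ω, F.W ω))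

/-- **One step of the star on one event.** -/
def StarEv {J : ℕ} (F : Fam m J) (c : ℕ → Fin m) (k D₁ j : ℕ) (sn : ℕ → ℝ → ℝ)
    (a x X X' κ₀ δ : ℝ) (N : ℕ → ℕ → ℝ) (A : F.Ω → Prop)
    (H : LnT F → ℕ → MvPolynomial (Option (Fin m)) ℝ) : Prop :=
  (∀ i ≤ D₁ + 1, i ≠ j → CH (Pool.Agent.H49.Ent.cond F.p A True)
    (oI c k sn a i X' H) (cI c k N a x A H) ≤ κ₀ * (X' - X) * J) →
  (∀ i ≤ D₁ + 1, j < i → CH (Pool.Agent.H49.Ent.cond F.p A True)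
    (oI c k sn a i X' H) (cI c k N a a A H) ≤ κ₀ * (X' - X) * J) →
  CH (Pool.Agent.H49.Ent.cond F.p A True) (oI c k sn a j X H) (cI c k N a x A H) ≤
    κ₀ * (X' - X) * J →
  CH (Pool.Agent.H49.Ent.cond F.p A True) (oI c k sn a j X' H)
      (fun ω => (oI c k sn a j X H ω, cI c k N a a A H ω)) ≤
    CH (Pool.Agent.H49.Ent.cond F.p A True) (oI c k sn a j X' H)
      (fun ω => (oI c k sn a j X H ω, cI c k N a x A H ω)) + κ₀ * (X' - X) * J →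
  CH (Pool.Agent.H49.Ent.cond F.p A True) (oI c k sn a j X' H) (cI c k N a x A H) ≤
    δ * (X' - X) * J

/-- **One step of the star with its constants.** -/
def StarP (k : ℕ) (h s : ℝ) (j D₁ : ℕ) (δ κ₀ C : ℝ) : Prop :=
  ∀ {m D : ℕ} {S : PCl m} {c : ℕ → Fin m} {sn sp : ℕ → ℝ → ℝ} {G : Set ℝ}
    {b o w u Λ φ' e φ : ℝ} {lam : ℝ → ℝ}, BoxT S c k 1 D sn sp G s h b o w u Λ φ' e lam →
    φ' ≤ φ → ∀ {a x x' X X' Ec R : ℝ} {e₀ : ℕ → ℝ} {ρ₀ κ room : ℝ} {N : ℕ → ℕ → ℝ}, a ∈ G →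
    w ≤ a → x ∈ G → a ≤ x → x ≤ w + Λ * u → 0 ≤ X → X < X' → C * φ ≤ κ₀ * (X' - X) →
    κ ≤ κ₀ * (X' - X) → 0 ≤ κ → s * (a - w) + X' + C * φ + C * u ≤ Λ * u →
    X' + C * φ + C * u ≤ a - b → X' + C * φ ≤ R → X' + C * φ ≤ room → x' ∈ G → a ≤ x' →
    x' ≤ w + Λ * u → (∀ l ≤ 1, sn (k + l) a + X' + C * φ ≤ sn (k + l) x') →
    (∀ l < k, sn l a + X' + C * φ ≤ N l 0 ∧ N l 0 ≤ N l 1 + a ∧
      N l 1 + a + φ ≤ sn l b + 2 * (a - b)) →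
    (∀ ϖ : ℝ, 0 < ϖ → ∀ v ∈ G, a ≤ v → v ≤ x' → ∀ P : ℝ, P ≤ sn (k + 1) a + X' →
      ImN S c k D₁ a φ e₀ ρ₀ sn ϖ room v P κ) →
    (∀ ϖ : ℝ, 0 < ϖ → ∀ v ∈ G, a ≤ v → v ≤ x' → ∀ P : ℝ, P ≤ sn k a + X' →
      ImU S c k D₁ a φ e₀ ρ₀ sn ϖ v P κ) →
    (∃ η : ℝ, RNum S (fun J F => ptr F J) (vg a) η) →
    Bas S (fun J F A => ∀ Hb H : LnT F → ℕ → MvPolynomial (Option (Fin m)) ℝ,
      StE F c k D₁ b a φ Ec R sn A Hb H → OkT F c k D₁ a φ e₀ ρ₀ sn A H →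
      StarEv F c k D₁ j sn a x X X' κ₀ δ N A H)

theorem starP_of {k : ℕ} {h s : ℝ} (H : StarStmt k h s) {j D₁ : ℕ} (h1 : 1 ≤ j) (h2 : (j : ℝ) ≤ s)
    {δ : ℝ} (hδ : 0 < δ) : ∃ κ₀ C : ℝ, 0 < κ₀ ∧ 1 ≤ C ∧ StarP k h s j D₁ δ κ₀ C :=
  H j D₁ h1 h2 δ hδ

/-- **The constants of all orders.** -/
theorem star_seq {Q : ℕ → ℝ → ℝ → ℝ → Prop} {n₀ : ℕ} (G : ℕ → ℕ)
    (hQ : ∀ j, 1 ≤ j → j ≤ n₀ → ∀ δ : ℝ, 0 < δ → ∃ κ C : ℝ, 0 < κ ∧ 1 ≤ C ∧ Q j δ κ C)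
    {τ : ℝ} (hτ : 0 < τ) : ∀ n ≤ n₀, ∃ (δ κ C : ℕ → ℝ) (μ Cm : ℝ), 0 < μ ∧ 1 ≤ Cm ∧
      (∀ j, 1 ≤ j → j ≤ n → Q j (δ j) (κ j) (C j) ∧ 0 < δ j ∧ μ ≤ κ j ∧ 1 ≤ C j ∧ C j ≤ Cm ∧
        δ j * G j ≤ τ) ∧
      ∀ j i, 1 ≤ j → j < i → i ≤ n → 2 * (δ i * G i) ≤ κ j := by
  intro n
  induction n with
  | zero =>
    intro _
    exact ⟨fun _ => 1, fun _ => 1, fun _ => 1, 1, 1, one_pos, le_rfl,
      fun j h1 h2 => by omega, fun j i h1 h2 h3 => by omega⟩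
  | succ n ih =>
    intro hn
    obtain ⟨δ, κ, C, μ, Cm, hμ, hCm, h1, h2⟩ := ih (by omega)
    obtain ⟨g, hg⟩ : ∃ g : ℝ, g = G (n + 1) := ⟨_, rfl⟩
    have hg0 : 0 ≤ g := by rw [hg]; exact Nat.cast_nonneg _
    obtain ⟨d, hd⟩ : ∃ d : ℝ, d = min τ (μ / 2) / (g + 1) := ⟨_, rfl⟩
    have hmin : 0 < min τ (μ / 2) := lt_min hτ (by positivity)
    have hd0 : 0 < d := by rw [hd]; positivity
    have hdg : d * g ≤ min τ (μ / 2) := by
      rw [hd, div_mul_eq_mul_div, div_le_iff₀ (by linarith)]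
      exact mul_le_mul_of_nonneg_left (by linarith) hmin.le
    obtain ⟨κ', C', hκ', hC', hQ'⟩ := hQ (n + 1) (by omega) hn d hd0
    refine ⟨fun j => if j = n + 1 then d else δ j, fun j => if j = n + 1 then κ' else κ j,
      fun j => if j = n + 1 then C' else C j, min μ κ', max Cm C', lt_min hμ hκ',
      hCm.trans (le_max_left _ _), fun j j1 j2 => ?_, fun j i j1 j2 j3 => ?_⟩
    · by_cases hj : j = n + 1
      · subst hj
        simp only [if_true]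
        exact ⟨hQ', hd0, min_le_right _ _, hC', le_max_right _ _, by
          rw [← hg]
          exact hdg.trans (min_le_left _ _)⟩
      · simp only [if_neg hj]
        obtain ⟨a1, a2, a3, a4, a5, a6⟩ := h1 j j1 (by omega)
        exact ⟨a1, a2, (min_le_left _ _).trans a3, a4, a5.trans (le_max_left _ _), a6⟩
    · have hj : j ≠ n + 1 := by omega
      simp only [if_neg hj]
      by_cases hi : i = n + 1
      · subst hi
        simp only [if_true]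
        rw [← hg]
        have := hdg.trans (min_le_right _ _)
        have := (h1 j j1 (by omega)).2.2.1
        linarith
      · simp only [if_neg hi]
        exact h2 j i j1 j2 (by omega)

/-- **The lengths of the steps.** -/
theorem len_ex {s : ℝ} {n₀ : ℕ} (hn : (n₀ : ℝ) ≤ s) (hn' : s < n₀ + 1) :
    ∃ (G mm g : ℕ → ℕ) (P₀ L : ℕ), 2 ≤ L ∧ P₀ ≤ L ∧
      (∀ j, 1 ≤ j → j ≤ n₀ → s + 2 ≤ G j ∧ G j ≤ mm j ∧ mm j ≤ P₀ ∧ P₀ + g j ≤ L ∧ G j + g j ≤ L ∧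
        ((j : ℝ) < s → (s - j) * g j ≤ G j ∧ (G j : ℝ) ≤ (s - j) * g j + (s - j))) ∧
      ∀ j i, 1 ≤ j → j < i → i ≤ n₀ → (s + 1) * G j + s ≤ G i ∧ mm i + G j ≤ mm j := by
  obtain ⟨A, hA⟩ : ∃ A : ℕ, A = 2 * (n₀ + 2) := ⟨_, rfl⟩
  have hA4 : 4 ≤ A := by omega
  have hAs : 2 * s + 2 ≤ A := by
    rw [hA]
    push_cast
    linarith
  obtain ⟨G, hG⟩ : ∃ G : ℕ → ℕ, G = fun j => A ^ j := ⟨_, rfl⟩
  obtain ⟨mm, hmm⟩ : ∃ mm : ℕ → ℕ, mm = fun j => ∑ i ∈ Icc j n₀, G i := ⟨_, rfl⟩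
  obtain ⟨g, hg⟩ : ∃ g : ℕ → ℕ, g = fun j => ⌊(G j : ℝ) / (s - j)⌋₊ := ⟨_, rfl⟩
  have hs0 : 0 ≤ s := (Nat.cast_nonneg n₀).trans hn
  refine ⟨G, mm, g, mm 1, mm 1 + ∑ j ∈ Icc 1 n₀, g j + 2, by omega, by omega,
    fun j h1 h2 => ⟨?_, ?_, ?_, ?_, ?_, fun h3 => ?_⟩, fun j i h1 h2 h3 => ⟨?_, ?_⟩⟩
  · have h3 : A ≤ G j := by
      rw [hG]
      exact Nat.le_self_pow (by omega) A
    have h4 : (A : ℝ) ≤ G j := by exact_mod_cast h3
    linarith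
  · rw [hmm]
    exact single_le_sum (f := G) (fun _ _ => Nat.zero_le _) (mem_Icc.2 ⟨le_rfl, h2⟩)
  · rw [hmm]
    exact sum_le_sum_of_subset (Icc_subset_Icc h1 le_rfl)
  · have := single_le_sum (f := g) (s := Icc 1 n₀) (fun _ _ => Nat.zero_le _)
      (mem_Icc.2 ⟨h1, h2⟩)
    omega
  · have h3 := single_le_sum (f := g) (s := Icc 1 n₀) (fun _ _ => Nat.zero_le _)
      (mem_Icc.2 ⟨h1, h2⟩)
    have h4 : G j ≤ mm 1 := by
      rw [hmm]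
      exact single_le_sum (f := G) (fun _ _ => Nat.zero_le _) (mem_Icc.2 ⟨h1, h2⟩)
    omega
  · have h4 : 0 < s - j := by linarith
    have h5 : (0 : ℝ) ≤ (G j : ℝ) / (s - j) := by positivity
    have h6 : (g j : ℝ) ≤ (G j : ℝ) / (s - j) := by
      rw [hg]
      exact Nat.floor_le h5
    have h7 : (G j : ℝ) / (s - j) < g j + 1 := by
      rw [hg]
      exact Nat.lt_floor_add_one _
    rw [le_div_iff₀ h4] at h6
    rw [div_lt_iff₀ h4] at h7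
    constructor <;> linarith
  · have h4 : A * G j ≤ G i := by
      rw [hG]
      show A * A ^ j ≤ A ^ i
      rw [← pow_succ']
      exact Nat.pow_le_pow_right (by omega) h2
    have h5 : (A : ℝ) * G j ≤ G i := by exact_mod_cast h4
    have h6 : (1 : ℝ) ≤ G j := by
      have : 1 ≤ G j := by
        rw [hG]
        exact Nat.one_le_pow _ _ (by omega)
      exact_mod_cast this
    have h7 : (2 * s + 2) * G j ≤ A * G j := mul_le_mul_of_nonneg_right hAs (by linarith)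
    have h8 : s * 1 ≤ s * G j := mul_le_mul_of_nonneg_left h6 hs0
    linarith
  · rw [hmm]
    show ∑ a ∈ Icc i n₀, G a + G j ≤ ∑ a ∈ Icc j n₀, G a
    have h4 : ∑ a ∈ insert j (Icc i n₀), G a ≤ ∑ a ∈ Icc j n₀, G a := by
      refine sum_le_sum_of_subset fun a ha => ?_
      rw [mem_insert, mem_Icc] at ha
      rw [mem_Icc]
      omega
    rw [sum_insert (by rw [mem_Icc]; omega)] at h4
    omega

/-- **One step in a box**, the fixed pattern of digits of the places below `k`. -/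
theorem far_star {k j D₁ : ℕ} {h s δ κ₀ C : ℝ} (hQ : StarP k h s j D₁ δ κ₀ C) (hs : 1 ≤ s)
    (hC : 1 ≤ C) {m D : ℕ} {S : PCl m} {c : ℕ → Fin m} {sn sp : ℕ → ℝ → ℝ} {G : Set ℝ}
    {b o t q Λ φ' e φ : ℝ} {lam : ℝ → ℝ} (Bx : BoxT S c k 1 D sn sp G s h b o t q Λ φ' e lam)
    (hφ : φ' ≤ φ) (hΛ : 4 * s + 10 + 2 * C ≤ Λ) (hCφ : (C + 4) * φ ≤ q) {N : ℕ → ℕ → ℝ}
    (hN : ∀ l < k, N l 0 = sn l t + (2 * s + 5) * q ∧ N l 1 = sn l t + (2 * s + 5) * q - t)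
    {a x x' X X' Ec R ρ₀ κ room : ℝ} {e₀ : ℕ → ℝ} (ha : a ∈ G) (hta : t ≤ a) (hx : x ∈ G)
    (hax : a ≤ x) (hxq : x ≤ t + q) (hx' : x' ∈ G) (hx'q : x' = t + 4 * q) (htG : t ∈ G)
    (hX : 0 ≤ X) (hXX : X < X') (hX' : X' ≤ (s + 1) * q) (h1 : C * φ ≤ κ₀ * (X' - X))
    (h2 : κ ≤ κ₀ * (X' - X)) (hκ : 0 ≤ κ) (hR : (s + 2) * q ≤ R) (hroom : (s + 2) * q ≤ room)
    (hIN : ∀ ϖ : ℝ, 0 < ϖ → ∀ v ∈ G, a ≤ v → v ≤ x' → ∀ P : ℝ, P ≤ sn (k + 1) a + X' →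
      ImN S c k D₁ a φ e₀ ρ₀ sn ϖ room v P κ)
    (hIU : ∀ ϖ : ℝ, 0 < ϖ → ∀ v ∈ G, a ≤ v → v ≤ x' → ∀ P : ℝ, P ≤ sn k a + X' →
      ImU S c k D₁ a φ e₀ ρ₀ sn ϖ v P κ)
    (hrn : ∃ η : ℝ, RNum S (fun J F => ptr F J) (vg a) η) :
    Bas S (fun J F A => ∀ Hb H : LnT F → ℕ → MvPolynomial (Option (Fin m)) ℝ,
      StE F c k D₁ b a φ Ec R sn A Hb H → OkT F c k D₁ a φ e₀ ρ₀ sn A H →
      StarEv F c k D₁ j sn a x X X' κ₀ δ N A H) := by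
  have L := Bx.lad
  have hq := Bx.u0
  have hφ'0 := L.φ0
  have hφ0 : 0 < φ := lt_of_lt_of_le hφ'0 hφ
  have hΛq : (4 * s + 10 + 2 * C) * q ≤ Λ * q := mul_le_mul_of_nonneg_right hΛ hq.le
  have hsq : 0 ≤ s * q := by positivity
  have hCq : 0 ≤ C * q := by positivity
  have hCφ' : C * φ + 4 * φ ≤ q := by linarith
  have hCφ0 : 0 ≤ C * φ := by positivity
  have htb : b + Λ * q ≤ t := Bx.bw
  have hto := Bx.wo
  have hba : b ≤ a := by linarith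
  have hao : a ≤ o := by linarith
  have hx'o : x' ≤ o := by
    rw [hx'q]
    linarith
  have hsa : s * (a - t) ≤ s * q := mul_le_mul_of_nonneg_left (by linarith) (by linarith)
  have lin : ∀ l ≤ 1, ∀ v ∈ G, b ≤ v → v ≤ o → |sn (k + l) v - sn (k + l) t - s * (v - t)| ≤ φ' :=
    fun l hl v hv h3 h4 => Bx.lin (k + l) (by omega) (by omega) v hv h3 h4
  refine hQ Bx hφ ha hta hx hax (by linarith) hX hXX h1 h2 hκ (by linarith) (by linarith)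
    (by linarith) (by linarith) hx' (by linarith) (by linarith) (fun l hl => ?_) (fun l hl => ?_)
    hIN hIU hrn
  · have e1 := abs_le.1 (lin l hl a ha hba hao)
    have e2 := abs_le.1 (lin l hl x' hx' (by linarith) hx'o)
    have e3 : s * (x' - t) = 4 * (s * q) := by
      rw [hx'q]
      ring
    rw [e3] at e2
    have e4 : 1 * q ≤ s * q := mul_le_mul_of_nonneg_right hs hq.le
    linarith [e1.2, e2.1]
  · obtain ⟨n0, n1⟩ := hN l hl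
    have e1 := abs_le.1 (L.fl l hl a ha hba hao)
    have e2 := abs_le.1 (L.fl l hl t htG (by linarith) (by linarith))
    have e3 := abs_le.1 (L.fl l hl b L.bG le_rfl (hba.trans hao))
    rw [n0, n1]
    refine ⟨?_, ?_, ?_⟩
    · linarith [e1.2, e2.1]
    · linarith
    · linarith [e2.2, e3.1]

end Pool.STR16
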