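import Pool.Agent.H16.STR.Gst
import Pool.Agent.H44.V0P.TwC

/-!
# The assembly of the star, far half

`far_cls`: in a subclass, in one of finitely many small boxes `w = t + ((p + P₀) / L ^ k') q`,
`u = q / L ^ k'` of a box, all own jets of the orders `1 .. s` of both targets are few bits, `2 u`
digits behind the natural ones, given the record of `w` and the jets of the places below `k`.
-/

set_option autoImplicit false

namespace Pool.STR16

open Finset Real MvPolynomial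
open Pool.Agent.H49.Ent Pool.Agent.H32.Dense
open Pool.STK hiding pr2
open Pool.KA Pool.KSAT Pool.K2S Pool.PB Pool.S6C
open Pool.GEN Pool.CHT Pool.CHX Pool.ISO Pool.LA91 Pool.AVG71 Pool.AVG5 Pool.D2F2 Pool.AVG57
open Pool.RCD Pool.AVG96 Pool.OWN68 Pool.V0F Pool.V0Q Pool.V0T
open Pool.STR91 (dg pr FwN pr_mono)
open Pool.T4C72 (BoxT)

/-- The end of the digits of one step. -/
noncomputable def XE (s σ : ℝ) (G g : ℕ → ℕ) (j : ℕ) : ℝ :=
  if (j : ℝ) < s then (s - j) * (G j + g j) * σ else G j * σ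

/-- **One event**: the recursion of the orders over the labels of the windows `x i`. -/
theorem far_ev {m : ℕ} {s σ q ψ μ τ t : ℝ} {n₀ P₀ k D₁ : ℕ} {G mm g : ℕ → ℕ} {δ κs : ℕ → ℝ}
    (hσ : 0 < σ) (hn : (n₀ : ℝ) ≤ s) (hn' : s < n₀ + 1)
    (hlen : ∀ j, 1 ≤ j → j ≤ n₀ → s + 2 ≤ G j ∧ G j ≤ mm j ∧
      ((j : ℝ) < s → (s - j) * g j ≤ G j ∧ (G j : ℝ) ≤ (s - j) * g j + (s - j)))
    (hlen' : ∀ j i, 1 ≤ j → j < i → i ≤ n₀ → (s + 1) * G j + s ≤ G i ∧ mm i + G j ≤ mm j)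
    (hGq : ∀ j, 1 ≤ j → j ≤ n₀ → G j * σ ≤ q) (hψ0 : 0 ≤ ψ) (hψ : 16 * ψ ≤ μ * σ)
    (hκ : ∀ j, 1 ≤ j → j ≤ n₀ → μ ≤ κs j)
    (hδ : ∀ j i, 1 ≤ j → j < i → i ≤ n₀ → 2 * (δ i * G i) ≤ κs j)
    (hδ0 : ∀ j, 1 ≤ j → j ≤ n₀ → 0 < δ j)
    (hτ : ∀ j, 1 ≤ j → j ≤ n₀ → δ j * G j * σ + ψ ≤ τ) (Ds : Set ℝ)
    (hD1 : ∀ j, 1 ≤ j → j ≤ n₀ → XE s σ G g j ∈ Ds)
    (hD2 : ∀ j, 1 ≤ j → j ≤ n₀ → (G j - s) * σ ∈ Ds)
    (hD3 : ∀ j, 1 ≤ j → j ≤ n₀ → (s - j) * G j * σ ∈ Ds)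
    {J : ℕ} (hJ : 0 < (J : ℝ)) {F : Fam m J} {A : F.Ω → Prop} (hA : 0 < Pe F.p A)
    {c : ℕ → Fin m} {sn : ℕ → ℝ → ℝ} {N : ℕ → ℕ → ℝ} {x : ℕ → ℝ}
    {H : ℕ → LnT F → ℕ → MvPolynomial (Option (Fin m)) ℝ}
    {H₀ : LnT F → ℕ → MvPolynomial (Option (Fin m)) ℝ}
    (hx1 : ∀ i ≤ P₀, x i ≤ 1) (hxm : ∀ i r, i ≤ r → x i ≤ x r)
    (lo : ∀ D ∈ Ds, ∀ i r j : ℕ, i ≤ r → r ≤ P₀ → j ≤ n₀ → D ≤ (s - j) * (r - i) * σ →
      CH (Pool.Agent.H49.Ent.cond F.p A True) (oI c k sn (x i) j D (H i))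
        (cI c k N t (x r) A H₀) ≤ ψ * J)
    (hi : ∀ D ∈ Ds, ∀ i j : ℕ, i ≤ P₀ → s < (j : ℝ) → j ≤ D₁ + 1 → D ≤ (s + 1) * q →
      CH (Pool.Agent.H49.Ent.cond F.p A True) (oI c k sn (x i) j D (H i))
        (cI c k N t (x i) A H₀) ≤ ψ * J)
    (tr : ∀ D ∈ Ds, ∀ D' ∈ Ds, ∀ i i' j r : ℕ, i ≤ r → i' ≤ r → r ≤ P₀ → j ≤ n₀ →
      D' + (s - j) * (i' - i) * σ ≤ D → D ≤ (s + 1) * q →
      CH (Pool.Agent.H49.Ent.cond F.p A True) (oI c k sn (x i') j D' (H i'))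
        (fun ω => (oI c k sn (x i) j D (H i) ω, cI c k N t (x r) A H₀ ω)) ≤ ψ * J)
    (hcI : ∀ i ≤ P₀, ∀ y : ℝ, cI c k N (x i) y A (H i) = cI c k N t y A H₀)
    (star : ∀ j, 1 ≤ j → j ≤ n₀ → ∀ p, G j ≤ p → p ≤ P₀ →
      StarEv F c k D₁ j sn (x (p - G j)) (x p) ((s - j) * G j * σ) (XE s σ G g j) (κs j) (δ j) N A
        (H (p - G j)))
    (num : ∀ j, 1 ≤ j → j ≤ n₀ → ∀ p, G j ≤ p → p ≤ P₀ →
      CH (Pool.Agent.H49.Ent.cond F.p A True) (oI c k sn (x (p - G j)) j (XE s σ G g j) (H (p - G j)))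
        (fun ω => (oI c k sn (x (p - G j)) j ((s - j) * G j * σ) (H (p - G j)) ω,
          cI c k N t (x (p - G j)) A H₀ ω)) ≤
      CH (Pool.Agent.H49.Ent.cond F.p A True) (oI c k sn (x (p - G j)) j (XE s σ G g j) (H (p - G j)))
        (fun ω => (oI c k sn (x (p - G j)) j ((s - j) * G j * σ) (H (p - G j)) ω,
          cI c k N t (x p) A H₀ ω)) + μ * σ * J) :
    ∀ j, 1 ≤ j → j ≤ n₀ → mm j ≤ P₀ →
      CH (Pool.Agent.H49.Ent.cond F.p A True) (oI c k sn (x P₀) j ((G j - s) * σ) (H P₀))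
        (cI c k N t (x P₀) A H₀) ≤ τ * J := by
  have hcl := isLaw_cond F.isLaw hA
  have hs0 : 0 ≤ s := (Nat.cast_nonneg n₀).trans hn
  -- the ends
  have hXE : ∀ j, 1 ≤ j → j ≤ n₀ → XE s σ G g j ≤ (s - j + 1) * G j * σ ∧
      ((s - j) * G j + (G j - s)) * σ ≤ XE s σ G g j ∧
      σ ≤ XE s σ G g j - (s - j) * G j * σ ∧
      XE s σ G g j - (s - j) * G j * σ ≤ G j * σ := by
    intro j h1 h2
    obtain ⟨l1, -, l3⟩ := hlen j h1 h2
    have hjs : (j : ℝ) ≤ s := (by exact_mod_cast h2 : (j : ℝ) ≤ n₀).trans hn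
    have hj1 : (1 : ℝ) ≤ j := by exact_mod_cast h1
    have hsσ : 0 ≤ s * σ := mul_nonneg hs0 hσ.le
    unfold XE
    by_cases h3 : (j : ℝ) < s
    · obtain ⟨l4, l5⟩ := l3 h3
      rw [if_pos h3]
      have m1 := mul_le_mul_of_nonneg_right l4 hσ.le
      have m2 := mul_le_mul_of_nonneg_right l5 hσ.le
      have m3 := mul_le_mul_of_nonneg_right l1 hσ.le
      have m4 : (0 : ℝ) ≤ j * σ := by positivity
      refine ⟨?_, ?_, ?_, ?_⟩ <;> nlinarith
    · rw [if_neg h3]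
      have e1 : s = j := le_antisymm (not_lt.1 h3) hjs
      have e2 : s - j = 0 := by linarith
      have m3 := mul_le_mul_of_nonneg_right l1 hσ.le
      refine ⟨?_, ?_, ?_, ?_⟩ <;> rw [e2] <;> nlinarith
  have key := far_rec (s := s) (σ := σ) (ε := ψ) (τ := τ) (n₀ := n₀) (d := D₁ + 1) (P₀ := P₀)
    (e := fun i j D r => CH (Pool.Agent.H49.Ent.cond F.p A True) (oI c k sn (x i) j D (H i))
      (cI c k N t (x r) A H₀) / J) (G := G) (mm := mm) (X' := XE s σ G g) (δ := δ) (κ := κs)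
    (Xm := (s + 1) * q) hσ hn hn' Ds
    (fun D hD i r j a1 a2 a3 a4 => by
      rw [div_le_iff₀ hJ]
      exact lo D hD i r j a1 a2 a3 a4)
    (fun D hD i j a1 a2 a3 a4 => by
      rw [div_le_iff₀ hJ]
      exact hi D hD i j a1 a2 a3 a4)
    (fun D hD i j r r' a1 a2 a3 a4 => by
      refine div_le_div_of_nonneg_right (CH_mono_cond hcl.nonneg fun ω ω' hω hω' e => ?_) hJ.le
      simp only [Prod.mk.injEq] at e ⊢
      exact ⟨e.1, Pool.TW44.cR_le (hxm r r' a2) (hx1 r' a3) (of_cond_pos hω) (of_cond_pos hω') e.2.1,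
        e.2.2⟩)
    (fun D hD D' hD' i i' j r a1 a2 a3 a4 a5 a6 => by
      have h1 := CH_le_add hcl.nonneg (oI c k sn (x i') j D' (H i')) (oI c k sn (x i) j D (H i))
        (cI c k N t (x r) A H₀)
      have h2 := tr D hD D' hD' i i' j r a1 a2 a3 a4 a5 a6
      rw [div_add' _ _ _ hJ.ne', div_le_div_iff_of_pos_right hJ]
      linarith)
    hD1 hD2 hD3
    (fun j h1 h2 p h3 h4 b1 b2 b3 => by
      obtain ⟨-, -, x3, x4⟩ := hXE j h1 h2
      have hμ := hκ j h1 h2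
      have hκ0 : 0 ≤ κs j := by
        have : 0 ≤ μ * σ := by linarith
        have : 0 ≤ μ := by
          by_contra h
          have := mul_neg_of_neg_of_pos (not_le.1 h) hσ
          linarith
        linarith
      have hκX : κs j * σ ≤ κs j * (XE s σ G g j - (s - j) * G j * σ) :=
        mul_le_mul_of_nonneg_left x3 hκ0
      have hst := star j h1 h2 p h3 h4
      have hi1 : p - G j ≤ P₀ := by omega
      unfold StarEv at hst
      rw [hcI _ hi1, hcI _ hi1] at hst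
      have h5 := hst
        (fun i c1 c2 => by
          have := b1 i c1 c2
          rw [div_le_iff₀ hJ] at this
          exact this.trans (mul_le_mul_of_nonneg_right hκX hJ.le))
        (fun i c1 c2 => by
          have := b2 i c1 c2
          rw [div_le_iff₀ hJ] at this
          exact this.trans (mul_le_mul_of_nonneg_right hκX hJ.le))
        (by
          rw [div_le_iff₀ hJ] at b3
          exact b3.trans (mul_le_mul_of_nonneg_right hκX hJ.le))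
        (by
          have h6 := num j h1 h2 p h3 h4
          have h7 : μ * σ * J ≤ κs j * (XE s σ G g j - (s - j) * G j * σ) * J := by
            refine mul_le_mul_of_nonneg_right (le_trans ?_ hκX) hJ.le
            exact mul_le_mul_of_nonneg_right hμ hσ.le
          linarith)
      rw [div_le_iff₀ hJ]
      refine h5.trans ?_
      have h8 : δ j * (XE s σ G g j - (s - j) * G j * σ) ≤ δ j * (G j * σ) :=
        mul_le_mul_of_nonneg_left x4 (hδ0 j h1 h2).le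
      have h9 := mul_le_mul_of_nonneg_right h8 hJ.le
      linarith)
    (fun j h1 h2 => (hXE j h1 h2).1) (fun j h1 h2 => (hXE j h1 h2).2.1)
    (fun j i h1 h2 h3 => (hlen' j i h1 h2 h3).1) (fun j h1 h2 => (hlen j h1 h2).2.1)
    (fun j i h1 h2 h3 => (hlen' j i h1 h2 h3).2)
    (fun j h1 h2 => by
      have := mul_le_mul_of_nonneg_left (hGq j h1 h2) (by linarith : 0 ≤ s + 1)
      linarith) hψ0
    (fun j h1 h2 => by
      have := mul_le_mul_of_nonneg_right (hκ j h1 h2) hσ.le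
      linarith)
    (fun j i h1 h2 h3 => by
      have h4 := mul_le_mul_of_nonneg_right (hδ j i h1 h2 h3) hσ.le
      have h5 := mul_le_mul_of_nonneg_right (hκ j h1 (by omega)) hσ.le
      linarith) hτ
  intro j h1 h2 h3
  have h4 := key j h1 h2 P₀ h3 le_rfl
  rwa [div_le_iff₀ hJ] at h4

end Pool.STR16
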