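import Pool.Agent.H16.STR.Gfa

/-!
# The far half of the star, class level

`far_cls`: in a subclass, in one of finitely many small boxes `w = t + ((p + P₀) / L ^ k') q`,
`u = q / L ^ k'` of a box, all own jets of the orders `1 .. s` of both targets are few bits, `2 u`
digits behind the natural ones, given the record of `w` and the jets of the places below `k`.
-/

set_option autoImplicit false

namespace Pool.STR16

open Finset Real MvPolynomial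
open Pool.Agent.H49.Ent Pool.Agent.H32.Dense
open Pool.STK hiding pr2
open Pool.KA Pool.KSAT Pool.K2S Pool.PB Pool.S6C
open Pool.GEN Pool.CHT Pool.CHX Pool.ISO Pool.LA91 Pool.AVG71 Pool.AVG5 Pool.D2F2 Pool.AVG57
open Pool.RCD Pool.AVG96 Pool.OWN68 Pool.V0F Pool.V0Q Pool.V0T
open Pool.STR91 (dg pr FwN pr_mono)
open Pool.T4C72 (BoxT)

/-- A statement under a condition. -/
theorem bas_if {m : ℕ} {S : PCl m}
    (hpos : ∀ (τ : ℝ) (J : ℕ) (F : Fam m J) (A : F.Ω → Prop), S.St τ J F A → 0 < Pe F.p A)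
    {P : Prop} {Φ : ∀ (J : ℕ) (F : Fam m J), (F.Ω → Prop) → Prop}
    (h : P → Bas S (fun J F A => Φ J F A)) : Bas S (fun J F A => P → Φ J F A) := by
  by_cases hP : P
  · exact Bas.mono 0 (h hP) fun _ _ _ _ h1 _ => h1
  · exact Bas.mono 0 (pos_bas hpos) fun _ _ _ _ _ h1 => absurd h1 hP

/-- The ends of the digits. -/
theorem xe_le {s σ q p : ℝ} {G g : ℕ → ℕ} {j : ℕ} (hσ : 0 < σ) (hs : 0 ≤ s) (hq : 0 ≤ q)
    (hjs : (j : ℝ) ≤ s) (hj1 : (1 : ℝ) ≤ j) (l1 : s + 2 ≤ G j)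
    (l6 : (j : ℝ) < s → (s - j) * g j ≤ G j ∧ (G j : ℝ) ≤ (s - j) * g j + (s - j))
    (hGq : G j * σ ≤ q) (hp : 0 ≤ p) (hgq : (p + (G j + g j)) * σ ≤ q) :
    0 ≤ (s - j) * G j * σ ∧ (s - j) * G j * σ + σ ≤ XE s σ G g j ∧ XE s σ G g j ≤ (s + 1) * q := by
  have m0 : 0 ≤ p * σ := by positivity
  have m1 : 0 ≤ (s - j) * G j * σ :=
    mul_nonneg (mul_nonneg (by linarith) (Nat.cast_nonneg _)) hσ.le
  have m2 := mul_le_mul_of_nonneg_right l1 hσ.le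
  have hsσ : 0 ≤ s * σ := mul_nonneg hs hσ.le
  have m4 : (0 : ℝ) ≤ j * σ := by positivity
  unfold XE
  by_cases h3 : (j : ℝ) < s
  · obtain ⟨l7, l8⟩ := l6 h3
    rw [if_pos h3]
    have m3 := mul_le_mul_of_nonneg_right l8 hσ.le
    have m5 : (s - j) * ((p + (G j + g j)) * σ) ≤ (s - j) * q :=
      mul_le_mul_of_nonneg_left hgq (by linarith)
    have m6 : (s - j) * q ≤ (s + 1) * q := mul_le_mul_of_nonneg_right (by linarith) hq
    have m7 : 0 ≤ (s - j) * (p * σ) := mul_nonneg (by linarith) m0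
    refine ⟨m1, ?_, ?_⟩
    · linarith
    · linarith
  · rw [if_neg h3]
    have e1 : s - j = 0 := by linarith [le_antisymm (not_lt.1 h3) hjs]
    have m6 : q ≤ (s + 1) * q := by
      have := mul_nonneg hs hq
      linarith
    refine ⟨m1, ?_, ?_⟩
    · rw [e1]
      linarith
    · linarith

/-- **The far half of the star.** -/
theorem far_cls {k : ℕ} {h s : ℝ} (hs : 1 ≤ s) (hst : StarStmt k h s) (D₁ : ℕ) {δ₁ : ℝ}
    (hδ₁ : 0 < δ₁) :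
    ∃ (L n P₀ : ℕ) (Λ₀ c₀ : ℝ), 2 ≤ L ∧ 1 ≤ n ∧ P₀ ≤ L ∧ 1 ≤ Λ₀ ∧ 0 < c₀ ∧ c₀ ≤ 1 ∧
    ∀ {m D : ℕ} {S : PCl m} {c : ℕ → Fin m} {sn sp : ℕ → ℝ → ℝ} {G : Set ℝ}
      {b o t q Λ φ' e φ ψ : ℝ} {lam : ℝ → ℝ}, S.Ne →
      BoxT S c k 1 D sn sp G s h b o t q Λ φ' e lam → φ' ≤ φ → Λ₀ ≤ Λ → φ ≤ c₀ * q → 0 ≤ ψ →
      ψ ≤ c₀ * q → (∀ v ∈ G, ∃ η : ℝ, RNum S (fun J F => ptr F J) (vg v) η) → ∀ {M : ℝ},
      Bas S (fun J F A => (cnt F.p (ptr F J) A : ℝ) ≤ Real.exp (M * J)) →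
      ∀ {W : ℕ → ℝ}, (∀ i, W i = t + (i / (L : ℝ) ^ n) * q) → (∀ i ≤ 4 * L ^ n, W i ∈ G) →
      ∀ {Ec R room ρ₀ : ℕ → ℝ} {e₀ : ℕ → ℕ → ℝ} {N : ℕ → ℕ → ℝ}
        {Hb : ∀ (J : ℕ) (F : Fam m J), LnT F → ℕ → MvPolynomial (Option (Fin m)) ℝ}
        {HT : ℕ → ∀ (J : ℕ) (F : Fam m J), LnT F → ℕ → MvPolynomial (Option (Fin m)) ℝ},
      (∀ l < k, N l 0 = sn l t + (2 * s + 5) * q ∧ N l 1 = sn l t + (2 * s + 5) * q - t) →
      FarL S c k D₁ sn s b t q φ ψ (L ^ n) N Ec R ρ₀ e₀ W Hb HT →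
      (∀ i ≤ L ^ n, (s + 2) * q ≤ R i ∧ (s + 2) * q ≤ room i) → ∀ {κ : ℝ}, 0 ≤ κ → κ ≤ c₀ * q →
      (∀ i ≤ L ^ n, ∀ ϖ : ℝ, 0 < ϖ → ∀ v ∈ G, W i ≤ v → v ≤ t + 4 * q → ∀ P : ℝ,
        P ≤ sn (k + 1) (W i) + (s + 1) * q →
        ImN S c k D₁ (W i) φ (e₀ i) (ρ₀ i) sn ϖ (room i) v P κ) →
      (∀ i ≤ L ^ n, ∀ ϖ : ℝ, 0 < ϖ → ∀ v ∈ G, W i ≤ v → v ≤ t + 4 * q → ∀ P : ℝ,
        P ≤ sn k (W i) + (s + 1) * q → ImU S c k D₁ (W i) φ (e₀ i) (ρ₀ i) sn ϖ v P κ) →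
      ∃ S' : PCl m, S'.Ne ∧ (∀ (τ : ℝ) (J : ℕ) (F : Fam m J) (A : F.Ω → Prop),
        S'.St τ J F A → S.St τ J F A) ∧
      ∃ k' p : ℕ, 1 ≤ k' ∧ k' ≤ n ∧ p + L ≤ L ^ k' ∧ ∀ j : ℕ, 1 ≤ j → (j : ℝ) ≤ s →
        Bas S' (fun J F A => CH (Pool.Agent.H49.Ent.cond F.p A True)
          (oI c k sn (W ((p + P₀) * L ^ (n - k'))) j (2 * (q / (L : ℝ) ^ k'))
            (HT ((p + P₀) * L ^ (n - k')) J F))
          (cI c k N t (W ((p + P₀) * L ^ (n - k'))) A (HT 0 J F)) ≤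
            δ₁ * (q / (L : ℝ) ^ k') * J) := by
  classical
  -- the lengths and the constants
  obtain ⟨n₀, hn₀⟩ : ∃ n₀ : ℕ, n₀ = ⌊s⌋₊ := ⟨_, rfl⟩
  have hs0 : 0 ≤ s := by linarith
  have hn : (n₀ : ℝ) ≤ s := by rw [hn₀]; exact Nat.floor_le hs0
  have hn' : s < n₀ + 1 := by rw [hn₀]; exact Nat.lt_floor_add_one s
  have hn1 : 1 ≤ n₀ := by rw [hn₀]; exact Nat.one_le_floor_iff s |>.2 hs
  obtain ⟨Gl, mm, g, P₀, L, hL2, hP₀L, hlen, hlen'⟩ := len_ex hn hn'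
  obtain ⟨δ, κs, Cs, μ, Cm, hμ, hCm, hseq, hseq'⟩ := star_seq (n₀ := n₀) Gl
    (Q := fun j δ κ C => StarP k h s j D₁ δ κ C)
    (fun j h1 h2 d hd => starP_of hst h1 ((by exact_mod_cast h2 : (j : ℝ) ≤ n₀).trans hn) hd)
    (τ := δ₁ / 4) (by positivity) n₀ le_rfl
  obtain ⟨n, hn1', δ₀, hδ₀, hnum⟩ := num_list' n₀ (fun _ => Fin 2) (Fin 2)
    (c := fun l => s - (l + 1)) (κ₀ := μ / 8) (κ₁ := μ / 8) (R := Gl n₀) (fun l hl => by
      have : ((l + 1 : ℕ) : ℝ) ≤ n₀ := by exact_mod_cast hl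
      push_cast at this
      linarith) (by positivity) (by positivity) (Nat.cast_nonneg _) hL2
  have hL0 : (0 : ℝ) < L := by exact_mod_cast (by omega : 0 < L)
  have hL1 : (1 : ℝ) ≤ L := by exact_mod_cast (by omega : 1 ≤ L)
  have hLn : (0 : ℝ) < (L : ℝ) ^ n := by positivity
  obtain ⟨lm, hlm⟩ : ∃ lm : ℝ, lm = 1 / (L : ℝ) ^ n := ⟨_, rfl⟩
  have hlm0 : 0 < lm := by rw [hlm]; positivity
  obtain ⟨c₀, hc₀⟩ : ∃ c₀ : ℝ, c₀ = min (min δ₀ (δ₁ * lm / 4))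
    (min (μ * lm / (16 * (Cm + 4))) (1 / (Cm + 4))) := ⟨_, rfl⟩
  have hCm4 : 0 < Cm + 4 := by linarith
  have hc0 : 0 < c₀ := by
    rw [hc₀]
    exact lt_min (lt_min hδ₀ (by positivity)) (lt_min (by positivity) (by positivity))
  have c1 : c₀ ≤ δ₀ := by rw [hc₀]; exact (min_le_left _ _).trans (min_le_left _ _)
  have c2 : c₀ ≤ δ₁ * lm / 4 := by rw [hc₀]; exact (min_le_left _ _).trans (min_le_right _ _)
  have c3 : c₀ * (16 * (Cm + 4)) ≤ μ * lm := by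
    have : c₀ ≤ μ * lm / (16 * (Cm + 4)) := by
      rw [hc₀]; exact (min_le_right _ _).trans (min_le_left _ _)
    rwa [le_div_iff₀ (by positivity)] at this
  have c4 : c₀ * (Cm + 4) ≤ 1 := by
    have : c₀ ≤ 1 / (Cm + 4) := by
      rw [hc₀]; exact (min_le_right _ _).trans (min_le_right _ _)
    rwa [le_div_iff₀ hCm4] at this
  have c5 : c₀ ≤ 1 := by nlinarith
  refine ⟨L, n, P₀, 4 * s + 10 + 2 * Cm, c₀, hL2, hn1', hP₀L, by linarith, hc0, c5, ?_⟩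
  intro m D S c sn sp G b o t q Λ φ' e φ ψ lam hS Bx hφ hΛ hφq hψ0 hψq hrn M hcnt W hW hWG Ec R room
    ρ₀ e₀ N Hb HT hN HF hRr κ hκ0 hκq hIN hIU
  have L' := Bx.lad
  have hpos := L'.pos
  have hq := Bx.u0
  have hΛq : (4 * s + 10 + 2 * Cm) * q ≤ Λ * q := mul_le_mul_of_nonneg_right hΛ hq.le
  have hsq : 0 ≤ s * q := by positivity
  have hCq : 0 ≤ Cm * q := by positivity
  have hbt : b ≤ t := by linarith [Bx.bw]
  have ht0 : 0 ≤ t := by linarith [Bx.bw, Bx.b0]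
  have hto := Bx.wo
  have hto1 := Bx.o1
  have htq1 : t + q ≤ 1 := by linarith
  have ht1 : t ≤ 1 := by linarith
  have hW0 : W 0 = t := by rw [hW]; simp
  have htG : t ∈ G := by
    have := hWG 0 (Nat.zero_le _)
    rwa [hW0] at this
  have hφ0 : 0 < φ := lt_of_lt_of_le L'.φ0 hφ
  have hCφ : (Cm + 4) * φ ≤ q := by
    have h1 := mul_le_mul_of_nonneg_left hφq hCm4.le
    have h2 := mul_le_mul_of_nonneg_right c4 hq.le
    linarith
  -- the plain functions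
  obtain ⟨v, hv⟩ : ∃ v : ∀ (l J : ℕ) (F : Fam m J), F.Ω → Fin 2 → ℝ,
      v = fun (l J : ℕ) (F : Fam m J) (ω : F.Ω) (i : Fin 2) =>
    (2 : ℝ) ^ ((sn (k + (i : Fin 2)) t - s * t) * J) * oX c k ⌊t * J⌋₊ (l + 1) (HT 0 J F) ω i :=
    ⟨_, rfl⟩
  have hste0 : Bas S (fun J F A => StE F c k D₁ b t φ (Ec 0) (R 0) sn A (Hb J F) (HT 0 J F)) := by
    have := HF.ste 0 (Nat.zero_le _)
    rwa [hW0] at this
  obtain ⟨M', hM'0, hM'⟩ : ∃ M' : ℝ, 0 ≤ M' ∧ ∀ l < n₀, Bas S (fun J F A => ∀ ω, A ω → 0 < F.p ω →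
      ∀ i, |v l J F ω i| ≤ Real.exp (M' * J)) := by
    have h1 := fun l : ℕ => far_bd (j := l + 1) (s := s) ht1 hste0
    choose Mb hMb0 hMb using h1
    refine ⟨∑ l ∈ range n₀, Mb l, sum_nonneg fun l _ => hMb0 l, fun l hl => ?_⟩
    rw [hv]
    exact hMb l _ (single_le_sum (f := Mb) (fun l _ => hMb0 l) (mem_range.2 hl))
  have hmain := hnum q hq (m := m) (f := fun J F => ptr F J)
    (y := fun J F ω => (jet2 F c ⌊t * J⌋₊ (HT 0 J F) 0 k N ω, F.W ω)) (S := S) (v := v)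
    (w := v (n₀ - 1)) (eb := fun _ => 0) (M := M) (M' := M') (t := t) hS hpos hcnt hM'0
    hM' (hM' (n₀ - 1) (by omega)) (fun J => by
      push_cast
      positivity) htq1
    (fun l hl x hx1 hx2 => by
      have hls : ((l + 1 : ℕ) : ℝ) ≤ s := (by exact_mod_cast hl : ((l + 1 : ℕ) : ℝ) ≤ n₀).trans hn
      have h1 := HF.lo 0 (Nat.zero_le _) x (by rwa [hW0]) hx2 (l + 1) hls
        ((s - (l + 1 : ℕ)) * (x - t)) (by rw [hW0])
      rw [hW0] at h1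
      rw [hv]
      refine far_fw (X := (s - (l + 1 : ℕ)) * (x - t)) (ψ := ψ) hpos (fun J => Or.inl ?_)
        (hψq.trans (mul_le_mul_of_nonneg_right c1 hq.le)) h1
      have h2 : (s - ((l + 1 : ℕ) : ℝ)) * t + (s - ((l + 1 : ℕ) : ℝ)) * (x - t) =
        (s - ((l + 1 : ℕ) : ℝ)) * x := by ring
      rw [h2]
      have h3 : 0 ≤ (s - ((l + 1 : ℕ) : ℝ)) * x * (J : ℝ) :=
        mul_nonneg (mul_nonneg (by linarith) (by linarith)) (Nat.cast_nonneg J)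
      have h4 := Nat.floor_le h3
      unfold Pool.STR91.pr
      push_cast at h4 ⊢
      exact h4)
    (by
      have h1 := HF.lo 0 (Nat.zero_le _) t (by rw [hW0]) (by linarith) n₀ hn
        (-((s - n₀) * t)) (by
          rw [hW0, sub_self, mul_zero]
          have := mul_nonneg (sub_nonneg.2 hn) ht0
          linarith)
      rw [hW0] at h1
      rw [hv]
      obtain ⟨l, rfl⟩ : ∃ l, n₀ = l + 1 := ⟨n₀ - 1, by omega⟩
      simp only [Nat.add_sub_cancel]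
      exact far_fw (X := -((s - (l + 1 : ℕ)) * t)) (ψ := ψ) hpos
        (fun J => Or.inr ⟨rfl, le_of_eq (by ring)⟩)
        (hψq.trans (mul_le_mul_of_nonneg_right c1 hq.le)) h1)
  obtain ⟨S', hS', hsub, k', p, x, hk1, hkn, -, hpL, hx, hnum⟩ := hmain
  refine ⟨S', hS', hsub, k', p, hk1, hkn, hpL, ?_⟩
  have hpos' : ∀ (τ : ℝ) (J : ℕ) (F : Fam m J) (A : F.Ω → Prop), S'.St τ J F A → 0 < Pe F.p A :=
    fun τ J F A h => hpos τ J F A (hsub τ J F A h)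
  -- the windows
  have hLk : (0 : ℝ) < (L : ℝ) ^ k' := by positivity
  obtain ⟨σ, hσe⟩ : ∃ σ : ℝ, σ = q / (L : ℝ) ^ k' := ⟨_, rfl⟩
  have hσ : 0 < σ := by rw [hσe]; positivity
  have hσlm : lm * q ≤ σ := by
    rw [hlm, hσe, one_div_mul_eq_div]
    exact div_le_div_of_nonneg_left hq.le hLk (pow_le_pow_right₀ hL1 hkn)
  have hLσ : ∀ a : ℕ, p + a ≤ L ^ k' → ((p + a : ℕ) : ℝ) * σ ≤ q := fun a ha => by
    rw [hσe, mul_div_assoc', div_le_iff₀ hLk, mul_comm]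
    refine mul_le_mul_of_nonneg_left ?_ hq.le
    exact_mod_cast ha
  have hxσ : ∀ i, x i = t + (p + i) * σ := fun i => by
    rw [hx, hσe]
    push_cast
    ring
  obtain ⟨ι, hι⟩ : ∃ ι : ℕ → ℕ, ι = fun i => (p + i) * L ^ (n - k') := ⟨_, rfl⟩
  have hιi : ∀ i, ι i = (p + i) * L ^ (n - k') := fun i => by rw [hι]
  have hWx : ∀ i, W (ι i) = x i := fun i => by
    rw [hW, hx, hιi]
    congr 2
    push_cast
    have h1 : (L : ℝ) ^ n = (L : ℝ) ^ k' * (L : ℝ) ^ (n - k') := by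
      rw [← pow_add]
      congr 1
      omega
    rw [h1]
    have h2 : (0 : ℝ) < (L : ℝ) ^ (n - k') := by positivity
    field_simp
  have hιL : ∀ i ≤ L, ι i ≤ L ^ n := fun i hi => by
    rw [hιi]
    calc (p + i) * L ^ (n - k') ≤ L ^ k' * L ^ (n - k') :=
          Nat.mul_le_mul_right _ (by omega)
      _ = L ^ n := by
          rw [← pow_add]
          congr 1
          omega
  have hp0 : (0 : ℝ) ≤ p := Nat.cast_nonneg p
  have hxt : ∀ i, t ≤ x i := fun i => by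
    rw [hxσ]
    have : (0 : ℝ) ≤ (p + i) * σ := by positivity
    linarith
  have hxq : ∀ i ≤ L, x i ≤ t + q := fun i hi => by
    rw [hxσ]
    have := hLσ i (by omega)
    push_cast at this
    linarith
  have hxG : ∀ i ≤ L, x i ∈ G := fun i hi => by
    rw [← hWx]
    exact hWG _ ((hιL i hi).trans (by omega))
  have hxs : ∀ i r : ℕ, x r - x i = (r - i) * σ := fun i r => by
    rw [hxσ, hxσ]
    ring
  have hxm : ∀ i r : ℕ, i ≤ r → x i ≤ x r := fun i r hir => by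
    have h1 := hxs i r
    have h2 : (i : ℝ) ≤ r := by exact_mod_cast hir
    have h3 := mul_nonneg (sub_nonneg.2 h2) hσ.le
    linarith
  have hx' : t + 4 * q ∈ G := by
    have h1 := hWG (4 * L ^ n) le_rfl
    rw [hW] at h1
    push_cast at h1
    rwa [mul_div_assoc, div_self hLn.ne', mul_one] at h1
  -- the smallness
  have hψσ : 16 * ψ ≤ μ * σ := by
    have h1 := mul_le_mul_of_nonneg_right c3 hq.le
    have h2 : c₀ * q * (16 * 1) ≤ c₀ * q * (16 * (Cm + 4)) :=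
      mul_le_mul_of_nonneg_left (by linarith) (by positivity)
    have h3 := mul_le_mul_of_nonneg_left hσlm hμ.le
    linarith
  have hκσ : κ ≤ μ * σ := by
    have h1 := mul_le_mul_of_nonneg_right c3 hq.le
    have h2 : c₀ * q * 1 ≤ c₀ * q * (16 * (Cm + 4)) :=
      mul_le_mul_of_nonneg_left (by linarith) (by positivity)
    have h3 := mul_le_mul_of_nonneg_left hσlm hμ.le
    linarith
  have hφσ : (Cm + 4) * φ ≤ μ * σ := by
    have h1 := mul_le_mul_of_nonneg_right c3 hq.le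
    have h2 := mul_le_mul_of_nonneg_left hφq hCm4.le
    have h3 := mul_le_mul_of_nonneg_left hσlm hμ.le
    have h4 : 0 ≤ c₀ * q * (Cm + 4) := by positivity
    linarith
  have hψδ : 4 * ψ ≤ δ₁ * σ := by
    have h1 := mul_le_mul_of_nonneg_right c2 hq.le
    have h3 := mul_le_mul_of_nonneg_left hσlm hδ₁.le
    linarith
  have hGσ : ∀ j, 1 ≤ j → j ≤ n₀ → Gl j * σ ≤ q := fun j h1 h2 => by
    obtain ⟨-, -, -, -, h3, -⟩ := hlen j h1 h2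
    have h4 := hLσ (Gl j) (by omega)
    push_cast at h4
    have : 0 ≤ (p : ℝ) * σ := by positivity
    linarith
  -- the precisions
  obtain ⟨Ds, hDs⟩ : ∃ Ds : Finset ℝ, Ds = (Icc 1 n₀).image (XE s σ Gl g) ∪
    ((Icc 1 n₀).image (fun j : ℕ => ((Gl j : ℝ) - s) * σ) ∪
      (Icc 1 n₀).image (fun j : ℕ => (s - j) * Gl j * σ)) := ⟨_, rfl⟩
  have hD1 : ∀ j, 1 ≤ j → j ≤ n₀ → XE s σ Gl g j ∈ Ds := fun j h1 h2 => by
    rw [hDs]
    exact mem_union_left _ (mem_image_of_mem _ (mem_Icc.2 ⟨h1, h2⟩))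
  have hD2 : ∀ j, 1 ≤ j → j ≤ n₀ → ((Gl j : ℝ) - s) * σ ∈ Ds := fun j h1 h2 => by
    rw [hDs]
    exact mem_union_right _ (mem_union_left _
      (mem_image_of_mem (fun j : ℕ => ((Gl j : ℝ) - s) * σ) (mem_Icc.2 ⟨h1, h2⟩)))
  have hD3 : ∀ j, 1 ≤ j → j ≤ n₀ → (s - j) * Gl j * σ ∈ Ds := fun j h1 h2 => by
    rw [hDs]
    exact mem_union_right _ (mem_union_right _
      (mem_image_of_mem (fun j : ℕ => (s - j) * Gl j * σ) (mem_Icc.2 ⟨h1, h2⟩)))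
  have hjs : ∀ j ≤ n₀, (j : ℝ) ≤ s := fun j hj => (by exact_mod_cast hj : (j : ℝ) ≤ n₀).trans hn
  -- the ends of the digits
  have hXE : ∀ j, 1 ≤ j → j ≤ n₀ → 0 ≤ (s - j) * Gl j * σ ∧
      (s - j) * Gl j * σ + σ ≤ XE s σ Gl g j ∧ XE s σ Gl g j ≤ (s + 1) * q := by
    intro j h1 h2
    obtain ⟨l1, -, -, -, l5, l6⟩ := hlen j h1 h2
    have hgq := hLσ (Gl j + g j) (by omega)
    push_cast at hgq
    exact xe_le hσ hs0 hq.le (hjs j h2) (by exact_mod_cast h1) l1 l6 (hGσ j h1 h2) hp0 hgq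
  have hidx : ∀ j, 1 ≤ j → j ≤ n₀ → ∀ r ≤ P₀, r ≤ L := fun j _ _ r hr => hr.trans hP₀L
  have hPL : ∀ r ≤ P₀, r ≤ L := fun r hr => hr.trans hP₀L
  -- the facts of one event
  have B1 : Bas S' (fun J F A => ∀ a : (Fin (P₀ + 1) × Fin (P₀ + 1)) × (Fin (n₀ + 1) × Ds),
      ((a.1.1 : ℕ) ≤ a.1.2 ∧ (a.2.2 : ℝ) ≤ (s - (a.2.1 : ℕ)) * (((a.1.2 : ℕ) : ℝ) - (a.1.1 : ℕ)) * σ) →
      CH (Pool.Agent.H49.Ent.cond F.p A True)
        (oI c k sn (x a.1.1) a.2.1 a.2.2 (HT (ι a.1.1) J F)) (cI c k N t (x a.1.2) A (HT 0 J F)) ≤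
        ψ * J) := by
    refine Bas.fin' fun a => bas_if hpos' fun ⟨h1, h2⟩ => ?_
    have hr : (a.1.2 : ℕ) ≤ L := hPL _ (Nat.lt_succ_iff.1 a.1.2.2)
    have hi : (a.1.1 : ℕ) ≤ L := hPL _ (Nat.lt_succ_iff.1 a.1.1.2)
    have h3 := HF.lo (ι a.1.1) (hιL _ hi) (x a.1.2) (by rw [hWx]; exact hxm _ _ h1) (hxq _ hr)
      a.2.1 (hjs _ (Nat.lt_succ_iff.1 a.2.1.2)) a.2.2 (by
        rw [hWx, hxs]
        linarith)
    rw [hWx] at h3
    exact h3.sub hsub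
  have B2 : Bas S' (fun J F A => ∀ a : Fin (P₀ + 1) × (Fin (D₁ + 2) × Ds),
      (s < ((a.2.1 : ℕ) : ℝ) ∧ (a.2.2 : ℝ) ≤ (s + 1) * q) →
      CH (Pool.Agent.H49.Ent.cond F.p A True)
        (oI c k sn (x a.1) a.2.1 a.2.2 (HT (ι a.1) J F)) (cI c k N t (x a.1) A (HT 0 J F)) ≤
        ψ * J) := by
    refine Bas.fin' fun a => bas_if hpos' fun ⟨h1, h2⟩ => ?_
    have hi : (a.1 : ℕ) ≤ L := hPL _ (Nat.lt_succ_iff.1 a.1.2)
    have h3 := HF.hi (ι a.1) (hιL _ hi) a.2.1 (Nat.lt_succ_iff.1 a.2.1.2) h1 a.2.2 h2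
    rw [hWx] at h3
    exact h3.sub hsub
  have B3 : Bas S' (fun J F A => ∀ a : ((Fin (P₀ + 1) × Fin (P₀ + 1)) × (Fin (n₀ + 1) × Fin (P₀ + 1)))
      × (Ds × Ds), ((a.1.1.1 : ℕ) ≤ a.1.2.2 ∧ (a.1.1.2 : ℕ) ≤ a.1.2.2 ∧
      (a.2.2 : ℝ) + (s - (a.1.2.1 : ℕ)) * (((a.1.1.2 : ℕ) : ℝ) - (a.1.1.1 : ℕ)) * σ ≤ a.2.1 ∧
      (a.2.1 : ℝ) ≤ (s + 1) * q) →
      CH (Pool.Agent.H49.Ent.cond F.p A True)
        (oI c k sn (x a.1.1.2) a.1.2.1 a.2.2 (HT (ι a.1.1.2) J F))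
        (fun ω => (oI c k sn (x a.1.1.1) a.1.2.1 a.2.1 (HT (ι a.1.1.1) J F) ω,
          cI c k N t (x a.1.2.2) A (HT 0 J F) ω)) ≤ ψ * J) := by
    refine Bas.fin' fun a => bas_if hpos' fun ⟨h1, h2, h4, h5⟩ => ?_
    have hr : (a.1.2.2 : ℕ) ≤ L := hPL _ (Nat.lt_succ_iff.1 a.1.2.2.2)
    have hi : (a.1.1.1 : ℕ) ≤ L := hPL _ (Nat.lt_succ_iff.1 a.1.1.1.2)
    have hi' : (a.1.1.2 : ℕ) ≤ L := hPL _ (Nat.lt_succ_iff.1 a.1.1.2.2)
    have h3 := HF.tr (ι a.1.1.1) (hιL _ hi) (ι a.1.1.2) (hιL _ hi') (x a.1.2.2)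
      (by rw [hWx]; exact hxm _ _ h1) (by rw [hWx]; exact hxm _ _ h2) (hxq _ hr) a.1.2.1
      (hjs _ (Nat.lt_succ_iff.1 a.1.2.1.2)) a.2.1 a.2.2 (by
        rw [hWx, hWx, hxs]
        linarith) h5
    rw [hWx, hWx] at h3
    exact h3.sub hsub
  have B4 : Bas S' (fun J F A => ∀ a : Fin (P₀ + 1),
      StE F c k D₁ b (x a) φ (Ec (ι a)) (R (ι a)) sn A (Hb J F) (HT (ι a) J F) ∧
      OkT F c k D₁ (x a) φ (e₀ (ι a)) (ρ₀ (ι a)) sn A (HT (ι a) J F)) := by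
    refine Bas.fin' fun a => ?_
    have hi : (a : ℕ) ≤ L := hPL _ (Nat.lt_succ_iff.1 a.2)
    have h1 := HF.ste (ι a) (hιL _ hi)
    have h2 := HF.okt (ι a) (hιL _ hi)
    rw [hWx] at h1 h2
    exact (h1.and h2).sub hsub
  have B5 : Bas S' (fun J F A => ∀ a : Fin (n₀ + 1) × Fin (P₀ + 1),
      (1 ≤ (a.1 : ℕ) ∧ Gl a.1 ≤ (a.2 : ℕ)) → ∀ Hb H : LnT F → ℕ → MvPolynomial (Option (Fin m)) ℝ,
      StE F c k D₁ b (x (a.2 - Gl a.1)) φ (Ec (ι (a.2 - Gl a.1))) (R (ι (a.2 - Gl a.1))) sn A Hb H →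
      OkT F c k D₁ (x (a.2 - Gl a.1)) φ (e₀ (ι (a.2 - Gl a.1))) (ρ₀ (ι (a.2 - Gl a.1))) sn A H →
      StarEv F c k D₁ a.1 sn (x (a.2 - Gl a.1)) (x a.2) ((s - (a.1 : ℕ)) * Gl a.1 * σ)
        (XE s σ Gl g a.1) (κs a.1) (δ a.1) N A H) := by
    refine Bas.fin' fun a => bas_if hpos' fun ⟨h1, h2⟩ => ?_
    obtain ⟨⟨j, hj⟩, ⟨r, hr⟩⟩ := a
    simp only at h1 h2 ⊢
    have hjn : j ≤ n₀ := Nat.lt_succ_iff.1 hj
    have hrP : r ≤ P₀ := Nat.lt_succ_iff.1 hr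
    obtain ⟨s1, s2, s3, s4, s5, s6⟩ := hseq j h1 hjn
    obtain ⟨x1, x2, x3⟩ := hXE j h1 hjn
    have hi : r - Gl j ≤ L := (Nat.sub_le _ _).trans (hPL r hrP)
    have h3 : μ * σ ≤ κs j * (XE s σ Gl g j - (s - j) * Gl j * σ) := by
      refine (mul_le_mul_of_nonneg_right s3 hσ.le).trans ?_
      exact mul_le_mul_of_nonneg_left (by linarith) (hμ.le.trans s3)
    have h4 := hIN (ι (r - Gl j)) (hιL _ hi)
    have h5 := hIU (ι (r - Gl j)) (hιL _ hi)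
    rw [hWx] at h4 h5
    obtain ⟨r1, r2⟩ := hRr (ι (r - Gl j)) (hιL _ hi)
    have h6 : Cs j * φ ≤ (Cm + 4) * φ := mul_le_mul_of_nonneg_right (by linarith) hφ0.le
    have h7 : (Cs j + 4) * φ ≤ (Cm + 4) * φ := mul_le_mul_of_nonneg_right (by linarith) hφ0.le
    have h8 := far_star s1 hs s4 Bx hφ (by linarith) (by linarith) hN (a := x (r - Gl j)) (x := x r)
      (x' := t + 4 * q) (X := (s - j) * Gl j * σ) (X' := XE s σ Gl g j)
      (Ec := Ec (ι (r - Gl j))) (R := R (ι (r - Gl j))) (ρ₀ := ρ₀ (ι (r - Gl j))) (κ := κ)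
      (room := room (ι (r - Gl j))) (e₀ := e₀ (ι (r - Gl j))) (hxG _ hi) (hxt _)
      (hxG _ (hPL r hrP)) (hxm _ _ (Nat.sub_le _ _)) (hxq _ (hPL r hrP)) hx' rfl htG x1 (by linarith)
      x3 (by linarith) (by linarith) hκ0 r1 r2
      (fun ϖ hϖ v hv a1 a2 P hP => h4 ϖ hϖ v hv a1 a2 P (by linarith))
      (fun ϖ hϖ v hv a1 a2 P hP => h5 ϖ hϖ v hv a1 a2 P (by linarith)) (hrn _ (hxG _ hi))
    exact h8.sub hsub
  -- the transports of the numbers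
  have htr : ∀ (j : ℕ), 1 ≤ j → j ≤ n₀ → ∀ r ≤ P₀, Gl j ≤ r → ∀ y ∈ [x (r - Gl j), x r],
      ∀ X ∈ [(s - j) * Gl j * σ, XE s σ Gl g j],
      Bas S' (fun J F A => CH (Pool.Agent.H49.Ent.cond F.p A True)
        (oI c k sn (x (r - Gl j)) j X (HT (ι (r - Gl j)) J F))
        (fun ω => (oI c k sn t j (X + (s - j) * (x (r - Gl j) - t)) (HT 0 J F) ω,
          cI c k N t y A (HT 0 J F) ω)) ≤ ψ * J ∧
      CH (Pool.Agent.H49.Ent.cond F.p A True)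
        (oI c k sn t j (X + (s - j) * (x (r - Gl j) - t)) (HT 0 J F))
        (fun ω => (oI c k sn (x (r - Gl j)) j X (HT (ι (r - Gl j)) J F) ω,
          cI c k N t y A (HT 0 J F) ω)) ≤ ψ * J) := by
    intro j h1 h2 r hr hGr y hy X hX
    obtain ⟨x1, x2, x3⟩ := hXE j h1 h2
    have hi : r - Gl j ≤ L := (Nat.sub_le _ _).trans (hPL r hr)
    have hy1 : x (r - Gl j) ≤ y ∧ y ≤ t + q := by
      rcases List.mem_pair.1 hy with rfl | rfl
      · exact ⟨le_rfl, hxq _ hi⟩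
      · exact ⟨hxm _ _ (Nat.sub_le _ _), hxq _ (hPL r hr)⟩
    have hX1 : X ≤ XE s σ Gl g j := by
      rcases List.mem_pair.1 hX with rfl | rfl
      · linarith
      · exact le_rfl
    have hX2 : X + (s - j) * (x (r - Gl j) - t) ≤ (s + 1) * q := by
      have e1 : x (r - Gl j) - t = (p + (r - Gl j : ℕ)) * σ := by
        rw [hxσ]
        ring
      have hjs' := hjs j h2
      have hj1 : (1 : ℝ) ≤ j := by exact_mod_cast h1
      obtain ⟨-, -, -, l4, -, l6⟩ := hlen j h1 h2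
      have hrc : ((r - Gl j : ℕ) : ℝ) = r - Gl j := Nat.cast_sub hGr
      rw [e1, hrc]
      unfold XE at hX1
      by_cases h3 : (j : ℝ) < s
      · rw [if_pos h3] at hX1
        have m1 := hLσ (r + g j) (by omega)
        push_cast at m1
        have m2 : (s - j) * ((p + (r + g j)) * σ) ≤ (s - j) * q :=
          mul_le_mul_of_nonneg_left m1 (by linarith)
        have m6 : (s - j) * q ≤ (s + 1) * q := mul_le_mul_of_nonneg_right (by linarith) hq.le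
        linarith
      · have e1 : s - j = 0 := by linarith [le_antisymm (not_lt.1 h3) hjs']
        rw [if_neg h3] at hX1
        have m5 := hGσ j h1 h2
        rw [e1, zero_mul, add_zero]
        linarith
    have t1 := HF.tr 0 (Nat.zero_le _) (ι (r - Gl j)) (hιL _ hi) y (by rw [hW0]; linarith [hxt (r - Gl j)])
      (by rw [hWx]; exact hy1.1) hy1.2 j (hjs j h2) (X + (s - j) * (x (r - Gl j) - t)) X
      (by rw [hWx, hW0]) hX2
    have t2 := HF.tr (ι (r - Gl j)) (hιL _ hi) 0 (Nat.zero_le _) y (by rw [hWx]; exact hy1.1)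
      (by rw [hW0]; linarith [hxt (r - Gl j)]) hy1.2 j (hjs j h2) X
      (X + (s - j) * (x (r - Gl j) - t)) (by
        rw [hWx, hW0]
        linarith) (hX1.trans x3)
    rw [hWx, hW0] at t1 t2
    exact (t1.and t2).sub hsub
  have B7 : Bas S' (fun J F A => ∀ a : Fin (n₀ + 1) × Fin (P₀ + 1),
      (1 ≤ (a.1 : ℕ) ∧ Gl a.1 ≤ (a.2 : ℕ)) →
      (CH (Pool.Agent.H49.Ent.cond F.p A True)
        (oI c k sn (x (a.2 - Gl a.1)) a.1 (XE s σ Gl g a.1) (HT (ι (a.2 - Gl a.1)) J F))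
        (fun ω => (oI c k sn t a.1 (XE s σ Gl g a.1 + (s - (a.1 : ℕ)) * (x (a.2 - Gl a.1) - t))
          (HT 0 J F) ω, cI c k N t (x (a.2 - Gl a.1)) A (HT 0 J F) ω)) ≤ ψ * J ∧
      CH (Pool.Agent.H49.Ent.cond F.p A True)
        (oI c k sn t a.1 ((s - (a.1 : ℕ)) * Gl a.1 * σ + (s - (a.1 : ℕ)) * (x (a.2 - Gl a.1) - t))
          (HT 0 J F))
        (fun ω => (oI c k sn (x (a.2 - Gl a.1)) a.1 ((s - (a.1 : ℕ)) * Gl a.1 * σ)
          (HT (ι (a.2 - Gl a.1)) J F) ω, cI c k N t (x (a.2 - Gl a.1)) A (HT 0 J F) ω)) ≤ ψ * J) ∧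
      (CH (Pool.Agent.H49.Ent.cond F.p A True)
        (oI c k sn t a.1 (XE s σ Gl g a.1 + (s - (a.1 : ℕ)) * (x (a.2 - Gl a.1) - t)) (HT 0 J F))
        (fun ω => (oI c k sn (x (a.2 - Gl a.1)) a.1 (XE s σ Gl g a.1) (HT (ι (a.2 - Gl a.1)) J F) ω,
          cI c k N t (x a.2) A (HT 0 J F) ω)) ≤ ψ * J ∧
      CH (Pool.Agent.H49.Ent.cond F.p A True)
        (oI c k sn (x (a.2 - Gl a.1)) a.1 ((s - (a.1 : ℕ)) * Gl a.1 * σ) (HT (ι (a.2 - Gl a.1)) J F))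
        (fun ω => (oI c k sn t a.1
          ((s - (a.1 : ℕ)) * Gl a.1 * σ + (s - (a.1 : ℕ)) * (x (a.2 - Gl a.1) - t)) (HT 0 J F) ω,
          cI c k N t (x a.2) A (HT 0 J F) ω)) ≤ ψ * J)) := by
    refine Bas.fin' fun a => bas_if hpos' fun ⟨h1, h2⟩ => ?_
    have hjn : (a.1 : ℕ) ≤ n₀ := Nat.lt_succ_iff.1 a.1.2
    have hrP : (a.2 : ℕ) ≤ P₀ := Nat.lt_succ_iff.1 a.2.2
    have f1 := htr a.1 h1 hjn a.2 hrP h2 (x (a.2 - Gl a.1)) (by simp) (XE s σ Gl g a.1) (by simp)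
    have f2 := htr a.1 h1 hjn a.2 hrP h2 (x (a.2 - Gl a.1)) (by simp)
      ((s - (a.1 : ℕ)) * Gl a.1 * σ) (by simp)
    have f3 := htr a.1 h1 hjn a.2 hrP h2 (x a.2) (by simp) (XE s σ Gl g a.1) (by simp)
    have f4 := htr a.1 h1 hjn a.2 hrP h2 (x a.2) (by simp) ((s - (a.1 : ℕ)) * Gl a.1 * σ) (by simp)
    refine Bas.mono 0 ((f1.and f2).and (f3.and f4)) ?_
    rintro J - F A ⟨⟨g1, g2⟩, g3, g4⟩
    exact ⟨⟨g1.1, g2.2⟩, g3.2, g4.1⟩
  obtain ⟨κn, hκn, B6⟩ := hnum 1 (μ / 8 * σ) one_pos (by positivity)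
  obtain ⟨J₁, hJ₁⟩ := exists_nat_ge (max (24 / (μ / 2 * σ)) (4 / (δ₁ / 2 * σ)) + 1)
  intro j hj1 hjs1
  have hjn : j ≤ n₀ := by
    by_contra h
    have h1 : ((n₀ + 1 : ℕ) : ℝ) ≤ j := by exact_mod_cast (by omega : n₀ + 1 ≤ j)
    push_cast at h1
    linarith
  have eι : (p + P₀) * L ^ (n - k') = ι P₀ := (hιi P₀).symm
  rw [eι, hWx, ← hσe]
  refine Bas.mono J₁ (((B1.and B2).and (B3.and B4)).and ((B5.and B6).and (B7.and
    ((hste0.sub hsub).and (pos_bas hpos'))))) ?_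
  rintro J hJ F A ⟨⟨⟨E1, E2⟩, E3, E4⟩, ⟨E5, E6⟩, E7, E8, hA⟩
  have hJr : (J₁ : ℝ) ≤ J := by exact_mod_cast hJ
  have hJ0 : (0 : ℝ) < J := by
    have h1 := le_max_left (24 / (μ / 2 * σ)) (4 / (δ₁ / 2 * σ))
    have h2 : 0 ≤ 24 / (μ / 2 * σ) := by positivity
    linarith
  have hJμ : 24 ≤ μ / 2 * σ * J := by
    have h1 := le_max_left (24 / (μ / 2 * σ)) (4 / (δ₁ / 2 * σ))
    have h2 : 24 / (μ / 2 * σ) ≤ J := by linarith
    rwa [div_le_iff₀ (by positivity), mul_comm] at h2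
  have hJδ : 4 ≤ δ₁ / 2 * σ * J := by
    have h1 := le_max_right (24 / (μ / 2 * σ)) (4 / (δ₁ / 2 * σ))
    have h2 : 4 / (δ₁ / 2 * σ) ≤ J := by linarith
    rwa [div_le_iff₀ (by positivity), mul_comm] at h2
  have hcl := isLaw_cond F.isLaw hA
  have hB6 := E6 (fun i => {D : F.Ω → Prop // Cl2 (ptr F J) (vg (x i) J F) A D} → Prop)
    (fun i => cR F A (x i))
    (fun i _ => mx_cR hA (x i) hκn.le) A (fun _ h => h) (by rw [one_mul])
  have hev := far_ev (s := s) (σ := σ) (q := q) (ψ := ψ) (μ := μ) (τ := δ₁ / 2 * σ) (t := t)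
    (n₀ := n₀) (P₀ := P₀) (k := k) (D₁ := D₁) (G := Gl) (mm := mm) (g := g) (δ := δ) (κs := κs)
    hσ hn hn'
    (fun j h1 h2 => by
      obtain ⟨l1, l2, -, -, -, l6⟩ := hlen j h1 h2
      exact ⟨l1, l2, l6⟩) hlen' hGσ hψ0 hψσ (fun j h1 h2 => (hseq j h1 h2).2.2.1) hseq'
    (fun j h1 h2 => (hseq j h1 h2).2.1)
    (fun j h1 h2 => by
      obtain ⟨-, -, -, -, -, s6⟩ := hseq j h1 h2
      have := mul_le_mul_of_nonneg_right s6 hσ.le
      linarith) (Ds : Set ℝ) hD1 hD2 hD3 hJ0 hA (c := c) (sn := sn) (N := N) (x := x)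
    (H := fun i => HT (ι i) J F) (H₀ := HT 0 J F)
    (fun i hi => (hxq i (hPL i hi)).trans htq1) hxm
    (fun D hD i r j a1 a2 a3 a4 => E1 ((⟨i, by omega⟩, ⟨r, by omega⟩), (⟨j, by omega⟩, ⟨D, hD⟩))
      ⟨a1, a4⟩)
    (fun D hD i j a1 a2 a3 a4 => E2 (⟨i, by omega⟩, (⟨j, by omega⟩, ⟨D, hD⟩)) ⟨a2, a4⟩)
    (fun D hD D' hD' i i' j r a1 a2 a3 a4 a5 a6 =>
      E3 (((⟨i, by omega⟩, ⟨i', by omega⟩), (⟨j, by omega⟩, ⟨r, by omega⟩)), (⟨D, hD⟩, ⟨D', hD'⟩))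
        ⟨a1, a2, a5, a6⟩)
    (fun i hi y => cI_eq (E4 ⟨i, by omega⟩).1 E8 N y)
    (fun j h1 h2 r h3 h4 => by
      have hi : r - Gl j ≤ P₀ := (Nat.sub_le _ _).trans h4
      exact E5 (⟨j, by omega⟩, ⟨r, by omega⟩) ⟨h1, h3⟩ _ _ (E4 ⟨r - Gl j, by omega⟩).1
        (E4 ⟨r - Gl j, by omega⟩).2)
    (fun j h1 h2 r h3 h4 => ?_) j hj1 hjn (hlen j hj1 hjn).2.2.1
  · -- from `(G j - s) σ` to `2 σ` digits
    obtain ⟨l1, -⟩ := hlen j hj1 hjn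
    have h5 := fd_le hcl (oX c k ⌊x P₀ * J⌋₊ j (HT (ι P₀) J F))
      (cI c k N t (x P₀) A (HT 0 J F))
      (P := fun l => (sn (k + l) (x P₀) + ((Gl j : ℝ) - s) * σ - j * x P₀) * J)
      (Q := fun l => (sn (k + l) (x P₀) + 2 * σ - j * x P₀) * J) (d := 0) le_rfl (fun l => by
        rw [add_zero]
        refine mul_le_mul_of_nonneg_right ?_ hJ0.le
        have := mul_le_mul_of_nonneg_right (by linarith : (2 : ℝ) ≤ Gl j - s) hσ.le
        linarith)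
    have h6 : CH (Pool.Agent.H49.Ent.cond F.p A True)
      (fd (fun l => (sn (k + l) (x P₀) + ((Gl j : ℝ) - s) * σ - j * x P₀) * J)
        (oX c k ⌊x P₀ * J⌋₊ j (HT (ι P₀) J F))) (cI c k N t (x P₀) A (HT 0 J F)) ≤
        δ₁ / 2 * σ * J := hev
    refine h5.trans ?_
    linarith
  · -- the numbers
    have hi : r - Gl j ≤ P₀ := (Nat.sub_le _ _).trans h4
    obtain ⟨⟨q1, q2⟩, q3, q4⟩ := E7 (⟨j, by omega⟩, ⟨r, by omega⟩) ⟨h1, h3⟩
    simp only at q1 q2 q3 q4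
    obtain ⟨l, rfl⟩ : ∃ l, j = l + 1 := ⟨j - 1, by omega⟩
    have hls : ((l + 1 : ℕ) : ℝ) ≤ s := hjs _ h2
    have hrc : ((r - Gl (l + 1) : ℕ) : ℝ) = r - Gl (l + 1) := Nat.cast_sub h3
    have hxr : x (r - Gl (l + 1)) = x r - Gl (l + 1) * σ := by
      have := hxs (r - Gl (l + 1)) r
      rw [hrc] at this
      linarith
    have hx0 : ∀ i, 0 ≤ x i := fun i => ht0.trans (hxt i)
    obtain ⟨-, -, -, l4, -, -⟩ := hlen (l + 1) h1 h2
    have fin : ∀ {a b d : ℝ}, a ≤ b + (d * J + 4 * (ψ * J + 6)) → d ≤ μ / 4 * σ →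
        a ≤ b + μ * σ * J := by
      intro a b d ha hd
      have h5 := mul_le_mul_of_nonneg_right hd hJ0.le
      have h6 := mul_le_mul_of_nonneg_right hψσ hJ0.le
      linarith
    by_cases hlt : ((l + 1 : ℕ) : ℝ) < s
    · have h5 := hB6.1 l (by omega) (r - Gl (l + 1)) r (r + g (l + 1)) (Nat.sub_le _ _)
        (Nat.le_add_right _ _) (by omega)
      rw [hv] at h5
      have hXe : XE s σ Gl g (l + 1) = (s - (l + 1 : ℕ)) * (Gl (l + 1) + g (l + 1)) * σ := by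
        unfold XE
        rw [if_pos hlt]
      have hxg : x (r + g (l + 1)) = x r + g (l + 1) * σ := by
        have := hxs r (r + g (l + 1))
        push_cast at this
        linarith
      refine fin (far_num hA (e := pr (s - (l + 1)) (x r))
        (e' := pr (s - (l + 1)) (x (r + g (l + 1)))) ?_ ?_ q1 q2 q3 q4 (d := μ / 8 * σ + μ / 8 * σ)
        ?_) (by linarith)
      · have e1 : (s - ((l + 1 : ℕ) : ℝ)) * x (r - Gl (l + 1)) + (s - ((l + 1 : ℕ) : ℝ)) *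
            Gl (l + 1) * σ = (s - (l + 1)) * x r := by
          rw [hxr]
          push_cast
          ring
        rw [e1]
        have e2 : 0 ≤ (s - (l + 1)) * x r * (J : ℝ) := by
          push_cast at hls
          exact mul_nonneg (mul_nonneg (by linarith) (hx0 r)) hJ0.le
        exact ⟨Nat.floor_le e2, (Nat.lt_floor_add_one _).le⟩
      · have e1 : (s - ((l + 1 : ℕ) : ℝ)) * x (r - Gl (l + 1)) + XE s σ Gl g (l + 1) =
            (s - (l + 1)) * x (r + g (l + 1)) := by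
          rw [hXe, hxr, hxg]
          push_cast
          ring
        rw [e1]
        have e2 : 0 ≤ (s - (l + 1)) * x (r + g (l + 1)) * (J : ℝ) := by
          push_cast at hls
          exact mul_nonneg (mul_nonneg (by linarith) (hx0 _)) hJ0.le
        exact ⟨Nat.floor_le e2, (Nat.lt_floor_add_one _).le⟩
      · rw [← hσe] at h5
        exact h5
    · have hse : s = ((l + 1 : ℕ) : ℝ) := le_antisymm (not_lt.1 hlt) hls
      have hnl : n₀ = l + 1 := by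
        have h5 : (n₀ : ℝ) ≤ ((l + 1 : ℕ) : ℝ) := by rw [← hse]; exact hn
        have h6 : n₀ ≤ l + 1 := by exact_mod_cast h5
        omega
      have h5 := hB6.2 (r - Gl (l + 1)) r (Nat.sub_le _ _) (hPL r h4) (fun _ => 0) (Nat.zero_le _)
      rw [hv] at h5
      have hnl1 : n₀ - 1 = l := by omega
      rw [hnl1, hnl] at h5
      have hXe : XE s σ Gl g (l + 1) = Gl (l + 1) * σ := by
        unfold XE
        rw [if_neg hlt]
      have hs1 : s - ((l + 1 : ℕ) : ℝ) = 0 := by linarith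
      refine fin (far_num hA (e := fun _ => 0)
        (e' := fun J => 0 + pr (Gl (l + 1)) (q / (L : ℝ) ^ k') J) ?_ ?_ q1 q2 q3 q4
        (d := μ / 8 * σ + μ / 8 * σ) ?_) (by linarith)
      · rw [hs1, zero_mul, zero_mul, zero_mul, add_zero, zero_mul]
        push_cast
        constructor <;> norm_num
      · rw [hs1, zero_mul, zero_add, hXe, ← hσe]
        have e2 : 0 ≤ (Gl (l + 1) : ℝ) * σ * (J : ℝ) := by positivity
        simp only [zero_add]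
        exact ⟨Nat.floor_le e2, (Nat.lt_floor_add_one _).le⟩
      · rw [← hσe] at h5
        rw [← hσe]
        exact h5

end Pool.STR16
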