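import Pool.Agent.H16.STR.Img
import Pool.Agent.H91.STR.Star
import Pool.Agent.H72.T4C.S

/-!
# The star in a box: literals

`CyStmt`: the codes of the path of the places below `k` from their own jets of orders `0`, `1`.
`RwStmt`: the rows. `FiStmt`: one image. `StarStmt`: one step of the star for the labels of the window
`a`, the records of `a` and `x`, the digits between `X` and `X'` behind the natural ones.
-/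

set_option autoImplicit false

namespace Pool.STR16

open Finset Real MvPolynomial
open Pool.Agent.H49.Ent Pool.Agent.H32.Dense
open Pool.STK hiding pr2
open Pool.KA Pool.KSAT Pool.K2S Pool.PB Pool.S6C
open Pool.GEN Pool.CHT Pool.CHX Pool.ISO Pool.LA91 Pool.AVG71 Pool.AVG5 Pool.D2F2 Pool.AVG57
open Pool.RCD Pool.AVG96 Pool.OWN68 Pool.V0F Pool.V0Q Pool.V0T
open Pool.T4C72 (BoxT)
open Pool.T4H (RowT)
open Pool.T4C (FI1G)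
open Pool.STR91 (stc)

variable {m : ℕ}

/-- The codes of the path of the places below `k` at the start of the window `a`, `G l i` digits for
the order `i`. -/
noncomputable def vcG {J : ℕ} {F : Fam m J} (c : ℕ → Fin m) (k b a D : ℕ) (G : Fin k → ℕ → ℕ)
    (Hb : LnT F → ℕ → MvPolynomial (Option (Fin m)) ℝ) (s : LnT F) : Fin k × Fin (D + 1 + 1) → ℤ :=
  stc (pV c k b a Hb) G (D + 1) s

/-- **(E1)** The codes of the path of the slope-one places from their own jets of orders `0`, `1`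
(`N l 0`, `N l 1` digits) and back. Precision in the units of the window `a`: `N l 0` for the order
zero, `N l 1 + a` for the positive orders. -/
def CyStmt (k : ℕ) : Prop := ∀ (D : ℕ) (E : ℝ), ∃ K : ℝ, 0 ≤ K ∧
  ∀ {m : ℕ} {b a φ ρ : ℝ} {sn : ℕ → ℝ → ℝ} {c : ℕ → Fin m} {N : ℕ → ℕ → ℝ}, 0 ≤ b → b ≤ a →
    a ≤ 1 → 0 < ρ → (∀ l < k, 0 ≤ N l 0 ∧ N l 0 ≤ N l 1 + a ∧
      N l 1 + a + ρ ≤ sn l b + 2 * (a - b)) → ∃ J₀ : ℕ, ∀ J ≥ J₀, ∀ {F : Fam m J}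
      {A : F.Ω → Prop} {Hb H : LnT F → ℕ → MvPolynomial (Option (Fin m)) ℝ},
      LDP F c k 1 D b a φ E sn A Hb H → ∀ B : F.Ω → Prop, Sub B A → 0 < Pe F.p B →
      ∀ G : Fin k → ℕ → ℕ, (∀ l i, G l i = ⌊(if i = 0 then N l 0 else N l 1 + a) * J⌋₊) →
      CH (Pool.Agent.H49.Ent.cond F.p B True)
        (fun ω => vcG c k ⌊b * J⌋₊ ⌊a * J⌋₊ D G Hb (slam F ⌊a * J⌋₊ ω))
        (fun ω => (jet2 F c ⌊a * J⌋₊ H 0 k N ω, F.W ω)) ≤ K ∧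
      CH (Pool.Agent.H49.Ent.cond F.p B True)
        (fun ω => (jet2 F c ⌊a * J⌋₊ H 0 k N ω, F.W ω))
        (fun ω => (vcG c k ⌊b * J⌋₊ ⌊a * J⌋₊ D G Hb (slam F ⌊a * J⌋₊ ω), (F.T ω, F.Z ω))) ≤ K

/-- **(E34)** The points and the rows of one event: digits `X ≤ X'` behind the natural ones of the
window `a`. -/
def RwStmt (k : ℕ) : Prop := ∃ C : ℝ, 1 ≤ C ∧
  ∀ {m D D₁ : ℕ} {S : PCl m} {c : ℕ → Fin m} {sn sp : ℕ → ℝ → ℝ} {G : Set ℝ}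
    {s h b o w u Λ φ' e φ : ℝ} {lam : ℝ → ℝ}, BoxT S c k 1 D sn sp G s h b o w u Λ φ' e lam →
    1 ≤ s → φ' ≤ φ → ∀ {a X X' Ec R ε ϖ : ℝ}, a ∈ G → w ≤ a → 0 ≤ X → X < X' →
    s * (a - w) + X' + C * φ + C * u ≤ Λ * u → X' + C * φ + C * u ≤ a - b → X' + C * φ ≤ R →
    0 < ε → 0 < ϖ → (∃ η : ℝ, RNum S (fun J F => ptr F J) (vg a) η) →
    Bas S (fun J F A => ∀ Hb H : LnT F → ℕ → MvPolynomial (Option (Fin m)) ℝ,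
      StE F c k D₁ b a φ Ec R sn A Hb H → ∀ (g : Fin 2 → ℕ) (q : ℕ),
      (∀ i : Fin 2, |(g i : ℝ) - (sn (k + i) a + X') * J| ≤ 2) → |(q : ℝ) - (X' - X) * J| ≤ 2 →
      ∃ (B : F.Ω → Prop) (N : Fin k → ℕ) (υ : Type) (z : PtT F → Fin 2 → ℤ) (Yb : PtT F → υ),
        Sub B A ∧ (1 - ϖ) * Pe F.p A ≤ Pe F.p B ∧
        (∀ l : Fin k, (N l : ℝ) ≤ (sn l a + X' + C * φ) * J) ∧
        StY F c k D₁ b a N g A B Hb H z Yb ∧ ∀ l ≤ q,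
        RowT (Pool.Agent.H49.Ent.cond F.p B True) (fun ω => z (ptr F J ω))
          (fun ω => Yb (ptr F J ω)) l ((2 - h) * l * Real.log 2 + (C * φ + ε) * J) ϖ)

/-- **(B)** The images of the blocks of digits between `X` and `X'`. -/
def FiStmt (k : ℕ) : Prop := ∃ C : ℝ, 1 ≤ C ∧
  ∀ {m D : ℕ} {S : PCl m} {c : ℕ → Fin m} {sn : ℕ → ℝ → ℝ} {G : Set ℝ} {b o φ' φ : ℝ},
    LadT S c k 1 sn G b o φ' → φ' ≤ φ → ∀ {a X X' x' Ec R : ℝ} {e₀ : ℕ → ℝ} {ρ₀ κ room : ℝ},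
    a ∈ G → b ≤ a → 0 ≤ X → X < X' → x' ∈ G → a ≤ x' → x' ≤ o → 0 ≤ κ → X' + C * φ ≤ room →
    (∀ l ≤ 1, sn (k + l) a + X' + C * φ ≤ sn (k + l) x') → sn k a + X' + C * φ ≤ 1 →
    sn (k + 1) a + X' + C * φ ≤ 1 → X' + C * φ ≤ 1 - a → (∀ l < k, X' + C * φ ≤ 1 - sn l a) →
    (∀ ϖ : ℝ, 0 < ϖ → ∀ v ∈ G, a ≤ v → v ≤ x' → ∀ P : ℝ, P ≤ sn (k + 1) a + X' →
      ImN S c k D a φ e₀ ρ₀ sn ϖ room v P κ) →
    (∀ ϖ : ℝ, 0 < ϖ → ∀ v ∈ G, a ≤ v → v ≤ x' → ∀ P : ℝ, P ≤ sn k a + X' →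
      ImU S c k D a φ e₀ ρ₀ sn ϖ v P κ) →
    ∀ {η ϖ : ℝ}, 0 < η → 0 < ϖ → ∀ a₁ : ℕ, 1 ≤ a₁ →
    Bas S (fun J F A => ∀ Hb H : LnT F → ℕ → MvPolynomial (Option (Fin m)) ℝ,
      StE F c k D b a φ Ec R sn A Hb H → OkT F c k D a φ e₀ ρ₀ sn A H →
      ∀ (g : Fin 2 → ℕ) (q : ℕ), (∀ i : Fin 2, |(g i : ℝ) - (sn (k + i) a + X') * J| ≤ 2) →
      |(q : ℝ) - (X' - X) * J| ≤ 2 →
      ∀ (B : F.Ω → Prop) (N : Fin k → ℕ) (υ : Type) (z : PtT F → Fin 2 → ℤ) (Yb : PtT F → υ),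
        Sub B A → 1 / 2 * Pe F.p A ≤ Pe F.p B → StY F c k D b a N g A B Hb H z Yb →
        ∀ u : ℕ, a₁ * u ≤ q →
        FI1G (N := 1) (Pool.Agent.H49.Ent.cond F.p B True) (slam F ⌊a * J⌋₊) (ptr F J)
          (fun ω => z (ptr F J ω)) (fun ω => Yb (ptr F J ω)) u a₁ 0
          (u * Real.log 2 - (C * φ + C * κ + η) * J) ϖ)

/-- The digits of the own jets of order `i` of the two targets. -/
noncomputable def oJ {J : ℕ} {F : Fam m J} (c : ℕ → Fin m) (k a i : ℕ)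
    (H : LnT F → ℕ → MvPolynomial (Option (Fin m)) ℝ) (N : ℕ → ℝ) (ω : F.Ω) (l : Fin 2) : ℤ :=
  ⌊(2 : ℝ) ^ (N l * J) * ojet F (c (k + l)) i (H (slam F a ω) (k + l)) ω⌋

/-- **One step of the star.** Labels `H` of the window `a`, records of `a` and of `x`, side digits
`N` of the slope-one places. -/
def StarStmt (k : ℕ) (h s : ℝ) : Prop := ∀ (j D₁ : ℕ), 1 ≤ j → (j : ℝ) ≤ s → ∀ δ : ℝ, 0 < δ →
  ∃ κ₀ C : ℝ, 0 < κ₀ ∧ 1 ≤ C ∧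
  ∀ {m D : ℕ} {S : PCl m} {c : ℕ → Fin m} {sn sp : ℕ → ℝ → ℝ} {G : Set ℝ}
    {b o w u Λ φ' e φ : ℝ} {lam : ℝ → ℝ}, BoxT S c k 1 D sn sp G s h b o w u Λ φ' e lam →
    φ' ≤ φ → ∀ {a x x' X X' Ec R : ℝ} {e₀ : ℕ → ℝ} {ρ₀ κ room : ℝ} {N : ℕ → ℕ → ℝ}, a ∈ G →
    w ≤ a → x ∈ G → a ≤ x → x ≤ w + Λ * u → 0 ≤ X → X < X' → C * φ ≤ κ₀ * (X' - X) → κ ≤ κ₀ * (X' - X) → 0 ≤ κ →
    s * (a - w) + X' + C * φ + C * u ≤ Λ * u → X' + C * φ + C * u ≤ a - b →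
    X' + C * φ ≤ R → X' + C * φ ≤ room → x' ∈ G → a ≤ x' → x' ≤ w + Λ * u →
    (∀ l ≤ 1, sn (k + l) a + X' + C * φ ≤ sn (k + l) x') →
    (∀ l < k, sn l a + X' + C * φ ≤ N l 0 ∧ N l 0 ≤ N l 1 + a ∧
      N l 1 + a + φ ≤ sn l b + 2 * (a - b)) →
    (∀ ϖ : ℝ, 0 < ϖ → ∀ v ∈ G, a ≤ v → v ≤ x' → ∀ P : ℝ, P ≤ sn (k + 1) a + X' →
      ImN S c k D₁ a φ e₀ ρ₀ sn ϖ room v P κ) →
    (∀ ϖ : ℝ, 0 < ϖ → ∀ v ∈ G, a ≤ v → v ≤ x' → ∀ P : ℝ, P ≤ sn k a + X' →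
      ImU S c k D₁ a φ e₀ ρ₀ sn ϖ v P κ) →
    (∃ η : ℝ, RNum S (fun J F => ptr F J) (vg a) η) →
    Bas S (fun J F A => ∀ Hb H : LnT F → ℕ → MvPolynomial (Option (Fin m)) ℝ,
      StE F c k D₁ b a φ Ec R sn A Hb H → OkT F c k D₁ a φ e₀ ρ₀ sn A H →
      (∀ i ≤ D₁ + 1, i ≠ j → CH (Pool.Agent.H49.Ent.cond F.p A True)
        (oJ c k ⌊a * J⌋₊ i H fun l => sn (k + l) a + X' - i * a)
        (fun ω => (jet2 F c ⌊a * J⌋₊ H 0 k N ω, (cR F A x ω, F.W ω))) ≤ κ₀ * (X' - X) * J) →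
      (∀ i ≤ D₁ + 1, j < i → CH (Pool.Agent.H49.Ent.cond F.p A True)
        (oJ c k ⌊a * J⌋₊ i H fun l => sn (k + l) a + X' - i * a)
        (fun ω => (jet2 F c ⌊a * J⌋₊ H 0 k N ω, (cR F A a ω, F.W ω))) ≤ κ₀ * (X' - X) * J) →
      CH (Pool.Agent.H49.Ent.cond F.p A True)
        (oJ c k ⌊a * J⌋₊ j H fun l => sn (k + l) a + X - j * a)
        (fun ω => (jet2 F c ⌊a * J⌋₊ H 0 k N ω, (cR F A x ω, F.W ω))) ≤ κ₀ * (X' - X) * J →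
      CH (Pool.Agent.H49.Ent.cond F.p A True)
          (oJ c k ⌊a * J⌋₊ j H fun l => sn (k + l) a + X' - j * a)
          (fun ω => (oJ c k ⌊a * J⌋₊ j H (fun l => sn (k + l) a + X - j * a) ω,
            (jet2 F c ⌊a * J⌋₊ H 0 k N ω, (cR F A a ω, F.W ω)))) ≤
        CH (Pool.Agent.H49.Ent.cond F.p A True)
          (oJ c k ⌊a * J⌋₊ j H fun l => sn (k + l) a + X' - j * a)
          (fun ω => (oJ c k ⌊a * J⌋₊ j H (fun l => sn (k + l) a + X - j * a) ω,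
            (jet2 F c ⌊a * J⌋₊ H 0 k N ω, (cR F A x ω, F.W ω)))) + κ₀ * (X' - X) * J →
      CH (Pool.Agent.H49.Ent.cond F.p A True)
        (oJ c k ⌊a * J⌋₊ j H fun l => sn (k + l) a + X' - j * a)
        (fun ω => (jet2 F c ⌊a * J⌋₊ H 0 k N ω, (cR F A x ω, F.W ω))) ≤ δ * (X' - X) * J)

end Pool.STR16
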