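import Pool.Agent.H91.STR.Nlist

/-!
# The numbers of the digits, the smallness proportional to the unit

`num_list'`: as `num_list` (H91/STR/Nlist), the allowed number of bits is proportional to the
length of the box.
-/

set_option autoImplicit false

namespace Pool.STR16

open Finset Real
open Pool.Agent.H49.Ent Pool.Agent.H32.Dense Pool.STK Pool.KA Pool.KSAT Pool.K2S Pool.PB Pool.S6C
open Pool.GEN Pool.RCD Pool.LA91 Pool.OWN83 Pool.T462 Pool.AB62 Pool.STR91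
open Pool.OWN68 (cl2_vg)

/-- **The digits of finitely many functions given coarser records, in one box.** Constants in the
order: `c`, `κ₀`, `κ₁`, `R`, `L`; then `n`; then the length `q` of the box; then `δ`. The sub-box has
`L` steps of the length `q / L ^ k`, `k ≤ n`. The numbers `c l`, `l < nl`, are the exponents of the
functions `v l`; the function `w` is read at the precision `eb J + R (q / L ^ k) J`. -/
theorem num_list' (nl : ℕ) (ι : ℕ → Type) [∀ l, Fintype (ι l)] (ι' : Type) [Fintype ι'] {c : ℕ → ℝ}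
    {κ₀ κ₁ R : ℝ} (hc : ∀ l < nl, 0 ≤ c l) (hκ : 0 < κ₀) (hκ₁ : 0 < κ₁) (hR : 0 ≤ R) {L : ℕ}
    (hL : 2 ≤ L) :
    ∃ n : ℕ, 1 ≤ n ∧ ∃ δ₀ : ℝ, 0 < δ₀ ∧ ∀ q : ℝ, 0 < q →
    ∀ {m : ℕ} {α γ : ∀ J : ℕ, Fam m J → Type} {f : ∀ (J : ℕ) (F : Fam m J), F.Ω → α J F}
      {y : ∀ (J : ℕ) (F : Fam m J), F.Ω → γ J F} {S : PCl m}
      {v : ∀ (l J : ℕ) (F : Fam m J), F.Ω → ι l → ℝ} {w : ∀ (J : ℕ) (F : Fam m J), F.Ω → ι' → ℝ}
      {eb : ℕ → ℕ} {M M' t : ℝ},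
    S.Ne → (∀ (τ : ℝ) (J : ℕ) (F : Fam m J) (A : F.Ω → Prop), S.St τ J F A → 0 < Pe F.p A) →
    Bas S (fun J F A => (cnt F.p (f J F) A : ℝ) ≤ Real.exp (M * J)) →
    0 ≤ M' → (∀ l < nl, Bas S (fun J F A => ∀ ω, A ω → 0 < F.p ω → ∀ i,
      |v l J F ω i| ≤ Real.exp (M' * J))) →
    Bas S (fun J F A => ∀ ω, A ω → 0 < F.p ω → ∀ i, |w J F ω i| ≤ Real.exp (M' * J)) →
    (∀ J : ℕ, (eb J : ℝ) ≤ M' * J) → t + q ≤ 1 →
    (∀ l < nl, ∀ x : ℝ, t ≤ x → x ≤ t + q →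
      FwN S f (vg x) y (dg (v l) (pr (c l) x)) (δ₀ * q)) →
    FwN S f (vg t) y (dg w eb) (δ₀ * q) →
    ∃ S' : PCl m, S'.Ne ∧
      (∀ (τ : ℝ) (J : ℕ) (F : Fam m J) (A : F.Ω → Prop), S'.St τ J F A → S.St τ J F A) ∧
      ∃ (k p : ℕ) (x : ℕ → ℝ), 1 ≤ k ∧ k ≤ n ∧ L ∣ p ∧ p + L ≤ L ^ k ∧
        (∀ i, x i = t + ((p + i : ℕ) / (L : ℝ) ^ k) * q) ∧
        ∀ c₀ ε : ℝ, 0 < c₀ → 0 < ε → ∃ κ : ℝ, 0 < κ ∧ Bas S' (fun J F A =>
          ∀ (V : ℕ → Type) (z : ∀ i, F.Ω → V i), (∀ i ≤ L, Mx f (vg (x i)) κ F A (z i)) →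
          ∀ B : F.Ω → Prop, Sub B A → c₀ * Pe F.p A ≤ Pe F.p B →
          (∀ l < nl, ∀ i j j' : ℕ, i ≤ j → j ≤ j' → j' ≤ L →
            CH (Pool.Agent.H49.Ent.cond F.p B True) (dg (v l) (pr (c l) (x j')) J F)
                (fun ω => (dg (v l) (pr (c l) (x j)) J F ω, (z i ω, y J F ω))) ≤
              CH (Pool.Agent.H49.Ent.cond F.p B True) (dg (v l) (pr (c l) (x j')) J F)
                (fun ω => (dg (v l) (pr (c l) (x j)) J F ω, ((z j ω, z i ω), y J F ω))) +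
              (κ₀ * (q / (L : ℝ) ^ k) + ε) * J) ∧
          ∀ i j : ℕ, i ≤ j → j ≤ L → ∀ e' : ℕ → ℕ, e' J ≤ eb J + pr R (q / (L : ℝ) ^ k) J →
            CH (Pool.Agent.H49.Ent.cond F.p B True)
                (dg w (fun J => eb J + pr R (q / (L : ℝ) ^ k) J) J F)
                (fun ω => (dg w e' J F ω, (z i ω, y J F ω))) ≤
              CH (Pool.Agent.H49.Ent.cond F.p B True)
                (dg w (fun J => eb J + pr R (q / (L : ℝ) ^ k) J) J F)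
                (fun ω => (dg w e' J F ω, ((z j ω, z i ω), y J F ω))) +
              (κ₁ * (q / (L : ℝ) ^ k) + ε) * J) := by
  classical
  -- the constants
  obtain ⟨C, hC0, hC⟩ : ∃ C : ℝ, 0 ≤ C ∧ ∀ l < nl, Fintype.card (ι l) * c l ≤ C := by
    refine ⟨∑ l ∈ range nl, Fintype.card (ι l) * c l, sum_nonneg fun l hl => ?_, fun l hl => ?_⟩
    · have := hc l (mem_range.1 hl)
      positivity
    · refine single_le_sum (f := fun l => (Fintype.card (ι l) : ℝ) * c l) (fun l' hl' => ?_)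
        (mem_range.2 hl)
      have := hc l' (mem_range.1 hl')
      show 0 ≤ (Fintype.card (ι l') : ℝ) * c l'
      positivity
  obtain ⟨B₀, hB₀⟩ : ∃ B₀ : ℝ, B₀ = Fintype.card ι' * R + 1 := ⟨_, rfl⟩
  obtain ⟨κ₂, hκ₂⟩ : ∃ κ₂ : ℝ, κ₂ = κ₀ / 2 := ⟨_, rfl⟩
  have k2 : 0 < κ₂ := by rw [hκ₂]; positivity
  obtain ⟨n₀, hn₀⟩ := exists_nat_ge (4 * (nl * (C + 1)) * L / κ₂)
  rw [div_le_iff₀ k2] at hn₀
  obtain ⟨n', hn'⟩ : ∃ n', n' = max 1 n₀ := ⟨_, rfl⟩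
  have hn1 : 1 ≤ n' := by rw [hn']; exact le_max_left _ _
  have hn2 : 4 * (nl * (C + 1)) * L ≤ κ₂ * n' := by
    have h1 : (n₀ : ℝ) ≤ n' := by rw [hn']; exact_mod_cast le_max_right _ _
    have h2 := mul_le_mul_of_nonneg_left h1 k2.le
    linarith
  obtain ⟨b, hb⟩ := exists_nat_ge (B₀ / κ₁)
  rw [div_le_iff₀ hκ₁] at hb
  obtain ⟨r, hr⟩ : ∃ r : ℕ, 4 * b ≤ L ^ r := by
    obtain ⟨r, hr⟩ := pow_unbounded_of_one_lt (4 * b) (by omega : 1 < L)
    exact ⟨r, hr.le⟩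
  obtain ⟨n, hn⟩ : ∃ n, n = n' + r := ⟨_, rfl⟩
  have hn'n : n' ≤ n := by omega
  have hnr : n - n' = r := by omega
  have hL0 : (0 : ℝ) < L := by exact_mod_cast (by omega : 0 < L)
  have hL1 : (1 : ℝ) ≤ L := by exact_mod_cast (by omega : 1 ≤ L)
  have hLn : (0 : ℝ) < (L : ℝ) ^ n := by positivity
  refine ⟨n, by omega, min (1 / (L : ℝ) ^ n)
    (κ₂ / (2 * ((3 * L + 3) * ((nl + 1) * (L : ℝ) ^ n)))), lt_min (by positivity) (by positivity),
    fun q hq => ?_⟩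
  obtain ⟨δ, hδq'⟩ : ∃ δ : ℝ, δ = min (1 / (L : ℝ) ^ n)
    (κ₂ / (2 * ((3 * L + 3) * ((nl + 1) * (L : ℝ) ^ n)))) * q := ⟨_, rfl⟩
  have hδe : δ = min (q / (L : ℝ) ^ n)
      (κ₂ * q / (2 * ((3 * L + 3) * ((nl + 1) * (L : ℝ) ^ n)))) := by
    rw [hδq', min_mul_of_nonneg _ _ hq.le]
    congr 1 <;> ring
  have hδ0 : 0 < δ := by rw [hδe]; exact lt_min (by positivity) (by positivity)
  have hδn : δ ≤ q / (L : ℝ) ^ n := by rw [hδe]; exact min_le_left _ _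
  have hδk : ∀ k ≤ n, δ ≤ q / (L : ℝ) ^ k := fun k hk =>
    hδn.trans (div_le_div_of_nonneg_left hq.le (by positivity) (pow_le_pow_right₀ hL1 hk))
  have hδq : δ ≤ q := by
    have := hδk 0 (Nat.zero_le _)
    simpa using this
  have hδ' : 2 * ((3 * L + 3) * (nl * (δ * (L : ℝ) ^ n))) ≤ κ₂ * q := by
    have h1 : δ ≤ κ₂ * q / (2 * ((3 * L + 3) * ((nl + 1) * (L : ℝ) ^ n))) := by
      rw [hδe]; exact min_le_right _ _
    rw [le_div_iff₀ (by positivity)] at h1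
    have h2 : 0 ≤ 2 * ((3 * L + 3) * (δ * (L : ℝ) ^ n)) := by positivity
    nlinarith
  rw [← hδq']
  intro m α γ f y S v w eb M M' t hS hpos hM hM' hv hw heb htq hf hfw
  -- the windows
  obtain ⟨X, hX⟩ : ∃ X : ℕ → ℝ, X = fun i : ℕ => t + (i / (L : ℝ) ^ n) * q := ⟨_, rfl⟩
  have hXi : ∀ i, X i = t + (i / (L : ℝ) ^ n) * q := fun i => by rw [hX]
  have hXm : ∀ i j : ℕ, i ≤ j → X i ≤ X j := fun i j hij => by
    rw [hXi, hXi]
    have h1 : (i : ℝ) ≤ j := by exact_mod_cast hij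
    have h2 : (i : ℝ) / (L : ℝ) ^ n ≤ j / (L : ℝ) ^ n := div_le_div_of_nonneg_right h1 hLn.le
    have h3 := mul_le_mul_of_nonneg_right h2 hq.le
    linarith
  have hXN : X (L ^ n) = t + q := by
    rw [hXi]
    push_cast
    rw [div_self hLn.ne', one_mul]
  have hX0 : ∀ i, t ≤ X i := fun i => by
    rw [hXi]
    have : 0 ≤ (i : ℝ) / (L : ℝ) ^ n * q := by positivity
    linarith
  have hXz : X 0 = t := by rw [hXi]; simp
  have hfam : ∀ l < nl, RFam S f y (L ^ n) X (q0 m) (fun i => q1 (dg (v l) (pr (c l) (X i)))) C δ :=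
    fun l hl => rfam_dg hpos hM' (hc l hl) (hC l hl) (hv l hl) (fun i j hij _ => hXm i j hij)
      (by rw [hXN]; exact htq)
      (fun i hi => hf l hl (X i) (hX0 i) (by rw [← hXN]; exact hXm i _ hi))
  obtain ⟨ek, hek⟩ : ∃ ek : ℕ → ℕ → ℕ, ek = fun k J => eb J + pr R (q / (L : ℝ) ^ k) J := ⟨_, rfl⟩
  have hprR : ∀ k J : ℕ, (pr R (q / (L : ℝ) ^ k) J : ℝ) ≤ R * (q / (L : ℝ) ^ k) * J := fun k J =>
    Nat.floor_le (by positivity)
  have hekJ : ∀ k J : ℕ, (ek k J : ℝ) ≤ (M' + R * (q / (L : ℝ) ^ k)) * J := fun k J => by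
    rw [hek]
    push_cast
    have h1 := heb J
    have h2 := hprR k J
    linarith
  have hsin : ∀ k, 1 ≤ k → k ≤ n → RSin S f y (L ^ n) X (q0 m) (q1 (dg w (ek k))) :=
    fun k _ _ => rsin_dg hpos (hekJ k) hM' hw
  have hcap : ∀ k, 1 ≤ k → k ≤ n → FewC S f (vg (X 0)) y (q0 m) (q1 (dg w (ek k)))
      (B₀ * (q / (L : ℝ) ^ k)) := by
    intro k _ hk
    rw [hXz]
    have h1 := FwN.more (f := f) (g := vg t) (y := y) (v := w) (e := eb) (e' := ek k)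
      (d := R * (q / (L : ℝ) ^ k)) hpos (fun J => by rw [hek]; exact Nat.le_add_right _ _)
      (fun J => by
        rw [hek]
        have h2 := hprR k J
        show ((eb J + pr R (q / (L : ℝ) ^ k) J - eb J : ℕ) : ℝ) ≤ _
        rw [Nat.add_sub_cancel_left]
        linarith) hfw
    refine q0_cap hpos fun e he => Bas.mono 0 (h1 e he) ?_
    rintro J - F A ⟨V, z, hz, h2⟩
    refine ⟨V, z, hz, h2.trans (mul_le_mul_of_nonneg_right ?_ (Nat.cast_nonneg J))⟩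
    have h3 := hδk k hk
    rw [hB₀]
    linarith
  obtain ⟨S', a1, a2, θ, ψ, k, p, a3, a4, a5, hk1, -, hkn, hLp, hpL, hxx, hbd, hadd, hdrop⟩ :=
    num_rel (Ux := fun _ => ι' → ℤ) (U := fun l => ι l → ℤ)
    (Q := fun l i => q1 (dg (v l) (pr (c l) (X i)))) (Qx := fun k => q1 (dg w (ek k)))
    hS hpos hM (by omega : 1 ≤ L) hn1 hn'n (by rw [hnr]; exact hr) hq htq hC0 hδ0.le k2 hκ₁
    (fun i _ => hXi i) hfam hsin hcap (by linarith) hn2 hδ' hδq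
  have hpos' : ∀ (τ : ℝ) (J : ℕ) (F : Fam m J) (A : F.Ω → Prop), S'.St τ J F A → 0 < Pe F.p A :=
    fun τ J F A h => hpos τ J F A (a2 τ J F A h)
  refine ⟨S', a1, a2, k, p, fun i => t + ((p + i : ℕ) / (L : ℝ) ^ k) * q, hk1, hkn, hLp, hpL,
    fun _ => rfl, fun c₀ ε hc₀ hε => ?_⟩
  obtain ⟨u, hu⟩ : ∃ u : ℕ → ℕ, u = fun i => (p + i) * L ^ (n - k) := ⟨_, rfl⟩
  have hui : ∀ i, u i = (p + i) * L ^ (n - k) := fun i => by rw [hu]
  have hum : ∀ i j, i ≤ j → u i ≤ u j := fun i j hij => by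
    rw [hui, hui]
    exact Nat.mul_le_mul_right _ (by omega)
  have huN : ∀ i ≤ L, u i ≤ L ^ n := fun i hi => by rw [hui]; exact (hxx i hi).1
  have hux : ∀ i ≤ L, X (u i) = t + ((p + i : ℕ) / (L : ℝ) ^ k) * q := fun i hi => by
    rw [hui]
    exact (hxx i hi).2
  simp only [← hui] at hadd hbd hdrop
  -- the numbers on large parts
  have N1 : ∀ a : Fin nl × Fin (L + 1) × Fin (L + 1), ∃ κ : ℝ, 0 < κ ∧ Bas S' (fun J F A =>
      (a.2.1 : ℕ) ≤ a.2.2 → ∀ (V : Type) (z : F.Ω → V), Mx f (vg (X (u a.2.1))) κ F A z →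
      ∀ B : F.Ω → Prop, Sub B A → c₀ * Pe F.p A ≤ Pe F.p B →
      |CH (Pool.Agent.H49.Ent.cond F.p B True) (dg (v a.1) (pr (c a.1) (X (u a.2.2))) J F)
        (fun ω => (z ω, y J F ω)) - θ a.1 (u a.2.1) (u a.2.2) * J| ≤ ε / 8 * J) := by
    intro a
    by_cases ha : (a.2.1 : ℕ) ≤ a.2.2
    · have h3 : (a.2.2 : ℕ) ≤ L := Nat.lt_succ_iff.1 a.2.2.2
      obtain ⟨η, hη⟩ := a5 (u a.2.1) (huN _ (Nat.lt_succ_iff.1 a.2.1.2))
      obtain ⟨κ, hκ1, e₀, -, H⟩ := ev_two hpos' hη (q0_nn hpos' (a3 a.1 a.1.2 (u a.2.1) (u a.2.2)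
        (hum _ _ ha) (huN _ h3))) hc₀ (ε / 8) (by positivity)
      refine ⟨κ, hκ1, Bas.mono 0 (H 0) ?_⟩
      intro J _ F A H' _ V z hz B hB hBA
      exact H' V z hz _ rfl B hB hBA
    · exact ⟨1, one_pos, Bas.mono 0 (pos_bas hpos') fun J _ F A _ h => absurd h ha⟩
  have N2 : ∀ a : Fin (L + 1), ∃ κ : ℝ, 0 < κ ∧ Bas S' (fun J F A =>
      ∀ (V : Type) (z : F.Ω → V), Mx f (vg (X (u a))) κ F A z →
      ∀ B : F.Ω → Prop, Sub B A → c₀ * Pe F.p A ≤ Pe F.p B →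
      |CH (Pool.Agent.H49.Ent.cond F.p B True) (dg w (ek k) J F)
        (fun ω => (z ω, y J F ω)) - ψ k (u a) * J| ≤ ε / 8 * J) := by
    intro a
    obtain ⟨η, hη⟩ := a5 (u a) (huN _ (Nat.lt_succ_iff.1 a.2))
    obtain ⟨κ, hκ1, e₀, -, H⟩ := ev_two hpos' hη (q0_nn hpos' (a4 k hk1 hkn (u a)
      (huN _ (Nat.lt_succ_iff.1 a.2)))) hc₀ (ε / 8) (by positivity)
    refine ⟨κ, hκ1, Bas.mono 0 (H 0) ?_⟩
    intro J _ F A H' V z hz B hB hBA
    exact H' V z hz _ rfl B hB hBA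
  choose κ hκa H1 using N1
  choose κ' hκb H2 using N2
  obtain ⟨κm, hκm, hm1⟩ : ∃ κm : ℝ, 0 < κm ∧ ∀ a, κm ≤ κ a := by
    rcases isEmpty_or_nonempty (Fin nl × Fin (L + 1) × Fin (L + 1)) with h | h
    · exact ⟨1, one_pos, fun a => (h.false a).elim⟩
    · obtain ⟨a₀, ha₀⟩ := Finite.exists_min κ
      exact ⟨κ a₀, hκa a₀, ha₀⟩
  obtain ⟨a₁, ha₁⟩ := Finite.exists_min κ'
  refine ⟨min (min κm (κ' a₁)) (c₀ * (ε / 4)), lt_min (lt_min hκm (hκb a₁)) (by positivity),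
    Bas.mono 0 (((Bas.fin' H1).and (Bas.fin' H2)).and (pos_bas hpos')) ?_⟩
  rintro J - F A ⟨⟨H1, H2⟩, hA⟩ V z hz B hB hBA
  have hJ0 : (0 : ℝ) ≤ J := Nat.cast_nonneg J
  have hBp : 0 < Pe F.p B := lt_of_lt_of_le (mul_pos hc₀ hA) hBA
  have hcl := isLaw_cond F.isLaw hBp
  have hzz : ∀ i ≤ L, ∀ d, min (min κm (κ' a₁)) (c₀ * (ε / 4)) ≤ d →
      Mx f (vg (X (u i))) d F A (z i) := fun i hi d hd => by
    have h3 : Mx f (vg (t + ((p + i : ℕ) / (L : ℝ) ^ k) * q))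
      (min (min κm (κ' a₁)) (c₀ * (ε / 4))) F A (z i) := hz i hi
    rw [← hux i hi] at h3
    exact ⟨h3.1, fun V' z' hz' => (h3.2 V' z' hz').trans (mul_le_mul_of_nonneg_right hd hJ0)⟩
  -- the coarser record given the finer one
  have c2 : ∀ i j : ℕ, i ≤ j → j ≤ L →
      CH (Pool.Agent.H49.Ent.cond F.p B True) (z i) (z j) ≤ ε / 4 * J := by
    intro i j hij hj
    have h3 := hzz i (hij.trans hj) _ le_rfl
    have h4 := hzz j hj _ (min_le_right _ _)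
    have h5 : X (u j) ≤ 1 := (hXm _ _ (huN j hj)).trans (by rw [hXN]; exact htq)
    have c1 : CH (Pool.Agent.H49.Ent.cond F.p A True) (z i) (z j) ≤ c₀ * (ε / 4 * J) := by
      refine (h4.2 _ _ (cl2_vg (hXm _ _ (hum i j hij)) h5 h3.1)).trans ?_
      rw [← mul_assoc]
    exact ch_part F.isLaw hB hA hc₀ hBA _ _ c1
  have e2 : 0 ≤ ε * (J : ℝ) := by positivity
  refine ⟨fun l hl i j j' hij hjj hj' => ?_, fun i j hij hj e' he' => ?_⟩
  · have key : ∀ i j : ℕ, i ≤ j → j ≤ L →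
        |CH (Pool.Agent.H49.Ent.cond F.p B True) (dg (v l) (pr (c l) (X (u j))) J F)
          (fun ω => (z i ω, y J F ω)) - θ l (u i) (u j) * J| ≤ ε / 8 * J := by
      intro i j hij hj
      exact H1 (⟨l, hl⟩, ⟨i, by omega⟩, ⟨j, by omega⟩) hij (V i) (z i)
        (hzz i (hij.trans hj) _ (((min_le_left _ _).trans (min_le_left _ _)).trans (hm1 _))) B hB hBA
    have q1' := (abs_le.1 (key i j' (hij.trans hjj) hj')).2
    have q2 := (abs_le.1 (key i j hij (hjj.trans hj'))).1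
    have q3 := (abs_le.1 (key j j' hjj hj')).1
    have q4 := (abs_le.1 (key j j le_rfl (hjj.trans hj'))).2
    have q5 := mul_le_mul_of_nonneg_right (hadd l hl i j j' hij hjj hj').2 hJ0
    have q6 := mul_le_mul_of_nonneg_right (hbd l hl j j le_rfl (hjj.trans hj')).2 hJ0
    rw [sub_self, zero_mul, mul_zero, zero_add] at q6
    show CH (Pool.Agent.H49.Ent.cond F.p B True)
        (dg (v l) (pr (c l) (t + ((p + j' : ℕ) / (L : ℝ) ^ k) * q)) J F)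
        (fun ω => (dg (v l) (pr (c l) (t + ((p + j : ℕ) / (L : ℝ) ^ k) * q)) J F ω,
          (z i ω, y J F ω))) ≤
      CH (Pool.Agent.H49.Ent.cond F.p B True)
        (dg (v l) (pr (c l) (t + ((p + j' : ℕ) / (L : ℝ) ^ k) * q)) J F)
        (fun ω => (dg (v l) (pr (c l) (t + ((p + j : ℕ) / (L : ℝ) ^ k) * q)) J F ω,
          ((z j ω, z i ω), y J F ω))) + _
    rw [← hux j (hjj.trans hj'), ← hux j' hj']
    obtain ⟨φ, hφ⟩ := dg_fn (J := J) (v l) (pr_mono (hc l hl) (hXm _ _ (hum j j' hjj)) J) F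
    have c3 := c2 i j hij (hjj.trans hj')
    -- at `i`
    have b1 := ch_swap hcl.nonneg (dg (v l) (pr (c l) (X (u j'))) J F)
      (dg (v l) (pr (c l) (X (u j))) J F) (fun ω => (z i ω, y J F ω))
    have b2 : CH (Pool.Agent.H49.Ent.cond F.p B True) (dg (v l) (pr (c l) (X (u j))) J F)
        (fun ω => (dg (v l) (pr (c l) (X (u j'))) J F ω, (z i ω, y J F ω))) = 0 :=
      CH_eq_zero hcl.nonneg fun ω ω' _ _ h => by
        rw [hφ, hφ]
        exact congrArg φ (Prod.ext_iff.1 h).1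
    -- at `j`
    have b3 := CH_le_add hcl.nonneg (dg (v l) (pr (c l) (X (u j'))) J F)
      (dg (v l) (pr (c l) (X (u j))) J F) (fun ω => (z j ω, y J F ω))
    have b5 : CH (Pool.Agent.H49.Ent.cond F.p B True) (dg (v l) (pr (c l) (X (u j'))) J F)
        (fun ω => (dg (v l) (pr (c l) (X (u j))) J F ω, (z j ω, y J F ω))) ≤
        CH (Pool.Agent.H49.Ent.cond F.p B True) (dg (v l) (pr (c l) (X (u j'))) J F)
        (fun ω => (dg (v l) (pr (c l) (X (u j))) J F ω, ((z j ω, z i ω), y J F ω))) +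
        ε / 4 * J := by
      have d1 := CH_le_add hcl.nonneg (dg (v l) (pr (c l) (X (u j'))) J F) (z i)
        (fun ω => (dg (v l) (pr (c l) (X (u j))) J F ω, (z j ω, y J F ω)))
      have d2 : CH (Pool.Agent.H49.Ent.cond F.p B True) (z i)
          (fun ω => (dg (v l) (pr (c l) (X (u j))) J F ω, (z j ω, y J F ω))) ≤
          CH (Pool.Agent.H49.Ent.cond F.p B True) (z i) (z j) :=
        CH_mono_cond hcl.nonneg fun ω ω' _ _ h => by
          simp only [Prod.mk.injEq] at h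
          exact h.2.1
      have d3 : CH (Pool.Agent.H49.Ent.cond F.p B True) (dg (v l) (pr (c l) (X (u j'))) J F)
          (fun ω => (z i ω, (dg (v l) (pr (c l) (X (u j))) J F ω, (z j ω, y J F ω)))) ≤
          CH (Pool.Agent.H49.Ent.cond F.p B True) (dg (v l) (pr (c l) (X (u j'))) J F)
          (fun ω => (dg (v l) (pr (c l) (X (u j))) J F ω, ((z j ω, z i ω), y J F ω))) := by
        refine CH_mono_cond hcl.nonneg fun ω ω' _ _ h => ?_
        simp only [Prod.mk.injEq] at h ⊢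
        tauto
      linarith
    have e1 : (κ₀ * (q / (L : ℝ) ^ k) + ε) * J = 2 * (κ₂ * (q / (L : ℝ) ^ k) * J) + ε * J := by
      rw [hκ₂]
      ring
    rw [e1]
    linarith
  · have key : ∀ i ≤ L, |CH (Pool.Agent.H49.Ent.cond F.p B True) (dg w (ek k) J F)
        (fun ω => (z i ω, y J F ω)) - ψ k (u i) * J| ≤ ε / 8 * J := by
      intro i hi
      exact H2 ⟨i, by omega⟩ (V i) (z i)
        (hzz i hi _ (((min_le_left _ _).trans (min_le_right _ _)).trans (ha₁ _))) B hB hBA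
    have q1' := (abs_le.1 (key i (hij.trans hj))).2
    have q2 := (abs_le.1 (key j hj)).1
    have q3 := mul_le_mul_of_nonneg_right (hdrop i j hij hj).2 hJ0
    have he'' : e' J ≤ ek k J := by rw [hek]; exact he'
    obtain ⟨φ, hφ⟩ := dg_fn (J := J) w he'' F
    have h4 := ch_two hcl.nonneg (u := dg w (ek k) J F) (u' := dg w e' J F) (z := z i) (z' := z j)
      (y := y J F) hφ (a := (ψ k (u i) + ε / 8) * J) (b := (ψ k (u j) - ε / 8) * J)
      (d := ε / 4 * J) (by linarith) (by linarith) (c2 i j hij hj)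
    rw [hek] at h4
    refine h4.trans (add_le_add le_rfl ?_)
    linarith


end Pool.STR16
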