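import Pool.Agent.H16.STR.Rec
import Pool.Agent.H16.STR.Nls
import Pool.Agent.H16.STR.Lit
import Pool.Agent.H44.V0P.P5

/-!
# The assembly of the star, far half: law level

`fd`: digits of two numbers. `fd_ch`, `fd_le`: change of the number of digits. `num_tr`: no loss of
bits, from the labels of one window to the labels of another window. `jets_eq`: the jets of the
places below `k` do not depend on the window. `ojet_exp`: the own jets are bounded.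
-/

set_option autoImplicit false

namespace Pool.STR16

open Finset Real MvPolynomial
open Pool.Agent.H49.Ent Pool.Agent.H32.Dense
open Pool.STK hiding pr2
open Pool.KA Pool.KSAT Pool.K2S Pool.PB Pool.S6C
open Pool.GEN Pool.CHT Pool.CHX Pool.ISO Pool.LA91 Pool.AVG71 Pool.AVG5 Pool.D2F2 Pool.AVG57
open Pool.RCD Pool.AVG96 Pool.OWN68 Pool.V0F Pool.V0Q Pool.V0T
open Pool.PB.Trl (rt rt_mem)
open Pool.STR91 (dg pr FwN)
open Pool.T4C72 (BoxT)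
open Pool.AJW (CfB)

section law

variable {Ω γ : Type} [Fintype Ω] {p : Ω → ℝ}

theorem CH_two (hp : ∀ ω, 0 ≤ p ω) (f : Ω → Fin 2 → ℤ) (c : Ω → γ) :
    CH p f c ≤ CH p (fun ω => f ω 0) c + CH p (fun ω => f ω 1) c := by
  have h := Pool.H54.QF.CH_pi_le hp c 2 f
  rwa [Fin.sum_univ_two] at h

/-- The digits of two numbers. -/
noncomputable def fd (P : Fin 2 → ℝ) (X : Ω → Fin 2 → ℝ) (ω : Ω) (i : Fin 2) : ℤ :=
  ⌊(2 : ℝ) ^ P i * X ω i⌋

theorem log5_le : Real.log 5 ≤ 2 := by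
  have h1 : (5 : ℝ) ≤ Real.exp 2 := by
    have h2 := Real.exp_one_gt_d9
    have h3 : Real.exp 2 = Real.exp 1 * Real.exp 1 := by
      rw [← Real.exp_add]
      norm_num
    rw [h3]
    nlinarith
  calc Real.log 5 ≤ Real.log (Real.exp 2) := Real.log_le_log (by norm_num) h1
    _ = 2 := Real.log_exp 2

theorem log2_le : Real.log 2 ≤ 1 := by
  have := Real.log_two_lt_d9
  linarith

theorem fl_ch (hp : IsLaw p) (X : Ω → ℝ) (c : Ω → γ) {a b d : ℝ} (hd : 0 ≤ d) (h : b ≤ a + d) :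
    CH p (fun ω => ⌊(2 : ℝ) ^ b * X ω⌋) (fun ω => (⌊(2 : ℝ) ^ a * X ω⌋, c ω)) ≤ d + 2 := by
  have h0 : CH p (fun ω => ⌊(2 : ℝ) ^ a * X ω⌋) (fun ω => (⌊(2 : ℝ) ^ a * X ω⌋, c ω)) = 0 :=
    CH_eq_zero hp.nonneg fun _ _ _ _ h => (Prod.ext_iff.1 h).1
  rcases le_total b a with hb | hb
  · have h1 := Pool.TW44.ch_fewer hp X (fun ω => (⌊(2 : ℝ) ^ a * X ω⌋, c ω)) hb
    have h2 := log5_le
    linarith
  · have h1 := Pool.TW44.ch_more hp X (fun ω => (⌊(2 : ℝ) ^ a * X ω⌋, c ω)) hb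
    have h2 := log5_le
    have h3 : (b - a) * Real.log 2 ≤ (b - a) * 1 :=
      mul_le_mul_of_nonneg_left log2_le (by linarith)
    linarith

/-- **Other numbers of digits.** -/
theorem fd_ch (hp : IsLaw p) (X : Ω → Fin 2 → ℝ) (c : Ω → γ) {P Q : Fin 2 → ℝ} {d : ℝ}
    (hd : 0 ≤ d) (h : ∀ i, Q i ≤ P i + d) :
    CH p (fd Q X) (fun ω => (fd P X ω, c ω)) ≤ 2 * (d + 2) := by
  have key : ∀ i : Fin 2, CH p (fun ω => fd Q X ω i) (fun ω => (fd P X ω, c ω)) ≤ d + 2 := by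
    intro i
    refine (CH_mono_cond hp.nonneg (W := fun ω => (⌊(2 : ℝ) ^ P i * X ω i⌋, c ω))
      fun ω ω' _ _ e => ?_).trans (fl_ch hp (fun ω => X ω i) c hd (h i))
    have e1 := (Prod.ext_iff.1 e).1
    exact Prod.ext_iff.2 ⟨congrFun e1 i, (Prod.ext_iff.1 e).2⟩
  have h1 := CH_two hp.nonneg (fd Q X) (fun ω => (fd P X ω, c ω))
  linarith [key 0, key 1]

theorem fd_le (hp : IsLaw p) (X : Ω → Fin 2 → ℝ) (c : Ω → γ) {P Q : Fin 2 → ℝ} {d : ℝ}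
    (hd : 0 ≤ d) (h : ∀ i, Q i ≤ P i + d) :
    CH p (fd Q X) c ≤ CH p (fd P X) c + 2 * (d + 2) := by
  have h1 := CH_le_add hp.nonneg (fd Q X) (fd P X) c
  have h2 := fd_ch hp X c hd h
  linarith

/-- **No loss of bits over other labels.** -/
theorem num_tr {A B A' B' Γ Γ' : Type} (hp : ∀ ω, 0 ≤ p ω) {U : Ω → A} {V : Ω → B} {U' : Ω → A'}
    {V' : Ω → B'} {ca : Ω → Γ} {cx : Ω → Γ'} {e d : ℝ}
    (a1 : CH p U (fun ω => (U' ω, ca ω)) ≤ e) (a2 : CH p V' (fun ω => (V ω, ca ω)) ≤ e)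
    (b1 : CH p U' (fun ω => (U ω, cx ω)) ≤ e) (b2 : CH p V (fun ω => (V' ω, cx ω)) ≤ e)
    (h : CH p U' (fun ω => (V' ω, ca ω)) ≤ CH p U' (fun ω => (V' ω, cx ω)) + d) :
    CH p U (fun ω => (V ω, ca ω)) ≤ CH p U (fun ω => (V ω, cx ω)) + (d + 4 * e) := by
  have s1 := CH_le_add hp U U' (fun ω => (V ω, ca ω))
  have s2 : CH p U (fun ω => (U' ω, (V ω, ca ω))) ≤ CH p U (fun ω => (U' ω, ca ω)) :=
    CH_mono_cond hp fun ω ω' _ _ h => by
      simp only [Prod.mk.injEq] at h ⊢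
      exact ⟨h.1, h.2.2⟩
  have s3 := CH_le_add hp U' V' (fun ω => (V ω, ca ω))
  have s4 : CH p U' (fun ω => (V' ω, (V ω, ca ω))) ≤ CH p U' (fun ω => (V' ω, ca ω)) :=
    CH_mono_cond hp fun ω ω' _ _ h => by
      simp only [Prod.mk.injEq] at h ⊢
      exact ⟨h.1, h.2.2⟩
  have s5 := CH_le_add hp U' V (fun ω => (V' ω, cx ω))
  have s6 : CH p U' (fun ω => (V ω, (V' ω, cx ω))) ≤ CH p U' (fun ω => (V ω, cx ω)) :=
    CH_mono_cond hp fun ω ω' _ _ h => by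
      simp only [Prod.mk.injEq] at h ⊢
      exact ⟨h.1, h.2.2⟩
  have s7 := CH_le_add hp U' U (fun ω => (V ω, cx ω))
  have s8 : CH p U' (fun ω => (U ω, (V ω, cx ω))) ≤ CH p U' (fun ω => (U ω, cx ω)) :=
    CH_mono_cond hp fun ω ω' _ _ h => by
      simp only [Prod.mk.injEq] at h ⊢
      exact ⟨h.1, h.2.2⟩
  linarith

/-- **No loss of bits**, digits of other labels and other numbers of digits. `U`, `V`: the labels of
the window; `P₁`, `Q₁`: the numbers of digits of the transport, `P₀`, `Q₀`: of the numbers. -/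
theorem num_fd (hp : IsLaw p) {Γ Γ' : Type} {X X₀ : Ω → Fin 2 → ℝ} {P Q P₁ Q₁ P₀ Q₀ : Fin 2 → ℝ}
    {ca : Ω → Γ} {cx : Ω → Γ'} {e d : ℝ} (hP : ∀ i, P₀ i ≤ P₁ i ∧ P₁ i ≤ P₀ i + 1)
    (hQ : ∀ i, Q₀ i ≤ Q₁ i ∧ Q₁ i ≤ Q₀ i + 1)
    (a1 : CH p (fd P X) (fun ω => (fd P₁ X₀ ω, ca ω)) ≤ e)
    (a2 : CH p (fd Q₁ X₀) (fun ω => (fd Q X ω, ca ω)) ≤ e)
    (b1 : CH p (fd P₁ X₀) (fun ω => (fd P X ω, cx ω)) ≤ e)
    (b2 : CH p (fd Q X) (fun ω => (fd Q₁ X₀ ω, cx ω)) ≤ e)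
    (h : CH p (fd P₀ X₀) (fun ω => (fd Q₀ X₀ ω, ca ω)) ≤
      CH p (fd P₀ X₀) (fun ω => (fd Q₀ X₀ ω, cx ω)) + d) :
    CH p (fd P X) (fun ω => (fd Q X ω, ca ω)) ≤
      CH p (fd P X) (fun ω => (fd Q X ω, cx ω)) + (d + 4 * (e + 6)) := by
  have up : ∀ {α β Γ : Type} (U : Ω → α) (V : Ω → β) (ca : Ω → Γ) (R R' : Fin 2 → ℝ),
      (∀ i, R' i ≤ R i + 1) → CH p U (fun ω => (fd R' X₀ ω, ca ω)) ≤ e →
      CH p U (fun ω => (fd R X₀ ω, ca ω)) ≤ e + 6 := by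
    intro α β Γ U V ca R R' hR h1
    have h2 := CH_le_add hp.nonneg U (fd R' X₀) (fun ω => (fd R X₀ ω, ca ω))
    have h3 : CH p U (fun ω => (fd R' X₀ ω, (fd R X₀ ω, ca ω))) ≤
        CH p U (fun ω => (fd R' X₀ ω, ca ω)) :=
      CH_mono_cond hp.nonneg fun ω ω' _ _ h => by
        simp only [Prod.mk.injEq] at h ⊢
        exact ⟨h.1, h.2.2⟩
    have h4 := fd_ch hp X₀ ca (d := 1) zero_le_one hR
    linarith
  refine num_tr hp.nonneg (up _ (fun _ : Ω => ()) ca P₀ P₁ (fun i => (hP i).2) a1) ?_ ?_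
    (up _ (fun _ : Ω => ()) cx Q₀ Q₁ (fun i => (hQ i).2) b2) h
  · have h1 := fd_le hp X₀ (fun ω => (fd Q X ω, ca ω)) (P := Q₁) (Q := Q₀) (d := 0) le_rfl
      fun i => by linarith [(hQ i).1]
    linarith
  · have h1 := fd_le hp X₀ (fun ω => (fd P X ω, cx ω)) (P := P₁) (Q := P₀) (d := 0) le_rfl
      fun i => by linarith [(hP i).1]
    linarith

end law

variable {m : ℕ}

/-- The own jets of order `i` of the two targets. -/
noncomputable def oX {J : ℕ} {F : Fam m J} (c : ℕ → Fin m) (k a i : ℕ)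
    (H : LnT F → ℕ → MvPolynomial (Option (Fin m)) ℝ) (ω : F.Ω) (l : Fin 2) : ℝ :=
  ojet F (c (k + l)) i (H (slam F a ω) (k + l)) ω

theorem oJ_fd {J : ℕ} {F : Fam m J} (c : ℕ → Fin m) (k a i : ℕ)
    (H : LnT F → ℕ → MvPolynomial (Option (Fin m)) ℝ) (N : ℕ → ℝ) :
    oJ c k a i H N = fd (fun l => N l * J) (oX c k a i H) := rfl

/-- The digits of the plain functions. -/
theorem dg_fd {J : ℕ} {F : Fam m J} (c : ℕ → Fin m) (k : ℕ) (a : ℕ → ℕ) (i : ℕ)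
    (H : ∀ (J : ℕ) (F : Fam m J), LnT F → ℕ → MvPolynomial (Option (Fin m)) ℝ) (o : Fin 2 → ℝ)
    (e : ℕ → ℕ) :
    dg (fun J F ω l => (2 : ℝ) ^ (o l * J) * oX c k (a J) i (H J F) ω l) e J F =
      fd (fun l => e J + o l * J) (oX c k (a J) i (H J F)) := by
  funext ω l
  show ⌊(2 : ℝ) ^ e J * ((2 : ℝ) ^ (o l * J) * oX c k (a J) i (H J F) ω l)⌋ =
    ⌊(2 : ℝ) ^ ((e J : ℝ) + o l * J) * oX c k (a J) i (H J F) ω l⌋
  rw [Real.rpow_add (by norm_num), Real.rpow_natCast, mul_assoc]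

/-- **The jets of the places below `k`** do not depend on the window of the labels. -/
theorem jets_eq {J : ℕ} {F : Fam m J} (c : ℕ → Fin m) (k : ℕ) {w w' b : ℕ}
    {H H' Hb : LnT F → ℕ → MvPolynomial (Option (Fin m)) ℝ}
    (h : ∀ ω, ∀ l < k, H (slam F w ω) l = Hb (slam F b ω) l)
    (h' : ∀ ω, ∀ l < k, H' (slam F w' ω) l = Hb (slam F b ω) l) (N : ℕ → ℕ → ℝ) :
    jet2 F c w H 0 k N = jet2 F c w' H' 0 k N := by
  funext ω l j'
  unfold jet2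
  by_cases h1 : 0 ≤ l ∧ l < k ∧ j' ≤ 1
  · rw [if_pos h1, if_pos h1, h ω l h1.2.1, h' ω l h1.2.1]
  · rw [if_neg h1, if_neg h1]

/-- **The own jets are bounded.** -/
theorem ojet_exp (m K j : ℕ) {N w E : ℝ} (hw1 : w ≤ 1) : ∃ M J₁ : ℕ, ∀ J ≥ J₁,
    ∀ (F : Fam m J) (κ : Fin m) (A : F.Ω → Prop) (V : Type) (z' : LnT F → V)
      (G : V → MvPolynomial (Option (Fin m)) ℝ), (∀ v, (G v).totalDegree ≤ K) →
      CfB F ⌊w * J⌋₊ E κ A z' G → ∀ ω, A ω →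
      |(2 : ℝ) ^ (N * J) * ojet F κ j (G (z' (slam F ⌊w * J⌋₊ ω))) ω| ≤ Real.exp (M * J) := by
  have hl2 : 0 < Real.log 2 := Real.log_pos one_lt_two
  obtain ⟨C, hC⟩ : ∃ C : ℝ, C = (j.factorial : ℝ) * 2 ^ (K + 2) := ⟨_, rfl⟩
  have hC1 : 1 ≤ C := by
    rw [hC]
    refine one_le_mul_of_one_le_of_one_le ?_ (one_le_pow₀ (by norm_num))
    exact_mod_cast Nat.one_le_iff_ne_zero.2 (Nat.factorial_ne_zero j)
  obtain ⟨B, hB⟩ : ∃ B : ℝ, B = |N| + j + |E| := ⟨_, rfl⟩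
  have hB0 : 0 ≤ B := by
    rw [hB]
    positivity
  obtain ⟨M, hM⟩ : ∃ M : ℕ, M = ⌈B * Real.log 2 + 1⌉₊ := ⟨_, rfl⟩
  have hM1 : B * Real.log 2 + 1 ≤ M := by
    rw [hM]
    exact Nat.le_ceil _
  obtain ⟨J₁, hJ₁⟩ := exists_nat_ge (Real.log C)
  refine ⟨M, J₁, fun J hJ F κ A V z' G hdeg hcf ω hω => ?_⟩
  have hJ1 : (J₁ : ℝ) ≤ J := by exact_mod_cast hJ
  have hJ0 : (0 : ℝ) ≤ J := Nat.cast_nonneg J
  obtain ⟨W, hW⟩ : ∃ W, W = ⌊w * J⌋₊ := ⟨_, rfl⟩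
  rw [← hW] at hcf ⊢
  have hWJ : W ≤ J := by rw [hW]; exact floor_le hw1 J
  obtain ⟨P, hP⟩ : ∃ P, P = dv W (fun s (_ : Fin m) => G (z' s)) κ (slam F W ω) := ⟨_, rfl⟩
  have hPd : P.natDegree ≤ K + 1 := by
    rw [hP]
    exact natDegree_dv W (K := K) (G := fun s (_ : Fin m) => G (z' s))
      (fun s _ => hdeg (z' s)) _ _
  have hθ : |rt F W ω| ≤ 1 := by
    have h2 := rt_mem F W ω
    rw [abs_le]
    constructor <;> linarith [h2.1, h2.2]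
  have e1 : jt P (rt F W ω) j = ojet F κ j (G (z' (slam F W ω))) ω /
      ((j.factorial : ℝ) * (2 ^ W) ^ j) := by
    rw [hP]
    exact Pool.AVG57.ojet_tay F hWJ ω κ (fun s (_ : Fin m) => G (z' s)) j
  have h2 : |jt P (rt F W ω) j| ≤ 2 ^ (K + 2) * 2 ^ (E * J) :=
    jt_le hPd hθ (by positivity) fun i _ => by
      rw [hP]
      exact hcf ω hω i
  have hf : (0 : ℝ) < (j.factorial : ℝ) * (2 ^ W) ^ j := by positivity
  have h3 : |ojet F κ j (G (z' (slam F W ω))) ω| ≤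
      C * ((2 ^ W) ^ j * 2 ^ (E * J)) := by
    rw [e1, abs_div, abs_of_pos hf, div_le_iff₀ hf] at h2
    refine h2.trans (le_of_eq ?_)
    rw [hC]
    ring
  have h4 : (2 : ℝ) ^ (N * J) * ((2 ^ W) ^ j * 2 ^ (E * J)) ≤ 2 ^ (B * J) := by
    have e2 : (2 : ℝ) ^ (N * J) * ((2 ^ W) ^ j * 2 ^ (E * J)) =
        2 ^ (N * J + (W * j + E * J)) := by
      rw [Real.rpow_add (by norm_num), Real.rpow_add (by norm_num), ← Nat.cast_mul,
        Real.rpow_natCast, pow_mul]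
    rw [e2]
    refine Real.rpow_le_rpow_of_exponent_le (by norm_num) ?_
    have h5 : (W : ℝ) * j ≤ J * j :=
      mul_le_mul_of_nonneg_right (by exact_mod_cast hWJ) (Nat.cast_nonneg j)
    have h6 : N * J ≤ |N| * J := mul_le_mul_of_nonneg_right (le_abs_self N) hJ0
    have h7 : E * J ≤ |E| * J := mul_le_mul_of_nonneg_right (le_abs_self E) hJ0
    rw [hB]
    nlinarith
  rw [abs_mul, abs_of_pos (Real.rpow_pos_of_pos (by norm_num) _)]
  refine (mul_le_mul_of_nonneg_left h3 (by positivity)).trans ?_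
  have e3 : (2 : ℝ) ^ (N * J) * (C * ((2 ^ W) ^ j * 2 ^ (E * J))) =
      C * ((2 : ℝ) ^ (N * J) * ((2 ^ W) ^ j * 2 ^ (E * J))) := by ring
  rw [e3]
  refine (mul_le_mul_of_nonneg_left h4 (by linarith)).trans ?_
  have e4 : C = Real.exp (Real.log C) := (Real.exp_log (by linarith)).symm
  have e5 : (2 : ℝ) ^ (B * J) = Real.exp (Real.log 2 * (B * J)) := Real.rpow_def_of_pos (by norm_num) _
  rw [e5]
  calc C * Real.exp (Real.log 2 * (B * J)) = Real.exp (Real.log C + Real.log 2 * (B * J)) := by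
        rw [Real.exp_add, Real.exp_log (by linarith)]
    _ ≤ Real.exp (M * J) := by
        refine Real.exp_le_exp.2 ?_
        have h8 := mul_le_mul_of_nonneg_right hM1 hJ0
        linarith

end Pool.STR16
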