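import Pool.Agent.H16.STR.Gfl
import Pool.Agent.H16.STR.Gcn

/-!
# The assembly of the star, far half: the labels of the windows of a box

`FarL`: the labels at the windows `W i` of a box and the digits of the own jets of the targets over
them. `far_num`: the numbers of the digits over the labels of one window. `far_fw`, `far_bd`: the
plain functions of the numbers.
-/

set_option autoImplicit false

namespace Pool.STR16

open Finset Real MvPolynomial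
open Pool.Agent.H49.Ent Pool.Agent.H32.Dense
open Pool.STK hiding pr2
open Pool.KA Pool.KSAT Pool.K2S Pool.PB Pool.S6C
open Pool.GEN Pool.CHT Pool.CHX Pool.ISO Pool.LA91 Pool.AVG71 Pool.AVG5 Pool.D2F2 Pool.AVG57
open Pool.RCD Pool.AVG96 Pool.OWN68 Pool.V0F Pool.V0Q Pool.V0T
open Pool.STR91 (dg pr FwN pr_mono)
open Pool.T4C72 (BoxT)
open Pool.AJW (CfB)

variable {m : ℕ}

/-- **The labels at the windows** `W i`, `i ≤ ν`, `W 0 = t`, of a box: `ste`, `okt`: they are labels.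
`lo`: the natural digits of a later record are few. `hi`: the orders above the slope. `tr`: the digits
over the labels of another window. -/
structure FarL (S : PCl m) (c : ℕ → Fin m) (k D₁ : ℕ) (sn : ℕ → ℝ → ℝ) (s b t q φ ψ : ℝ) (ν : ℕ)
    (N : ℕ → ℕ → ℝ) (Ec R ρ₀ : ℕ → ℝ) (e₀ : ℕ → ℕ → ℝ) (W : ℕ → ℝ)
    (Hb : ∀ (J : ℕ) (F : Fam m J), LnT F → ℕ → MvPolynomial (Option (Fin m)) ℝ)
    (HT : ℕ → ∀ (J : ℕ) (F : Fam m J), LnT F → ℕ → MvPolynomial (Option (Fin m)) ℝ) : Prop where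
  ste : ∀ i ≤ ν, Bas S (fun J F A => StE F c k D₁ b (W i) φ (Ec i) (R i) sn A (Hb J F) (HT i J F))
  okt : ∀ i ≤ ν, Bas S (fun J F A => OkT F c k D₁ (W i) φ (e₀ i) (ρ₀ i) sn A (HT i J F))
  lo : ∀ i ≤ ν, ∀ x : ℝ, W i ≤ x → x ≤ t + q → ∀ j : ℕ, (j : ℝ) ≤ s → ∀ X : ℝ,
    X ≤ (s - j) * (x - W i) → Bas S (fun J F A => CH (Pool.Agent.H49.Ent.cond F.p A True)
      (oI c k sn (W i) j X (HT i J F)) (cI c k N t x A (HT 0 J F)) ≤ ψ * J)
  hi : ∀ i ≤ ν, ∀ j ≤ D₁ + 1, s < (j : ℝ) → ∀ X ≤ (s + 1) * q,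
    Bas S (fun J F A => CH (Pool.Agent.H49.Ent.cond F.p A True)
      (oI c k sn (W i) j X (HT i J F)) (cI c k N t (W i) A (HT 0 J F)) ≤ ψ * J)
  tr : ∀ i ≤ ν, ∀ i' ≤ ν, ∀ x : ℝ, W i ≤ x → W i' ≤ x → x ≤ t + q → ∀ j : ℕ, (j : ℝ) ≤ s →
    ∀ X X' : ℝ, X' + (s - j) * (W i' - W i) ≤ X → X ≤ (s + 1) * q →
    Bas S (fun J F A => CH (Pool.Agent.H49.Ent.cond F.p A True)
      (oI c k sn (W i') j X' (HT i' J F))
      (fun ω => (oI c k sn (W i) j X (HT i J F) ω, cI c k N t x A (HT 0 J F) ω)) ≤ ψ * J)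

/-- The conditions do not depend on the labels. -/
theorem cI_eq {J : ℕ} {F : Fam m J} {c : ℕ → Fin m} {k D₁ : ℕ} {b a a' φ Ec Ec' R R' : ℝ}
    {sn : ℕ → ℝ → ℝ} {A : F.Ω → Prop} {Hb H H' : LnT F → ℕ → MvPolynomial (Option (Fin m)) ℝ}
    (h : StE F c k D₁ b a φ Ec R sn A Hb H) (h' : StE F c k D₁ b a' φ Ec' R' sn A Hb H')
    (N : ℕ → ℕ → ℝ) (x : ℝ) : cI c k N a x A H = cI c k N a' x A H' := by
  funext ω
  show (jet2 F c ⌊a * J⌋₊ H 0 k N ω, (cR F A x ω, F.W ω)) =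
    (jet2 F c ⌊a' * J⌋₊ H' 0 k N ω, (cR F A x ω, F.W ω))
  rw [jets_eq c k h.ldp.hb h'.ldp.hb N]

/-- Two orders of the same conditions. -/
theorem num_conv {Ω α β Z Z' Y W : Type} [Fintype Ω] {p : Ω → ℝ} (hp : ∀ ω, 0 ≤ p ω) {U : Ω → α}
    {V : Ω → β} {za : Ω → Z} {zx : Ω → Z'} {y : Ω → Y} {w : Ω → W} {d : ℝ}
    (h : CH p U (fun ω => (V ω, (za ω, (y ω, w ω)))) ≤
      CH p U (fun ω => (V ω, ((zx ω, za ω), (y ω, w ω)))) + d) :
    CH p U (fun ω => (V ω, (y ω, (za ω, w ω)))) ≤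
      CH p U (fun ω => (V ω, (y ω, (zx ω, w ω)))) + d := by
  have h1 : CH p U (fun ω => (V ω, (y ω, (za ω, w ω)))) ≤
      CH p U (fun ω => (V ω, (za ω, (y ω, w ω)))) :=
    CH_mono_cond hp fun ω ω' _ _ e => by
      simp only [Prod.mk.injEq] at e ⊢
      exact ⟨e.1, e.2.2.1, e.2.1, e.2.2.2⟩
  have h2 : CH p U (fun ω => (V ω, ((zx ω, za ω), (y ω, w ω)))) ≤
      CH p U (fun ω => (V ω, (y ω, (zx ω, w ω)))) :=
    CH_mono_cond hp fun ω ω' _ _ e => by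
      simp only [Prod.mk.injEq] at e ⊢
      exact ⟨e.1, e.2.2.1, e.2.1.1, e.2.2.2⟩
  linarith

/-- **The numbers of the digits over the labels of the window `a`** from those of the plain
functions. -/
theorem far_num {J : ℕ} {F : Fam m J} {A : F.Ω → Prop} (hA : 0 < Pe F.p A) {c : ℕ → Fin m}
    {k j : ℕ} {sn : ℕ → ℝ → ℝ} {N : ℕ → ℕ → ℝ} {s t a x X X' ψ d : ℝ} {e e' : ℕ → ℕ}
    {Ha : LnT F → ℕ → MvPolynomial (Option (Fin m)) ℝ}
    {Ht : ∀ (J : ℕ) (F : Fam m J), LnT F → ℕ → MvPolynomial (Option (Fin m)) ℝ}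
    (he : (e J : ℝ) ≤ ((s - j) * a + X) * J ∧ ((s - j) * a + X) * J ≤ e J + 1)
    (he' : (e' J : ℝ) ≤ ((s - j) * a + X') * J ∧ ((s - j) * a + X') * J ≤ e' J + 1)
    (a1 : CH (Pool.Agent.H49.Ent.cond F.p A True) (oI c k sn a j X' Ha)
      (fun ω => (oI c k sn t j (X' + (s - j) * (a - t)) (Ht J F) ω,
        cI c k N t a A (Ht J F) ω)) ≤ ψ * J)
    (a2 : CH (Pool.Agent.H49.Ent.cond F.p A True) (oI c k sn t j (X + (s - j) * (a - t)) (Ht J F))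
      (fun ω => (oI c k sn a j X Ha ω, cI c k N t a A (Ht J F) ω)) ≤ ψ * J)
    (b1 : CH (Pool.Agent.H49.Ent.cond F.p A True) (oI c k sn t j (X' + (s - j) * (a - t)) (Ht J F))
      (fun ω => (oI c k sn a j X' Ha ω, cI c k N t x A (Ht J F) ω)) ≤ ψ * J)
    (b2 : CH (Pool.Agent.H49.Ent.cond F.p A True) (oI c k sn a j X Ha)
      (fun ω => (oI c k sn t j (X + (s - j) * (a - t)) (Ht J F) ω,
        cI c k N t x A (Ht J F) ω)) ≤ ψ * J)
    (h : CH (Pool.Agent.H49.Ent.cond F.p A True)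
        (dg (fun J F ω l => (2 : ℝ) ^ ((sn (k + (l : Fin 2)) t - s * t) * J) *
          oX c k ⌊t * J⌋₊ j (Ht J F) ω l) e' J F)
        (fun ω => (dg (fun J F ω l => (2 : ℝ) ^ ((sn (k + (l : Fin 2)) t - s * t) * J) *
          oX c k ⌊t * J⌋₊ j (Ht J F) ω l) e J F ω, (cR F A a ω,
            (jet2 F c ⌊t * J⌋₊ (Ht J F) 0 k N ω, F.W ω)))) ≤
      CH (Pool.Agent.H49.Ent.cond F.p A True)
        (dg (fun J F ω l => (2 : ℝ) ^ ((sn (k + (l : Fin 2)) t - s * t) * J) *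
          oX c k ⌊t * J⌋₊ j (Ht J F) ω l) e' J F)
        (fun ω => (dg (fun J F ω l => (2 : ℝ) ^ ((sn (k + (l : Fin 2)) t - s * t) * J) *
          oX c k ⌊t * J⌋₊ j (Ht J F) ω l) e J F ω, ((cR F A x ω, cR F A a ω),
            (jet2 F c ⌊t * J⌋₊ (Ht J F) 0 k N ω, F.W ω)))) + d * J) :
    CH (Pool.Agent.H49.Ent.cond F.p A True) (oI c k sn a j X' Ha)
        (fun ω => (oI c k sn a j X Ha ω, cI c k N t a A (Ht J F) ω)) ≤
      CH (Pool.Agent.H49.Ent.cond F.p A True) (oI c k sn a j X' Ha)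
        (fun ω => (oI c k sn a j X Ha ω, cI c k N t x A (Ht J F) ω)) +
      (d * J + 4 * (ψ * J + 6)) := by
  have hcl := isLaw_cond F.isLaw hA
  have h1 := num_conv hcl.nonneg h
  rw [dg_fd c k (fun J => ⌊t * J⌋₊) j Ht (fun l => sn (k + l) t - s * t) e,
    dg_fd c k (fun J => ⌊t * J⌋₊) j Ht (fun l => sn (k + l) t - s * t) e'] at h1
  refine num_fd hcl (P := fun l => (sn (k + l) a + X' - j * a) * J)
    (Q := fun l => (sn (k + l) a + X - j * a) * J)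
    (P₁ := fun l => (sn (k + l) t + (X' + (s - j) * (a - t)) - j * t) * J)
    (Q₁ := fun l => (sn (k + l) t + (X + (s - j) * (a - t)) - j * t) * J)
    (P₀ := fun l : Fin 2 => (e' J : ℝ) + (sn (k + l) t - s * t) * J)
    (Q₀ := fun l : Fin 2 => (e J : ℝ) + (sn (k + l) t - s * t) * J)
    (fun l => ?_) (fun l => ?_) a1 a2 b1 b2 h1
  · have e1 : (sn (k + l) t + (X' + (s - j) * (a - t)) - j * t) * J =
        (sn (k + l) t - s * t) * J + ((s - j) * a + X') * J := by ring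
    show _ ≤ (sn (k + l) t + (X' + (s - j) * (a - t)) - j * t) * J ∧
      (sn (k + l) t + (X' + (s - j) * (a - t)) - j * t) * J ≤ _
    rw [e1]
    constructor <;> linarith [he'.1, he'.2]
  · have e1 : (sn (k + l) t + (X + (s - j) * (a - t)) - j * t) * J =
        (sn (k + l) t - s * t) * J + ((s - j) * a + X) * J := by ring
    show _ ≤ (sn (k + l) t + (X + (s - j) * (a - t)) - j * t) * J ∧
      (sn (k + l) t + (X + (s - j) * (a - t)) - j * t) * J ≤ _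
    rw [e1]
    constructor <;> linarith [he.1, he.2]

/-- **The plain functions are few bits.** -/
theorem far_fw {S : PCl m} {c : ℕ → Fin m} {k j : ℕ} {sn : ℕ → ℝ → ℝ} {N : ℕ → ℕ → ℝ}
    {s t x X ψ δ : ℝ} {e : ℕ → ℕ}
    {Ht : ∀ (J : ℕ) (F : Fam m J), LnT F → ℕ → MvPolynomial (Option (Fin m)) ℝ}
    (hpos : ∀ (τ : ℝ) (J : ℕ) (F : Fam m J) (A : F.Ω → Prop), S.St τ J F A → 0 < Pe F.p A)
    (he : ∀ J : ℕ, (e J : ℝ) ≤ ((s - j) * t + X) * J ∨ (e J = 0 ∧ 0 ≤ (s - j) * t + X))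
    (hψ : ψ ≤ δ)
    (h : Bas S (fun J F A => CH (Pool.Agent.H49.Ent.cond F.p A True)
      (oI c k sn t j X (Ht J F)) (cI c k N t x A (Ht J F)) ≤ ψ * J)) :
    FwN S (fun J F => ptr F J) (vg x) (fun J F ω => (jet2 F c ⌊t * J⌋₊ (Ht J F) 0 k N ω, F.W ω))
      (dg (fun J F ω l => (2 : ℝ) ^ ((sn (k + (l : Fin 2)) t - s * t) * J) *
          oX c k ⌊t * J⌋₊ j (Ht J F) ω l) e) δ := by
  intro η hη
  obtain ⟨J₁, hJ₁⟩ := exists_nat_ge (4 / η)
  rw [div_le_iff₀ hη] at hJ₁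
  refine Bas.mono J₁ (h.and (pos_bas hpos)) ?_
  rintro J hJ F A ⟨h1, hA⟩
  have hJ0 : (0 : ℝ) ≤ J := Nat.cast_nonneg J
  have hJη : 4 ≤ η * J := by
    have h2 : (J₁ : ℝ) ≤ J := by exact_mod_cast hJ
    have h3 := mul_le_mul_of_nonneg_right h2 hη.le
    linarith
  have hcl := isLaw_cond F.isLaw hA
  refine ⟨_, cR F A x, (mx_cR hA x le_rfl).1, ?_⟩
  rw [dg_fd c k (fun J => ⌊t * J⌋₊) j Ht (fun l => sn (k + l) t - s * t) e]
  have h2 := fd_le hcl (oX c k ⌊t * J⌋₊ j (Ht J F))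
    (fun ω => (cR F A x ω, (jet2 F c ⌊t * J⌋₊ (Ht J F) 0 k N ω, F.W ω)))
    (P := fun l => (sn (k + l) t + X - j * t) * J)
    (Q := fun l : Fin 2 => (e J : ℝ) + (sn (k + l) t - s * t) * J) (d := 0) le_rfl (fun l => by
      show (e J : ℝ) + (sn (k + l) t - s * t) * J ≤ (sn (k + l) t + X - j * t) * J + 0
      have e1 : (sn (k + l) t + X - j * t) * J =
        (sn (k + l) t - s * t) * J + ((s - j) * t + X) * J := by ring
      rw [e1]
      rcases he J with h3 | ⟨h3, h4⟩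
      · linarith
      · rw [h3]
        have h5 := mul_nonneg h4 hJ0
        push_cast
        linarith)
  have h3 : CH (Pool.Agent.H49.Ent.cond F.p A True)
      (fd (fun l => (sn (k + l) t + X - j * t) * J) (oX c k ⌊t * J⌋₊ j (Ht J F)))
      (fun ω => (cR F A x ω, (jet2 F c ⌊t * J⌋₊ (Ht J F) 0 k N ω, F.W ω))) ≤
      CH (Pool.Agent.H49.Ent.cond F.p A True)
      (fd (fun l => (sn (k + l) t + X - j * t) * J) (oX c k ⌊t * J⌋₊ j (Ht J F)))
      (cI c k N t x A (Ht J F)) :=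
    CH_mono_cond hcl.nonneg fun ω ω' _ _ e => by
      simp only [Prod.mk.injEq] at e ⊢
      exact ⟨e.2.1, e.1, e.2.2⟩
  have h4 : CH (Pool.Agent.H49.Ent.cond F.p A True)
      (fd (fun l => (sn (k + l) t + X - j * t) * J) (oX c k ⌊t * J⌋₊ j (Ht J F)))
      (cI c k N t x A (Ht J F)) ≤ ψ * J := h1
  have h5 := mul_le_mul_of_nonneg_right hψ hJ0
  have h6 : (δ + η) * (J : ℝ) = δ * J + η * J := by ring
  rw [h6]
  linarith

/-- **The plain functions are bounded.** -/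
theorem far_bd {S : PCl m} {c : ℕ → Fin m} {k j D₁ : ℕ} {sn : ℕ → ℝ → ℝ} {b s t φ Ec R : ℝ}
    (ht : t ≤ 1) {Hb Ht : ∀ (J : ℕ) (F : Fam m J), LnT F → ℕ → MvPolynomial (Option (Fin m)) ℝ}
    (h : Bas S (fun J F A => StE F c k D₁ b t φ Ec R sn A (Hb J F) (Ht J F))) :
    ∃ M : ℝ, 0 ≤ M ∧ ∀ M' : ℝ, M ≤ M' → Bas S (fun J F A => ∀ ω, A ω → 0 < F.p ω → ∀ l : Fin 2,
      |(2 : ℝ) ^ ((sn (k + l) t - s * t) * J) * oX c k ⌊t * J⌋₊ j (Ht J F) ω l| ≤
        Real.exp (M' * J)) := by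
  have h1 := fun l : Fin 2 => ojet_exp m D₁ j (N := sn (k + l) t - s * t) (E := Ec) ht
  choose M J₁ hM using h1
  refine ⟨max (M 0 : ℝ) (M 1), le_max_of_le_left (Nat.cast_nonneg _), fun M' hM' => ?_⟩
  refine Bas.mono (max (J₁ 0) (J₁ 1)) h ?_
  intro J hJ F A hE ω hω _ l
  have hMl : (M l : ℝ) ≤ M' := by
    fin_cases l
    · exact (le_max_left _ _).trans hM'
    · exact (le_max_right _ _).trans hM'
  have hJl : J₁ l ≤ J := by
    fin_cases l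
    · exact (le_max_left _ _).trans hJ
    · exact (le_max_right _ _).trans hJ
  have hl2 : (l : ℕ) < 2 := l.2
  obtain ⟨V, z, z', G, hL, hG⟩ := hE.ldp.lt (k + l) (by omega) (by omega)
  have h2 := hM l J hJl F (c (k + l)) A V z' G hL.deg
    (cfb_of (hE.ldp.cw (k + l) (by omega) (by omega)) hG) ω hω
  refine le_trans (le_of_eq ?_) (h2.trans (Real.exp_le_exp.2
    (mul_le_mul_of_nonneg_right hMl (Nat.cast_nonneg J))))
  unfold oX
  rw [hG]

end Pool.STR16
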