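import Pool.Agent.H16.STR.Def

/-!
# Images of the star: literals

`OkT`: labels of the two targets with natural velocities and bounded derivatives. `ImN`: the heights
of `N - K u` with a closed coefficient `K` are full over the exact positions of the places below `k`.
`ImU`: the heights of `u` are full.
-/

set_option autoImplicit false

namespace Pool.STR16

open Finset Real MvPolynomial
open Pool.Agent.H49.Ent Pool.Agent.H32.Dense
open Pool.STK hiding pr2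
open Pool.KA Pool.KSAT Pool.K2S Pool.PB Pool.S6C
open Pool.GEN Pool.CHT Pool.CHX Pool.ISO Pool.LA91 Pool.AVG71 Pool.AVG5 Pool.D2F2 Pool.AVG57
open Pool.RCD Pool.AVG96 Pool.OWN68 Pool.V0F Pool.V0Q Pool.V0T
open Pool.UNJ (ceI)

variable {m : ℕ}

/-- **The labels of the targets** `k`, `k + 1`, closed at the window `a`; `e₀ l`: the bound of the
derivatives of the label of the place `l`. -/
def OkT {J : ℕ} (F : Fam m J) (c : ℕ → Fin m) (k D : ℕ) (a φ : ℝ) (e₀ : ℕ → ℝ) (ρ₀ : ℝ)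
    (sn : ℕ → ℝ → ℝ) (A : F.Ω → Prop) (H : LnT F → ℕ → MvPolynomial (Option (Fin m)) ℝ) : Prop :=
  ∀ l, k ≤ l → l ≤ k + 1 → ∃ (V : Type) (z : PtT F → V) (z' : LnT F → V)
    (G : V → MvPolynomial (Option (Fin m)) ℝ),
    LbOK F ((range l).image c) (c l) D ⌊e₀ l * J⌋₊ J ⌊a * J⌋₊ ⌊ρ₀ * J⌋₊ ⌊(sn l a - φ) * J⌋₊ A z z'
      G ∧
      ∀ s, G (z' s) = H s l

/-- The image of the heights with the coefficient `K`. -/
noncomputable def hK {J : ℕ} {F : Fam m J} (c : ℕ → Fin m) (k a : ℕ)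
    (H : LnT F → ℕ → MvPolynomial (Option (Fin m)) ℝ) {V : Type} (z' : LnT F → V) (K : V → ℝ)
    (ω : F.Ω) : ℝ := hT c k a H ω 1 - K (z' (slam F a ω)) * hT c k a H ω 0

/-- **The images are full** between the level of the window `v` and `P`: for every closed
coefficient `K` of the natural size, up to `2 ^ (room J)`. -/
def ImN (S : PCl m) (c : ℕ → Fin m) (k D : ℕ) (a φ : ℝ) (e₀ : ℕ → ℝ) (ρ₀ : ℝ) (sn : ℕ → ℝ → ℝ)
    (ϖ room v P κ : ℝ) : Prop :=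
  Bas S (fun J F A => ∀ H : LnT F → ℕ → MvPolynomial (Option (Fin m)) ℝ,
    OkT F c k D a φ e₀ ρ₀ sn A H → ∀ B : F.Ω → Prop, Sub B A → ϖ * Pe F.p A ≤ Pe F.p B →
    ∀ (V : Type) (z : PtT F → V) (z' : LnT F → V),
    (∀ ω, B ω → z (ptr F J ω) = z' (slam F ⌊a * J⌋₊ ω)) → ∀ K : V → ℝ,
    (∀ ω, B ω → |K (z' (slam F ⌊a * J⌋₊ ω))| ≤
      (2 : ℝ) ^ ((room + sn k a - sn (k + 1) a) * J)) →
    ∀ (Δ : Type) (Y : F.Ω → Δ) (β : ℝ),
    CH (Pool.Agent.H49.Ent.cond F.p B True) Y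
      (fun ω => (⌊(2 : ℝ) ^ (sn (k + 1) v * J) * hK c k ⌊a * J⌋₊ H z' K ω⌋,
        (((H (slam F ⌊a * J⌋₊ ω) k, H (slam F ⌊a * J⌋₊ ω) (k + 1)), z' (slam F ⌊a * J⌋₊ ω)),
          (cR F B v ω, (ceI ((range k).image c) (fun _ => J) (F.x ω), F.W ω))))) ≤ β →
    ((P - sn (k + 1) v) * Real.log 2 - κ) * J - β ≤
      CH (Pool.Agent.H49.Ent.cond F.p B True)
        (fun ω => ⌊(2 : ℝ) ^ (P * J) * hK c k ⌊a * J⌋₊ H z' K ω⌋) Y)

/-- **The heights of `u` are full** between the level of the window `v` and `P`. -/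
def ImU (S : PCl m) (c : ℕ → Fin m) (k D : ℕ) (a φ : ℝ) (e₀ : ℕ → ℝ) (ρ₀ : ℝ) (sn : ℕ → ℝ → ℝ)
    (ϖ v P κ : ℝ) : Prop :=
  Bas S (fun J F A => ∀ H : LnT F → ℕ → MvPolynomial (Option (Fin m)) ℝ,
    OkT F c k D a φ e₀ ρ₀ sn A H → ∀ B : F.Ω → Prop, Sub B A → ϖ * Pe F.p A ≤ Pe F.p B →
    ∀ (Δ : Type) (Y : F.Ω → Δ) (β : ℝ),
    CH (Pool.Agent.H49.Ent.cond F.p B True) Y
      (fun ω => (⌊(2 : ℝ) ^ (sn k v * J) * hT c k ⌊a * J⌋₊ H ω 0⌋,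
        (H (slam F ⌊a * J⌋₊ ω) k,
          (cR F B v ω, (ceI ((range k).image c) (fun _ => J) (F.x ω), F.W ω))))) ≤ β →
    ((P - sn k v) * Real.log 2 - κ) * J - β ≤
      CH (Pool.Agent.H49.Ent.cond F.p B True)
        (fun ω => ⌊(2 : ℝ) ^ (P * J) * hT c k ⌊a * J⌋₊ H ω 0⌋) Y)

end Pool.STR16
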