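import Mathlib

/-!
# The recursion of the orders

`far_rec`: `e i j D r`: the own-point digits of order `j` over the labels of the window `i`, up to `D`
behind the natural ones, given the record of the window `r`. One step of the star for the order `j`
has the length `G j`; orders downwards.
-/

set_option autoImplicit false

namespace Pool.STR16

/-- **The recursion of the orders.** -/
theorem far_rec {s σ ε τ : ℝ} {n₀ d P₀ : ℕ} {e : ℕ → ℕ → ℝ → ℕ → ℝ} {G mm : ℕ → ℕ}
    {X' δ κ : ℕ → ℝ} {Xm : ℝ} (hσ : 0 < σ) (hn : (n₀ : ℝ) ≤ s) (hn' : s < n₀ + 1) (Ds : Set ℝ)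
    (hlow : ∀ D ∈ Ds, ∀ i r j : ℕ, i ≤ r → r ≤ P₀ → j ≤ n₀ → D ≤ (s - j) * (r - i) * σ →
      e i j D r ≤ ε)
    (hhigh : ∀ D ∈ Ds, ∀ i j : ℕ, i ≤ P₀ → s < (j : ℝ) → j ≤ d → D ≤ Xm → e i j D i ≤ ε)
    (hrec : ∀ D ∈ Ds, ∀ i j r r' : ℕ, i ≤ r → r ≤ r' → r' ≤ P₀ → j ≤ d → e i j D r' ≤ e i j D r)
    (htr : ∀ D ∈ Ds, ∀ D' ∈ Ds, ∀ i i' j r : ℕ, i ≤ r → i' ≤ r → r ≤ P₀ → j ≤ n₀ →
      D' + (s - j) * (i' - i) * σ ≤ D → D ≤ Xm → e i' j D' r ≤ e i j D r + ε)
    (hD1 : ∀ j, 1 ≤ j → j ≤ n₀ → X' j ∈ Ds) (hD2 : ∀ j, 1 ≤ j → j ≤ n₀ → (G j - s) * σ ∈ Ds)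
    (hD3 : ∀ j, 1 ≤ j → j ≤ n₀ → (s - j) * G j * σ ∈ Ds)
    (hstar : ∀ j, 1 ≤ j → j ≤ n₀ → ∀ p, G j ≤ p → p ≤ P₀ →
      (∀ i' ≤ d, i' ≠ j → e (p - G j) i' (X' j) p ≤ κ j * σ) →
      (∀ i' ≤ d, j < i' → e (p - G j) i' (X' j) (p - G j) ≤ κ j * σ) →
      e (p - G j) j ((s - j) * G j * σ) p ≤ κ j * σ →
      e (p - G j) j (X' j) p ≤ δ j * G j * σ)
    (hX1 : ∀ j, 1 ≤ j → j ≤ n₀ → X' j ≤ (s - j + 1) * G j * σ)
    (hX2 : ∀ j, 1 ≤ j → j ≤ n₀ → ((s - j) * G j + (G j - s)) * σ ≤ X' j)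
    (hG : ∀ j i, 1 ≤ j → j < i → i ≤ n₀ → (s + 1) * G j + s ≤ G i)
    (hm : ∀ j, 1 ≤ j → j ≤ n₀ → G j ≤ mm j) (hm' : ∀ j i, 1 ≤ j → j < i → i ≤ n₀ →
      mm i + G j ≤ mm j) (hXm : ∀ j, 1 ≤ j → j ≤ n₀ → (s + 1) * G j * σ ≤ Xm)
    (hε : 0 ≤ ε) (hκ : ∀ j, 1 ≤ j → j ≤ n₀ → 2 * ε ≤ κ j * σ)
    (hδ : ∀ j i, 1 ≤ j → j < i → i ≤ n₀ → δ i * G i * σ + 2 * ε ≤ κ j * σ)
    (hτ : ∀ j, 1 ≤ j → j ≤ n₀ → δ j * G j * σ + ε ≤ τ) :
    ∀ j, 1 ≤ j → j ≤ n₀ → ∀ p, mm j ≤ p → p ≤ P₀ → e p j ((G j - s) * σ) p ≤ τ := by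
  have hs0 : 0 ≤ s := (Nat.cast_nonneg n₀).trans hn
  -- the claim with its own bound
  have key : ∀ t j, n₀ + 1 - j ≤ t → 1 ≤ j → j ≤ n₀ → ∀ p, mm j ≤ p → p ≤ P₀ →
      e p j ((G j - s) * σ) p ≤ δ j * G j * σ + ε := by
    intro t
    induction t with
    | zero =>
      intro j h1 h2 h3
      omega
    | succ t ih =>
      intro j h1 h2 h3 p hp hpP
      have hGp : G j ≤ p := (hm j h2 h3).trans hp
      obtain ⟨i, hi⟩ : ∃ i, i = p - G j := ⟨_, rfl⟩
      have hip : i + G j = p := by omega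
      have hipr : (p : ℝ) - i = G j := by
        rw [← hip]
        push_cast
        ring
      have hG0 : (0 : ℝ) ≤ G j := Nat.cast_nonneg _
      have hjs : (j : ℝ) ≤ s := (by exact_mod_cast h3 : (j : ℝ) ≤ n₀).trans hn
      have hj0 : (0 : ℝ) ≤ j := Nat.cast_nonneg _
      have hGσ : 0 ≤ G j * σ := mul_nonneg hG0 hσ.le
      have hX1' := hX1 j h2 h3
      have hXs : X' j ≤ (s + 1) * G j * σ := by
        refine hX1'.trans ?_
        have : (s - j + 1) * (G j * σ) ≤ (s + 1) * (G j * σ) :=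
          mul_le_mul_of_nonneg_right (by linarith) hGσ
        linarith
      have hXX := hXs.trans (hXm j h2 h3)
      -- the claims above
      have up : ∀ i' p', j < i' → i' ≤ n₀ → mm i' ≤ p' → p' ≤ P₀ →
          e p' i' ((G i' - s) * σ) p' + ε ≤ κ j * σ := by
        intro i' p' g1 g2 g3 g4
        have := ih i' (by omega) (by omega) g2 p' g3 g4
        have := hδ j i' h2 g1 g2
        linarith
      have hup : ∀ i', j < i' → i' ≤ n₀ → (s + 1) * (G j * σ) ≤ (G i' - s) * σ := by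
        intro i' g1 g2
        have h4 := hG j i' h2 g1 g2
        have h5 := mul_le_mul_of_nonneg_right (show (s + 1) * G j ≤ G i' - s by linarith) hσ.le
        linarith
      have hXm' : ∀ i', j < i' → i' ≤ n₀ → (G i' - s) * σ ≤ Xm := by
        intro i' g1 g2
        refine le_trans ?_ (hXm i' (by omega) g2)
        have h4 : (0 : ℝ) ≤ G i' := Nat.cast_nonneg _
        have h5 : (G i' - s) * σ ≤ (s + 1) * G i' * σ := by
          refine mul_le_mul_of_nonneg_right ?_ hσ.le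
          have : 0 ≤ s * G i' := mul_nonneg hs0 h4
          linarith
        exact h5
      have h6 := hstar j h2 h3 p hGp hpP ?_ ?_ ?_
      · rw [← hi] at h6
        have h7 := htr _ (hD1 j h2 h3) _ (hD2 j h2 h3) i p j p (by omega) le_rfl hpP h3 (by
          rw [hipr]
          have := hX2 j h2 h3
          linarith) hXX
        linarith
      · intro i' g1 g2
        rw [← hi]
        rcases lt_or_ge s (i' : ℝ) with g3 | g3
        · have h7 := hrec _ (hD1 j h2 h3) i i' i p le_rfl (by omega) hpP g1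
          have h8 := hhigh _ (hD1 j h2 h3) i i' (by omega) g3 g1 hXX
          linarith [hκ j h2 h3]
        · have g4 : i' ≤ n₀ := by
            by_contra h
            have : ((n₀ + 1 : ℕ) : ℝ) ≤ i' := by exact_mod_cast (by omega : n₀ + 1 ≤ i')
            push_cast at this
            linarith
          rcases Nat.lt_or_ge i' j with g5 | g5
          · have h7 := hlow _ (hD1 j h2 h3) i p i' (by omega) hpP g4 (by
              rw [hipr]
              refine hX1'.trans ?_
              refine mul_le_mul_of_nonneg_right (mul_le_mul_of_nonneg_right ?_ hG0) hσ.le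
              have : (i' : ℝ) + 1 ≤ j := by exact_mod_cast g5
              linarith)
            linarith [hκ j h2 h3]
          · have g6 : j < i' := lt_of_le_of_ne g5 (Ne.symm g2)
            have h7 := htr _ (hD2 i' (by omega) g4) _ (hD1 j h2 h3) p i i' p le_rfl (by omega) hpP g4 (by
              have h8 : (s - i') * ((i : ℝ) - p) * σ = -((s - i') * (G j * σ)) := by
                have : (i : ℝ) - p = -G j := by linarith
                rw [this]
                ring
              rw [h8]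
              have h9 := hup i' g6 g4
              have h10 : 0 ≤ (s - i') * (G j * σ) := mul_nonneg (by linarith) hGσ
              linarith) (hXm' i' g6 g4)
            have h8 := up i' p g6 g4 ((Nat.le_add_right _ _).trans
              ((hm' j i' h2 g6 g4).trans hp)) hpP
            linarith
      · intro i' g1 g2
        rw [← hi]
        rcases lt_or_ge s (i' : ℝ) with g3 | g3
        · have h8 := hhigh _ (hD1 j h2 h3) i i' (by omega) g3 g1 hXX
          linarith [hκ j h2 h3]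
        · have g4 : i' ≤ n₀ := by
            by_contra h
            have : ((n₀ + 1 : ℕ) : ℝ) ≤ i' := by exact_mod_cast (by omega : n₀ + 1 ≤ i')
            push_cast at this
            linarith
          have h7 := htr _ (hD2 i' (by omega) g4) _ (hD1 j h2 h3) i i i' i le_rfl le_rfl (by omega) g4 (by
            rw [sub_self, mul_zero, zero_mul, add_zero]
            have h9 := hup i' g2 g4
            linarith) (hXm' i' g2 g4)
          have h8 := up i' i g2 g4 (by
            have := hm' j i' h2 g2 g4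
            omega) (by omega)
          linarith
      · rw [← hi]
        have h7 := hlow _ (hD3 j h2 h3) i p j (by omega) hpP h3 (by rw [hipr])
        linarith [hκ j h2 h3]
  intro j h1 h2 p h3 h4
  exact (key (n₀ + 1 - j) j le_rfl h1 h2 p h3 h4).trans (hτ j h1 h2)

end Pool.STR16
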