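import Pool.Agent.H16.STR.Lit
import Pool.Agent.H91.V0T.Fut
import Pool.Agent.H4.T4.Frd
import Pool.Agent.H74.STAT.NNo

/-!
# The natural digits of the heights are few given the exact positions and the record

`LadT.wk`: a ladder with a larger error. `tp_few`: the digits of the heights of the two targets over
the labels of the window `a`, up to the natural ones of the window `v`, are few bits given the record
of `v`, the exact positions of the slope-one places, the time.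
-/

set_option autoImplicit false

namespace Pool.STR16

open Finset Real MvPolynomial
open Pool.Agent.H49.Ent Pool.Agent.H32.Dense
open Pool.STK hiding pr2
open Pool.KA Pool.KSAT Pool.K2S Pool.PB Pool.S6C
open Pool.GEN Pool.CHT Pool.CHX Pool.ISO Pool.LA91 Pool.AVG71 Pool.AVG5 Pool.D2F2 Pool.AVG57
open Pool.RCD Pool.AVG96 Pool.OWN68 Pool.V0F Pool.V0Q Pool.V0T
open Pool.UNJ (ceI)
open Pool.V0R (t_nupr)

variable {m : ℕ} {S : PCl m} {c : ℕ → Fin m} {k f : ℕ} {sn : ℕ → ℝ → ℝ} {G : Set ℝ}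
  {b o φ φ' : ℝ}

/-- **A ladder with a larger error.** -/
theorem ladT_wk (L : LadT S c k f sn G b o φ') (h : φ' ≤ φ) : LadT S c k f sn G b o φ where
  tm := L.tm
  pos := L.pos
  inj := L.inj
  ch := L.ch
  att := L.att
  bG := L.bG
  oG := L.oG
  b0 := L.b0
  bo := L.bo
  o1 := L.o1
  φ0 := L.φ0.trans_le h
  fm := by
    obtain ⟨φ₁, h1, h2, h3, h4⟩ := L.fm
    exact ⟨φ₁, h1, h2.trans h, h3, fun l a1 a2 v hv v' hv' a3 a4 a5 a6 =>
      (h4 l a1 a2 v hv v' hv' a3 a4 a5 a6).trans (by linarith)⟩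
  fl := fun i hi v hv h1 h2 => (L.fl i hi v hv h1 h2).trans h
  st := fun l h1 h2 v hv v' hv' h3 h4 h5 => (L.st l h1 h2 v hv v' hv' h3 h4 h5).trans (by linarith)
  eq := fun l h1 h2 v hv v' hv' h3 h4 h5 => (L.eq l h1 h2 v hv v' hv' h3 h4 h5).trans h
  et := fun v hv v' hv' h3 h4 h5 => (L.et v hv v' hv' h3 h4 h5).trans h

/-- The digits `n` of the slope-one places behind the natural ones of `a`. -/
theorem nst_of (L : LadT S c k f sn G b o φ) {a v Δ : ℝ} (ha : a ∈ G) (hv : v ∈ G) (hba : b ≤ a)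
    (hav : a ≤ v) (hvo : v ≤ o) (h1 : (v - a) + (26 * k + 60) * φ ≤ Δ)
    (h2 : Δ + (20 * k + 40) * φ ≤ 1 - a)
    (h3 : ∀ l < k, Δ + (20 * k + 40) * φ ≤ 1 - sn l a) {n : ℕ → ℝ}
    (hn : n = fun l => sn l a + Δ - ((l : ℝ) + 1) * (26 * φ)) :
    Nst k sn a φ n ∧ Tp k sn b φ n ∧ ∀ i < k, sn i v + 20 * φ ≤ n i ∧ n i ≤ 1 := by
  have hφ := L.φ0
  have Ld := L.toLadR.lad
  have hk0 : 0 ≤ (k : ℝ) * φ := by positivity
  have e1 : (26 * (k : ℝ) + 60) * φ = 26 * (k * φ) + 60 * φ := by ring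
  have e2 : (20 * (k : ℝ) + 40) * φ = 20 * (k * φ) + 40 * φ := by ring
  rw [e1] at h1
  rw [e2] at h2 h3
  have hi1 : ∀ i < k, ((i : ℝ) + 1) * (26 * φ) ≤ 26 * (k * φ) := fun i hi => by
    have : (i : ℝ) + 1 ≤ k := by exact_mod_cast hi
    have := mul_le_mul_of_nonneg_right this (show 0 ≤ 26 * φ by positivity)
    linarith
  have hi0 : ∀ i : ℕ, 26 * φ ≤ ((i : ℝ) + 1) * (26 * φ) := fun i => by
    have : (0 : ℝ) ≤ i * (26 * φ) := by positivity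
    linarith
  have hni : ∀ i, n i = sn i a + Δ - ((i : ℝ) + 1) * (26 * φ) := fun i => by rw [hn]
  have hbv := hba.trans hav
  have hao := hav.trans hvo
  have fv : ∀ i < k, |(sn i v - v) - (sn i a - a)| ≤ 2 * φ := fun i hi =>
    Ld.flat hi hv ha hbv hvo hba hao
  have fb : ∀ i < k, |(sn i a - a) - (sn i b - b)| ≤ 2 * φ := fun i hi =>
    Ld.flat hi ha L.bG hba hao le_rfl L.bo
  have e20 : 20 * ((k : ℝ) + 1) * φ = 20 * (k * φ) + 20 * φ := by ring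
  refine ⟨⟨fun i hi => ?_, fun i hi => ?_, fun i hi l hl => ?_⟩, ⟨fun i hi => ?_,
    fun i hi l hl => ?_⟩, fun i hi => ⟨?_, ?_⟩⟩
  · rw [hni]
    linarith [hi1 i hi]
  · rw [hni]
    linarith [hi0 i]
  · rw [hni, hni]
    have e1 : ((l : ℝ) + 1) * (26 * φ) + 26 * φ ≤ ((i : ℝ) + 1) * (26 * φ) := by
      have : (l : ℝ) + 1 ≤ i := by exact_mod_cast hl
      have := mul_le_mul_of_nonneg_right this (show 0 ≤ 26 * φ by positivity)
      linarith
    linarith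
  · rw [hni, e20]
    have := abs_le.1 (fb i hi)
    linarith [hi0 i, this.2]
  · rw [hni, e20]
    have a1 := abs_le.1 (fb i hi)
    have a2 := abs_le.1 (fb l (by omega))
    linarith [hi0 i, a1.2, a2.1, h3 l (by omega)]
  · rw [hni]
    have := abs_le.1 (fv i hi)
    linarith [hi1 i hi, this.2]
  · rw [hni]
    linarith [hi0 i, h3 i hi]

/-- **The natural digits of the heights** given the exact positions and the record. -/
theorem tp_few (L : LadT S c k 1 sn G b o φ) {a v Δ N : ℝ} {i : ℕ} (hi : i ≤ 1) (ha : a ∈ G)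
    (hv : v ∈ G) (hba : b ≤ a) (hav : a ≤ v) (hvo : v ≤ o)
    (h1 : (v - a) + (26 * k + 60) * φ ≤ Δ) (h2 : Δ + (20 * k + 40) * φ ≤ 1 - a)
    (h3 : ∀ l < k, Δ + (20 * k + 40) * φ ≤ 1 - sn l a) (hN : N + 41 * φ ≤ sn (k + i) v)
    (hN' : N + (26 * k + 40) * φ ≤ sn (k + i) a + Δ) (D : ℕ) (Ec : ℝ) {ε ϖ : ℝ} (hε : 0 < ε)
    (hϖ : 0 < ϖ) :
    Bas S (fun J F A => ∀ Hb H : LnT F → ℕ → MvPolynomial (Option (Fin m)) ℝ,
      LDP F c k 1 D b a φ Ec sn A Hb H → ∀ B : F.Ω → Prop, Sub B A → ϖ * Pe F.p A ≤ Pe F.p B →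
      CH (Pool.Agent.H49.Ent.cond F.p B True) (th0 F c (k + i) ⌊a * J⌋₊ H N)
        (fun ω => (cR F B v ω, ((fun l : Fin k => F.X J ω (c l)), F.W ω))) ≤ ε * J) := by
  have hφ := L.φ0
  have hk0 : 0 ≤ (k : ℝ) * φ := by positivity
  obtain ⟨n, hn⟩ : ∃ n : ℕ → ℝ, n = fun l => sn l a + Δ - ((l : ℝ) + 1) * (26 * φ) := ⟨_, rfl⟩
  obtain ⟨nst, tp, hnv⟩ := nst_of L ha hv hba hav hvo h1 h2 h3 hn
  have hbv := hba.trans hav
  have hv1 : v < 1 := hvo.trans_lt L.o1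
  have ha1 : a < 1 := hav.trans_lt hv1
  have hb1 : b < 1 := hba.trans_lt ha1
  have hf : ∀ (J : ℕ) (F : Fam m J), ∃ χ : PtT F → PtT F, ∀ ω, ptr F J ω = χ (ptr F J ω) :=
    fun J F => ⟨fun x => x, fun _ => rfl⟩
  have hi1 : ∀ i < k, ((i : ℝ) + 1) * (26 * φ) ≤ 26 * (k * φ) := fun i hi => by
    have : (i : ℝ) + 1 ≤ k := by exact_mod_cast hi
    have := mul_le_mul_of_nonneg_right this (show 0 ≤ 26 * φ by positivity)
    linarith
  have e1 : (26 * (k : ℝ) + 60) * φ = 26 * (k * φ) + 60 * φ := by ring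
  have e2 : (20 * (k : ℝ) + 40) * φ = 20 * (k * φ) + 40 * φ := by ring
  have e3 : (26 * (k : ℝ) + 40) * φ = 26 * (k * φ) + 40 * φ := by ring
  have e4 : 20 * ((i : ℝ) + 1) * φ ≤ 40 * φ := by
    have : (i : ℝ) ≤ 1 := by exact_mod_cast hi
    have := mul_le_mul_of_nonneg_right this hφ.le
    linarith
  rw [e1] at h1
  rw [e2] at h2 h3
  rw [e3] at hN'
  have hrr := (L.tk hi).toLadR
  have c1 := t_nupr hrr (f := fun J F => ptr F J) (y := fun _ F => F.W) hf kn_W (w := a) (j := v)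
    (oj := v) (pr := sn (k + i) a - φ) (N := N) (p := fun l => sn l b - φ) (n := n) ha hv hba hav
    hvo le_rfl hv1.le (fun i _ => le_rfl) le_rfl nst (fun l hl => (hnv l hl).1)
    (fun v' hv' g1 g2 => by
      have a := (abs_le.1 (L.eqa (Nat.le_add_right k i) (by omega) v' hv' v hv (hba.trans g1) g2
        hvo)).2
      linarith) (by
      linarith) (fun l hl => by
      rw [hn]
      show N + 20 * ((i : ℝ) + 1) * φ ≤
        sn (k + i) a + (sn l a + Δ - ((l : ℝ) + 1) * (26 * φ) - sn l a)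
      linarith [hi1 l hl])
  obtain ⟨ea, hea, Ha⟩ := c1.mx L.pos (ε / 2) (half_pos hε)
  obtain ⟨κb, hκb, eb, heb, Hb'⟩ := fux L.toLadR.lad hv hbv hvo (p := fun l => sn l b - φ) (n := n)
    (fun i _ => le_rfl) (fun i hi => ⟨by linarith [(hnv i hi).1], (hnv i hi).2⟩) tp (ε / 2)
    (half_pos hε)
  obtain ⟨Ma, Ja, hMa⟩ := ld_jh m D k n (b := b) (E := Ec) L.b0 hb1.le
  obtain ⟨Mb, Jb, hMb⟩ := ldp_th m D k 1 (k + i) N (w := a) (E := Ec) (Nat.le_add_right k i)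
    (by omega) (L.b0.trans hba) ha1.le
  obtain ⟨M, hM⟩ : ∃ M : ℕ, M = Ma + Mb := ⟨_, rfl⟩
  refine Bas.mono (Ja + Jb) (Pool.STAT.NL.Bas.frac (((Ha M).and (Hb' M)).and (pos_bas L.pos))
    hϖ) ?_
  rintro J hJ F A H Hb H' LDh B hBA hBP
  obtain ⟨⟨H1, H2⟩, hB0⟩ := H B hBA hBP
  have p1 := (qJets m c 0 k 0 _ _ _).sub hBA (hMa M (by omega) J (by omega) LDh.toLD ea hea.le)
  have p1' := (qJets m c 0 k 0 _ _ _).sub hBA (hMa M (by omega) J (by omega) LDh.toLD eb heb.le)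
  have p2 := (qJet m _ _ _ _ _ _).sub hBA (hMb M (by omega) J (by omega) LDh ea hea.le)
  have q1 := H1 _ (cR F B v) (mx_cR hB0 v (by linarith)) _ _ p1 p2
  have q2 := (H2 _ (cR F B v) (mx_cR hB0 v hκb.le) _ p1').2.2 _ (cR F B b) (mx_cR hB0 b hκb.le)
  have h0 := (isLaw_cond F.isLaw hB0).nonneg
  obtain ⟨q', hq'⟩ : ∃ q' : F.Ω → ℝ, q' = Pool.Agent.H49.Ent.cond F.p B True := ⟨_, rfl⟩
  rw [← hq'] at q1 q2 h0 ⊢
  obtain ⟨X, hX⟩ : ∃ X : F.Ω → Fin k → ℤ, X = fun ω (l : Fin k) => F.X J ω (c l) := ⟨_, rfl⟩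
  have q3 := CH_le_add h0 (th0 F c (k + i) ⌊a * J⌋₊ H' N) (jh F c k ⌊a * J⌋₊ H' n)
    (fun ω => (cR F B v ω, ((fun l : Fin k => F.X J ω (c l)), F.W ω)))
  have q4 : CH q' (jh F c k ⌊a * J⌋₊ H' n)
      (fun ω => (cR F B v ω, ((fun l : Fin k => F.X J ω (c l)), F.W ω))) ≤ ε / 2 * J := by
    refine le_trans (CH_mono_cond h0 fun ω ω' hω hω' e => ?_) q2
    simp only [Prod.mk.injEq] at e ⊢
    exact ⟨e.2.1, Pool.T4J.cR_mn hbv hv1.le e.1, e.2.2⟩
  have q5 : CH q' (th0 F c (k + i) ⌊a * J⌋₊ H' N) (fun ω => (jh F c k ⌊a * J⌋₊ H' n ω,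
      (cR F B v ω, ((fun l : Fin k => F.X J ω (c l)), F.W ω)))) ≤ ε / 2 * J := by
    refine le_trans (CH_mono_cond h0 fun ω ω' hω hω' e => ?_) q1
    simp only [Prod.mk.injEq] at e ⊢
    exact ⟨e.1, e.2.1, e.2.2.2⟩
  linarith

end Pool.STR16
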